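import Mathlib

/-!
# The alternating groups
-/

namespace H54.UPM

open Function

/-- Proper subgroups of the alternating group of degree `w ≥ 5` have index at least `w`. -/
theorem Alt_index {w : ℕ} (hw : 5 ≤ w) (K : Subgroup (alternatingGroup (Fin w))) (hK : K ≠ ⊤) :
    w ≤ Nat.card (alternatingGroup (Fin w) ⧸ K) := by
  classical
  by_contra hcon
  push Not at hcon
  have hsimple : IsSimpleGroup (alternatingGroup (Fin w)) :=
    alternatingGroup.isSimpleGroup (by simpa using hw)
  have hnt : Nontrivial (Fin w) := Fin.nontrivial_iff_two_le.2 (by omega)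
  have hcore : K.normalCore = ⊥ := by
    rcases hsimple.eq_bot_or_eq_top_of_normal K.normalCore inferInstance with h | h
    · exact h
    · exact absurd (top_le_iff.1 (h ▸ K.normalCore_le)) hK
  have hinj : Injective (MulAction.toPermHom (alternatingGroup (Fin w))
      (alternatingGroup (Fin w) ⧸ K)) := by
    rw [← MonoidHom.ker_eq_bot_iff, ← Subgroup.normalCore_eq_ker, hcore]
  have h1 := Nat.card_le_card_of_injective _ hinj
  rw [Nat.card_perm] at h1
  have h2 := two_mul_nat_card_alternatingGroup (α := Fin w)
  rw [Nat.card_perm, Nat.card_eq_fintype_card (α := Fin w), Fintype.card_fin] at h2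
  have h3 : (Nat.card (alternatingGroup (Fin w) ⧸ K)).factorial ≤ (w - 1).factorial :=
    Nat.factorial_le (by omega)
  have h4 : w.factorial = w * (w - 1).factorial := by
    obtain ⟨n, rfl⟩ : ∃ n, w = n + 1 := ⟨w - 1, by omega⟩
    rw [Nat.factorial_succ]
    rfl
  have h5 : 0 < (w - 1).factorial := Nat.factorial_pos _
  nlinarith

/-- The test of one value separates the elements of the alternating group. -/
theorem alt_separates {w : ℕ} (hw : 3 ≤ w) (s t : Fin w) (g g' : alternatingGroup (Fin w))
    (h : ∀ a b : alternatingGroup (Fin w),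
      ((a * g * b : alternatingGroup (Fin w)) : Equiv.Perm (Fin w)) t = s ↔
        ((a * g' * b : alternatingGroup (Fin w)) : Equiv.Perm (Fin w)) t = s) : g = g' := by
  have htr : MulAction.IsPretransitive (alternatingGroup (Fin w)) (Fin w) :=
    alternatingGroup.isPretransitive_of_three_le_card (Fin w) (by simpa using hw)
  apply Subtype.ext
  apply Equiv.ext
  intro i
  obtain ⟨b, hb⟩ := htr.exists_smul_eq t i
  obtain ⟨a, ha⟩ := htr.exists_smul_eq ((g : Equiv.Perm (Fin w)) i) s
  have hb' : (b : Equiv.Perm (Fin w)) t = i := hb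
  have ha' : (a : Equiv.Perm (Fin w)) ((g : Equiv.Perm (Fin w)) i) = s := ha
  have h1 := h a b
  simp only [Subgroup.coe_mul, Equiv.Perm.mul_apply, hb', ha', true_iff] at h1
  exact (a : Equiv.Perm (Fin w)).injective (ha'.trans h1.symm)

end H54.UPM
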