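import Pool.Agent.H54.UPM.Det

/-!
# The number of boundary vectors of gadgets with `p` ports
-/

namespace H54.UPM

open Function

/-! ### Schur complement -/

section

variable {A B : Type} [Fintype A] [Fintype B] [DecidableEq A] [DecidableEq B] {p k : ℕ}
  (Y : A ⊕ Fin p → B → Prop) (e0 : A ⊕ Fin k ≃ B)

/-- The Schur complement. -/
noncomputable def schur {K : Type} [Field K] (emb0 : Fin k → Fin p) (x : B → A ⊕ Fin p → K) :
    Matrix (Fin k) (Fin p) K :=
  fun i q => ((((Wm Y e0 x).submatrix id (col emb0))⁻¹ * Wm Y e0 x :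
    Matrix (A ⊕ Fin k) (A ⊕ Fin p) K)) (Sum.inr i) (Sum.inr q)

theorem fdet_schur {K : Type} [Field K] (emb0 emb : Fin k → Fin p) (x : B → A ⊕ Fin p → K)
    (h0 : fdet Y e0 emb0 x ≠ 0) :
    fdet Y e0 emb x = fdet Y e0 emb0 x *
      ((schur Y e0 emb0 x).submatrix id emb).det := by
  set D := (Wm Y e0 x).submatrix id (col emb0) with hD
  have hdet : IsUnit D.det := isUnit_iff_ne_zero.2 h0
  have h1 : D⁻¹ * (Wm Y e0 x).submatrix id (col emb) =
      Matrix.fromBlocks 1 (fun a j => (D⁻¹ * Wm Y e0 x) (Sum.inl a) (Sum.inr (emb j))) 0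
        ((schur Y e0 emb0 x).submatrix id emb) := by
    have h2 : D⁻¹ * (Wm Y e0 x).submatrix id (col emb) =
        (D⁻¹ * Wm Y e0 x).submatrix id (col emb) := by
      ext i j
      simp only [Matrix.mul_apply, Matrix.submatrix_apply, id]
    have h3 : D⁻¹ * D = (D⁻¹ * Wm Y e0 x).submatrix id (col emb0) := by
      ext i j
      simp only [Matrix.mul_apply, Matrix.submatrix_apply, id, hD]
    rw [Matrix.nonsing_inv_mul D hdet] at h3
    have h4 : ∀ i a, (D⁻¹ * Wm Y e0 x) i (Sum.inl a) = (1 : Matrix (A ⊕ Fin k) (A ⊕ Fin k) K) i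
        (Sum.inl a) := by
      intro i a
      rw [h3]
      rfl
    rw [h2]
    ext i j
    rcases i with a | i <;> rcases j with a' | j
    · rw [Matrix.fromBlocks_apply₁₁]
      show (D⁻¹ * Wm Y e0 x) (Sum.inl a) (Sum.inl a') = _
      rw [h4]
      by_cases h : a = a'
      · subst h; simp
      · rw [Matrix.one_apply_ne h, Matrix.one_apply_ne (by simpa using h)]
    · rfl
    · rw [Matrix.fromBlocks_apply₂₁]
      show (D⁻¹ * Wm Y e0 x) (Sum.inr i) (Sum.inl a') = _
      rw [h4]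
      rw [Matrix.one_apply_ne (by simp)]
      rfl
    · rfl
  have h5 := congrArg Matrix.det h1
  rw [Matrix.det_mul, Matrix.det_fromBlocks_zero₂₁, Matrix.det_one, one_mul] at h5
  rw [← h5, ← mul_assoc]
  have h6 : fdet Y e0 emb0 x * (D⁻¹).det = 1 := by
    show D.det * (D⁻¹).det = 1
    rw [← Matrix.det_mul, Matrix.mul_nonsing_inv D hdet, Matrix.det_one]
  rw [h6, one_mul]
  rfl

end

/-! ### The universal polynomials -/

section

variable (p : ℕ)

/-- The variables. -/
abbrev UV : Type := Option (Fin 4 × (Fin p × Fin p))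

variable {p}

/-- The universal minor. -/
noncomputable def UD (j : Fin 4) (T : Finset (Fin p)) : MvPolynomial (UV p) ℚ :=
  (Matrix.of fun (i i' : Fin T.card) => (MvPolynomial.X
    (some (j, (Fin.castLE (card_finset_fin_le T) i, T.orderEmbOfFin rfl i'))) :
      MvPolynomial (UV p) ℚ)).det

/-- The universal polynomials. -/
noncomputable def UP : Finset (Fin p) ⊕ Finset (Fin p) → MvPolynomial (UV p) ℚ
  | Sum.inl T => UD 0 T
  | Sum.inr T => MvPolynomial.X none * UD 0 T * UD 1 T * UD 2 T - UD 3 T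

open Classical in
theorem degreeOf_UD (s : UV p) (j : Fin 4) (T : Finset (Fin p)) :
    (UD j T).degreeOf s ≤ if (∃ t, s = some (j, t)) then 1 else 0 := by
  rw [UD, Matrix.det_apply']
  refine (MvPolynomial.degreeOf_sum_le _ _ _).trans ?_
  rw [Finset.sup_le_iff]
  intro π _
  refine (MvPolynomial.degreeOf_mul_le _ _ _).trans ?_
  have h1 : MvPolynomial.degreeOf s (((Equiv.Perm.sign π : ℤ) : MvPolynomial (UV p) ℚ)) = 0 := by
    have : (((Equiv.Perm.sign π : ℤ) : MvPolynomial (UV p) ℚ)) =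
        MvPolynomial.C (((Equiv.Perm.sign π : ℤ) : ℚ)) := by simp
    rw [this, MvPolynomial.degreeOf_C]
  rw [h1, zero_add]
  refine (MvPolynomial.degreeOf_prod_le _ _ _).trans ?_
  simp only [Matrix.of_apply, MvPolynomial.degreeOf_X]
  split_ifs with h
  · calc ∑ i, (if s = some (j, (Fin.castLE (card_finset_fin_le T) (π i),
          T.orderEmbOfFin rfl i)) then 1 else 0)
        = (Finset.univ.filter (fun i => s = some (j, (Fin.castLE (card_finset_fin_le T) (π i),
          T.orderEmbOfFin rfl i)))).card := by rw [Finset.card_filter]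
      _ ≤ 1 := by
        rw [Finset.card_le_one]
        intro a ha b hb
        simp only [Finset.mem_filter, Finset.mem_univ, true_and] at ha hb
        rw [ha] at hb
        simp only [Option.some.injEq, Prod.mk.injEq, true_and] at hb
        exact (T.orderEmbOfFin rfl).injective hb.2
  · rw [Finset.sum_eq_zero]
    intro i _
    rw [if_neg]
    intro h2
    exact h ⟨_, h2⟩

theorem degreeOf_UP (s : UV p) (i : Finset (Fin p) ⊕ Finset (Fin p)) :
    (UP i).degreeOf s ≤ 1 := by
  classical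
  have h := fun j T => degreeOf_UD s j T
  rcases i with T | T
  · refine (h 0 T).trans ?_
    split_ifs <;> omega
  · rw [UP]
    refine (MvPolynomial.degreeOf_sub_le _ _ _).trans ?_
    rw [max_le_iff]
    constructor
    · have h1 := MvPolynomial.degreeOf_mul_le s (MvPolynomial.X none * UD 0 T * UD 1 T) (UD 2 T)
      have h2 := MvPolynomial.degreeOf_mul_le s (MvPolynomial.X none * UD 0 T) (UD 1 T)
      have h3 := MvPolynomial.degreeOf_mul_le s (MvPolynomial.X none) (UD 0 T)
      rw [MvPolynomial.degreeOf_X] at h3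
      have h4 := h 0 T
      have h5 := h 1 T
      have h6 := h 2 T
      rcases s with _ | ⟨j, t⟩
      · simp at h3 h4 h5 h6
        omega
      · simp only [reduceCtorEq, if_false] at h3
        by_cases j0 : j = 0
        · subst j0
          simp at h4 h5 h6
          omega
        · by_cases j1 : j = 1
          · subst j1
            simp at h4 h5 h6
            omega
          · have a4 : (UD 0 T).degreeOf (some (j, t)) = 0 := by
              simpa [j0] using h4
            have a5 : (UD 1 T).degreeOf (some (j, t)) = 0 := by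
              simpa [j1] using h5
            have a6 : (UD 2 T).degreeOf (some (j, t)) ≤ 1 := h6.trans (by split_ifs <;> omega)
            omega
    · refine (h 3 T).trans ?_
      split_ifs <;> omega

theorem card_patterns : (Set.range (pat (UP (p := p)))).ncard ≤
    (2 ^ (p + 1) + 1) ^ (4 * p ^ 2 + 1) := by
  classical
  have h := zero_patterns (UP (p := p)) (2 ^ (p + 1)) (by
    intro s
    calc ∑ i, (UP i).degreeOf s ≤ ∑ _i : Finset (Fin p) ⊕ Finset (Fin p), 1 :=
          Finset.sum_le_sum (fun i _ => degreeOf_UP s i)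
      _ = 2 ^ (p + 1) := by
        rw [Finset.sum_const, Finset.card_univ, Fintype.card_sum, Fintype.card_finset,
          Fintype.card_fin, pow_succ]
        simp; ring)
  have h2 : Fintype.card (UV p) = 4 * p ^ 2 + 1 := by
    rw [Fintype.card_option, Fintype.card_prod, Fintype.card_prod, Fintype.card_fin,
      Fintype.card_fin]
    ring
  rw [h2] at h
  exact h

open Classical in
/-- Decoding. -/
noncomputable def dec (k : ℕ) (S : Set (Finset (Fin p) ⊕ Finset (Fin p))) (T : Finset (Fin p)) :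
    T3 :=
  if T.card = k then (if Sum.inl T ∈ S then (if Sum.inr T ∈ S then T3.m else 1) else 0) else 0

theorem eval_UD {k : ℕ} (T : Finset (Fin p)) (hT : T.card = k) (j : Fin 4) (hk : k ≤ p)
    (v : UV p → ℚ) :
    MvPolynomial.eval v (UD j T) =
      (Matrix.of fun (i i' : Fin k) => v (some (j, (Fin.castLE hk i, T.orderEmbOfFin hT i')))).det := by
  subst hT
  rw [UD, RingHom.map_det]
  congr 1
  ext i i'
  simp

end

/-- **Boundary vectors are determined by zero patterns.** -/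
theorem exists_pattern {P A B : Type} [Fintype P] [Fintype A] [Fintype B] {p : ℕ}
    (X : P ⊕ (A ⊕ Fin p) → B → Prop) :
    sig X Finset.univ = 0 ∨ ∃ k ≤ p, ∃ v : UV p → ℚ, sig X Finset.univ = dec k (pat UP v) := by
  classical
  by_cases h0 : ∃ T, sig X Finset.univ T ≠ 0
  swap
  · left
    push Not at h0
    funext T
    exact h0 T
  right
  obtain ⟨T0, hT0⟩ := h0
  have hbal : ∀ T, sig X Finset.univ T ≠ 0 → Fintype.card B = Fintype.card A + T.card := by
    intro T hT
    obtain ⟨h, H⟩ := (sig_ne_zero X _ _).1 hT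
    have := H.balance
    rw [Finset.card_univ] at this
    omega
  set k := T0.card with hk
  have hkp : k ≤ p := card_finset_fin_le T0
  have hBk : Fintype.card B = Fintype.card A + k := hbal T0 hT0
  obtain ⟨e0⟩ : Nonempty (A ⊕ Fin k ≃ B) := by
    rw [← Fintype.card_eq, Fintype.card_sum, Fintype.card_fin, hBk]
  let Y : A ⊕ Fin p → B → Prop := fun u b => X (Sum.inr u) b
  let τ := {T : Finset (Fin p) // T.card = k}
  let em : τ → Fin k → Fin p := fun T => T.1.orderEmbOfFin T.2
  have hem : ∀ T, Injective (em T) := fun T => (T.1.orderEmbOfFin T.2).injective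
  have hcard : ∀ T : τ, Nat.card {π // PP Y e0 (em T) π} = cnt X Finset.univ T.1 :=
    fun T => card_PP X e0 T.1 T.2
  let σ := Fin 3 × (B × (A ⊕ Fin p))
  let R := MvPolynomial σ ℚ
  let xs : Fin 3 → B → A ⊕ Fin p → R := fun j b u => MvPolynomial.X (j, (b, u))
  let F : Fin 3 → τ → R := fun j T => fdet Y e0 (em T) (xs j)
  let F3 : τ → R := fun T => fdet Y e0 (em T) (fun b u => xs 0 b u * xs 1 b u * xs 2 b u)
  let G : τ → R := fun T => F 0 T * F 1 T * F 2 T - F3 T
  have hevF : ∀ (v : σ → ℚ) j T, MvPolynomial.eval v (F j T) =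
      fdet Y e0 (em T) (fun b u => v (j, (b, u))) := by
    intro v j T
    show MvPolynomial.eval v (fdet Y e0 (em T) (xs j)) = _
    rw [map_fdet]
    simp [xs]
  have hevF3 : ∀ (v : σ → ℚ) T, MvPolynomial.eval v (F3 T) =
      fdet Y e0 (em T) (fun b u => v (0, (b, u)) * v (1, (b, u)) * v (2, (b, u))) := by
    intro v T
    show MvPolynomial.eval v (fdet Y e0 (em T) _) = _
    rw [map_fdet]
    simp [xs]
  have hsgn : ∀ π : Equiv.Perm (A ⊕ Fin k), ((Equiv.Perm.sign π : ℤ) : ℚ) ≠ 0 := by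
    intro π
    rcases Int.units_eq_one_or (Equiv.Perm.sign π) with h | h <;> rw [h] <;> norm_num
  -- the polynomials
  have hQ : ∀ T : τ, (∃ π, PP Y e0 (em T) π) → F 0 T * F 1 T * F 2 T * F3 T ≠ 0 := by
    rintro T ⟨π, hπ⟩ h
    have h1 := congrArg (MvPolynomial.eval (fun t : σ => ind (R := ℚ) e0 (em T) π t.2.1 t.2.2)) h
    rw [map_mul, map_mul, map_mul, map_zero, hevF, hevF, hevF, hevF3] at h1
    simp only at h1
    rw [fdet_ind Y e0 (hem T) hπ, fdet_ind3 Y e0 (hem T) hπ] at h1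
    exact (mul_ne_zero (mul_ne_zero (mul_ne_zero (hsgn π) (hsgn π)) (hsgn π)) (hsgn π)) h1
  have hG2 : ∀ T : τ, (∃ π π', PP Y e0 (em T) π ∧ PP Y e0 (em T) π' ∧ π ≠ π') → G T ≠ 0 := by
    rintro T ⟨π, π', hπ, hπ', hne⟩ h
    have h1 := congrArg (MvPolynomial.eval (fun t : σ =>
      if t.1 = 1 then ind (R := ℚ) e0 (em T) π' t.2.1 t.2.2
      else ind (R := ℚ) e0 (em T) π t.2.1 t.2.2)) h
    rw [map_sub, map_mul, map_mul, map_zero, hevF, hevF, hevF, hevF3] at h1
    have e0' : ((0 : Fin 3) = 1) = False := by decide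
    have e2' : ((2 : Fin 3) = 1) = False := by decide
    simp only [e0', e2', if_true, if_false] at h1
    rw [fdet_ind Y e0 (hem T) hπ, fdet_ind Y e0 (hem T) hπ', fdet_ind_ne Y e0 (hem T) hne,
      sub_zero] at h1
    exact (mul_ne_zero (mul_ne_zero (hsgn π) (hsgn π')) (hsgn π)) h1
  have hG1 : ∀ T : τ, (∃ π, PP Y e0 (em T) π ∧ ∀ π', PP Y e0 (em T) π' → π' = π) → G T = 0 := by
    rintro T ⟨π, hπ, hu⟩
    show F 0 T * F 1 T * F 2 T - F3 T = 0
    rw [sub_eq_zero]
    exact fdet_one_mul Y e0 hπ hu _ _ _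
  obtain ⟨v, hv⟩ := exists_generic (fun i : τ ⊕ τ => match i with
    | Sum.inl T => F 0 T * F 1 T * F 2 T * F3 T
    | Sum.inr T => G T)
  let x : Fin 3 → B → A ⊕ Fin p → ℚ := fun j b u => v (j, (b, u))
  let x3 : B → A ⊕ Fin p → ℚ := fun b u => x 0 b u * x 1 b u * x 2 b u
  have hgenF : ∀ T : τ, (∃ π, PP Y e0 (em T) π) →
      fdet Y e0 (em T) (x 0) ≠ 0 ∧ fdet Y e0 (em T) (x 1) ≠ 0 ∧ fdet Y e0 (em T) (x 2) ≠ 0 ∧
        fdet Y e0 (em T) x3 ≠ 0 := by
    intro T hT
    have h1 := hv (Sum.inl T) (hQ T hT)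
    simp only at h1
    rw [map_mul, map_mul, map_mul, hevF, hevF, hevF, hevF3] at h1
    have h2 := mul_ne_zero_iff.1 h1
    have h3 := mul_ne_zero_iff.1 h2.1
    have h4 := mul_ne_zero_iff.1 h3.1
    exact ⟨h4.1, h4.2, h3.2, h2.2⟩
  let T0' : τ := ⟨T0, rfl⟩
  have hT0e : ∃ π, PP Y e0 (em T0') π := by
    by_contra hcon
    have h1 := hcard T0'
    have h2 : cnt X Finset.univ T0 ≠ 0 := by
      intro h2
      apply hT0
      rw [sig, Matrix.of_apply, h2]
      simp
    have h3 : Nat.card {π // PP Y e0 (em T0') π} = 0 := by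
      rw [Nat.card_eq_zero]
      left
      rw [isEmpty_subtype]
      intro π hπ
      exact hcon ⟨π, hπ⟩
    exact h2 (h1.symm.trans h3)
  obtain ⟨c0, c1, c2, c3⟩ := hgenF T0' hT0e
  -- the universal point
  let Z : Fin 4 → Matrix (Fin k) (Fin p) ℚ := fun j =>
    if j = 0 then schur Y e0 (em T0') (x 0) else if j = 1 then schur Y e0 (em T0') (x 1)
    else if j = 2 then schur Y e0 (em T0') (x 2) else schur Y e0 (em T0') x3
  let w : UV p → ℚ := fun t => match t with
    | none => fdet Y e0 (em T0') (x 0) * fdet Y e0 (em T0') (x 1) * fdet Y e0 (em T0') (x 2) /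
        fdet Y e0 (em T0') x3
    | some (j, (i, q)) => if h : (i : ℕ) < k then Z j ⟨i, h⟩ q else 0
  have hevD : ∀ (T : τ) j, MvPolynomial.eval w (UD j T.1) = ((Z j).submatrix id (em T)).det := by
    intro T j
    rw [eval_UD T.1 T.2 j hkp]
    congr 1
    ext i i'
    simp only [Matrix.of_apply, w, Matrix.submatrix_apply, id, Fin.val_castLE]
    rw [dif_pos i.2]
  have hz0 : Z 0 = schur Y e0 (em T0') (x 0) := if_pos rfl
  have hz1 : Z 1 = schur Y e0 (em T0') (x 1) := by
    show (if (1 : Fin 4) = 0 then schur Y e0 (em T0') (x 0)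
      else if (1 : Fin 4) = 1 then schur Y e0 (em T0') (x 1)
      else if (1 : Fin 4) = 2 then schur Y e0 (em T0') (x 2) else schur Y e0 (em T0') x3) = _
    rw [if_neg (by decide), if_pos rfl]
  have hz2 : Z 2 = schur Y e0 (em T0') (x 2) := by
    show (if (2 : Fin 4) = 0 then schur Y e0 (em T0') (x 0)
      else if (2 : Fin 4) = 1 then schur Y e0 (em T0') (x 1)
      else if (2 : Fin 4) = 2 then schur Y e0 (em T0') (x 2) else schur Y e0 (em T0') x3) = _
    rw [if_neg (by decide), if_neg (by decide), if_pos rfl]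
  have hz3 : Z 3 = schur Y e0 (em T0') x3 := by
    show (if (3 : Fin 4) = 0 then schur Y e0 (em T0') (x 0)
      else if (3 : Fin 4) = 1 then schur Y e0 (em T0') (x 1)
      else if (3 : Fin 4) = 2 then schur Y e0 (em T0') (x 2) else schur Y e0 (em T0') x3) = _
    rw [if_neg (by decide), if_neg (by decide), if_neg (by decide)]
  have hs0 := fun T : τ => fdet_schur Y e0 (em T0') (em T) (x 0) c0
  have hs1 := fun T : τ => fdet_schur Y e0 (em T0') (em T) (x 1) c1
  have hs2 := fun T : τ => fdet_schur Y e0 (em T0') (em T) (x 2) c2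
  have hs3 := fun T : τ => fdet_schur Y e0 (em T0') (em T) x3 c3
  have hin0 : ∀ T : τ, Sum.inl T.1 ∈ pat UP w ↔ fdet Y e0 (em T) (x 0) ≠ 0 := by
    intro T
    show MvPolynomial.eval w (UD 0 T.1) ≠ 0 ↔ _
    rw [hevD, hz0, hs0]
    constructor
    · intro h; exact mul_ne_zero c0 h
    · intro h; exact (mul_ne_zero_iff.1 h).2
  have hin1 : ∀ T : τ, Sum.inr T.1 ∈ pat UP w ↔
      fdet Y e0 (em T) (x 0) * fdet Y e0 (em T) (x 1) * fdet Y e0 (em T) (x 2) -
        fdet Y e0 (em T) x3 ≠ 0 := by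
    intro T
    show MvPolynomial.eval w (MvPolynomial.X none * UD 0 T.1 * UD 1 T.1 * UD 2 T.1 - UD 3 T.1) ≠ 0
      ↔ _
    rw [map_sub, map_mul, map_mul, map_mul, hevD, hevD, hevD, hevD, hz0, hz1, hz2, hz3,
      MvPolynomial.eval_X, hs0, hs1, hs2, hs3]
    have hw : w none = fdet Y e0 (em T0') (x 0) * fdet Y e0 (em T0') (x 1) *
        fdet Y e0 (em T0') (x 2) / fdet Y e0 (em T0') x3 := rfl
    rw [hw]
    set a0 := fdet Y e0 (em T0') (x 0)
    set a1 := fdet Y e0 (em T0') (x 1)
    set a2 := fdet Y e0 (em T0') (x 2)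
    set a3 := fdet Y e0 (em T0') x3
    set d0 := ((schur Y e0 (em T0') (x 0)).submatrix id (em T)).det
    set d1 := ((schur Y e0 (em T0') (x 1)).submatrix id (em T)).det
    set d2 := ((schur Y e0 (em T0') (x 2)).submatrix id (em T)).det
    set d3 := ((schur Y e0 (em T0') x3).submatrix id (em T)).det
    have key : a0 * d0 * (a1 * d1) * (a2 * d2) - a3 * d3 =
        a3 * (a0 * a1 * a2 / a3 * d0 * d1 * d2 - d3) := by
      field_simp
    rw [key]
    constructor
    · intro h; exact mul_ne_zero c3 h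
    · intro h; exact (mul_ne_zero_iff.1 h).2
  refine ⟨k, hkp, w, ?_⟩
  funext T
  rw [dec]
  by_cases hTk : T.card = k
  swap
  · rw [if_neg hTk]
    by_contra h
    have := hbal T h
    omega
  rw [if_pos hTk]
  let T' : τ := ⟨T, hTk⟩
  have hsig : sig X Finset.univ T = ((Nat.card {π // PP Y e0 (em T') π} : ℕ) : T3) := by
    rw [hcard T']
    rfl
  rw [hsig]
  have hfinπ : Finite {π // PP Y e0 (em T') π} := inferInstance
  by_cases hex : ∃ π, PP Y e0 (em T') π
  swap
  · have h1 : Sum.inl T ∉ pat UP w := by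
      rw [show T = T'.1 from rfl, hin0, not_not]
      apply fdet_none
      intro π hπ
      exact hex ⟨π, hπ⟩
    rw [if_neg h1]
    have h3 : Nat.card {π // PP Y e0 (em T') π} = 0 := by
      rw [Nat.card_eq_zero]
      left
      rw [isEmpty_subtype]
      intro π hπ
      exact hex ⟨π, hπ⟩
    rw [h3]
    simp
  have h1 : Sum.inl T ∈ pat UP w := by
    rw [show T = T'.1 from rfl, hin0]
    exact (hgenF T' hex).1
  rw [if_pos h1]
  obtain ⟨π, hπ⟩ := hex
  by_cases hun : ∀ π', PP Y e0 (em T') π' → π' = π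
  · have h2 : Sum.inr T ∉ pat UP w := by
      rw [show T = T'.1 from rfl, hin1, not_not, sub_eq_zero]
      exact fdet_one_mul Y e0 hπ hun _ _ _
    rw [if_neg h2]
    have h3 : Nat.card {π // PP Y e0 (em T') π} = 1 := by
      rw [Nat.card_eq_one_iff_unique]
      refine ⟨⟨?_⟩, ⟨⟨π, hπ⟩⟩⟩
      rintro ⟨a, ha⟩ ⟨b, hb⟩
      apply Subtype.ext
      simp only
      rw [hun a ha, hun b hb]
    rw [h3]
    simp
  · push Not at hun
    obtain ⟨π', hπ', hne⟩ := hun
    have h2 : Sum.inr T ∈ pat UP w := by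
      rw [show T = T'.1 from rfl, hin1]
      have h3 := hv (Sum.inr T') (hG2 T' ⟨π', π, hπ', hπ, hne⟩)
      simp only at h3
      have h4 : MvPolynomial.eval v (G T') = fdet Y e0 (em T') (x 0) * fdet Y e0 (em T') (x 1) *
          fdet Y e0 (em T') (x 2) - fdet Y e0 (em T') x3 := by
        show MvPolynomial.eval v (F 0 T' * F 1 T' * F 2 T' - F3 T') = _
        rw [map_sub, map_mul, map_mul, hevF, hevF, hevF, hevF3]
      rw [← h4]
      exact h3
    rw [if_pos h2]
    obtain ⟨n, hn⟩ : ∃ n, Nat.card {π // PP Y e0 (em T') π} = n + 2 := by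
      have h3 : 1 < Nat.card {π // PP Y e0 (em T') π} := by
        rw [Finite.one_lt_card_iff_nontrivial]
        exact ⟨⟨⟨π', hπ'⟩, ⟨π, hπ⟩, fun h => hne (congrArg Subtype.val h)⟩⟩
      exact ⟨Nat.card {π // PP Y e0 (em T') π} - 2, by omega⟩
    rw [hn, T3.cast_two]

/-- **The number of boundary vectors.** -/
theorem card_boundary (p : ℕ) :
    {v : Finset (Fin p) → T3 | ∃ x : Matrix (Finset (Fin p)) (Finset (Fin p)) T3,
      IsGad x ∧ v = x Finset.univ}.ncard ≤ 2 ^ (4 * (p + 2) ^ 3) := by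
  classical
  have hsub : {v : Finset (Fin p) → T3 | ∃ x : Matrix (Finset (Fin p)) (Finset (Fin p)) T3,
      IsGad x ∧ v = x Finset.univ} ⊆
      {0} ∪ (fun t : Fin (p + 1) × Set (Finset (Fin p) ⊕ Finset (Fin p)) => dec (t.1 : ℕ) t.2) ''
        (Set.univ ×ˢ (Set.range (pat (UP (p := p))))) := by
    rintro v ⟨x, ⟨A, B, _, _, X, rfl⟩, rfl⟩
    rcases exists_pattern X with h | ⟨k, hk, w, h⟩
    · left; exact h
    · right
      exact ⟨(⟨k, by omega⟩, pat UP w), ⟨Set.mem_univ _, ⟨w, rfl⟩⟩, h.symm⟩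
  refine (Set.ncard_le_ncard hsub (Set.toFinite _)).trans ?_
  refine (Set.ncard_union_le _ _).trans ?_
  rw [Set.ncard_singleton]
  have h1 := Set.ncard_image_le (f := fun t : Fin (p + 1) ×
    Set (Finset (Fin p) ⊕ Finset (Fin p)) => dec (t.1 : ℕ) t.2)
    (s := (Set.univ : Set (Fin (p + 1))) ×ˢ (Set.range (pat (UP (p := p))))) (Set.toFinite _)
  rw [Set.ncard_prod, Set.ncard_univ, Nat.card_eq_fintype_card, Fintype.card_fin] at h1
  have h2 := card_patterns (p := p)
  have h3 : (2 ^ (p + 1) + 1) ^ (4 * p ^ 2 + 1) ≤ 2 ^ ((p + 2) * (4 * p ^ 2 + 1)) := by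
    rw [pow_mul]
    apply Nat.pow_le_pow_left
    have : 1 ≤ 2 ^ (p + 1) := Nat.one_le_two_pow
    rw [pow_succ 2 (p + 1)]
    omega
  have h4 : p + 1 ≤ 2 ^ p := Nat.lt_two_pow_self
  have h5 : (p + 1) * (Set.range (pat (UP (p := p)))).ncard ≤
      2 ^ p * 2 ^ ((p + 2) * (4 * p ^ 2 + 1)) := Nat.mul_le_mul h4 (h2.trans h3)
  rw [← pow_add] at h5
  have h6 : 1 + 2 ^ (p + (p + 2) * (4 * p ^ 2 + 1)) ≤ 2 ^ (p + (p + 2) * (4 * p ^ 2 + 1) + 1) := by
    generalize p + (p + 2) * (4 * p ^ 2 + 1) = n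
    have : 1 ≤ 2 ^ n := Nat.one_le_two_pow
    rw [pow_succ]
    omega
  have h7 : p + (p + 2) * (4 * p ^ 2 + 1) + 1 ≤ 4 * (p + 2) ^ 3 := by nlinarith [sq_nonneg p]
  exact (Nat.add_le_add_left (h1.trans h5) 1).trans
    (h6.trans (Nat.pow_le_pow_right (by norm_num) h7))

end H54.UPM
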