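import Pool.Agent.H54.UPM.Homog
import Pool.Agent.H54.UPM.SigCount

/-!
# Products of integer matrices
-/

namespace H54.UPM

open Function

/-- Pairs of positive integers coded by words (the last letter first). -/
def rab : List Bool → ℤ × ℤ
  | [] => (1, 1)
  | true :: w => ((rab w).1, (rab w).1 + (rab w).2)
  | false :: w => ((rab w).1 + (rab w).2, (rab w).2)

theorem rab_pos : ∀ w, 0 < (rab w).1 ∧ 0 < (rab w).2
  | [] => by simp [rab]
  | true :: w => by
    have := rab_pos w
    simp only [rab]
    constructor <;> linarith [this.1, this.2]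
  | false :: w => by
    have := rab_pos w
    simp only [rab]
    constructor <;> linarith [this.1, this.2]

/-- The cross determinant of the vectors of two different words of the same length is not zero. -/
theorem rab_cross : ∀ w w' : List Bool, w.length = w'.length → w ≠ w' →
    (rab w).1 * (rab w').2 - (rab w').1 * (rab w).2 ≠ 0 := by
  intro w
  induction w with
  | nil =>
    intro w' h hne
    have : w' = [] := List.length_eq_zero_iff.1 (by simpa using h.symm)
    exact absurd this.symm hne
  | cons a w ih =>
    intro w' h hne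
    rcases w' with _ | ⟨a', w'⟩
    · simp at h
    · have hp := rab_pos w
      have hp' := rab_pos w'
      have hl : w.length = w'.length := by simpa using h
      by_cases haa : a = a'
      · subst haa
        have hww : w ≠ w' := fun e => hne (by rw [e])
        have := ih w' hl hww
        rcases a with _ | _
        · simp only [rab]
          intro h0
          apply this
          linarith
        · simp only [rab]
          intro h0
          apply this
          linarith
      · rcases a with _ | _ <;> rcases a' with _ | _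
        · exact absurd rfl haa
        · simp only [rab]
          nlinarith [mul_pos hp.1 hp'.1, mul_pos hp.1 hp'.2, mul_pos hp.2 hp'.1,
            mul_pos hp.2 hp'.2]
        · simp only [rab]
          nlinarith [mul_pos hp.1 hp'.1, mul_pos hp.1 hp'.2, mul_pos hp.2 hp'.1,
            mul_pos hp.2 hp'.2]
        · exact absurd rfl haa

section

variable {w : ℕ} (s r t : Fin w)

/-- The letter of a bit. -/
def let1 (b : Bool) : Matrix (Fin w) (Fin w) ℤ :=
  if b then Matrix.transvection s r 1 else Matrix.transvection r s 1

/-- The inverse letter of a bit. -/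
def let2 (b : Bool) : Matrix (Fin w) (Fin w) ℤ :=
  if b then Matrix.transvection s r (-1) else Matrix.transvection r s (-1)

/-- Prefix product. -/
def PW : List Bool → Matrix (Fin w) (Fin w) ℤ
  | [] => Matrix.transvection s r 1
  | b :: v => PW v * let1 s r b

/-- Suffix product. -/
def QW : List Bool → Matrix (Fin w) (Fin w) ℤ
  | [] => Matrix.transvection s r (-1)
  | b :: v => let2 s r b * QW v

variable {s r}

theorem PW_val (hsr : s ≠ r) (v : List Bool) :
    PW s r v s s = (rab v).1 ∧ PW s r v s r = (rab v).2 := by
  induction v with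
  | nil =>
    simp [PW, rab, Matrix.transvection, Matrix.add_apply, hsr.symm, Matrix.single_apply, hsr]
  | cons b v ih =>
    rcases b with _ | _
    · simp only [PW, let1, rab, Bool.false_eq_true, if_false]
      rw [Matrix.mul_transvection_apply_same, Matrix.mul_transvection_apply_of_ne _ _ _ _ hsr.symm,
        ih.1, ih.2]
      constructor <;> ring
    · simp only [PW, let1, rab, if_true]
      rw [Matrix.mul_transvection_apply_same, Matrix.mul_transvection_apply_of_ne _ _ _ _ hsr,
        ih.1, ih.2]
      constructor <;> ring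

theorem QW_val (hsr : s ≠ r) (v : List Bool) :
    QW s r v s r = -(rab v).2 ∧ QW s r v r r = (rab v).1 ∧
      ∀ i, i ≠ s → i ≠ r → QW s r v i r = 0 := by
  induction v with
  | nil =>
    refine ⟨?_, ?_, ?_⟩
    · simp [QW, rab, Matrix.transvection, Matrix.add_apply, Matrix.single_apply, hsr]
    · simp [QW, rab, Matrix.transvection, Matrix.add_apply, Matrix.single_apply, hsr]
    · intro i h1 h2
      simp [QW, Matrix.transvection, Matrix.add_apply, Matrix.single_apply, h2, h1.symm]
  | cons b v ih =>
    obtain ⟨h1, h2, h3⟩ := ih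
    rcases b with _ | _
    · simp only [QW, let2, rab, Bool.false_eq_true, if_false]
      refine ⟨?_, ?_, ?_⟩
      · rw [Matrix.transvection_mul_apply_of_ne _ _ _ _ hsr, h1]
      · rw [Matrix.transvection_mul_apply_same, h1, h2]; ring
      · intro i hi1 hi2
        rw [Matrix.transvection_mul_apply_of_ne _ _ _ _ hi2, h3 i hi1 hi2]
    · simp only [QW, let2, rab, if_true]
      refine ⟨?_, ?_, ?_⟩
      · rw [Matrix.transvection_mul_apply_same, h1, h2]; ring
      · rw [Matrix.transvection_mul_apply_of_ne _ _ _ _ hsr.symm, h2]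
      · intro i hi1 hi2
        rw [Matrix.transvection_mul_apply_of_ne _ _ _ _ hi1, h3 i hi1 hi2]

theorem PQ_val (hsr : s ≠ r) (v v' : List Bool) :
    (PW s r v * QW s r v' * Matrix.single r t 1 : Matrix (Fin w) (Fin w) ℤ) s t =
      (rab v').1 * (rab v).2 - (rab v).1 * (rab v').2 := by
  rw [Matrix.mul_single_apply_same, mul_one, Matrix.mul_apply]
  rw [Finset.sum_eq_add s r hsr]
  · rw [(PW_val hsr v).1, (PW_val hsr v).2, (QW_val hsr v').1, (QW_val hsr v').2.1]
    ring
  · rintro i - ⟨h1, h2⟩
    rw [(QW_val hsr v').2.2 i h1 h2, mul_zero]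
  · intro h; exact absurd (Finset.mem_univ _) h
  · intro h; exact absurd (Finset.mem_univ _) h

variable (s r)

/-- The input. -/
def inpZ (v v' : List Bool) : List (Matrix (Fin w) (Fin w) ℤ) :=
  (Matrix.transvection s r 1 :: (v.reverse.map (let1 s r))) ++
    ((v'.map (let2 s r)) ++ [Matrix.transvection s r (-1), Matrix.single r t 1])

theorem PW_eq (v : List Bool) :
    (Matrix.transvection s r 1 :: (v.reverse.map (let1 s r))).prod = PW s r v := by
  induction v with
  | nil => simp [PW]
  | cons b v ih =>
    rw [List.reverse_cons, List.map_append, ← List.cons_append, List.prod_append, ih, PW]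
    simp

theorem QW_eq (v : List Bool) :
    ((v.map (let2 s r)) ++ [Matrix.transvection s r (-1), Matrix.single r t 1]).prod =
      QW s r v * Matrix.single r t 1 := by
  induction v with
  | nil => simp [QW]
  | cons b v ih =>
    rw [List.map_cons, List.cons_append, List.prod_cons, ih, QW, Matrix.mul_assoc]

theorem inpZ_prod (v v' : List Bool) :
    (inpZ s r t v v').prod = PW s r v * QW s r v' * Matrix.single r t 1 := by
  rw [inpZ, List.prod_append, PW_eq, QW_eq, Matrix.mul_assoc]

end

theorem prod_getD {N : Type} [Monoid N] (l : List N) (L : ℕ) (h : l.length ≤ L) :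
    (List.ofFn (fun i : Fin L => l.getD i 1)).prod = l.prod := by
  induction l generalizing L with
  | nil => simp
  | cons a l ih =>
    obtain ⟨L, rfl⟩ : ∃ L', L = L' + 1 := ⟨L - 1, by rw [List.length_cons] at h; omega⟩
    rw [List.ofFn_succ, List.prod_cons, List.prod_cons]
    congr 1
    rw [← ih L (by rw [List.length_cons] at h; omega)]
    rfl

theorem small_transvection {w : ℕ} {i j : Fin w} (hij : i ≠ j) {c : ℤ} (hc : c = -1 ∨ c = 1) :
    Small (Matrix.transvection i j c) := by
  intro a b
  simp only [Matrix.transvection, Matrix.add_apply, Matrix.one_apply, Matrix.single_apply]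
  by_cases h1 : a = b
  · subst h1
    have : ¬ (i = a ∧ j = a) := fun h => hij (h.1.trans h.2.symm)
    rw [if_pos rfl, if_neg this]
    right; right; ring
  · rw [if_neg h1]
    by_cases h2 : i = a ∧ j = b
    · rw [if_pos h2]
      rcases hc with rfl | rfl
      · left; ring
      · right; right; ring
    · rw [if_neg h2]
      right; left; ring

theorem small_one {w : ℕ} : Small (1 : Matrix (Fin w) (Fin w) ℤ) := by
  intro a b
  by_cases h : a = b
  · right; right; rw [h, Matrix.one_apply_eq]
  · right; left; rw [Matrix.one_apply_ne h]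

theorem small_single {w : ℕ} (i j : Fin w) : Small (Matrix.single i j (1 : ℤ)) := by
  intro a b
  rw [Matrix.single_apply]
  by_cases h : i = a ∧ j = b
  · right; right; rw [if_pos h]
  · right; left; rw [if_neg h]

theorem small_inpZ {w : ℕ} {s r t : Fin w} (hsr : s ≠ r) (v v' : List Bool) :
    ∀ A ∈ inpZ s r t v v', Small A := by
  have h1 : ∀ b, Small (let1 s r b) := by
    intro b
    rcases b with _ | _
    · exact small_transvection hsr.symm (Or.inr rfl)
    · exact small_transvection hsr (Or.inr rfl)
  have h2 : ∀ b, Small (let2 s r b) := by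
    intro b
    rcases b with _ | _
    · exact small_transvection hsr.symm (Or.inl rfl)
    · exact small_transvection hsr (Or.inl rfl)
  intro A hA
  rw [inpZ, List.mem_append, List.mem_cons, List.mem_append, List.mem_map, List.mem_map] at hA
  rcases hA with (rfl | ⟨b, -, rfl⟩) | (⟨b, -, rfl⟩ | hA)
  · exact small_transvection hsr (Or.inr rfl)
  · exact h1 b
  · exact h2 b
  · simp only [List.mem_cons, List.not_mem_nil, or_false] at hA
    rcases hA with rfl | rfl
    · exact small_transvection hsr (Or.inl rfl)
    · exact small_single r t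

/-- **Integer products need growing interfaces.** -/
theorem lower_int {w : ℕ} (hw : 2 ≤ w) {p : ℕ} (hp : 0 < p) (R : ℕ) {L : ℕ}
    (hL : 8 * R * (p + 2) ^ 3 + 5 ≤ L)
    (s t : Fin w) (F : Fin R → Family (Matrix (Fin w) (Fin w) ℤ) L) (hF : ∀ j, (F j).WidthLE p)
    (Bf : (Fin R → Prop) → Prop) :
    ∃ x : Fin L → Matrix (Fin w) (Fin w) ℤ, (∀ i, Small (x i)) ∧
      ¬ (Bf (fun j => UniquePM ((F j).graph x)) ↔ (List.ofFn x).prod s t = 0) := by
  classical
  by_contra hcon
  push Not at hcon
  obtain ⟨r, hsr⟩ : ∃ r : Fin w, s ≠ r := by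
    have : Nontrivial (Fin w) := Fin.nontrivial_iff_two_le.2 hw
    obtain ⟨r, hr⟩ := exists_ne s
    exact ⟨r, hr.symm⟩
  choose M hM hU using fun j => (F j).transfer (lt_of_lt_of_le (by positivity) hL) hp (hF j)
  set k := 4 * R * (p + 2) ^ 3 + 1 with hk
  have hkL : 2 * k + 3 ≤ L := by
    have : 8 * R * (p + 2) ^ 3 = 2 * (4 * R * (p + 2) ^ 3) := by ring
    omega
  let X : List Bool → List Bool → ℕ → Matrix (Fin w) (Fin w) ℤ :=
    fun v v' n => (inpZ s r t v v').getD n 1
  let V : Set (Finset (Fin p) → T3) := {v | ∃ x : Matrix (Finset (Fin p)) (Finset (Fin p)) T3,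
      IsGad x ∧ v = x Finset.univ}
  have hVfin : V.Finite := Set.toFinite _
  have hV : Fintype V := hVfin.fintype
  have hVcard : Fintype.card V ≤ 2 ^ (4 * (p + 2) ^ 3) := by
    have := card_boundary p
    rwa [← Nat.card_coe_set_eq, Nat.card_eq_fintype_card] at this
  let Φ : (Fin k → Bool) → (Fin R → V) := fun v j =>
    ⟨prodM (M j) (X (List.ofFn v) []) 0 (k + 1) Finset.univ,
      _, isGad_prodM (hM j) _ _ _, rfl⟩
  have hcard : Fintype.card (Fin R → V) < Fintype.card (Fin k → Bool) := by
    rw [Fintype.card_fun, Fintype.card_fun, Fintype.card_fin,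
      Fintype.card_fin, Fintype.card_bool]
    calc Fintype.card V ^ R ≤ (2 ^ (4 * (p + 2) ^ 3)) ^ R := Nat.pow_le_pow_left hVcard R
      _ = 2 ^ (4 * (p + 2) ^ 3 * R) := (pow_mul 2 (4 * (p + 2) ^ 3) R).symm
      _ < 2 ^ k := by
        apply Nat.pow_lt_pow_right (by norm_num)
        rw [hk]
        have : 4 * (p + 2) ^ 3 * R = 4 * R * (p + 2) ^ 3 := by ring
        omega
  obtain ⟨v1, v2, hne, hΦ⟩ := Fintype.exists_ne_map_eq_of_card_lt Φ hcard
  set l1 := List.ofFn v1 with hl1
  set l2 := List.ofFn v2 with hl2
  have hlen1 : l1.length = k := by rw [hl1, List.length_ofFn]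
  have hlen2 : l2.length = k := by rw [hl2, List.length_ofFn]
  have hlne : l1 ≠ l2 := fun h => hne (List.ofFn_injective h)
  have hlenP : ∀ l : List Bool, l.length = k →
      (Matrix.transvection s r (1 : ℤ) :: (l.reverse.map (let1 s r))).length = k + 1 := by
    intro l hl
    rw [List.length_cons, List.length_map, List.length_reverse, hl]
  -- the prefix part does not depend on the suffix
  have hpre : ∀ (l : List Bool), l.length = k → ∀ l', ∀ n, n < k + 1 →
      X l l' n = X l [] n := by
    intro l hl l' n hn
    show (inpZ s r t l l').getD n 1 = (inpZ s r t l []).getD n 1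
    rw [inpZ, inpZ, List.getD_append _ _ _ _ (by rw [hlenP l hl]; omega),
      List.getD_append _ _ _ _ (by rw [hlenP l hl]; omega)]
  have hsuf : ∀ n, k + 1 ≤ n → X l1 l1 n = X l2 l1 n := by
    intro n hn
    show (inpZ s r t l1 l1).getD n 1 = (inpZ s r t l2 l1).getD n 1
    have key : ∀ l, l.length = k → (inpZ s r t l l1).getD n 1 =
        ((l1.map (let2 s r)) ++ [Matrix.transvection s r (-1), Matrix.single r t 1]).getD
          (n - (k + 1)) 1 := by
      intro l hl
      rw [inpZ, List.getD_append_right _ _ _ _ (by rw [hlenP l hl]; omega), hlenP l hl]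
    rw [key l1 hlen1, key l2 hlen2]
  have hval : ∀ j, prodM (M j) (X l1 l1) 0 L Finset.univ Finset.univ =
      prodM (M j) (X l2 l1) 0 L Finset.univ Finset.univ := by
    intro j
    have e1 : L = (k + 1) + (L - (k + 1)) := by omega
    have e2 : ∀ y, prodM (M j) y 0 L =
        prodM (M j) y 0 (k + 1) * prodM (M j) y (0 + (k + 1)) (L - (k + 1)) := by
      intro y
      rw [← prodM_add, ← e1]
    rw [e2, e2, Matrix.mul_apply, Matrix.mul_apply]
    apply Finset.sum_congr rfl
    intro T _
    congr 1
    · have h1 := congrFun (congrArg Subtype.val (congrFun hΦ j)) T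
      have h2 : prodM (M j) (X l1 l1) 0 (k + 1) = prodM (M j) (X l1 []) 0 (k + 1) :=
        prodM_congr (M j) (fun n _ hn => hpre l1 hlen1 l1 n (by omega))
      have h3 : prodM (M j) (X l2 l1) 0 (k + 1) = prodM (M j) (X l2 []) 0 (k + 1) :=
        prodM_congr (M j) (fun n _ hn => hpre l2 hlen2 l1 n (by omega))
      rw [h2, h3]
      exact h1
    · have h2 : prodM (M j) (X l1 l1) (0 + (k + 1)) (L - (k + 1)) =
          prodM (M j) (X l2 l1) (0 + (k + 1)) (L - (k + 1)) :=
        prodM_congr (M j) (fun n hn _ => hsuf n (by omega))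
      rw [h2]
  have hsm : ∀ l l' (n : ℕ), Small (X l l' n) := by
    intro l l' n
    show Small ((inpZ s r t l l').getD n 1)
    by_cases h : n < (inpZ s r t l l').length
    · rw [List.getD_eq_getElem _ _ h]
      exact small_inpZ hsr l l' _ (List.getElem_mem h)
    · rw [List.getD_eq_default _ _ (by omega)]
      exact small_one
  have hlenI : ∀ l l' : List Bool, l.length = k → l'.length = k →
      (inpZ s r t l l').length ≤ L := by
    intro l l' h1 h2
    simp only [inpZ, List.length_append, List.length_cons, List.length_map,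
      List.length_reverse, List.length_nil, h1, h2]
    omega
  have hent : ∀ l l' : List Bool, l.length = k → l'.length = k →
      (Bf (fun j => UniquePM ((F j).graph fun i => X l l' i)) ↔
        (rab l').1 * (rab l).2 - (rab l).1 * (rab l').2 = 0) := by
    intro l l' h1 h2
    have h3 := hcon (fun i => X l l' i) (fun i => hsm l l' i)
    rw [h3]
    have h4 := prod_getD (inpZ s r t l l') L (hlenI l l' h1 h2)
    have h5 : (List.ofFn fun i : Fin L => X l l' i).prod = (inpZ s r t l l').prod := h4
    rw [h5, inpZ_prod, PQ_val t hsr]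
  have ha := hent l1 l1 hlen1 hlen1
  have hb := hent l2 l1 hlen2 hlen1
  have hc := rab_cross l1 l2 (by rw [hlen1, hlen2]) hlne
  have hsame : (fun j => UniquePM ((F j).graph fun i => X l1 l1 i)) =
      (fun j => UniquePM ((F j).graph fun i => X l2 l1 i)) := by
    funext j
    apply propext
    rw [hU j, hU j, hval]
  rw [hsame, hb] at ha
  exact hc (ha.2 (by ring))

end H54.UPM
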