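import Pool.Agent.H54.UPM.Lin

/-!
# Restriction of local families to linearly laid out positions
-/

namespace H54.UPM

open Function

section ext

variable {α : Type} {L m : ℕ}

open Classical in
/-- The input with the letters of `y` at the positions of `P` and `c1` elsewhere. -/
noncomputable def ext (P : Finset (Fin L)) (hm : P.card = m) (c1 : α) (y : Fin m → α) :
    Fin L → α :=
  fun i => if h : ∃ j, P.orderEmbOfFin hm j = i then y h.choose else c1

theorem ext_emb (P : Finset (Fin L)) (hm : P.card = m) (c1 : α) (y : Fin m → α) (j : Fin m) :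
    ext P hm c1 y (P.orderEmbOfFin hm j) = y j := by
  classical
  have h : ∃ j', P.orderEmbOfFin hm j' = P.orderEmbOfFin hm j := ⟨j, rfl⟩
  rw [ext, dif_pos h, (P.orderEmbOfFin hm).injective h.choose_spec]

theorem mem_iff_emb (P : Finset (Fin L)) (hm : P.card = m) (i : Fin L) :
    i ∈ P ↔ ∃ j, P.orderEmbOfFin hm j = i := by
  rw [← Finset.mem_coe, ← Finset.range_orderEmbOfFin P hm, Set.mem_range]

theorem ext_not (P : Finset (Fin L)) (hm : P.card = m) (c1 : α) (y : Fin m → α) {i : Fin L}
    (hi : i ∉ P) : ext P hm c1 y i = c1 := by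
  classical
  rw [mem_iff_emb P hm] at hi
  rw [ext, dif_neg hi]

theorem prod_filter_mem {ι N : Type} [Monoid N] (g : ι → N) (p : ι → Prop) [DecidablePred p]
    (hg : ∀ i, ¬ p i → g i = 1) (l : List ι) :
    (l.map g).prod = ((l.filter (fun i => p i)).map g).prod := by
  induction l with
  | nil => simp
  | cons i l ih =>
    rw [List.map_cons, List.prod_cons, ih, List.filter_cons]
    by_cases h : p i
    · simp [h]
    · simp [h, hg i h]

theorem ofFn_emb (P : Finset (Fin L)) (hm : P.card = m) :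
    List.ofFn (P.orderEmbOfFin hm) = (List.finRange L).filter (fun i => i ∈ P) := by
  have h1 : ((List.finRange L).filter (fun i => i ∈ P)).toFinset = P := by
    ext i; simp
  have hs : ((List.finRange L).filter (fun i => i ∈ P)).Pairwise (· ≤ ·) := by
    apply List.Pairwise.filter
    exact (List.pairwise_le_finRange L)
  have hn : ((List.finRange L).filter (fun i => i ∈ P)).Nodup :=
    (List.nodup_finRange L).filter _
  have h2 : P.sort (· ≤ ·) = (List.finRange L).filter (fun i => i ∈ P) := by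
    have := (List.toFinset_sort (· ≤ ·) hn).2 hs
    rwa [h1] at this
  rw [← h2]
  apply List.ext_getElem
  · simp [hm]
  · intro n h3 h4
    rw [List.getElem_ofFn]
    rfl

theorem prod_ext {N : Type} [Monoid N] (P : Finset (Fin L)) (hm : P.card = m) (c1 : α)
    (f : α → N) (hf : f c1 = 1) (y : Fin m → α) :
    (List.ofFn fun i => f (ext P hm c1 y i)).prod = (List.ofFn fun j => f (y j)).prod := by
  classical
  rw [List.ofFn_eq_map, prod_filter_mem (fun i => f (ext P hm c1 y i)) (fun i => i ∈ P)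
    (fun i hi => by rw [ext_not P hm c1 y hi, hf]), ← ofFn_emb P hm, List.map_ofFn]
  congr 2
  funext j
  show f (ext P hm c1 y (P.orderEmbOfFin hm j)) = f (y j)
  rw [ext_emb]

end ext

namespace LFamily

variable {α : Type} {L d : ℕ}

/-- **Restriction to linearly laid out positions.** -/
theorem Lin.restrict {F : LFamily α L d} {p : ℕ} {P : Finset (Fin L)} (h : F.Lin p P) {m : ℕ}
    (hm0 : 0 < m) (hm : P.card = m) (c1 : α) :
    ∃ F' : Family α m, F'.WidthLE p ∧
      ∀ y : Fin m → α, UniquePM (F'.graph y) ↔ UniquePM (F.graph (ext P hm c1 y)) := by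
  classical
  obtain ⟨S, hS1, hS2, hS3⟩ := h.cuts
  have hA := F.finA
  have hB := F.finB
  set e := P.orderEmbOfFin hm with he
  have heP : ∀ j, e j ∈ P := fun j => (mem_iff_emb P hm _).2 ⟨j, rfl⟩
  -- the chosen position
  let ch : F.A → F.B → Fin L := fun a b =>
    if h : ∃ i ∈ F.own a b, i ∈ P then h.choose else (F.own_nonempty a b).choose
  have hch1 : ∀ a b, ch a b ∈ F.own a b := by
    intro a b
    by_cases h : ∃ i ∈ F.own a b, i ∈ P
    · simp only [ch, dif_pos h]
      exact h.choose_spec.1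
    · simp only [ch, dif_neg h]
      exact (F.own_nonempty a b).choose_spec
  have hch2 : ∀ a b, (∃ i ∈ F.own a b, i ∈ P) → ch a b ∈ P := by
    intro a b h
    simp only [ch, dif_pos h]
    exact h.choose_spec.2
  -- the rank
  let RS : Fin L → Finset (Fin m) := fun i =>
    Finset.univ.filter (fun k : Fin m => (k : ℕ) ≠ 0 ∧ i ∉ S (e k))
  have hRSlt : ∀ i, (RS i).card < m := by
    intro i
    have hsub : RS i ⊆ Finset.univ.erase (⟨0, hm0⟩ : Fin m) := by
      intro k hk
      simp only [RS, Finset.mem_filter, Finset.mem_univ, true_and] at hk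
      rw [Finset.mem_erase]
      exact ⟨fun h => hk.1 (by rw [h]), Finset.mem_univ _⟩
    have := Finset.card_le_card hsub
    rw [Finset.card_erase_of_mem (Finset.mem_univ _), Finset.card_univ, Fintype.card_fin] at this
    omega
  let rk : Fin L → Fin m := fun i => ⟨(RS i).card, hRSlt i⟩
  have hmonoS : ∀ (k k' : Fin m) (i : Fin L), k ≤ k' → i ∈ S (e k) → i ∈ S (e k') := by
    intro k k' i hk hi
    exact hS1 (show ((e k : Fin L) : ℕ) ≤ (e k' : Fin L) from (e.monotone hk)) hi
  have hrk1 : ∀ (i : Fin L) (k : Fin m), (k : ℕ) ≠ 0 → ((rk i : ℕ) < k ↔ i ∈ S (e k)) := by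
    intro i k hk
    constructor
    · intro h1
      by_contra h2
      have hsub : Finset.univ.filter (fun k' : Fin m => (k' : ℕ) ≠ 0 ∧ k' ≤ k) ⊆ RS i := by
        intro k' hk'
        simp only [Finset.mem_filter, Finset.mem_univ, true_and] at hk'
        simp only [RS, Finset.mem_filter, Finset.mem_univ, true_and]
        exact ⟨hk'.1, fun h3 => h2 (hmonoS k' k i hk'.2 h3)⟩
      have h3 := Finset.card_le_card hsub
      have h4 : (Finset.univ.filter (fun k' : Fin m => (k' : ℕ) ≠ 0 ∧ k' ≤ k)).card = k := by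
        have e1 : Finset.univ.filter (fun k' : Fin m => (k' : ℕ) ≠ 0 ∧ k' ≤ k) =
            (Finset.Iic k).erase ⟨0, hm0⟩ := by
          ext k'
          simp only [Finset.mem_filter, Finset.mem_univ, true_and, Finset.mem_erase,
            Finset.mem_Iic, ne_eq, Fin.ext_iff]
        rw [e1, Finset.card_erase_of_mem (Finset.mem_Iic.2 (Fin.mk_le_of_le_val (Nat.zero_le _))),
          Fin.card_Iic]
        rfl
      rw [h4] at h3
      have : (rk i : ℕ) = (RS i).card := rfl
      omega
    · intro h1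
      have hsub : RS i ⊆ Finset.univ.filter (fun k' : Fin m => (k' : ℕ) ≠ 0 ∧ k' < k) := by
        intro k' hk'
        simp only [RS, Finset.mem_filter, Finset.mem_univ, true_and] at hk'
        simp only [Finset.mem_filter, Finset.mem_univ, true_and]
        refine ⟨hk'.1, ?_⟩
        by_contra h2
        exact hk'.2 (hmonoS k k' i (not_lt.1 h2) h1)
      have h3 := Finset.card_le_card hsub
      have h4 : (Finset.univ.filter (fun k' : Fin m => (k' : ℕ) ≠ 0 ∧ k' < k)).card ≤ k - 1 := by
        have e1 : Finset.univ.filter (fun k' : Fin m => (k' : ℕ) ≠ 0 ∧ k' < k) =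
            (Finset.Iio k).erase ⟨0, hm0⟩ := by
          ext k'
          simp only [Finset.mem_filter, Finset.mem_univ, true_and, Finset.mem_erase,
            Finset.mem_Iio, ne_eq, Fin.ext_iff]
        have e2 : (⟨0, hm0⟩ : Fin m) ∈ Finset.Iio k := by
          rw [Finset.mem_Iio, Fin.lt_def]
          exact Nat.pos_of_ne_zero hk
        rw [e1, Finset.card_erase_of_mem e2, Fin.card_Iio]
      have : (rk i : ℕ) = (RS i).card := rfl
      omega
  have hrk2 : ∀ j : Fin m, rk (e j) = j := by
    intro j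
    apply Fin.ext
    by_contra hne
    rcases Nat.lt_or_gt_of_ne hne with h1 | h1
    · -- rank too small
      have h2 := (hrk1 (e j) j (by omega)).1 h1
      rw [← hS3 (e j) (heP j)] at h2
      omega
    · -- rank too large
      have hlt : (j : ℕ) + 1 < m := by have := (rk (e j)).2; omega
      have h2 : ¬ (rk (e j) : ℕ) < (⟨j + 1, hlt⟩ : Fin m) := by simp only; omega
      rw [hrk1 (e j) ⟨j + 1, hlt⟩ (by simp)] at h2
      rw [← hS3 (e j) (heP j)] at h2
      apply h2
      have : e j < e ⟨j + 1, hlt⟩ := e.strictMono (by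
        show (j : ℕ) < j + 1
        omega)
      exact this
  let F' : Family α m :=
    { A := F.A
      B := F.B
      finA := hA
      finB := hB
      owner := fun a b => rk (ch a b)
      edge := fun a b c => F.edge a b (Function.update (fun _ => c1) (e (rk (ch a b))) c) }
  -- the edges
  have hedge : ∀ (y : Fin m → α) a b, F'.edge a b (y (F'.owner a b)) ↔
      F.edge a b (ext P hm c1 y) := by
    intro y a b
    by_cases hpot : F.Pot a b
    swap
    · constructor
      · intro h1; exact absurd ⟨_, h1⟩ hpot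
      · intro h1; exact absurd ⟨_, h1⟩ hpot
    apply F.edge_congr
    intro i hi
    by_cases hiP : i ∈ P
    · have h1 : ch a b = i :=
        h.indep a b hpot _ (hch2 a b ⟨i, hi, hiP⟩) _ hiP (hch1 a b) hi
      obtain ⟨j, rfl⟩ := (mem_iff_emb P hm i).1 hiP
      have h2 : rk (ch a b) = j := by rw [h1]; exact hrk2 j
      rw [ext_emb]
      show Function.update (fun _ => c1) (e (rk (ch a b))) (y (rk (ch a b))) (e j) = y j
      rw [h2, Function.update_self]
    · rw [ext_not P hm c1 y hiP]
      rw [Function.update_of_ne]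
      intro h1
      exact hiP (h1 ▸ heP _)
  refine ⟨F', ?_, ?_⟩
  · intro k
    by_cases hk0 : k = 0
    · have : F'.interface k = ∅ := by
        ext v
        simp only [Set.mem_empty_iff_false, iff_false]
        rintro ⟨⟨i, h1, -⟩, -⟩
        omega
      rw [this]; simp
    by_cases hkm : m ≤ k
    · have : F'.interface k = ∅ := by
        ext v
        simp only [Set.mem_empty_iff_false, iff_false]
        rintro ⟨-, ⟨i, h1, -⟩⟩
        have := i.2
        omega
      rw [this]; simp
    push Not at hkm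
    refine le_trans ?_ (hS2 (e ⟨k, hkm⟩))
    have hfin : Finite (F.A ⊕ F.B) := inferInstance
    refine Set.ncard_le_ncard (t := F.bd (S (e ⟨k, hkm⟩))) ?_ (Set.toFinite _)
    have htouch : ∀ (v : F.A ⊕ F.B) (j : Fin m), F'.Touches v j →
        ∃ i, rk i = j ∧ F.Touches v i := by
      rintro v j ⟨a, b, c, h1, h2, h3⟩
      exact ⟨ch a b, h2, a, b, h1, ⟨_, h3⟩, hch1 a b⟩
    rintro v ⟨⟨j, h1, h2⟩, ⟨j', h3, h4⟩⟩
    obtain ⟨i, hi, hi2⟩ := htouch v j h2
    obtain ⟨i', hi', hi2'⟩ := htouch v j' h4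
    refine ⟨⟨i, ?_, hi2⟩, ⟨i', ?_, hi2'⟩⟩
    · rw [← hrk1 i ⟨k, hkm⟩ hk0, hi]
      exact h1
    · rw [← hrk1 i' ⟨k, hkm⟩ hk0, hi']
      simp only
      omega
  · intro y
    have hgr : F'.graph y = F.graph (ext P hm c1 y) := by
      ext u v
      constructor
      · rintro (⟨a, b, h1, h2, h3⟩ | ⟨a, b, h1, h2, h3⟩)
        · exact Or.inl ⟨a, b, h1, h2, (hedge y a b).1 h3⟩
        · exact Or.inr ⟨a, b, h1, h2, (hedge y a b).1 h3⟩
      · rintro (⟨a, b, h1, h2, h3⟩ | ⟨a, b, h1, h2, h3⟩)
        · exact Or.inl ⟨a, b, h1, h2, (hedge y a b).2 h3⟩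
        · exact Or.inr ⟨a, b, h1, h2, (hedge y a b).2 h3⟩
    have : UniquePM (F'.graph y) = UniquePM (F.graph (ext P hm c1 y)) :=
      congrArg (UniquePM (V := F.A ⊕ F.B)) hgr
    rw [this]

theorem exists_lin_all (p d m : ℕ) (r : ℕ) : ∃ N : ℕ, ∀ (α : Type) (L : ℕ)
    (F : Fin r → LFamily α L d), (∀ k, (F k).TreeWidthLE p) → ∀ P : Finset (Fin L), N ≤ P.card →
      ∃ P' ⊆ P, m ≤ P'.card ∧ ∀ k, (F k).Lin p P' := by
  induction r with
  | zero =>
    refine ⟨m, ?_⟩
    intro α L F _ P hP
    exact ⟨P, subset_rfl, hP, fun k => k.elim0⟩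
  | succ r ih =>
    obtain ⟨N1, hN1⟩ := ih
    obtain ⟨N2, hN2⟩ := exists_lin p d N1
    refine ⟨N2, ?_⟩
    intro α L F hF P hP
    obtain ⟨P1, h1, h2, h3⟩ := hN2 α L (F (Fin.last r)) (hF _) P hP
    obtain ⟨P2, h4, h5, h6⟩ := hN1 α L (fun k => F k.castSucc) (fun k => hF _) P1 h2
    refine ⟨P2, h4.trans h1, h5, ?_⟩
    intro k
    refine Fin.lastCases ?_ ?_ k
    · exact h3.mono h4
    · exact h6

/-- **Reduction of the general model to the linear one.** -/
theorem reduce (p d m r : ℕ) (hm : 0 < m) : ∃ N : ℕ, ∀ L, N ≤ L → ∀ (α : Type) (c1 : α)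
    (F : Fin r → LFamily α L d), (∀ k, (F k).TreeWidthLE p) →
      ∃ (P : Finset (Fin L)) (hP : P.card = m) (F' : Fin r → Family α m),
        (∀ k, (F' k).WidthLE p) ∧ ∀ k (y : Fin m → α),
          UniquePM ((F' k).graph y) ↔ UniquePM ((F k).graph (ext P hP c1 y)) := by
  obtain ⟨N, hN⟩ := exists_lin_all p d m r
  refine ⟨N, ?_⟩
  intro L hL α c1 F hF
  obtain ⟨P', -, h1, h2⟩ := hN α L F hF Finset.univ (by
    rw [Finset.card_univ, Fintype.card_fin]; exact hL)
  obtain ⟨P, hP1, hP2⟩ := Finset.exists_subset_card_eq h1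
  choose F' hF1 hF2 using fun k => ((h2 k).mono hP1).restrict hm hP2 c1
  exact ⟨P, hP2, F', hF1, hF2⟩

end LFamily

end H54.UPM
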