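import Pool.Agent.H54.UPM.LModel
import Pool.Agent.H54.UPM.IntPart
import Pool.Agent.H54.UPM.Restrict

/-!
# Cutting a local family at one set of positions
-/

namespace H54.UPM

open Function

open Classical in
/-- The word which agrees with `x` on `S` and has the letter `c1` elsewhere. -/
noncomputable def mask {α : Type} {L : ℕ} (S : Finset (Fin L)) (c1 : α) (x : Fin L → α) :
    Fin L → α := fun i => if i ∈ S then x i else c1

theorem mask_congr {α : Type} {L : ℕ} {S : Finset (Fin L)} {c1 : α} {x y : Fin L → α}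
    (h : ∀ i ∈ S, x i = y i) : mask S c1 x = mask S c1 y := by
  funext i
  unfold mask
  by_cases hi : i ∈ S
  · rw [if_pos hi, if_pos hi, h i hi]
  · rw [if_neg hi, if_neg hi]

/-- **One cut.** If the interface of the set `S` of positions has at most `p` vertices, then for
inputs which have the letter `c1` at a small set of positions the uniqueness of the perfect matching
is the value of a product of two gadgets, one for each side. -/
theorem LFamily.two_block {α : Type} {L d : ℕ} (F : LFamily α L d) (S : Finset (Fin L)) (c1 : α)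
    {p : ℕ} (hp : 0 < p) (hS : (F.bd S).ncard ≤ p) :
    ∃ (Z : Finset (Fin L)) (M0 M1 : (Fin L → α) → Matrix (Finset (Fin p)) (Finset (Fin p)) T3),
      Z.card ≤ p * p * d ∧ (∀ x, IsGad (M0 x)) ∧ ∀ x : Fin L → α, (∀ i ∈ Z, x i = c1) →
        (UniquePM (F.graph x) ↔
          (M0 (mask S c1 x) * M1 (mask Sᶜ c1 x)) Finset.univ Finset.univ = 1) := by
  classical
  have hA := F.finA
  have hB := F.finB
  let D := F.bd S
  have hDfin : D.Finite := Set.toFinite _
  let EA : Finset F.A := (Set.toFinite {a : F.A | (Sum.inl a : F.A ⊕ F.B) ∈ D}).toFinset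
  let EB : Finset F.B := (Set.toFinite {b : F.B | (Sum.inr b : F.A ⊕ F.B) ∈ D}).toFinset
  have hEA : EA.card ≤ p := by
    refine le_trans ?_ hS
    have : EA.card = {a : F.A | (Sum.inl a : F.A ⊕ F.B) ∈ D}.ncard :=
      (Set.ncard_eq_toFinset_card _).symm
    rw [this, ← Set.ncard_image_of_injective _ (Sum.inl_injective : Injective
      (Sum.inl : F.A → F.A ⊕ F.B))]
    apply Set.ncard_le_ncard _ hDfin
    rintro _ ⟨a, ha, rfl⟩
    exact ha
  have hEB : EB.card ≤ p := by
    refine le_trans ?_ hS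
    have : EB.card = {b : F.B | (Sum.inr b : F.A ⊕ F.B) ∈ D}.ncard :=
      (Set.ncard_eq_toFinset_card _).symm
    rw [this, ← Set.ncard_image_of_injective _ (Sum.inr_injective : Injective
      (Sum.inr : F.B → F.A ⊕ F.B))]
    apply Set.ncard_le_ncard _ hDfin
    rintro _ ⟨a, ha, rfl⟩
    exact ha
  let Z : Finset (Fin L) := (EA ×ˢ EB).biUnion (fun ab => F.own ab.1 ab.2)
  have hZ : Z.card ≤ p * p * d := by
    refine (Finset.card_biUnion_le_card_mul _ _ d (fun ab _ => F.own_card _ _)).trans ?_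
    rw [Finset.card_product]
    exact Nat.mul_le_mul_right _ (Nat.mul_le_mul hEA hEB)
  -- the family with two positions
  let F' : Family (Fin L → α) 2 :=
    { A := F.A
      B := F.B
      finA := hA
      finB := hB
      owner := fun a b => if ∃ i ∈ F.own a b, i ∈ S then 0 else 1
      edge := fun a b c => F.edge a b c }
  have hown0 : ∀ a b, F'.owner a b = 0 → ∃ i ∈ F.own a b, i ∈ S := by
    intro a b h
    by_contra hcon
    have : F'.owner a b = 1 := if_neg hcon
    rw [this] at h
    exact absurd h (by decide)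
  have hown1 : ∀ a b, F'.owner a b = 1 → ∀ i ∈ F.own a b, i ∉ S := by
    intro a b h i hi hiS
    have : F'.owner a b = 0 := if_pos ⟨i, hi, hiS⟩
    rw [this] at h
    exact absurd h (by decide)
  have hT0 : ∀ v, F'.Touches v 0 → ∃ i ∈ S, F.Touches v i := by
    rintro v ⟨a, b, c, h1, h2, h3⟩
    obtain ⟨i, hi, hiS⟩ := hown0 a b h2
    exact ⟨i, hiS, a, b, h1, ⟨c, h3⟩, hi⟩
  have hT1 : ∀ v, F'.Touches v 1 → ∃ i, i ∉ S ∧ F.Touches v i := by
    rintro v ⟨a, b, c, h1, h2, h3⟩
    obtain ⟨i, hi⟩ := F.own_nonempty a b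
    exact ⟨i, hown1 a b h2 i hi, a, b, h1, ⟨c, h3⟩, hi⟩
  have hW : F'.WidthLE p := by
    intro k
    refine le_trans (Set.ncard_le_ncard (t := D) ?_ hDfin) hS
    rintro v ⟨⟨i, h1, h2⟩, ⟨j, h3, h4⟩⟩
    have hij : i < j := by
      rw [Fin.lt_def]; omega
    have hi : i = 0 := by
      have := j.2
      apply Fin.ext
      rw [Fin.lt_def] at hij
      simp only [Fin.val_zero]
      omega
    have hj : j = 1 := by
      have := j.2
      apply Fin.ext
      rw [Fin.lt_def] at hij
      simp only [Fin.val_one]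
      omega
    subst hi hj
    exact ⟨hT0 v h2, hT1 v h4⟩
  obtain ⟨M, hM, hU⟩ := F'.transfer (by norm_num) hp hW
  refine ⟨Z, M 0, M 1, hZ, fun x => hM 0 x, ?_⟩
  intro x hx
  let y : ℕ → (Fin L → α) := fun n => if n = 0 then mask S c1 x else mask Sᶜ c1 x
  have h1 := hU y
  have hgr : (F'.graph fun i => y i) = F.graph x := by
    have hedge : ∀ a b, F'.edge a b (y (F'.owner a b)) ↔ F.edge a b x := by
      intro a b
      by_cases hpot : F.Pot a b
      swap
      · constructor
        · intro h; exact absurd ⟨_, h⟩ hpot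
        · intro h; exact absurd ⟨_, h⟩ hpot
      have ho : F'.owner a b = 0 ∨ F'.owner a b = 1 := by
        by_cases h : ∃ i ∈ F.own a b, i ∈ S
        · exact Or.inl (if_pos h)
        · exact Or.inr (if_neg h)
      rcases ho with ho | ho
      · rw [ho]
        show F.edge a b (mask S c1 x) ↔ F.edge a b x
        apply F.edge_congr
        intro i hi
        unfold mask
        by_cases hiS : i ∈ S
        · rw [if_pos hiS]
        · rw [if_neg hiS]
          -- a conflict
          obtain ⟨j, hj, hjS⟩ := hown0 a b ho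
          have hDa : (Sum.inl a : F.A ⊕ F.B) ∈ D :=
            ⟨⟨j, hjS, a, b, Or.inl rfl, hpot, hj⟩, ⟨i, hiS, a, b, Or.inl rfl, hpot, hi⟩⟩
          have hDb : (Sum.inr b : F.A ⊕ F.B) ∈ D :=
            ⟨⟨j, hjS, a, b, Or.inr rfl, hpot, hj⟩, ⟨i, hiS, a, b, Or.inr rfl, hpot, hi⟩⟩
          refine (hx i ?_).symm
          rw [Finset.mem_biUnion]
          refine ⟨(a, b), ?_, hi⟩
          rw [Finset.mem_product]
          exact ⟨(Set.Finite.mem_toFinset _).2 hDa, (Set.Finite.mem_toFinset _).2 hDb⟩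
      · rw [ho]
        show F.edge a b (mask Sᶜ c1 x) ↔ F.edge a b x
        apply F.edge_congr
        intro i hi
        unfold mask
        rw [if_pos (Finset.mem_compl.2 (hown1 a b ho i hi))]
    ext u v
    constructor
    · rintro (⟨a, b, h1, h2, h3⟩ | ⟨a, b, h1, h2, h3⟩)
      · exact Or.inl ⟨a, b, h1, h2, (hedge a b).1 h3⟩
      · exact Or.inr ⟨a, b, h1, h2, (hedge a b).1 h3⟩
    · rintro (⟨a, b, h1, h2, h3⟩ | ⟨a, b, h1, h2, h3⟩)
      · exact Or.inl ⟨a, b, h1, h2, (hedge a b).2 h3⟩
      · exact Or.inr ⟨a, b, h1, h2, (hedge a b).2 h3⟩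
  have h2 : UniquePM (F'.graph fun i => y i) = UniquePM (F.graph x) :=
    congrArg (UniquePM (V := F.A ⊕ F.B)) hgr
  rw [← h2, h1]
  have h3 : prodM M y 0 2 = M 0 (mask S c1 x) * M 1 (mask Sᶜ c1 x) := by
    show (1 * M (0 + 0) (y (0 + 0))) * M (0 + 1) (y (0 + 1)) = _
    rw [one_mul]
    rfl
  rw [h3]

end H54.UPM
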