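import Pool.Agent.H54.UPM.Pos3

/-!
# The transfer matrices of a family
-/

namespace H54.UPM

open Function

/-- The product of the values of the positions `i, …, i + n - 1` on the input `x`. -/
def prodM {α N : Type} [Monoid N] (M : ℕ → α → N) (x : ℕ → α) (i : ℕ) : ℕ → N
  | 0 => 1
  | n + 1 => prodM M x i n * M (i + n) (x (i + n))

theorem prodM_add {α N : Type} [Monoid N] (M : ℕ → α → N)
    (x : ℕ → α) (i n m : ℕ) : prodM M x i (n + m) = prodM M x i n * prodM M x (i + n) m := by
  induction m with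
  | zero => simp [prodM]
  | succ m ih =>
    rw [← add_assoc, prodM, ih, prodM, mul_assoc, add_assoc]

theorem prodM_congr {α N : Type} [Monoid N] (M : ℕ → α → N)
    {x y : ℕ → α} {i n : ℕ} (h : ∀ k, i ≤ k → k < i + n → x k = y k) :
    prodM M x i n = prodM M y i n := by
  induction n with
  | zero => rfl
  | succ n ih =>
    rw [prodM, prodM, ih (fun k h1 h2 => h k h1 (by omega)), h (i + n) (by omega) (by omega)]

namespace Family

variable {α : Type} {L : ℕ} (F : Family α L)

/-- The first position touching `v`. -/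
noncomputable def fst (v : F.A ⊕ F.B) : ℕ := sInf {i | ∃ j : Fin L, (j : ℕ) = i ∧ F.Touches v j}

/-- The last position touching `v`. -/
noncomputable def lst (v : F.A ⊕ F.B) : ℕ := sSup {i | ∃ j : Fin L, (j : ℕ) = i ∧ F.Touches v j}

theorem bdd (v : F.A ⊕ F.B) : BddAbove {i | ∃ j : Fin L, (j : ℕ) = i ∧ F.Touches v j} :=
  ⟨L, by rintro _ ⟨j, rfl, -⟩; exact j.2.le⟩

theorem fst_le {v : F.A ⊕ F.B} {j : Fin L} (h : F.Touches v j) : F.fst v ≤ j :=
  Nat.sInf_le ⟨j, rfl, h⟩

theorem le_lst {v : F.A ⊕ F.B} {j : Fin L} (h : F.Touches v j) : (j : ℕ) ≤ F.lst v :=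
  le_csSup (F.bdd v) ⟨j, rfl, h⟩

theorem fst_le_lst (v : F.A ⊕ F.B) : F.fst v ≤ F.lst v := by
  by_cases h : ∃ j, F.Touches v j
  · obtain ⟨j, hj⟩ := h
    exact (F.fst_le hj).trans (F.le_lst hj)
  · have : {i | ∃ j : Fin L, (j : ℕ) = i ∧ F.Touches v j} = ∅ := by
      ext i
      simp only [Set.mem_empty_iff_false, iff_false]
      rintro ⟨j, -, hj⟩
      exact h ⟨j, hj⟩
    rw [fst, lst, this]
    simp

theorem lst_lt (hL : 0 < L) (v : F.A ⊕ F.B) : F.lst v < L := by
  by_cases h : {i | ∃ j : Fin L, (j : ℕ) = i ∧ F.Touches v j}.Nonempty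
  · obtain ⟨j, hj, -⟩ := Nat.sSup_mem h (F.bdd v)
    rw [lst, ← hj]
    exact j.2
  · rw [Set.not_nonempty_iff_eq_empty] at h
    rw [lst, h]
    simpa using hL

theorem inC_iff (k : ℕ) (v : F.A ⊕ F.B) : InC F.fst F.lst k v ↔ v ∈ F.interface k := by
  constructor
  · rintro ⟨h1, h2⟩
    have hne : {i | ∃ j : Fin L, (j : ℕ) = i ∧ F.Touches v j}.Nonempty := by
      rw [Set.nonempty_iff_ne_empty]
      intro h
      rw [lst, h] at h2
      rw [fst, h] at h1
      simp at h1 h2
      omega
    constructor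
    · obtain ⟨j, hj, h3⟩ := Nat.sInf_mem hne
      exact ⟨j, by rw [hj]; exact h1, h3⟩
    · obtain ⟨j, hj, h3⟩ := Nat.sSup_mem hne (F.bdd v)
      exact ⟨j, by rw [hj]; exact h2, h3⟩
  · rintro ⟨⟨i, h1, h2⟩, ⟨j, h3, h4⟩⟩
    exact ⟨(F.fst_le h2).trans_lt h1, h3.trans (F.le_lst h4)⟩

/-- Labels of the interfaces. -/
theorem exists_lab {p : ℕ} (hp : 0 < p) (hF : F.WidthLE p) (k : ℕ) :
    ∃ lab : F.A ⊕ F.B → Fin p, ∀ v w, v ∈ F.interface k → w ∈ F.interface k →
      lab v = lab w → v = w := by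
  classical
  have := F.finA
  have := F.finB
  have : Fintype (F.interface k) := Fintype.ofFinite _
  have h1 : Fintype.card (F.interface k) ≤ Fintype.card (Fin p) := by
    rw [Fintype.card_fin, ← Nat.card_eq_fintype_card]
    exact hF k
  obtain ⟨e⟩ := Function.Embedding.nonempty_of_card_le h1
  refine ⟨fun v => if h : v ∈ F.interface k then e ⟨v, h⟩ else ⟨0, hp⟩, ?_⟩
  intro v w hv hw
  simp only [dif_pos hv, dif_pos hw]
  intro h
  simpa using h

/-- The edges of the position `k` with the letter `c`. -/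
def posE (k : ℕ) (c : α) : F.A → F.B → Prop := fun a b => (F.owner a b : ℕ) = k ∧ F.edge a b c

/-- The edges of the positions `< k` on the input `x`. -/
def preE (k : ℕ) (x : ℕ → α) : F.A → F.B → Prop :=
  fun a b => (F.owner a b : ℕ) < k ∧ F.edge a b (x (F.owner a b))

theorem posData {p : ℕ} {lab : ℕ → F.A ⊕ F.B → Fin p}
    (hlab : ∀ k v w, v ∈ F.interface k → w ∈ F.interface k → lab k v = lab k w → v = w)
    (k : ℕ) (c : α) : PosData F.fst F.lst (lab k) (lab (k + 1)) k (F.posE k c) where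
  fl := F.fst_le_lst
  inj v w h1 h2 h3 := hlab k v w ((F.inC_iff _ _).1 h1) ((F.inC_iff _ _).1 h2) h3
  inj' v w h1 h2 h3 := hlab (k + 1) v w ((F.inC_iff _ _).1 h1) ((F.inC_iff _ _).1 h2) h3
  ea := by
    rintro a b ⟨h1, h2⟩
    have h3 : F.Touches (Sum.inl a) (F.owner a b) := ⟨a, b, c, Or.inl rfl, rfl, h2⟩
    have := F.fst_le h3
    have := F.le_lst h3
    omega
  eb := by
    rintro a b ⟨h1, h2⟩
    have h3 : F.Touches (Sum.inr b) (F.owner a b) := ⟨a, b, c, Or.inr rfl, rfl, h2⟩
    have := F.fst_le h3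
    have := F.le_lst h3
    omega

theorem preE_touch {k : ℕ} {x : ℕ → α} {a : F.A} {b : F.B} (h : F.preE k x a b) :
    F.fst (Sum.inl a) < k ∧ F.fst (Sum.inr b) < k := by
  obtain ⟨h1, h2⟩ := h
  have h3 : F.Touches (Sum.inl a) (F.owner a b) := ⟨a, b, _, Or.inl rfl, rfl, h2⟩
  have h4 : F.Touches (Sum.inr b) (F.owner a b) := ⟨a, b, _, Or.inr rfl, rfl, h2⟩
  exact ⟨(F.fst_le h3).trans_lt h1, (F.fst_le h4).trans_lt h1⟩

theorem preE_succ (k : ℕ) (x : ℕ → α) (a : F.A) (b : F.B) :
    F.preE (k + 1) x a b ↔ (F.preE k x a b ∨ F.posE k (x k) a b) := by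
  unfold preE posE
  constructor
  · rintro ⟨h1, h2⟩
    rcases Nat.lt_succ_iff_lt_or_eq.1 h1 with h3 | h3
    · exact Or.inl ⟨h3, h2⟩
    · right
      rw [h3] at h2
      exact ⟨h3, h2⟩
  · rintro (⟨h1, h2⟩ | ⟨h1, h2⟩)
    · exact ⟨by omega, h2⟩
    · refine ⟨by omega, ?_⟩
      rw [h1]; exact h2

theorem proper_inj {p : ℕ} {lab : F.A ⊕ F.B → Fin p} {k : ℕ} {T T' : Finset (Fin p)}
    (h' : Proper F.fst F.lst lab k T')
    (h1 : Us F.fst F.lst lab k T = Us F.fst F.lst lab k T')
    (h2 : Ws F.fst F.lst lab k T = Ws F.fst F.lst lab k T') : T ⊆ T' := by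
  intro q hq
  by_cases h3 : Unused F.fst F.lst lab k q
  · exact h' q h3
  rw [Unused] at h3
  push Not at h3
  obtain ⟨v, hv, rfl⟩ := h3
  rcases v with a | b
  · have h4 : a ∈ Us F.fst F.lst lab k T := Or.inr ⟨hv, hq⟩
    rw [h1] at h4
    rcases h4 with h4 | h4
    · have := hv.2; omega
    · exact h4.2
  · by_contra h5
    have h4 : b ∈ Ws F.fst F.lst lab k T' := Or.inr ⟨hv, h5⟩
    rw [← h2] at h4
    rcases h4 with h4 | h4
    · have := hv.2; omega
    · exact h4.2 hq

theorem exists_state {p : ℕ} {lab lab' : F.A ⊕ F.B → Fin p} {k : ℕ} {x : ℕ → α}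
    (hlab : ∀ v w, v ∈ F.interface k → w ∈ F.interface k → lab v = lab w → v = w)
    {T' : Finset (Fin p)} {M : F.A → F.B → Prop}
    (hM : IsStep (fun a b => F.preE k x a b ∨ F.posE k (x k) a b) ∅
      (Us F.fst F.lst lab' (k + 1) T') ∅ (Ws F.fst F.lst lab' (k + 1) T') M) :
    ∃ T : Finset (Fin p), Proper F.fst F.lst lab k T ∧
      Us F.fst F.lst lab k T = ∅ ∪ {a | ∃ b, M a b ∧ F.preE k x a b} ∧
      Ws F.fst F.lst lab k T = ∅ ∪ {b | ∃ a, M a b ∧ F.preE k x a b} := by
  classical
  have hlab' : ∀ v w, InC F.fst F.lst k v → InC F.fst F.lst k w → lab v = lab w → v = w :=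
    fun v w h1 h2 h3 => hlab v w ((F.inC_iff _ _).1 h1) ((F.inC_iff _ _).1 h2) h3
  let CA : F.A → Prop := fun a => ∃ b, M a b ∧ F.preE k x a b
  let CB : F.B → Prop := fun b => ∃ a, M a b ∧ F.preE k x a b
  let T : Finset (Fin p) := Finset.univ.filter (fun q => Unused F.fst F.lst lab k q ∨
    (∃ a, InC F.fst F.lst k (Sum.inl a) ∧ lab (Sum.inl a) = q ∧ CA a) ∨
    (∃ b, InC F.fst F.lst k (Sum.inr b) ∧ lab (Sum.inr b) = q ∧ ¬ CB b))
  have hTA : ∀ a, InC F.fst F.lst k (Sum.inl a) → (lab (Sum.inl a) ∈ T ↔ CA a) := by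
    intro a ha
    simp only [T, Finset.mem_filter, Finset.mem_univ, true_and]
    constructor
    · rintro (h | ⟨a', h1, h2, h3⟩ | ⟨b, h1, h2, h3⟩)
      · exact absurd rfl (h _ ha)
      · have := Sum.inl_injective (hlab' _ _ h1 ha h2)
        rwa [this] at h3
      · have := hlab' _ _ h1 ha h2
        simp at this
    · intro h
      exact Or.inr (Or.inl ⟨a, ha, rfl, h⟩)
  have hTB : ∀ b, InC F.fst F.lst k (Sum.inr b) → (lab (Sum.inr b) ∈ T ↔ ¬ CB b) := by
    intro b hb
    simp only [T, Finset.mem_filter, Finset.mem_univ, true_and]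
    constructor
    · rintro (h | ⟨a', h1, h2, h3⟩ | ⟨b, h1, h2, h3⟩)
      · exact absurd rfl (h _ hb)
      · have := hlab' _ _ h1 hb h2
        simp at this
      · have := Sum.inr_injective (hlab' _ _ h1 hb h2)
        rwa [this] at h3
    · intro h
      exact Or.inr (Or.inr ⟨b, hb, rfl, h⟩)
  have hpos : ∀ {a b}, F.posE k (x k) a b → k ≤ F.lst (Sum.inl a) ∧ k ≤ F.lst (Sum.inr b) := by
    rintro a b ⟨h1, h2⟩
    have h3 : F.Touches (Sum.inl a) (F.owner a b) := ⟨a, b, _, Or.inl rfl, rfl, h2⟩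
    have h4 : F.Touches (Sum.inr b) (F.owner a b) := ⟨a, b, _, Or.inr rfl, rfl, h2⟩
    have := F.le_lst h3
    have := F.le_lst h4
    omega
  refine ⟨T, ?_, ?_, ?_⟩
  · intro q hq
    simp only [T, Finset.mem_filter, Finset.mem_univ, true_and]
    exact Or.inl hq
  · ext a
    rw [Set.empty_union]
    show (F.lst (Sum.inl a) < k ∨ (InC F.fst F.lst k (Sum.inl a) ∧ lab (Sum.inl a) ∈ T)) ↔ CA a
    rcases lt_or_ge (F.lst (Sum.inl a)) k with c1 | c1
    · refine ⟨fun _ => ?_, fun _ => Or.inl c1⟩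
      have h1 : a ∈ Us F.fst F.lst lab' (k + 1) T' := Or.inl (by omega)
      rw [hM.ca] at h1
      rcases h1 with h1 | ⟨b, hb⟩
      · exact absurd h1 (by simp)
      · rcases hM.sub hb with h2 | h2
        · exact ⟨b, hb, h2⟩
        · have := (hpos h2).1; omega
    · rcases lt_or_ge (F.fst (Sum.inl a)) k with c2 | c2
      · rw [hTA a ⟨c2, c1⟩]
        constructor
        · rintro (h | h)
          · omega
          · exact h.2
        · intro h
          exact Or.inr ⟨⟨c2, c1⟩, h⟩
      · constructor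
        · rintro (h | h)
          · omega
          · have := h.1.1; omega
        · rintro ⟨b, h1, h2⟩
          have := (F.preE_touch h2).1; omega
  · ext b
    rw [Set.empty_union]
    show (F.lst (Sum.inr b) < k ∨ (InC F.fst F.lst k (Sum.inr b) ∧ lab (Sum.inr b) ∉ T)) ↔ CB b
    rcases lt_or_ge (F.lst (Sum.inr b)) k with c1 | c1
    · refine ⟨fun _ => ?_, fun _ => Or.inl c1⟩
      have h1 : b ∈ Ws F.fst F.lst lab' (k + 1) T' := Or.inl (by omega)
      rw [hM.cb] at h1
      rcases h1 with h1 | ⟨a, ha⟩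
      · exact absurd h1 (by simp)
      · rcases hM.sub ha with h2 | h2
        · exact ⟨a, ha, h2⟩
        · have := (hpos h2).2; omega
    · rcases lt_or_ge (F.fst (Sum.inr b)) k with c2 | c2
      · rw [hTB b ⟨c2, c1⟩, not_not]
        constructor
        · rintro (h | h)
          · omega
          · exact h.2
        · intro h
          exact Or.inr ⟨⟨c2, c1⟩, h⟩
      · constructor
        · rintro (h | h)
          · omega
          · have := h.1.1; omega
        · rintro ⟨a, h1, h2⟩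
          have := (F.preE_touch h2).2; omega

/-- The transfer matrix of a position. -/
noncomputable def tm {p : ℕ} (lab : ℕ → F.A ⊕ F.B → Fin p) (k : ℕ) (c : α) :
    Matrix (Finset (Fin p)) (Finset (Fin p)) T3 :=
  sig (posG F.fst F.lst (lab k) (lab (k + 1)) k (F.posE k c))

open Classical in
theorem prefix_eq {p : ℕ} {lab : ℕ → F.A ⊕ F.B → Fin p}
    (hlab : ∀ k v w, v ∈ F.interface k → w ∈ F.interface k → lab k v = lab k w → v = w)
    (x : ℕ → α) (n : ℕ) (T : Finset (Fin p)) :
    prodM (F.tm lab) x 0 n Finset.univ T =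
      if Proper F.fst F.lst (lab n) n T then
        ((stepc (F.preE n x) ∅ (Us F.fst F.lst (lab n) n T) ∅ (Ws F.fst F.lst (lab n) n T) : ℕ)
          : T3) else 0 := by
  have := F.finA
  have := F.finB
  induction n generalizing T with
  | zero =>
    have h0 : ∀ v, ¬ InC F.fst F.lst 0 v := fun v h => by have := h.1; omega
    have h1 : Proper F.fst F.lst (lab 0) 0 T ↔ T = Finset.univ := by
      constructor
      · intro h
        ext q
        simp only [Finset.mem_univ, iff_true]
        exact h q (fun v hv => absurd hv (h0 v))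
      · rintro rfl q hq
        exact Finset.mem_univ q
    by_cases hT : T = Finset.univ
    · rw [if_pos (h1.2 hT)]
      subst hT
      have h2 : Us F.fst F.lst (lab 0) 0 Finset.univ = ∅ := by
        ext a
        simp only [Set.mem_empty_iff_false, iff_false]
        rintro (h | h)
        · omega
        · exact h0 _ h.1
      have h3 : Ws F.fst F.lst (lab 0) 0 Finset.univ = ∅ := by
        ext a
        simp only [Set.mem_empty_iff_false, iff_false]
        rintro (h | h)
        · omega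
        · exact h0 _ h.1
      rw [h2, h3, stepc_empty _ (fun a b h => by have := h.1; omega)]
      simp [prodM]
    · rw [if_neg (fun h => hT (h1.1 h))]
      simp only [prodM]
      exact Matrix.one_apply_ne (fun h => hT h.symm)
  | succ n ih =>
    rw [prodM, Matrix.mul_apply, Nat.zero_add]
    by_cases hT : Proper F.fst F.lst (lab (n + 1)) (n + 1) T
    · rw [if_pos hT, stepc_congr (F.preE_succ n x)]
      let ι := {S : Finset (Fin p) // Proper F.fst F.lst (lab n) n S}
      rw [stepc_comp (ι := ι) (F.preE n x) (F.posE n (x n)) (fun a b h1 h2 => by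
          have := h1.1; have := h2.1; omega) ∅ _ ∅ _ (fun t => Us F.fst F.lst (lab n) n t.1)
          (fun t => Ws F.fst F.lst (lab n) n t.1)]
      · push_cast
        have h1 : ∀ S : Finset (Fin p), prodM (F.tm lab) x 0 n Finset.univ S *
            F.tm lab n (x n) S T = if Proper F.fst F.lst (lab n) n S then
              ((stepc (F.preE n x) ∅ (Us F.fst F.lst (lab n) n S) ∅
                (Ws F.fst F.lst (lab n) n S) : ℕ) : T3) *
              ((stepc (F.posE n (x n)) (Us F.fst F.lst (lab n) n S)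
                (Us F.fst F.lst (lab (n + 1)) (n + 1) T) (Ws F.fst F.lst (lab n) n S)
                (Ws F.fst F.lst (lab (n + 1)) (n + 1) T) : ℕ) : T3) else 0 := by
          intro S
          rw [ih]
          by_cases hS : Proper F.fst F.lst (lab n) n S
          · rw [if_pos hS, if_pos hS, tm, sig, Matrix.of_apply,
              (F.posData hlab n (x n)).cnt_eq hS hT]
          · rw [if_neg hS, if_neg hS, zero_mul]
        simp_rw [h1]
        rw [← Finset.sum_filter]
        exact Finset.sum_subtype _ (fun S => by simp) _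
      · rintro ⟨S, hS⟩ ⟨S', hS'⟩ h1 h2
        simp only at h1 h2
        exact Subtype.ext (Finset.Subset.antisymm (F.proper_inj hS' h1 h2)
          (F.proper_inj hS h1.symm h2.symm))
      · intro M hM
        obtain ⟨S, h1, h2, h3⟩ := F.exists_state (hlab n) hM
        exact ⟨⟨S, h1⟩, h2, h3⟩
    · rw [if_neg hT]
      apply Finset.sum_eq_zero
      intro S _
      rw [tm, sig, Matrix.of_apply, PosData.cnt_right hT]
      simp

/-- **Transfer matrices.** -/
theorem transfer (hL : 0 < L) {p : ℕ} (hp : 0 < p) (hF : F.WidthLE p) :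
    ∃ M : ℕ → α → Matrix (Finset (Fin p)) (Finset (Fin p)) T3, (∀ k c, IsGad (M k c)) ∧
      ∀ x : ℕ → α, UniquePM (F.graph fun i => x i) ↔
        prodM M x 0 L Finset.univ Finset.univ = 1 := by
  classical
  have := F.finA
  have := F.finB
  choose lab hlab using F.exists_lab hp hF
  refine ⟨F.tm lab, ?_, ?_⟩
  · intro k c
    have : Fintype (IAt F.fst F.lst k) := Fintype.ofFinite _
    have : Fintype (IBt F.fst F.lst (lab (k + 1)) k) := Fintype.ofFinite _
    exact ⟨_, _, inferInstance, inferInstance, _, rfl⟩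
  · intro x
    have h1 : Proper F.fst F.lst (lab L) L (Finset.univ : Finset (Fin p)) :=
      fun q _ => Finset.mem_univ q
    have h2 : Us F.fst F.lst (lab L) L Finset.univ = Set.univ := by
      ext a
      simp only [Set.mem_univ, iff_true]
      exact Or.inl (F.lst_lt hL _)
    have h3 : Ws F.fst F.lst (lab L) L Finset.univ = Set.univ := by
      ext a
      simp only [Set.mem_univ, iff_true]
      exact Or.inl (F.lst_lt hL _)
    rw [F.prefix_eq hlab x L Finset.univ, if_pos h1, h2, h3, T3.cast_eq_one, uniquePM_iff]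
    rw [stepc_congr (E' := F.preE L x)]
    intro a b
    exact ⟨fun h => ⟨(F.owner a b).2, h⟩, fun h => h.2⟩

end Family

end H54.UPM
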