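import Pool.Agent.H54.UPM.Grp

/-!
# Proper subgroups of `GL_n(F_2)` have index at least `2^(n-1)`
-/

namespace H54.UPM

open Function Matrix

variable {n : ℕ}

/-- The transvection matrix `1 + x φ`. -/
def Tv (x φ : Fin n → ZMod 2) : Matrix (Fin n) (Fin n) (ZMod 2) := 1 + vecMulVec x φ

theorem Tv_mul (x φ x' φ' : Fin n → ZMod 2) (h : φ ⬝ᵥ x' = 0) :
    Tv x φ * Tv x' φ' = 1 + vecMulVec x φ + vecMulVec x' φ' := by
  rw [Tv, Tv, add_mul, mul_add, mul_add, one_mul, one_mul, mul_one, vecMulVec_mul_vecMulVec, h]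
  simp [add_comm, add_left_comm]

theorem Tv_sq (x φ : Fin n → ZMod 2) (h : φ ⬝ᵥ x = 0) : Tv x φ * Tv x φ = 1 := by
  rw [Tv_mul x φ x φ h, add_assoc]
  have : vecMulVec x φ + vecMulVec x φ = 0 := by
    ext i j
    simp only [Matrix.add_apply, Matrix.zero_apply]
    exact CharTwo.add_self_eq_zero _
  rw [this, add_zero]

/-- The transvection as an element of the general linear group. -/
def TvG (x φ : Fin n → ZMod 2) (h : φ ⬝ᵥ x = 0) : GL (Fin n) (ZMod 2) :=
  ⟨Tv x φ, Tv x φ, Tv_sq x φ h, Tv_sq x φ h⟩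

theorem conj_of (g : GL (Fin n) (ZMod 2)) {x φ x' φ' : Fin n → ZMod 2} (h : φ ⬝ᵥ x = 0)
    (h' : φ' ⬝ᵥ x' = 0) (hx : g.1 *ᵥ x = x') (hφ : φ' ᵥ* g.1 = φ) :
    g * TvG x φ h * g⁻¹ = TvG x' φ' h' := by
  rw [mul_inv_eq_iff_eq_mul]
  apply Units.ext
  show g.1 * Tv x φ = Tv x' φ' * g.1
  rw [Tv, Tv, mul_add, add_mul, mul_one, one_mul, mul_vecMulVec, vecMulVec_mul, hx, hφ]

theorem single_dot (i : Fin n) (u : Fin n → ZMod 2) : Pi.single i 1 ⬝ᵥ u = u i := by
  simp

theorem dot_single (i : Fin n) (u : Fin n → ZMod 2) : u ⬝ᵥ Pi.single i 1 = u i := by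
  simp

theorem single_dot_single {i j : Fin n} (h : i ≠ j) :
    (Pi.single j 1 : Fin n → ZMod 2) ⬝ᵥ Pi.single i 1 = 0 := by
  rw [dot_single]; simp [h]

/-- The permutation matrix as an element of the general linear group. -/
noncomputable def PmG (σ : Equiv.Perm (Fin n)) : GL (Fin n) (ZMod 2) :=
  ⟨σ.permMatrix (ZMod 2), σ⁻¹.permMatrix (ZMod 2),
    by rw [← Matrix.permMatrix_mul]; simp,
    by rw [← Matrix.permMatrix_mul]; simp⟩

/-- All elementary transvections are conjugate. -/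
theorem conj_elem {i j k l : Fin n} (hij : i ≠ j) (hkl : k ≠ l) :
    ∃ g : GL (Fin n) (ZMod 2), g * TvG (Pi.single i 1) (Pi.single j 1) (single_dot_single hij) * g⁻¹ =
      TvG (Pi.single k 1) (Pi.single l 1) (single_dot_single hkl) := by
  -- a permutation `σ` with `σ k = i`, `σ l = j`
  obtain ⟨σ, h1, h2⟩ : ∃ σ : Equiv.Perm (Fin n), σ k = i ∧ σ l = j := by
    refine ⟨Equiv.swap (Equiv.swap k i l) j * Equiv.swap k i, ?_, ?_⟩
    · rw [Equiv.Perm.mul_apply, Equiv.swap_apply_left]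
      apply Equiv.swap_apply_of_ne_of_ne
      · intro h
        have : Equiv.swap k i k = Equiv.swap k i l := by rw [Equiv.swap_apply_left]; exact h
        exact hkl ((Equiv.swap k i).injective this)
      · exact hij
    · rw [Equiv.Perm.mul_apply, Equiv.swap_apply_left]
  refine ⟨PmG σ, conj_of _ _ _ ?_ ?_⟩
  · show σ.permMatrix (ZMod 2) *ᵥ Pi.single i 1 = Pi.single k 1
    rw [Matrix.permMatrix_mulVec]
    funext a
    simp only [Function.comp_apply, Pi.single_apply]
    have : σ a = i ↔ a = k := by rw [← h1]; exact σ.injective.eq_iff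
    simp [this]
  · show Pi.single l 1 ᵥ* σ.permMatrix (ZMod 2) = Pi.single j 1
    rw [Matrix.vecMul_permMatrix]
    funext a
    simp only [Function.comp_apply, Pi.single_apply]
    have : σ.symm a = l ↔ a = j := by rw [Equiv.symm_apply_eq, h2]
    simp [this]

/-- A transvection `1 + e_i u` is conjugate to an elementary one. -/
theorem conj_row {i j : Fin n} (hij : i ≠ j) {u : Fin n → ZMod 2} (hui : u i = 0) (huj : u j = 1) :
    ∃ g : GL (Fin n) (ZMod 2), g * TvG (Pi.single i 1) u (by rw [dot_single]; exact hui) * g⁻¹ =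
      TvG (Pi.single i 1) (Pi.single j 1) (single_dot_single hij) := by
  set w : Fin n → ZMod 2 := u - Pi.single j 1 with hw
  have hwj : w ⬝ᵥ Pi.single j 1 = 0 := by
    rw [dot_single, hw]; simp [huj]
  refine ⟨TvG (Pi.single j 1) w hwj, conj_of _ _ _ ?_ ?_⟩
  · show Tv (Pi.single j 1) w *ᵥ Pi.single i 1 = Pi.single i 1
    rw [Tv, add_mulVec, one_mulVec]
    have : vecMulVec (Pi.single j 1) w *ᵥ (Pi.single i 1 : Fin n → ZMod 2) = 0 := by
      rw [vecMulVec_mulVec, dot_single, hw]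
      simp [hui, hij]
    rw [this, add_zero]
  · show Pi.single j 1 ᵥ* Tv (Pi.single j 1) w = u
    rw [Tv, vecMul_add, vecMul_one, vecMul_vecMulVec, single_dot]
    simp [hw]

/-- Row transvections commute; they form a subgroup. -/
def Vsub (i : Fin n) : Subgroup (GL (Fin n) (ZMod 2)) where
  carrier := {g | ∃ (u : Fin n → ZMod 2) (h : u ⬝ᵥ Pi.single i 1 = 0), g = TvG (Pi.single i 1) u h}
  mul_mem' := by
    rintro _ _ ⟨u, h, rfl⟩ ⟨u', h', rfl⟩
    refine ⟨u + u', by rw [add_dotProduct, h, h', add_zero], ?_⟩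
    apply Units.ext
    show Tv _ u * Tv _ u' = Tv _ (u + u')
    rw [Tv_mul _ _ _ _ h, Tv, vecMulVec_add, add_assoc]
  one_mem' := by
    refine ⟨0, by simp, ?_⟩
    apply Units.ext
    show (1 : Matrix (Fin n) (Fin n) (ZMod 2)) = Tv _ 0
    rw [Tv]; simp
  inv_mem' := by
    rintro _ ⟨u, h, rfl⟩
    exact ⟨u, h, rfl⟩

theorem Tv_inj {i : Fin n} {u u' : Fin n → ZMod 2}
    (h : Tv (Pi.single i 1) u = Tv (Pi.single i 1) u') : u = u' := by
  rw [Tv, Tv, add_right_inj] at h
  funext a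
  have := congrFun (congrFun h i) a
  simpa [vecMulVec_apply] using this

theorem card_Vsub (m : ℕ) : Nat.card (Vsub (0 : Fin (m + 1))) = 2 ^ m := by
  have e : Nat.card (Fin m → ZMod 2) = 2 ^ m := by
    simp [Nat.card_eq_fintype_card, ZMod.card]
  rw [← e]
  symm
  have hd : ∀ v : Fin m → ZMod 2, (Fin.cons 0 v : Fin (m + 1) → ZMod 2) ⬝ᵥ Pi.single 0 1 = 0 := by
    intro v; rw [dot_single]; rfl
  apply Nat.card_eq_of_bijective
    (fun v : Fin m → ZMod 2 => (⟨TvG (Pi.single 0 1) (Fin.cons 0 v) (hd v), _, hd v, rfl⟩ :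
      Vsub (0 : Fin (m + 1))))
  constructor
  · intro v v' h
    have h1 : TvG (Pi.single 0 1) (Fin.cons 0 v) (hd v) = TvG (Pi.single 0 1) (Fin.cons 0 v') (hd v') :=
      congrArg Subtype.val h
    have h2 := Tv_inj (congrArg Units.val h1)
    exact Fin.cons_right_injective _ h2
  · rintro ⟨_, u, h, rfl⟩
    refine ⟨Fin.tail u, ?_⟩
    apply Subtype.ext
    apply Units.ext
    show Tv _ _ = Tv _ _
    have : (Fin.cons 0 (Fin.tail u) : Fin (m + 1) → ZMod 2) = u := by
      conv_rhs => rw [← Fin.cons_self_tail u]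
      congr 1
      rw [dot_single] at h
      exact h.symm
    rw [this]

theorem Vsub_conj {i : Fin n} (a b : GL (Fin n) (ZMod 2)) (ha : a ∈ Vsub i) (hb : b ∈ Vsub i)
    (ha1 : a ≠ 1) (hb1 : b ≠ 1) : IsConj a b := by
  have key : ∀ a ∈ Vsub i, a ≠ 1 → ∃ j, ∃ h : i ≠ j,
      IsConj a (TvG (Pi.single i 1) (Pi.single j 1) (single_dot_single h)) := by
    rintro _ ⟨u, h, rfl⟩ hne
    have hui : u i = 0 := by rw [dot_single] at h; exact h
    have : ∃ j, u j ≠ 0 := by
      by_contra hcon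
      push Not at hcon
      apply hne
      apply Units.ext
      show Tv _ u = 1
      have : u = 0 := funext hcon
      rw [this, Tv]; simp
    obtain ⟨j, hj⟩ := this
    have hj1 : u j = 1 := by
      revert hj
      generalize u j = y
      revert y
      decide
    have hij : i ≠ j := by
      rintro rfl
      exact hj hui
    obtain ⟨g, hg⟩ := conj_row hij hui hj1
    exact ⟨j, hij, isConj_iff.2 ⟨g, hg⟩⟩
  obtain ⟨j, hj, h1⟩ := key a ha ha1
  obtain ⟨k, hk, h2⟩ := key b hb hb1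
  obtain ⟨g, hg⟩ := conj_elem hj hk
  exact h1.trans ((isConj_iff.2 ⟨g, hg⟩).trans h2.symm)

/-- A normal subgroup containing the row transvections is everything. -/
theorem normal_eq_top {m : ℕ} (N : Subgroup (GL (Fin (m + 2)) (ZMod 2))) [hN : N.Normal]
    (h : Vsub (0 : Fin (m + 2)) ≤ N) : N = ⊤ := by
  have helem : ∀ i j : Fin (m + 2), ∀ hij : i ≠ j,
      TvG (Pi.single i 1) (Pi.single j 1) (single_dot_single hij) ∈ N := by
    intro i j hij
    have h01 : (0 : Fin (m + 2)) ≠ 1 := by simp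
    obtain ⟨g, hg⟩ := conj_elem h01 hij
    rw [← hg]
    apply hN.conj_mem
    apply h
    exact ⟨_, _, rfl⟩
  have htr : ∀ t : TransvectionStruct (Fin (m + 2)) (ZMod 2), ∃ g ∈ N, g.1 = t.toMatrix := by
    intro t
    have hc : t.c = 0 ∨ t.c = 1 := by
      generalize t.c = y
      revert y
      decide
    rcases hc with hc | hc
    · refine ⟨1, N.one_mem, ?_⟩
      simp [TransvectionStruct.toMatrix, transvection, hc]
    · refine ⟨_, helem t.i t.j t.hij, ?_⟩
      show Tv _ _ = _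
      rw [TransvectionStruct.toMatrix, transvection, hc, Tv]
      congr 1
      ext a b
      rw [vecMulVec_apply, Matrix.single_apply, Pi.single_apply, Pi.single_apply]
      by_cases h1 : a = t.i <;> by_cases h2 : b = t.j <;> simp [h1, h2, eq_comm]
  have hlist : ∀ L : List (TransvectionStruct (Fin (m + 2)) (ZMod 2)),
      ∃ g ∈ N, g.1 = (L.map TransvectionStruct.toMatrix).prod := by
    intro L
    induction L with
    | nil => exact ⟨1, N.one_mem, by simp⟩
    | cons t L ih =>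
      obtain ⟨g, hg, hg'⟩ := ih
      obtain ⟨g2, hg2, hg2'⟩ := htr t
      exact ⟨g2 * g, N.mul_mem hg2 hg, by simp [hg', hg2']⟩
  rw [eq_top_iff]
  intro M _
  obtain ⟨L, L', D, hM⟩ := Matrix.Pivot.exists_list_transvec_mul_diagonal_mul_list_transvec M.1
  obtain ⟨g, hg, hg'⟩ := hlist L
  obtain ⟨g2, hg2, hg2'⟩ := hlist L'
  have hdet : IsUnit (M.1.det) := by
    rw [← Matrix.isUnit_iff_isUnit_det]; exact M.isUnit
  have hD : Matrix.diagonal D = 1 := by
    rw [hM, Matrix.det_mul, Matrix.det_mul, ← hg', ← hg2', Matrix.det_diagonal] at hdet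
    have h1 : IsUnit (∏ i, D i) := by
      have := isUnit_of_mul_isUnit_left hdet
      exact isUnit_of_mul_isUnit_right this
    have h2 : ∀ i, D i = 1 := by
      intro i
      have h3 : D i ≠ 0 := by
        intro h0
        rw [Finset.prod_eq_zero (Finset.mem_univ i) h0] at h1
        exact not_isUnit_zero h1
      revert h3
      generalize D i = y
      revert y
      decide
    rw [show D = fun _ => 1 from funext h2]
    exact Matrix.diagonal_one
  have : M = g * g2 := by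
    apply Units.ext
    show M.1 = g.1 * g2.1
    rw [hM, hD, mul_one, hg', hg2']
  rw [this]
  exact N.mul_mem hg hg2

/-- Proper subgroups of `GL_(m+2)(F_2)` have index at least `2^(m+1)`. -/
theorem GL_index (m : ℕ) (K : Subgroup (GL (Fin (m + 2)) (ZMod 2))) (hK : K ≠ ⊤) :
    2 ^ (m + 1) ≤ Nat.card (GL (Fin (m + 2)) (ZMod 2) ⧸ K) := by
  classical
  by_contra hlt
  push Not at hlt
  have : Fintype (GL (Fin (m + 2)) (ZMod 2) ⧸ K) := Fintype.ofFinite _
  have : Fintype (Vsub (0 : Fin (m + 2))) := Fintype.ofFinite _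
  have hcard := card_Vsub (m + 1)
  have h1 := trivial_of_small (X := GL (Fin (m + 2)) (ZMod 2) ⧸ K) (Vsub (0 : Fin (m + 2)))
    (fun a b ha hb ha1 hb1 => Vsub_conj a b ha hb ha1 hb1) (by
      rw [← Nat.card_eq_fintype_card, ← Nat.card_eq_fintype_card, hcard]; exact hlt)
  have h2 : Vsub (0 : Fin (m + 2)) ≤ K.normalCore := by
    intro v hv g
    have := h1 v hv (QuotientGroup.mk g⁻¹)
    rw [← QuotientGroup.mk_mul_of_mem] at this
    · have h3 : (QuotientGroup.mk (v * g⁻¹) : GL (Fin (m + 2)) (ZMod 2) ⧸ K) =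
        QuotientGroup.mk g⁻¹ := h1 v hv (QuotientGroup.mk g⁻¹)
      rw [QuotientGroup.eq] at h3
      have h4 : (v * g⁻¹)⁻¹ * g⁻¹ = (g * v * g⁻¹)⁻¹ := by group
      rw [h4] at h3
      exact K.inv_mem_iff.1 h3
    · exact K.one_mem
  have h3 := normal_eq_top K.normalCore h2
  apply hK
  rw [eq_top_iff, ← h3]
  exact K.normalCore_le

end H54.UPM
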