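import Pool.Agent.H54.UPM.Struct
import Pool.Agent.H54.UPM.GL

/-!
# Words of gadgets recognising a group
-/

namespace H54.UPM

open Function Matrix

theorem exists_idem_pow {M : Type} [Monoid M] [Finite M] (t : M) :
    ∃ k, 0 < k ∧ t ^ k * t ^ k = t ^ k := by
  have hninj : ¬ Function.Injective (fun n : ℕ => t ^ n) := not_injective_infinite_finite _
  rw [Function.Injective] at hninj
  push Not at hninj
  obtain ⟨i, j, hij, hne⟩ := hninj
  have key : ∀ i j, i < j → t ^ i = t ^ j → ∃ k, 0 < k ∧ t ^ k * t ^ k = t ^ k := by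
    intro i j hlt heq
    have hd : ∀ n, i ≤ n → t ^ (n + (j - i)) = t ^ n := by
      intro n hn
      have h1 : n + (j - i) = j + (n - i) := by omega
      have h2 : n = i + (n - i) := by omega
      rw [h1, pow_add, ← heq, ← pow_add, ← h2]
    have hmul : ∀ m n, i ≤ n → t ^ (n + m * (j - i)) = t ^ n := by
      intro m n hn
      induction m with
      | zero => simp
      | succ m ih =>
        rw [Nat.succ_mul, ← add_assoc, hd _ (by omega), ih]
    refine ⟨(i + 1) * (j - i), Nat.mul_pos (by omega) (by omega), ?_⟩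
    rw [← pow_add]
    apply hmul
    calc i ≤ (i + 1) * 1 := by omega
      _ ≤ (i + 1) * (j - i) := Nat.mul_le_mul_left _ (by omega)
  rcases Nat.lt_or_gt_of_ne hne with h | h
  · exact key i j h hij
  · exact key j i h hij.symm

/-- In a finite monoid there is an idempotent `e` such that `e M e` is a group. -/
theorem exists_kernel_idem {M : Type} [Monoid M] [Finite M] :
    ∃ e : M, e * e = e ∧ ∀ t, ∃ u, (e * t * e) * (e * u * e) = e ∧ (e * u * e) * (e * t * e) = e := by
  classical
  have := Fintype.ofFinite M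
  let S : M → Finset M := fun e => Finset.univ.image (fun t => e * t * e)
  obtain ⟨e, he, hmin⟩ : ∃ e : M, e * e = e ∧ ∀ f : M, f * f = f → (S e).card ≤ (S f).card := by
    obtain ⟨e, h1, h2⟩ := Finset.exists_min_image
      (Finset.univ.filter (fun e : M => e * e = e)) (fun e => (S e).card) ⟨1, by simp⟩
    exact ⟨e, by simpa using h1, fun f hf => h2 f (by simpa using hf)⟩
  refine ⟨e, he, fun t => ?_⟩
  set x := e * t * e with hx
  have hex : e * x = x := by rw [hx, ← mul_assoc, ← mul_assoc, he]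
  have hxe : x * e = x := by rw [hx, mul_assoc, he]
  have hep : ∀ k, 0 < k → e * x ^ k = x ^ k ∧ x ^ k * e = x ^ k := by
    intro k hk
    obtain ⟨k, rfl⟩ : ∃ m, k = m + 1 := ⟨k - 1, by omega⟩
    constructor
    · rw [pow_succ', ← mul_assoc, hex]
    · rw [pow_succ, mul_assoc, hxe]
  obtain ⟨k, hk, hidem⟩ := exists_idem_pow x
  have hsub : S (x ^ k) ⊆ S e := by
    intro y hy
    simp only [S, Finset.mem_image, Finset.mem_univ, true_and] at hy ⊢
    obtain ⟨t', rfl⟩ := hy
    refine ⟨x ^ k * t' * x ^ k, ?_⟩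
    rw [← mul_assoc, ← mul_assoc, (hep k hk).1, mul_assoc, mul_assoc, (hep k hk).2, ← mul_assoc]
  have heq : S (x ^ k) = S e := Finset.eq_of_subset_of_card_le hsub (hmin _ hidem)
  have hmem : e ∈ S (x ^ k) := by
    rw [heq]
    simp only [S, Finset.mem_image, Finset.mem_univ, true_and]
    exact ⟨e, by rw [he, he]⟩
  simp only [S, Finset.mem_image, Finset.mem_univ, true_and] at hmem
  obtain ⟨t', ht'⟩ := hmem
  have hfe : x ^ k = e := by
    have h1 : x ^ k * e = e := by
      rw [← ht', ← mul_assoc, ← mul_assoc, hidem]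
    rw [← (hep k hk).2, h1]
  have hu : e * x ^ (2 * k - 1) * e = x ^ (2 * k - 1) := by
    rw [(hep _ (by omega)).1, (hep _ (by omega)).2]
  refine ⟨x ^ (2 * k - 1), ?_, ?_⟩
  · rw [hu, ← pow_succ']
    have : 2 * k - 1 + 1 = k + k := by omega
    rw [this, pow_add, hfe, he]
  · rw [hu, ← pow_succ]
    have : 2 * k - 1 + 1 = k + k := by omega
    rw [this, pow_add, hfe, he]

/-- The group `e M e`. -/
def EME {M : Type} [Monoid M] (e : M) : Type := {t : M // e * t = t ∧ t * e = t}

section EME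

variable {M : Type} [Monoid M] {e : M} (he : e * e = e)
  (hinv : ∀ t, ∃ u, (e * t * e) * (e * u * e) = e ∧ (e * u * e) * (e * t * e) = e)

include he hinv in
theorem EME.exists_inv (t : EME e) : ∃ u : EME e, u.1 * t.1 = e := by
  obtain ⟨u, -, h2⟩ := hinv t.1
  refine ⟨⟨e * u * e, ?_, ?_⟩, ?_⟩
  · rw [← mul_assoc, ← mul_assoc, he]
  · rw [mul_assoc, he]
  · have : e * t.1 * e = t.1 := by rw [t.2.1, t.2.2]
    rw [this] at h2
    exact h2

/-- The group structure of `e M e`. -/
@[instance_reducible]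
noncomputable def EME.group : Group (EME e) :=
  @Group.ofLeftAxioms (EME e)
    ⟨fun a b => ⟨a.1 * b.1, by rw [← mul_assoc, a.2.1], by rw [mul_assoc, b.2.2]⟩⟩
    ⟨fun a => (EME.exists_inv he hinv a).choose⟩
    ⟨⟨e, he, he⟩⟩
    (fun a b c => Subtype.ext (mul_assoc a.1 b.1 c.1))
    (fun a => Subtype.ext a.2.1)
    (fun a => Subtype.ext (EME.exists_inv he hinv a).choose_spec)

end EME

/-- Homomorphisms from a group to the signature monoid, not necessarily injective. -/
theorem structure_thm' {q : ℕ} {H : Type} [Group H]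
    (ι : H → Matrix (Finset (Fin q)) (Finset (Fin q)) T3) (hmul : ∀ a b, ι (a * b) = ι a * ι b)
    (hgad : ∀ a, IsGad (ι a)) :
    ∃ ρ : H →* Equiv.Perm (Fin q), ∀ a, ρ a = 1 → ι a = ι 1 := by
  classical
  by_cases h0 : ι 1 = 0
  · refine ⟨1, fun a _ => ?_⟩
    have : ι a = ι 1 * ι a := by rw [← hmul, one_mul]
    rw [this, h0, zero_mul]
  let K : Subgroup H :=
    { carrier := {a | ι a = ι 1}
      mul_mem' := by
        intro a b ha hb
        show ι (a * b) = ι 1
        rw [hmul, show ι a = ι 1 from ha, show ι b = ι 1 from hb, ← hmul, one_mul]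
      one_mem' := rfl
      inv_mem' := by
        intro a ha
        show ι a⁻¹ = ι 1
        have h1 : ι a = ι 1 := ha
        have h2 : ι a⁻¹ = ι 1 * ι a⁻¹ := by rw [← hmul, one_mul]
        rw [h2, ← h1, ← hmul, mul_inv_cancel, h1] }
  have hK : ∀ a, a ∈ K ↔ ι a = ι 1 := fun _ => Iff.rfl
  have hN : K.Normal := by
    refine ⟨fun a ha g => ?_⟩
    rw [hK] at ha ⊢
    rw [hmul, hmul, ha, ← hmul, ← hmul, mul_one, mul_inv_cancel]
  have hlift : ∀ a b : H, (QuotientGroup.leftRel K) a b → ι a = ι b := by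
    intro a b hab
    rw [QuotientGroup.leftRel_apply, hK] at hab
    have h1 : ι b = ι a * ι (a⁻¹ * b) := by rw [← hmul, mul_inv_cancel_left]
    rw [h1, hab, ← hmul, mul_one]
  let ι' : H ⧸ K → Matrix (Finset (Fin q)) (Finset (Fin q)) T3 := Quotient.lift ι hlift
  have hι' : ∀ a : H, ι' (QuotientGroup.mk a) = ι a := fun _ => rfl
  obtain ⟨Ω, _, ρ, hΩ, hρ⟩ := structure_thm ι' (by
      intro a b
      obtain ⟨a, rfl⟩ := QuotientGroup.mk_surjective a
      obtain ⟨b, rfl⟩ := QuotientGroup.mk_surjective b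
      rw [← QuotientGroup.mk_mul, hι', hι', hι', hmul]) (by
      intro a b hab
      obtain ⟨a, rfl⟩ := QuotientGroup.mk_surjective a
      obtain ⟨b, rfl⟩ := QuotientGroup.mk_surjective b
      rw [hι', hι'] at hab
      rw [QuotientGroup.eq, hK, hmul, ← hab, ← hmul, inv_mul_cancel]) (by
      intro a
      obtain ⟨a, rfl⟩ := QuotientGroup.mk_surjective a
      rw [hι']
      exact hgad a) (by
      rw [← QuotientGroup.mk_one, hι']
      exact h0)
  obtain ⟨em⟩ := Function.Embedding.nonempty_of_card_le hΩ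
  refine ⟨((Equiv.Perm.viaEmbeddingHom em).comp ρ).comp (QuotientGroup.mk' K), ?_⟩
  intro a ha
  have h1 : Equiv.Perm.viaEmbeddingHom em (ρ (QuotientGroup.mk a)) = 1 := ha
  have h2 : ρ (QuotientGroup.mk a) = 1 := by
    apply Equiv.Perm.viaEmbeddingHom_injective em
    rw [h1, map_one]
  have h3 : (QuotientGroup.mk a : H ⧸ K) = 1 := by
    apply hρ
    rw [h2, map_one]
  have h4 := congrArg ι' h3
  rw [← QuotientGroup.mk_one, hι', hι'] at h4
  exact h4

/-- **Core theorem.** If words over an alphabet `α`, evaluated in a finite group `G`, are tested,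
through `r` families of gadgets with `q` ports (one gadget of each family for each letter),
arbitrary boundary vectors and an arbitrary Boolean combination, for a property that separates the
elements of `G`, then `G` is a quotient of a subgroup of the `r`-th power of the symmetric group of
degree `q`. -/
theorem core {q r : ℕ} {α G : Type} [Group G] [Finite G] [Nontrivial G] (f : α → G)
    (hgen : ∀ g, ∃ l : List α, l ≠ [] ∧ (l.map f).prod = g)
    (s : Fin r → α → Matrix (Finset (Fin q)) (Finset (Fin q)) T3) (hs : ∀ k c, IsGad (s k c))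
    (b0 b1 : Fin r → Finset (Fin q) → T3) (acc : (Fin r → T3) → Prop) (χ : G → Prop)
    (hχ : ∀ g g', (∀ a b, χ (a * g * b) ↔ χ (a * g' * b)) → g = g')
    (hacc : ∀ l : List α, l ≠ [] →
      (acc (fun k => b0 k ⬝ᵥ ((l.map (s k)).prod *ᵥ b1 k)) ↔ χ (l.map f).prod)) :
    ∃ (H : Subgroup (Fin r → Equiv.Perm (Fin q))) (φ : H →* G), Surjective φ := by
  classical
  let Mt := Matrix (Finset (Fin q)) (Finset (Fin q)) T3
  let T : Submonoid ((Fin r → Mt) × G) :=
    { carrier := {p | ∃ l : List α, p = (fun k => (l.map (s k)).prod, (l.map f).prod)}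
      mul_mem' := by
        rintro _ _ ⟨l, rfl⟩ ⟨l', rfl⟩
        refine ⟨l ++ l', ?_⟩
        simp only [List.map_append, List.prod_append]
        rfl
      one_mem' := ⟨[], rfl⟩ }
  have hfinM : Finite Mt := by
    show Finite (Finset (Fin q) → Finset (Fin q) → T3)
    infer_instance
  have hgad : ∀ k, ∀ l : List α, IsGad ((l.map (s k)).prod) := by
    intro k l
    induction l with
    | nil => simpa using (IsGad.one : IsGad (1 : Mt))
    | cons g l ih =>
      rw [List.map_cons, List.prod_cons]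
      exact (hs k g).mul ih
  -- the first coordinate determines the second
  have huniq : ∀ p p' : (Fin r → Mt) × G, p ∈ T → p' ∈ T → p.1 = p'.1 → p.2 = p'.2 := by
    rintro _ _ ⟨l, rfl⟩ ⟨l', rfl⟩ h
    apply hχ
    intro a b
    obtain ⟨la, ha, rfl⟩ := hgen a
    obtain ⟨lb, hb, rfl⟩ := hgen b
    have h1 := hacc (la ++ l ++ lb) (by simp [ha])
    have h2 := hacc (la ++ l' ++ lb) (by simp [ha])
    simp only [List.map_append, List.prod_append] at h1 h2
    have h3 : ∀ k, (l.map (s k)).prod = (l'.map (s k)).prod := fun k => congrFun h k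
    simp only [h3] at h1
    rw [← h1, h2]
  obtain ⟨e, he, hinv⟩ := exists_kernel_idem (M := T)
  let _ := EME.group he hinv
  let ι : Fin r → EME e → Mt := fun k t => t.1.1.1 k
  have hιmul : ∀ k a b, ι k (a * b) = ι k a * ι k b := fun k a b => rfl
  have he2 : e.1.2 = 1 := by
    have := congrArg (fun t : T => t.1.2) he
    have h2 : e.1.2 * e.1.2 = e.1.2 := this
    exact mul_eq_left.1 h2
  let ψ : EME e →* G :=
    { toFun := fun t => t.1.1.2
      map_one' := he2
      map_mul' := fun a b => rfl }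
  have hlift : ∀ g, ∃ t : T, t.1.2 = g := by
    intro g
    obtain ⟨l, -, hl⟩ := hgen g
    exact ⟨⟨(fun k => (l.map (s k)).prod, (l.map f).prod), l, rfl⟩, hl⟩
  have hψ : Surjective ψ := by
    intro g
    obtain ⟨t, ht⟩ := hlift g
    refine ⟨⟨e * t * e, ?_, ?_⟩, ?_⟩
    · rw [← mul_assoc, ← mul_assoc, he]
    · rw [mul_assoc, he]
    · show e.1.2 * t.1.2 * e.1.2 = g
      rw [he2, one_mul, mul_one, ht]
  have hinj : ∀ a b : EME e, (∀ k, ι k a = ι k b) → a = b := by
    intro a b h
    apply Subtype.ext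
    apply Subtype.ext
    have h1 : a.1.1.1 = b.1.1.1 := funext h
    exact Prod.ext h1 (huniq _ _ a.1.2 b.1.2 h1)
  have hgadι : ∀ k a, IsGad (ι k a) := by
    intro k a
    obtain ⟨l, hl⟩ := a.1.2
    show IsGad (a.1.1.1 k)
    rw [hl]
    exact hgad k l
  choose ρ hρ using fun k => structure_thm' (ι k) (hιmul k) (hgadι k)
  let ρ' : EME e →* (Fin r → Equiv.Perm (Fin q)) := Pi.monoidHom ρ
  have hρ' : Injective ρ' := by
    rw [injective_iff_map_eq_one]
    intro a ha
    apply hinj
    intro k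
    exact hρ k a (congrFun ha k)
  refine ⟨ρ'.range, ψ.comp (MonoidHom.ofInjective hρ').symm.toMonoidHom, ?_⟩
  intro g
  obtain ⟨t, rfl⟩ := hψ g
  refine ⟨MonoidHom.ofInjective hρ' t, ?_⟩
  show ψ ((MonoidHom.ofInjective hρ').symm (MonoidHom.ofInjective hρ' t)) = ψ t
  rw [MulEquiv.symm_apply_apply]

/-- A quotient of a subgroup of a power of the symmetric group of degree `q` has, if nontrivial, a
proper subgroup of index at most `q`. -/
theorem index_of_section {q r : ℕ} {G : Type} [Group G] [Nontrivial G]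
    (h : ∃ (H : Subgroup (Fin r → Equiv.Perm (Fin q))) (φ : H →* G), Surjective φ) :
    ∃ K : Subgroup G, K ≠ ⊤ ∧ Finite (G ⧸ K) ∧ Nat.card (G ⧸ K) ≤ q := by
  classical
  obtain ⟨H, φ, hφ⟩ := h
  let ρ : H →* Equiv.Perm (Σ _ : Fin r, Fin q) :=
    (Equiv.Perm.sigmaCongrRightHom (fun _ : Fin r => Fin q)).comp H.subtype
  have hρ : Injective ρ :=
    Equiv.Perm.sigmaCongrRightHom_injective.comp H.subtype_injective
  refine exists_proper_subgroup ρ hρ φ hφ q ?_
  rintro ⟨k, i⟩
  refine ⟨Finset.univ.image (fun j : Fin q => (⟨k, j⟩ : Σ _ : Fin r, Fin q)), ?_, ?_⟩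
  · exact Finset.card_image_le.trans (by simp)
  · intro h
    rw [Finset.mem_image]
    exact ⟨h.1 k i, Finset.mem_univ _, rfl⟩

end H54.UPM
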