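import Pool.Agent.H54.UPM.Gadget

/-!
# Cutting a gadget in two, and the re-cut of an idempotent gadget
-/

namespace H54.UPM

open Function Relation

variable {P A Q B R A' B' : Type}

/-- Relabel the internal vertices. -/
def lab (eA : A ≃ A') : P ⊕ (A ⊕ Q) → P ⊕ (A' ⊕ Q)
  | Sum.inl p => Sum.inl p
  | Sum.inr (Sum.inl a) => Sum.inr (Sum.inl (eA a))
  | Sum.inr (Sum.inr q) => Sum.inr (Sum.inr q)

theorem lab_lab_symm (eA : A ≃ A') (v : P ⊕ (A' ⊕ Q)) : lab eA (lab eA.symm v) = v := by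
  rcases v with (p | a | q) <;> simp [lab]

theorem lab_symm_lab (eA : A ≃ A') (v : P ⊕ (A ⊕ Q)) : lab eA.symm (lab eA v) = v := by
  rcases v with (p | a | q) <;> simp [lab]

theorem lab_inj (eA : A ≃ A') : Injective (lab eA : P ⊕ (A ⊕ Q) → P ⊕ (A' ⊕ Q)) :=
  fun u v h => by rw [← lab_symm_lab eA u, h, lab_symm_lab]

theorem alw_lab (eA : A ≃ A') (S : Finset P) (T : Finset Q) (v : P ⊕ (A ⊕ Q)) :
    Alw S T (lab eA v) ↔ Alw S T v := by
  rcases v with (p | a | q) <;> simp [lab, Alw]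

theorem isPM_lab (eA : A ≃ A') (eB : B ≃ B') {X : P ⊕ (A ⊕ Q) → B → Prop}
    {X' : P ⊕ (A' ⊕ Q) → B' → Prop} (hX : ∀ v b, X v b ↔ X' (lab eA v) (eB b))
    {S : Finset P} {T : Finset Q} {h : B → P ⊕ (A ⊕ Q)} (H : IsPM X S T h) :
    IsPM X' S T (fun b => lab eA (h (eB.symm b))) := by
  apply isPM_of_alw
  · intro b b' e
    exact eB.symm.injective (H.inj (lab_inj eA e))
  · intro b
    have := (hX _ _).1 (H.adj (eB.symm b))
    rwa [eB.apply_symm_apply] at this
  · intro v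
    have h1 := H.alw_iff (lab eA.symm v)
    have h2 := alw_lab eA S T (lab eA.symm v)
    rw [lab_lab_symm] at h2
    rw [h2, ← h1]
    constructor
    · rintro ⟨b, rfl⟩
      exact ⟨eB.symm b, by rw [lab_symm_lab]⟩
    · rintro ⟨b, hb⟩
      exact ⟨eB b, by rw [eB.symm_apply_apply, hb, lab_lab_symm]⟩

theorem cnt_lab (eA : A ≃ A') (eB : B ≃ B') {X : P ⊕ (A ⊕ Q) → B → Prop}
    {X' : P ⊕ (A' ⊕ Q) → B' → Prop} (hX : ∀ v b, X v b ↔ X' (lab eA v) (eB b))
    (S : Finset P) (T : Finset Q) : cnt X S T = cnt X' S T := by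
  have hX' : ∀ v b, X' v b ↔ X (lab eA.symm v) (eB.symm b) := by
    intro v b
    rw [hX, lab_lab_symm, eB.apply_symm_apply]
  apply Nat.card_congr
  refine ⟨fun h => ⟨_, isPM_lab eA eB hX h.2⟩, fun h => ⟨_, isPM_lab eA.symm eB.symm hX' h.2⟩, ?_, ?_⟩
  · rintro ⟨h, hh⟩
    apply Subtype.ext
    funext b
    simp [lab_symm_lab]
  · rintro ⟨h, hh⟩
    apply Subtype.ext
    funext b
    simp [lab_lab_symm]

section cut

variable (Y : P ⊕ (A ⊕ R) → B → Prop) (pa : A → Prop) (pb : B → Prop)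

/-- The left part of a cut gadget. -/
def cutL : P ⊕ ({a // pa a} ⊕ {a // ¬ pa a}) → {b // pb b} → Prop
  | Sum.inl p, b => Y (Sum.inl p) b.1
  | Sum.inr (Sum.inl a), b => Y (Sum.inr (Sum.inl a.1)) b.1
  | Sum.inr (Sum.inr a), b => Y (Sum.inr (Sum.inl a.1)) b.1

/-- The right part of a cut gadget. -/
def cutR : {a // ¬ pa a} ⊕ (Empty ⊕ R) → {b // ¬ pb b} → Prop
  | Sum.inl a, b => Y (Sum.inr (Sum.inl a.1)) b.1
  | Sum.inr (Sum.inl a), _ => a.elim
  | Sum.inr (Sum.inr r), b => Y (Sum.inr (Sum.inr r)) b.1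

variable [DecidablePred pa] [DecidablePred pb]

/-- The relabelling of the internal vertices of a cut gadget. -/
def eCut : A ≃ {a // pa a} ⊕ ({a // ¬ pa a} ⊕ Empty) :=
  (Equiv.sumCompl pa).symm.trans
    (Equiv.sumCongr (Equiv.refl _) (Equiv.sumEmpty {a // ¬ pa a} Empty).symm)

theorem eCut_pos {a : A} (ha : pa a) : eCut pa a = Sum.inl ⟨a, ha⟩ := by
  simp [eCut, ha]

theorem eCut_neg {a : A} (ha : ¬ pa a) : eCut pa a = Sum.inr (Sum.inl ⟨a, ha⟩) := by
  simp [eCut, ha]

theorem cut_iso (h1 : ∀ p b, Y (Sum.inl p) b → pb b)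
    (h2 : ∀ a b, pa a → Y (Sum.inr (Sum.inl a)) b → pb b)
    (h3 : ∀ r b, Y (Sum.inr (Sum.inr r)) b → ¬ pb b) (v : P ⊕ (A ⊕ R)) (b : B) :
    Y v b ↔ comp (cutL Y pa pb) (cutR Y pa pb) (lab (eCut pa) v) ((Equiv.sumCompl pb).symm b) := by
  by_cases hb : pb b
  · rw [Equiv.sumCompl_symm_apply_of_pos hb, comp_inl]
    rcases v with (p | a | r)
    · constructor
      · intro h; exact ⟨Sum.inl p, rfl, h⟩
      · rintro ⟨u, hu, h⟩
        have := (iX_eq_left _).1 hu
        subst this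
        exact h
    · by_cases ha : pa a
      · simp only [lab, eCut_pos pa ha]
        constructor
        · intro h; exact ⟨Sum.inr (Sum.inl ⟨a, ha⟩), rfl, h⟩
        · rintro ⟨u, hu, h⟩
          have := (iX_eq_mid1 _).1 hu
          subst this
          exact h
      · simp only [lab, eCut_neg pa ha]
        constructor
        · intro h; exact ⟨Sum.inr (Sum.inr ⟨a, ha⟩), rfl, h⟩
        · rintro ⟨u, hu, h⟩
          have := (iX_eq_mid2 _).1 hu
          subst this
          exact h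
    · constructor
      · intro h; exact absurd hb (h3 r b h)
      · rintro ⟨u, hu, h⟩
        exact absurd hu (iX_ne_right _)
  · rw [Equiv.sumCompl_symm_apply_of_neg hb, comp_inr]
    rcases v with (p | a | r)
    · constructor
      · intro h; exact absurd (h1 p b h) hb
      · rintro ⟨u, hu, h⟩
        exact absurd hu (iY_ne_left _)
    · by_cases ha : pa a
      · simp only [lab, eCut_pos pa ha]
        constructor
        · intro h; exact absurd (h2 a b ha h) hb
        · rintro ⟨u, hu, h⟩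
          exact absurd hu (iY_ne_mid1 _)
      · simp only [lab, eCut_neg pa ha]
        constructor
        · intro h; exact ⟨Sum.inl ⟨a, ha⟩, rfl, h⟩
        · rintro ⟨u, hu, h⟩
          have := (iY_eq_mid2 _).1 hu
          subst this
          exact h
    · constructor
      · intro h; exact ⟨Sum.inr (Sum.inr r), rfl, h⟩
      · rintro ⟨u, hu, h⟩
        have := (iY_eq_right _).1 hu
        subst this
        exact h

theorem sig_cut [Fintype P] [Fintype A] [Fintype R] [Fintype B]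
    (h1 : ∀ p b, Y (Sum.inl p) b → pb b)
    (h2 : ∀ a b, pa a → Y (Sum.inr (Sum.inl a)) b → pb b)
    (h3 : ∀ r b, Y (Sum.inr (Sum.inr r)) b → ¬ pb b) :
    sig Y = sig (cutL Y pa pb) * sig (cutR Y pa pb) := by
  rw [← sig_comp]
  ext S T
  rw [sig, Matrix.of_apply, cnt_lab (eCut pa) (Equiv.sumCompl pb).symm
    (cut_iso Y pa pb h1 h2 h3) S T]
  rfl

theorem cut_vac [Fintype P] [Fintype A] [Fintype R] [Fintype B]
    (h1 : ∀ p b, Y (Sum.inl p) b → pb b)
    (h2 : ∀ a b, pa a → Y (Sum.inr (Sum.inl a)) b → pb b)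
    (h3 : ∀ r b, Y (Sum.inr (Sum.inr r)) b → ¬ pb b)
    {S : Finset P} {T : Finset R} {h : B → P ⊕ (A ⊕ R)} (H : IsPM Y S T h)
    (h4 : ∀ b, pb b → ∀ a, h b = Sum.inr (Sum.inl a) → pa a) :
    (∃ h', IsPM (cutL Y pa pb) S ∅ h') ∧ (∃ h', IsPM (cutR Y pa pb) ∅ T h') := by
  have H' := isPM_lab (eCut pa) (Equiv.sumCompl pb).symm (cut_iso Y pa pb h1 h2 h3) H
  obtain ⟨U, g1, g2, G1, G2, hg⟩ := comp_split _ _ H'
  have hU : U = ∅ := by
    rw [Finset.eq_empty_iff_forall_notMem]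
    intro q hq
    obtain ⟨b, hb⟩ := (G1.right q).2 hq
    have := congrFun hg (Sum.inl b)
    rw [glue_inl, hb] at this
    simp only [Equiv.symm_symm, Equiv.sumCompl_apply_inl, iX_inr] at this
    rcases hx : h b.1 with (p | a | r)
    · rw [hx] at this; simp [lab] at this
    · rw [hx] at this
      have hpa := h4 b.1 b.2 a hx
      simp only [lab, eCut_pos pa hpa] at this
      simp at this
    · rw [hx] at this; simp [lab] at this
  subst hU
  exact ⟨⟨g1, G1⟩, ⟨g2, G2⟩⟩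

end cut

/-- The set of vertices reachable from a left port of `S`. -/
def LL (E : P ⊕ (A ⊕ P) → B → Prop) (S : Finset P) (h : B → P ⊕ (A ⊕ P)) (b : B) : Prop :=
  ∃ v ∈ S, ∃ b0, E (Sum.inl v) b0 ∧ ReflTransGen (fun b b' => E (h b) b') b0 b

/-- **Re-cut.** A nonzero idempotent signature factors through a set `Q` of ports in such a way that
the empty state of `Q` occurs. -/
theorem recut [Fintype P] [DecidableEq P] (ε : Matrix (Finset P) (Finset P) T3)
    (hε : IsGad ε) (hid : ε * ε = ε) (hne : ε ≠ 0) :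
    ∃ (Q : Type) (_ : Fintype Q) (T0 : Finset P) (x1 : Matrix (Finset P) (Finset Q) T3)
      (x2 : Matrix (Finset Q) (Finset P) T3), IsGad x1 ∧ IsGad x2 ∧ x1 * x2 = ε ∧
      x1 T0 ∅ ≠ 0 ∧ x2 ∅ T0 ≠ 0 ∧ ε T0 T0 ≠ 0 := by
  classical
  obtain ⟨A, B, _, _, E, rfl⟩ := hε
  have hrel : ∀ S T, sig E S T ≠ 0 ↔ ∃ U, sig E S U ≠ 0 ∧ sig E U T ≠ 0 := fun S T => by
    rw [← mul_apply_ne_zero, hid]
  -- a diagonal state
  have hdiag : ∃ S, sig E S S ≠ 0 := by
    by_contra hcon
    push Not at hcon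
    apply hne
    ext S T
    by_contra h
    obtain ⟨U, -, hU, -⟩ := idem_factor (fun S T => sig E S T ≠ 0) hrel h
    exact hU (hcon U)
  -- a smallest one
  obtain ⟨T0, hT0, hT0min⟩ : ∃ T0, sig E T0 T0 ≠ 0 ∧ ∀ S, sig E S S ≠ 0 → T0.card ≤ S.card := by
    obtain ⟨T0, h1, h2⟩ := Finset.exists_min_image
      (Finset.univ.filter (fun S : Finset P => sig E S S ≠ 0)) Finset.card
      ⟨hdiag.choose, by simpa using hdiag.choose_spec⟩
    exact ⟨T0, by simpa using h1, fun S hS => h2 S (by simpa using hS)⟩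
  obtain ⟨h, H⟩ := (sig_ne_zero E T0 T0).1 hT0
  have hbal := H.balance
  have hmin : ∀ v ∈ T0, ∀ w ∈ T0, ¬ ∃ h', IsPM E (T0.erase v) (T0.erase w) h' := by
    intro v hv w hw hex
    have h1 : sig E (T0.erase v) (T0.erase w) ≠ 0 := (sig_ne_zero E _ _).2 hex
    obtain ⟨U, hU1, hU2, -⟩ := idem_factor (fun S T => sig E S T ≠ 0) hrel h1
    obtain ⟨h', H'⟩ := (sig_ne_zero E _ _).1 hU1
    have := H'.balance
    have h3 := hT0min U hU2
    have h4 := Finset.card_erase_add_one hv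
    omega
  have hLR : ∀ b, LL E T0 h b → ∀ w, h b ≠ Sum.inr (Sum.inr w) := by
    rintro b ⟨v, hv, b0, hb0, hb⟩ w
    exact no_LR E T0 h H hmin hv hb0 hb w
  -- the three-cell gadget
  let Y := comp (comp E E) E
  have HY : IsPM Y T0 T0 (glue (glue h h) h) := comp_isPM _ _ (comp_isPM _ _ H H) H
  let pb : (B ⊕ B) ⊕ B → Prop := fun b => match b with
    | Sum.inl (Sum.inl _) => True
    | Sum.inl (Sum.inr b) => LL E T0 h b
    | Sum.inr _ => False
  let pa : (A ⊕ (P ⊕ A)) ⊕ (P ⊕ A) → Prop := fun a => match a with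
    | Sum.inl (Sum.inl _) => True
    | Sum.inl (Sum.inr (Sum.inl p)) => p ∈ T0 ∨ ∃ b, LL E T0 h b ∧ h b = Sum.inl p
    | Sum.inl (Sum.inr (Sum.inr a)) => ∃ b, LL E T0 h b ∧ h b = Sum.inr (Sum.inl a)
    | Sum.inr _ => False
  have hstep : ∀ b b', LL E T0 h b → E (h b) b' → LL E T0 h b' := by
    rintro b b' ⟨v, hv, b0, hb0, hb⟩ hbb'
    exact ⟨v, hv, b0, hb0, hb.tail hbb'⟩
  have c1 : ∀ p b, Y (Sum.inl p) b → pb b := by
    rintro p ((b | b) | b) hY
    · trivial
    · exfalso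
      obtain ⟨u, hu, hu'⟩ := hY
      have := (iX_eq_left _).1 hu
      subst this
      obtain ⟨u', hu'', -⟩ := hu'
      exact absurd hu'' (iY_ne_left _)
    · exfalso
      obtain ⟨u, hu, -⟩ := hY
      exact absurd hu (iY_ne_left _)
  have c2 : ∀ a b, pa a → Y (Sum.inr (Sum.inl a)) b → pb b := by
    rintro a ((b | b) | b) ha hY
    · trivial
    · show LL E T0 h b
      obtain ⟨u, hu, u', hu', hE⟩ := hY
      rcases a with ((a | p | a) | a)
      · exfalso
        have := (iX_eq_mid1 _).1 hu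
        subst this
        exact absurd hu' (iY_ne_mid1 _)
      · have := (iX_eq_mid1 _).1 hu
        subst this
        have := (iY_eq_mid2 _).1 hu'
        subst this
        rcases ha with ha | ⟨b', hb', hb''⟩
        · exact ⟨p, ha, b, hE, ReflTransGen.refl⟩
        · exact hstep b' b hb' (by rw [hb'']; exact hE)
      · have := (iX_eq_mid1 _).1 hu
        subst this
        have := (iY_eq_mid3 _).1 hu'
        subst this
        obtain ⟨b', hb', hb''⟩ := ha
        exact hstep b' b hb' (by rw [hb'']; exact hE)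
      · exact ha.elim
    · exfalso
      obtain ⟨u, hu, -⟩ := hY
      rcases a with (a | a)
      · exact absurd hu (iY_ne_mid1 _)
      · exact ha
  have c3 : ∀ r b, Y (Sum.inr (Sum.inr r)) b → ¬ pb b := by
    rintro r (b | b) hY
    · exfalso
      obtain ⟨u, hu, -⟩ := hY
      exact absurd hu (iX_ne_right _)
    · exact fun h => h
  have c4 : ∀ b, pb b → ∀ a, glue (glue h h) h b = Sum.inr (Sum.inl a) → pa a := by
    rintro ((b | b) | b) hb a ha
    · rw [glue_inl, glue_inl] at ha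
      rcases hx : h b with (p | a' | w)
      · rw [hx] at ha; simp at ha
      · rw [hx] at ha; simp at ha; subst ha; trivial
      · rw [hx] at ha; simp at ha; subst ha
        left
        exact (H.right w).1 ⟨b, hx⟩
    · rw [glue_inl, glue_inr] at ha
      rcases hx : h b with (p | a' | w)
      · rw [hx] at ha; simp at ha; subst ha
        right
        exact ⟨b, hb, hx⟩
      · rw [hx] at ha; simp at ha; subst ha
        exact ⟨b, hb, hx⟩
      · exact absurd hx (hLR b hb w)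
    · exact hb.elim
  have hcut := sig_cut Y pa pb c1 c2 c3
  have hvac := cut_vac Y pa pb c1 c2 c3 HY c4
  refine ⟨{a // ¬ pa a}, inferInstance, T0, sig (cutL Y pa pb), sig (cutR Y pa pb),
    ⟨_, _, inferInstance, inferInstance, _, rfl⟩, ⟨_, _, inferInstance, inferInstance, _, rfl⟩,
    ?_, ?_, ?_, hT0⟩
  · rw [← hcut]
    show sig (comp (comp E E) E) = sig E
    rw [sig_comp, sig_comp, hid, hid]
  · exact (sig_ne_zero _ _ _).2 hvac.1
  · exact (sig_ne_zero _ _ _).2 hvac.2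

end H54.UPM
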