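import Mathlib

/-!
# Definitions

Inputs are words `x : Fin L → α`.  A `GFamily α L d` is a family of bipartite graphs, one for every
word, made of gadgets: it consists of two finite sets of vertices `A`, `B` (the colour classes) and
a finite set of gadgets; every pair `(a, b)` belongs to one gadget, every gadget reads at most `d`
positions of the input, and the presence of the edge `a b` in the graph built from `x` depends only
on the letters read by the gadget of `(a, b)`.
-/

namespace H54.UPM

/-- The graph has exactly one perfect matching. -/
def UniquePM {V : Type} (G : SimpleGraph V) : Prop :=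
  ∃! M : G.Subgraph, M.IsPerfectMatching

/-- A family of bipartite graphs, one for every word `x : Fin L → α`, made of gadgets; every gadget
reads at most `d` letters. -/
structure GFamily (α : Type) (L d : ℕ) where
  /-- The first colour class. -/
  A : Type
  /-- The second colour class. -/
  B : Type
  /-- The gadgets. -/
  Γ : Type
  finA : Finite A
  finB : Finite B
  finΓ : Finite Γ
  /-- The gadget to which the pair `(a, b)` belongs. -/
  gad : A → B → Γ
  /-- The input positions which are read by a gadget. -/
  reads : Γ → Finset (Fin L)
  reads_card : ∀ g, (reads g).card ≤ d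
  /-- The edge `a b` is present in the graph built from `x`. -/
  edge : A → B → (Fin L → α) → Prop
  edge_congr : ∀ a b x y, (∀ i ∈ reads (gad a b), x i = y i) → (edge a b x ↔ edge a b y)

namespace GFamily

variable {α : Type} {L d : ℕ}

/-- The bipartite graph built from the input `x`. -/
def graph (F : GFamily α L d) (x : Fin L → α) : SimpleGraph (F.A ⊕ F.B) where
  Adj u v := (∃ a b, u = Sum.inl a ∧ v = Sum.inr b ∧ F.edge a b x) ∨
    (∃ a b, u = Sum.inr b ∧ v = Sum.inl a ∧ F.edge a b x)
  symm := ⟨by
    rintro u v (⟨a, b, rfl, rfl, h⟩ | ⟨a, b, rfl, rfl, h⟩)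
    · exact Or.inr ⟨a, b, rfl, rfl, h⟩
    · exact Or.inl ⟨a, b, rfl, rfl, h⟩⟩
  loopless := ⟨by
    rintro u (⟨a, b, rfl, h, -⟩ | ⟨a, b, rfl, h, -⟩) <;> simp at h⟩

/-- The number of gadgets which read the position `i`. -/
noncomputable def times (F : GFamily α L d) (i : Fin L) : ℕ := {g | i ∈ F.reads g}.ncard

/-- The vertex `v` has a potential edge (an edge present for some input) in the gadget `g`. -/
def Touches (F : GFamily α L d) (v : F.A ⊕ F.B) (g : F.Γ) : Prop :=
  ∃ a b, (v = Sum.inl a ∨ v = Sum.inr b) ∧ (∃ x, F.edge a b x) ∧ F.gad a b = g

/-- The middle set of a set `S` of gadgets: the vertices that have potential edges in gadgets in `S`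
and potential edges in gadgets outside `S`. -/
def mid (F : GFamily α L d) (S : Set F.Γ) : Set (F.A ⊕ F.B) :=
  {v | (∃ g ∈ S, F.Touches v g) ∧ ∃ g, g ∉ S ∧ F.Touches v g}

end GFamily

/-- Rooted binary trees; every node carries at most one gadget. -/
inductive GTree (Γ : Type) : Type
  | nil : GTree Γ
  | node (o : Option Γ) (l r : GTree Γ) : GTree Γ

namespace GTree

variable {Γ : Type}

/-- The set of gadgets occurring in a tree. -/
def gads : GTree Γ → Set Γ
  | nil => ∅
  | node o l r => {g | o = some g} ∪ (l.gads ∪ r.gads)

/-- The gadget sets of all subtrees satisfy `Q`. -/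
def All (Q : Set Γ → Prop) : GTree Γ → Prop
  | nil => True
  | node o l r => Q (node o l r).gads ∧ l.All Q ∧ r.All Q

end GTree

/-- The family has width at most `p`: for some binary tree in which all gadgets occur, the middle
sets of the gadget sets of all subtrees have at most `p` vertices. -/
def GFamily.WidthLE {α : Type} {L d : ℕ} (F : GFamily α L d) (p : ℕ) : Prop :=
  ∃ t : GTree F.Γ, t.gads = Set.univ ∧ t.All (fun S => (F.mid S).ncard ≤ p)

/-- The number of interface vertices of the linear layout obtained from a family of width `p` in
which the relevant positions are read at most `k` times. -/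
def loss (k p : ℕ) : ℕ := if k ≤ 1 then p else 2 * k * p

/-- The identity matrix and the elementary matrices over the field with two elements. -/
def Elem {w : ℕ} (A : Matrix (Fin w) (Fin w) (ZMod 2)) : Prop :=
  A = 1 ∨ ∃ j k, j ≠ k ∧ A = Matrix.transvection j k 1

/-- The entries are `-1`, `0` or `1`. -/
def Small {w : ℕ} (A : Matrix (Fin w) (Fin w) ℤ) : Prop := ∀ j k, A j k = -1 ∨ A j k = 0 ∨ A j k = 1

/-- `q` is a path from `s` to `t` in the layered graph whose edges between the consecutive layers
`i` and `i + 1` are given by `R i`. -/
def IsWalk {w L : ℕ} (R : Fin L → Fin w → Fin w → Prop) (s t : Fin w) (q : Fin (L + 1) → Fin w) :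
    Prop :=
  q 0 = s ∧ q (Fin.last L) = t ∧ ∀ i : Fin L, R i (q i.castSucc) (q i.succ)

/-- The relation between two layers given by a permutation. -/
def permRel {w : ℕ} (σ : Equiv.Perm (Fin w)) : Fin w → Fin w → Prop := fun a b => b = σ a

/-- For every `N` there is a word length `L` such that the property `χ` of the product
`f (x 1) ⋯ f (x L)` is decided, for all words `x` of length `L`, by a Boolean function of `r`
families of width at most `p`, and at least `N` of the letters are read at most `k` times by each of
these families. -/
def Decided {α G : Type} [Group G] (f : α → G) (χ : G → Prop) (r p d k : ℕ) : Prop :=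
  ∀ N : ℕ, ∃ (L : ℕ) (F : Fin r → GFamily α L d) (B : (Fin r → Prop) → Prop),
    (∀ j, (F j).WidthLE p) ∧ N ≤ {i : Fin L | ∀ j, (F j).times i ≤ k}.ncard ∧
      ∀ x : Fin L → α, B (fun j => UniquePM ((F j).graph x)) ↔
        χ (List.ofFn fun i => f (x i)).prod

/-- For all `L ≥ 1` the product of `L` elements of the group is determined by `R` families of width
at most `p`, with gadgets which read at most one letter each, every letter being read once. -/
def Determined (G : Type) [Group G] (R p : ℕ) : Prop :=
  ∀ L : ℕ, 0 < L → ∃ (F : Fin R → GFamily G L 1) (D : (Fin R → Prop) → G),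
    (∀ j, (F j).WidthLE p ∧ ∀ i, (F j).times i = 1) ∧
      ∀ x : Fin L → G, D (fun j => UniquePM ((F j).graph x)) = (List.ofFn x).prod

/-- The group is a quotient of a subgroup of the `r`-th power of the symmetric group of
degree `p`. -/
def IsSection (G : Type) [Group G] (r p : ℕ) : Prop :=
  ∃ (H : Subgroup (Fin r → Equiv.Perm (Fin p))) (φ : H →* G), Function.Surjective φ

end H54.UPM
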