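import Pool.Agent.H54.UPM.Sat

/-!
# Gadgets: open bipartite graphs, their signatures and their composition

A gadget with left ports `P`, internal vertices `A` (first colour), right ports `Q` and
vertices `B` of the second colour is a relation `X : P ⊕ (A ⊕ Q) → B → Prop`.
-/

namespace H54.UPM

open Function

variable {P A Q B R A' B' : Type}

/-- `h` matches every vertex `b` of the second colour class to `h b`; the left ports not covered are
those of `S`, all internal vertices are covered, and the right ports covered are those of `T`. -/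
structure IsPM (X : P ⊕ (A ⊕ Q) → B → Prop) (S : Finset P) (T : Finset Q)
    (h : B → P ⊕ (A ⊕ Q)) : Prop where
  inj : Injective h
  adj : ∀ b, X (h b) b
  left : ∀ p, (∃ b, h b = Sum.inl p) ↔ p ∉ S
  mid : ∀ a, ∃ b, h b = Sum.inr (Sum.inl a)
  right : ∀ q, (∃ b, h b = Sum.inr (Sum.inr q)) ↔ q ∈ T

/-- The number of matchings of the gadget with boundary state `(S, T)`. -/
noncomputable def cnt (X : P ⊕ (A ⊕ Q) → B → Prop) (S : Finset P) (T : Finset Q) : ℕ :=
  Nat.card {h : B → P ⊕ (A ⊕ Q) // IsPM X S T h}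

/-- The signature of a gadget. -/
noncomputable def sig (X : P ⊕ (A ⊕ Q) → B → Prop) : Matrix (Finset P) (Finset Q) T3 :=
  Matrix.of fun S T => ((cnt X S T : ℕ) : T3)

theorem sig_ne_zero [Finite P] [Finite Q] [Finite A] [Finite B] (X : P ⊕ (A ⊕ Q) → B → Prop)
    (S : Finset P) (T : Finset Q) :
    sig X S T ≠ 0 ↔ ∃ h, IsPM X S T h := by
  rw [sig, Matrix.of_apply, Ne, T3.cast_eq_zero, cnt, Nat.card_eq_zero, not_or]
  constructor
  · rintro ⟨h, -⟩
    rw [not_isEmpty_iff] at h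
    obtain ⟨⟨h, hh⟩⟩ := h
    exact ⟨h, hh⟩
  · rintro ⟨h, hh⟩
    refine ⟨?_, ?_⟩
    · rw [not_isEmpty_iff]; exact ⟨⟨h, hh⟩⟩
    · rw [not_infinite_iff_finite]; infer_instance

/-- Inclusion of the vertices of the first factor of a composition. -/
def iX : P ⊕ (A ⊕ Q) → P ⊕ ((A ⊕ (Q ⊕ A')) ⊕ R)
  | Sum.inl p => Sum.inl p
  | Sum.inr (Sum.inl a) => Sum.inr (Sum.inl (Sum.inl a))
  | Sum.inr (Sum.inr q) => Sum.inr (Sum.inl (Sum.inr (Sum.inl q)))

/-- Inclusion of the vertices of the second factor of a composition. -/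
def iY : Q ⊕ (A' ⊕ R) → P ⊕ ((A ⊕ (Q ⊕ A')) ⊕ R)
  | Sum.inl q => Sum.inr (Sum.inl (Sum.inr (Sum.inl q)))
  | Sum.inr (Sum.inl a) => Sum.inr (Sum.inl (Sum.inr (Sum.inr a)))
  | Sum.inr (Sum.inr r) => Sum.inr (Sum.inr r)

@[simp] theorem iX_inl (p : P) : (iX (Sum.inl p) : P ⊕ ((A ⊕ (Q ⊕ A')) ⊕ R)) = Sum.inl p := rfl
@[simp] theorem iX_mid (a : A) : (iX (Sum.inr (Sum.inl a)) : P ⊕ ((A ⊕ (Q ⊕ A')) ⊕ R)) =
  Sum.inr (Sum.inl (Sum.inl a)) := rfl
@[simp] theorem iX_inr (q : Q) : (iX (Sum.inr (Sum.inr q)) : P ⊕ ((A ⊕ (Q ⊕ A')) ⊕ R)) =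
  Sum.inr (Sum.inl (Sum.inr (Sum.inl q))) := rfl
@[simp] theorem iY_inl (q : Q) : (iY (Sum.inl q) : P ⊕ ((A ⊕ (Q ⊕ A')) ⊕ R)) =
  Sum.inr (Sum.inl (Sum.inr (Sum.inl q))) := rfl
@[simp] theorem iY_mid (a : A') : (iY (Sum.inr (Sum.inl a)) : P ⊕ ((A ⊕ (Q ⊕ A')) ⊕ R)) =
  Sum.inr (Sum.inl (Sum.inr (Sum.inr a))) := rfl
@[simp] theorem iY_inr (r : R) : (iY (Sum.inr (Sum.inr r)) : P ⊕ ((A ⊕ (Q ⊕ A')) ⊕ R)) =
  Sum.inr (Sum.inr r) := rfl

theorem iX_inj : Injective (iX : P ⊕ (A ⊕ Q) → P ⊕ ((A ⊕ (Q ⊕ A')) ⊕ R)) := by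
  rintro (p | a | q) (p' | a' | q') h <;> simp at h <;> simp [h]

theorem iY_inj : Injective (iY : Q ⊕ (A' ⊕ R) → P ⊕ ((A ⊕ (Q ⊕ A')) ⊕ R)) := by
  rintro (p | a | q) (p' | a' | q') h <;> simp at h <;> simp [h]

theorem iX_eq_iY {u : P ⊕ (A ⊕ Q)} {v : Q ⊕ (A' ⊕ R)}
    (h : (iX u : P ⊕ ((A ⊕ (Q ⊕ A')) ⊕ R)) = iY v) :
    ∃ q, u = Sum.inr (Sum.inr q) ∧ v = Sum.inl q := by
  rcases u with (p | a | q) <;> rcases v with (p' | a' | q') <;> simp at h
  exact ⟨q, rfl, by rw [h]⟩

/-- Composition of gadgets: identify the right ports of `X` with the left ports of `Y`. -/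
def comp (X : P ⊕ (A ⊕ Q) → B → Prop) (Y : Q ⊕ (A' ⊕ R) → B' → Prop) :
    P ⊕ ((A ⊕ (Q ⊕ A')) ⊕ R) → B ⊕ B' → Prop :=
  fun v b => match b with
    | Sum.inl b => ∃ u, iX u = v ∧ X u b
    | Sum.inr b => ∃ u, iY u = v ∧ Y u b

@[simp] theorem comp_inl (X : P ⊕ (A ⊕ Q) → B → Prop) (Y : Q ⊕ (A' ⊕ R) → B' → Prop) (v) (b : B) :
    comp X Y v (Sum.inl b) ↔ ∃ u, iX u = v ∧ X u b := Iff.rfl

@[simp] theorem comp_inr (X : P ⊕ (A ⊕ Q) → B → Prop) (Y : Q ⊕ (A' ⊕ R) → B' → Prop) (v) (b : B') :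
    comp X Y v (Sum.inr b) ↔ ∃ u, iY u = v ∧ Y u b := Iff.rfl

/-- Glue matchings of the two factors. -/
def glue (h1 : B → P ⊕ (A ⊕ Q)) (h2 : B' → Q ⊕ (A' ⊕ R)) : B ⊕ B' → P ⊕ ((A ⊕ (Q ⊕ A')) ⊕ R)
  | Sum.inl b => iX (h1 b)
  | Sum.inr b => iY (h2 b)

@[simp] theorem glue_inl (h1 : B → P ⊕ (A ⊕ Q)) (h2 : B' → Q ⊕ (A' ⊕ R)) (b : B) :
    glue h1 h2 (Sum.inl b) = iX (h1 b) := rfl

@[simp] theorem glue_inr (h1 : B → P ⊕ (A ⊕ Q)) (h2 : B' → Q ⊕ (A' ⊕ R)) (b : B') :
    glue h1 h2 (Sum.inr b) = iY (h2 b) := rfl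

section inversion

variable (u : P ⊕ (A ⊕ Q)) (v : Q ⊕ (A' ⊕ R))

theorem iX_eq_left {p : P} : (iX u : P ⊕ ((A ⊕ (Q ⊕ A')) ⊕ R)) = Sum.inl p ↔ u = Sum.inl p := by
  rcases u with (p | a | q) <;> simp
theorem iX_eq_mid1 {a : A} : (iX u : P ⊕ ((A ⊕ (Q ⊕ A')) ⊕ R)) = Sum.inr (Sum.inl (Sum.inl a)) ↔
    u = Sum.inr (Sum.inl a) := by
  rcases u with (p | a | q) <;> simp
theorem iX_eq_mid2 {q : Q} : (iX u : P ⊕ ((A ⊕ (Q ⊕ A')) ⊕ R)) =
    Sum.inr (Sum.inl (Sum.inr (Sum.inl q))) ↔ u = Sum.inr (Sum.inr q) := by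
  rcases u with (p | a | q) <;> simp
theorem iX_ne_mid3 {a : A'} : (iX u : P ⊕ ((A ⊕ (Q ⊕ A')) ⊕ R)) ≠
    Sum.inr (Sum.inl (Sum.inr (Sum.inr a))) := by
  rcases u with (p | a | q) <;> simp
theorem iX_ne_right {r : R} : (iX u : P ⊕ ((A ⊕ (Q ⊕ A')) ⊕ R)) ≠ Sum.inr (Sum.inr r) := by
  rcases u with (p | a | q) <;> simp
theorem iY_ne_left {p : P} : (iY v : P ⊕ ((A ⊕ (Q ⊕ A')) ⊕ R)) ≠ Sum.inl p := by
  rcases v with (p | a | q) <;> simp
theorem iY_ne_mid1 {a : A} : (iY v : P ⊕ ((A ⊕ (Q ⊕ A')) ⊕ R)) ≠ Sum.inr (Sum.inl (Sum.inl a)) := by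
  rcases v with (p | a | q) <;> simp
theorem iY_eq_mid2 {q : Q} : (iY v : P ⊕ ((A ⊕ (Q ⊕ A')) ⊕ R)) =
    Sum.inr (Sum.inl (Sum.inr (Sum.inl q))) ↔ v = Sum.inl q := by
  rcases v with (p | a | q) <;> simp
theorem iY_eq_mid3 {a : A'} : (iY v : P ⊕ ((A ⊕ (Q ⊕ A')) ⊕ R)) =
    Sum.inr (Sum.inl (Sum.inr (Sum.inr a))) ↔ v = Sum.inr (Sum.inl a) := by
  rcases v with (p | a | q) <;> simp
theorem iY_eq_right {r : R} : (iY v : P ⊕ ((A ⊕ (Q ⊕ A')) ⊕ R)) = Sum.inr (Sum.inr r) ↔
    v = Sum.inr (Sum.inr r) := by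
  rcases v with (p | a | q) <;> simp

end inversion

theorem comp_isPM (X : P ⊕ (A ⊕ Q) → B → Prop) (Y : Q ⊕ (A' ⊕ R) → B' → Prop) {S : Finset P}
    {T : Finset Q} {U : Finset R} {h1 : B → P ⊕ (A ⊕ Q)} {h2 : B' → Q ⊕ (A' ⊕ R)}
    (H1 : IsPM X S T h1) (H2 : IsPM Y T U h2) :
    IsPM (comp X Y) S U (glue h1 h2) := by
  have hno : ∀ b b', (iX (h1 b) : P ⊕ ((A ⊕ (Q ⊕ A')) ⊕ R)) ≠ iY (h2 b') := by
    intro b b' h
    obtain ⟨q, hq1, hq2⟩ := iX_eq_iY h
    have h3 : q ∈ T := (H1.right q).1 ⟨b, hq1⟩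
    exact (H2.left q).1 ⟨b', hq2⟩ h3
  refine ⟨?_, ?_, ?_, ?_, ?_⟩
  · rintro (b | b) (b' | b') h
    · rw [H1.inj (iX_inj h)]
    · exact absurd h (hno b b')
    · exact absurd h.symm (hno b' b)
    · rw [H2.inj (iY_inj h)]
  · rintro (b | b)
    · exact ⟨h1 b, rfl, H1.adj b⟩
    · exact ⟨h2 b, rfl, H2.adj b⟩
  · intro p
    rw [← H1.left p]
    constructor
    · rintro ⟨b | b, hb⟩
      · exact ⟨b, (iX_eq_left _).1 hb⟩
      · exact absurd hb (iY_ne_left _)
    · rintro ⟨b, hb⟩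
      exact ⟨Sum.inl b, (iX_eq_left _).2 hb⟩
  · rintro (a | q | a)
    · obtain ⟨b, hb⟩ := H1.mid a
      exact ⟨Sum.inl b, (iX_eq_mid1 _).2 hb⟩
    · by_cases hq : q ∈ T
      · obtain ⟨b, hb⟩ := (H1.right q).2 hq
        exact ⟨Sum.inl b, (iX_eq_mid2 _).2 hb⟩
      · obtain ⟨b, hb⟩ := (H2.left q).2 hq
        exact ⟨Sum.inr b, (iY_eq_mid2 _).2 hb⟩
    · obtain ⟨b, hb⟩ := H2.mid a
      exact ⟨Sum.inr b, (iY_eq_mid3 _).2 hb⟩
  · intro r
    rw [← H2.right r]
    constructor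
    · rintro ⟨b | b, hb⟩
      · exact absurd hb (iX_ne_right _)
      · exact ⟨b, (iY_eq_right _).1 hb⟩
    · rintro ⟨b, hb⟩
      exact ⟨Sum.inr b, (iY_eq_right _).2 hb⟩

theorem comp_split [Fintype Q] (X : P ⊕ (A ⊕ Q) → B → Prop) (Y : Q ⊕ (A' ⊕ R) → B' → Prop)
    {S : Finset P} {U : Finset R} {h : B ⊕ B' → P ⊕ ((A ⊕ (Q ⊕ A')) ⊕ R)}
    (H : IsPM (comp X Y) S U h) :
    ∃ (T : Finset Q) (h1 : B → P ⊕ (A ⊕ Q)) (h2 : B' → Q ⊕ (A' ⊕ R)),
      IsPM X S T h1 ∧ IsPM Y T U h2 ∧ h = glue h1 h2 := by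
  classical
  choose h1 hh1 ha1 using fun b : B => (comp_inl X Y _ b).1 (H.adj (Sum.inl b))
  choose h2 hh2 ha2 using fun b : B' => (comp_inr X Y _ b).1 (H.adj (Sum.inr b))
  have hdis : ∀ b b', (iX (h1 b) : P ⊕ ((A ⊕ (Q ⊕ A')) ⊕ R)) ≠ iY (h2 b') := by
    intro b b' e
    rw [hh1, hh2] at e
    have := H.inj e
    simp at this
  refine ⟨Finset.univ.filter (fun q => ∃ b, h1 b = Sum.inr (Sum.inr q)), h1, h2, ?_, ?_, ?_⟩
  · refine ⟨?_, ha1, ?_, ?_, ?_⟩
    · intro b b' e
      have : h (Sum.inl b) = h (Sum.inl b') := by rw [← hh1, ← hh1, e]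
      exact Sum.inl_injective (H.inj this)
    · intro p
      rw [← H.left p]
      constructor
      · rintro ⟨b, hb⟩
        exact ⟨Sum.inl b, by rw [← hh1, hb]; rfl⟩
      · rintro ⟨b | b, hb⟩
        · rw [← hh1] at hb
          exact ⟨b, (iX_eq_left _).1 hb⟩
        · rw [← hh2] at hb
          exact absurd hb (iY_ne_left _)
    · intro a
      obtain ⟨b | b, hb⟩ := H.mid (Sum.inl a)
      · rw [← hh1] at hb
        exact ⟨b, (iX_eq_mid1 _).1 hb⟩
      · rw [← hh2] at hb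
        exact absurd hb (iY_ne_mid1 _)
    · intro q
      simp
  · refine ⟨?_, ha2, ?_, ?_, ?_⟩
    · intro b b' e
      have : h (Sum.inr b) = h (Sum.inr b') := by rw [← hh2, ← hh2, e]
      exact Sum.inr_injective (H.inj this)
    · intro q
      simp only [Finset.mem_filter, Finset.mem_univ, true_and]
      constructor
      · rintro ⟨b, hb⟩ ⟨b', hb'⟩
        apply hdis b' b
        rw [hb, hb']; rfl
      · intro hq
        obtain ⟨b | b, hb⟩ := H.mid (Sum.inr (Sum.inl q))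
        · exfalso
          rw [← hh1] at hb
          exact hq ⟨b, (iX_eq_mid2 _).1 hb⟩
        · rw [← hh2] at hb
          exact ⟨b, (iY_eq_mid2 _).1 hb⟩
    · intro a
      obtain ⟨b | b, hb⟩ := H.mid (Sum.inr (Sum.inr a))
      · rw [← hh1] at hb
        exact absurd hb (iX_ne_mid3 _)
      · rw [← hh2] at hb
        exact ⟨b, (iY_eq_mid3 _).1 hb⟩
    · intro r
      rw [← H.right r]
      constructor
      · rintro ⟨b, hb⟩
        exact ⟨Sum.inr b, by rw [← hh2, hb]; rfl⟩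
      · rintro ⟨b | b, hb⟩
        · rw [← hh1] at hb
          exact absurd hb (iX_ne_right _)
        · rw [← hh2] at hb
          exact ⟨b, (iY_eq_right _).1 hb⟩
  · funext b
    rcases b with b | b
    · simp [hh1]
    · simp [hh2]

theorem cnt_comp [Fintype P] [Fintype Q] [Fintype R] [Fintype A] [Fintype A'] [Fintype B]
    [Fintype B'] (X : P ⊕ (A ⊕ Q) → B → Prop) (Y : Q ⊕ (A' ⊕ R) → B' → Prop)
    (S : Finset P) (U : Finset R) :
    cnt (comp X Y) S U = ∑ T : Finset Q, cnt X S T * cnt Y T U := by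
  classical
  have hF : Bijective (fun t : (Σ T : Finset Q, {h1 // IsPM X S T h1} × {h2 // IsPM Y T U h2}) =>
      (⟨glue t.2.1.1 t.2.2.1, comp_isPM X Y t.2.1.2 t.2.2.2⟩ :
        {h // IsPM (comp X Y) S U h})) := by
    constructor
    · rintro ⟨T, ⟨h1, H1⟩, ⟨h2, H2⟩⟩ ⟨T', ⟨h1', H1'⟩, ⟨h2', H2'⟩⟩ e
      have e := congrArg Subtype.val e
      have e1 : h1 = h1' := by
        funext b
        have := congrFun e (Sum.inl b)
        exact iX_inj this
      have e2 : h2 = h2' := by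
        funext b
        have := congrFun e (Sum.inr b)
        exact iY_inj this
      subst e1 e2
      have : T = T' := by
        ext q
        rw [← H1.right q, ← H1'.right q]
      subst this
      rfl
    · rintro ⟨h, H⟩
      obtain ⟨T, h1, h2, H1, H2, rfl⟩ := comp_split X Y H
      exact ⟨⟨T, ⟨h1, H1⟩, ⟨h2, H2⟩⟩, rfl⟩
  rw [cnt, ← Nat.card_congr (Equiv.ofBijective _ hF), Nat.card_sigma]
  simp only [Nat.card_prod, cnt]

theorem sig_comp [Fintype P] [Fintype Q] [Fintype R] [Fintype A] [Fintype A'] [Fintype B]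
    [Fintype B'] (X : P ⊕ (A ⊕ Q) → B → Prop) (Y : Q ⊕ (A' ⊕ R) → B' → Prop) :
    sig (comp X Y) = sig X * sig Y := by
  ext S U
  rw [Matrix.mul_apply, sig, Matrix.of_apply, cnt_comp]
  push_cast
  rfl

/-- The number of vertices: states on the two sides are balanced. -/
theorem IsPM.balance [Fintype P] [Fintype Q] [Fintype A] [Fintype B]
    {X : P ⊕ (A ⊕ Q) → B → Prop} {S : Finset P} {T : Finset Q}
    {h : B → P ⊕ (A ⊕ Q)} (H : IsPM X S T h) :
    Fintype.card B + S.card = Fintype.card P + Fintype.card A + T.card := by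
  classical
  have h1 : Fintype.card B =
      ((Finset.univ \ S).disjSum ((Finset.univ : Finset A).disjSum T)).card := by
    rw [← Finset.card_univ, ← Finset.card_image_of_injective Finset.univ H.inj]
    congr 1
    ext v
    simp only [Finset.mem_image, Finset.mem_univ, true_and]
    rcases v with (p | a | q)
    · rw [H.left p]; simp
    · simp [H.mid a]
    · rw [H.right q]; simp
  rw [h1, Finset.card_disjSum, Finset.card_disjSum, Finset.card_univ,
    Finset.card_sdiff_of_subset (Finset.subset_univ S), Finset.card_univ]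
  have := Finset.card_le_univ S
  omega

/-- The matrix `x` is the signature of a finite gadget. -/
def IsGad (x : Matrix (Finset P) (Finset Q) T3) : Prop :=
  ∃ (A B : Type) (_ : Fintype A) (_ : Fintype B) (X : P ⊕ (A ⊕ Q) → B → Prop), sig X = x

theorem IsGad.mul [Fintype P] [Fintype Q] [Fintype R] {x : Matrix (Finset P) (Finset Q) T3}
    {y : Matrix (Finset Q) (Finset R) T3} (hx : IsGad x) (hy : IsGad y) : IsGad (x * y) := by
  obtain ⟨A, B, _, _, X, rfl⟩ := hx
  obtain ⟨A', B', _, _, Y, rfl⟩ := hy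
  exact ⟨_, _, inferInstance, inferInstance, comp X Y, sig_comp X Y⟩

/-- The wires: the identity gadget. -/
def wires (P : Type) : P ⊕ (Empty ⊕ P) → P → Prop
  | Sum.inl p, b => p = b
  | Sum.inr (Sum.inl a), _ => a.elim
  | Sum.inr (Sum.inr p), b => p = b

theorem sig_wires [Fintype P] [DecidableEq P] : sig (wires P) = 1 := by
  classical
  have key : ∀ (S T : Finset P) (h : P → P ⊕ (Empty ⊕ P)), IsPM (wires P) S T h ↔
      S = T ∧ h = fun p => if p ∈ S then Sum.inr (Sum.inr p) else Sum.inl p := by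
    intro S T h
    constructor
    · intro H
      have hval : ∀ p, h p = Sum.inl p ∨ h p = Sum.inr (Sum.inr p) := by
        intro p
        have := H.adj p
        rcases hp : h p with (q | a | q)
        · rw [hp] at this
          left; rw [show q = p from this]
        · exact a.elim
        · rw [hp] at this
          right; rw [show q = p from this]
      have h1 : ∀ p, h p = Sum.inl p ↔ p ∉ S := by
        intro p
        rw [← H.left p]
        constructor
        · intro e; exact ⟨p, e⟩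
        · rintro ⟨b, hb⟩
          rcases hval b with e | e
          · rw [hb] at e; simp at e; subst e; exact hb
          · rw [hb] at e; simp at e
      have h2 : ∀ p, h p = Sum.inr (Sum.inr p) ↔ p ∈ T := by
        intro p
        rw [← H.right p]
        constructor
        · intro e; exact ⟨p, e⟩
        · rintro ⟨b, hb⟩
          rcases hval b with e | e
          · rw [hb] at e; simp at e
          · rw [hb] at e; simp at e; subst e; exact hb
      refine ⟨?_, ?_⟩
      · ext p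
        rw [← h2 p]
        constructor
        · intro hp
          rcases hval p with e | e
          · exact absurd hp ((h1 p).1 e)
          · exact e
        · intro e
          by_contra hp
          rw [← h1 p, e] at hp
          simp at hp
      · funext p
        split_ifs with hp
        · rcases hval p with e | e
          · exact absurd hp ((h1 p).1 e)
          · exact e
        · exact (h1 p).2 hp
    · rintro ⟨rfl, rfl⟩
      refine ⟨?_, ?_, ?_, ?_, ?_⟩
      · intro p q e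
        by_cases hp : p ∈ S <;> by_cases hq : q ∈ S <;> simp [hp, hq] at e <;> exact e
      · intro p
        by_cases hp : p ∈ S <;> simp [hp, wires]
      · intro p
        constructor
        · rintro ⟨b, hb⟩
          by_cases hbS : b ∈ S <;> simp [hbS] at hb
          subst hb; exact hbS
        · intro hp
          exact ⟨p, by simp [hp]⟩
      · intro a; exact a.elim
      · intro p
        constructor
        · rintro ⟨b, hb⟩
          by_cases hbS : b ∈ S <;> simp [hbS] at hb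
          subst hb; exact hbS
        · intro hp
          exact ⟨p, by simp [hp]⟩
  ext S T
  rw [sig, Matrix.of_apply, cnt]
  by_cases hST : S = T
  · subst hST
    rw [Matrix.one_apply_eq]
    have : Nat.card {h : P → P ⊕ (Empty ⊕ P) // IsPM (wires P) S S h} = 1 := by
      rw [Nat.card_eq_one_iff_unique]
      refine ⟨⟨?_⟩, ⟨⟨_, (key S S _).2 ⟨rfl, rfl⟩⟩⟩⟩
      rintro ⟨h, hh⟩ ⟨h', hh'⟩
      simp only [Subtype.mk.injEq]
      rw [((key S S h).1 hh).2, ((key S S h').1 hh').2]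
    rw [this]; simp
  · rw [Matrix.one_apply_ne hST]
    have : Nat.card {h : P → P ⊕ (Empty ⊕ P) // IsPM (wires P) S T h} = 0 := by
      rw [Nat.card_eq_zero]
      left
      rw [isEmpty_subtype]
      intro h hh
      exact hST ((key S T h).1 hh).1
    rw [this]; simp

theorem IsGad.one [Fintype P] [DecidableEq P] : IsGad (1 : Matrix (Finset P) (Finset P) T3) :=
  ⟨Empty, P, inferInstance, inferInstance, wires P, sig_wires⟩

/-- The vertices of the first colour that have to be covered in the state `(S, T)`. -/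
def Alw (S : Finset P) (T : Finset Q) : P ⊕ (A ⊕ Q) → Prop
  | Sum.inl p => p ∉ S
  | Sum.inr (Sum.inl _) => True
  | Sum.inr (Sum.inr q) => q ∈ T

theorem IsPM.alw_iff {X : P ⊕ (A ⊕ Q) → B → Prop} {S : Finset P} {T : Finset Q}
    {h : B → P ⊕ (A ⊕ Q)} (H : IsPM X S T h) (v) : (∃ b, h b = v) ↔ Alw S T v := by
  rcases v with (p | a | q)
  · exact H.left p
  · exact ⟨fun _ => trivial, fun _ => H.mid a⟩
  · exact H.right q

theorem isPM_of_alw {X : P ⊕ (A ⊕ Q) → B → Prop} {S : Finset P} {T : Finset Q}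
    {h : B → P ⊕ (A ⊕ Q)} (h1 : Injective h) (h2 : ∀ b, X (h b) b)
    (h3 : ∀ v, (∃ b, h b = v) ↔ Alw S T v) : IsPM X S T h :=
  ⟨h1, h2, fun p => h3 (Sum.inl p), fun a => (h3 (Sum.inr (Sum.inl a))).2 trivial,
    fun q => h3 (Sum.inr (Sum.inr q))⟩

theorem card_alw [Fintype P] [Fintype Q] [Fintype A] (S : Finset P) (T : Finset Q) :
    Nat.card {v : P ⊕ (A ⊕ Q) // Alw S T v} + S.card = Fintype.card P + Fintype.card A + T.card := by
  classical
  rw [Nat.card_eq_fintype_card, Fintype.card_subtype]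
  have : (Finset.univ.filter (fun v : P ⊕ (A ⊕ Q) => Alw S T v)) =
      ((Finset.univ \ S).disjSum ((Finset.univ : Finset A).disjSum T)) := by
    ext v
    rw [Finset.mem_filter]
    simp only [Finset.mem_univ, true_and]
    rcases v with (p | a | q) <;> simp [Alw]
  rw [this, Finset.card_disjSum, Finset.card_disjSum, Finset.card_univ,
    Finset.card_sdiff_of_subset (Finset.subset_univ S), Finset.card_univ]
  have := Finset.card_le_univ S
  omega

/-- Hall's theorem for gadgets. -/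
theorem hall_PM [Fintype P] [Fintype Q] [Fintype A] [Fintype B] (X : P ⊕ (A ⊕ Q) → B → Prop)
    [∀ v b, Decidable (X v b)]
    (S : Finset P) (T : Finset Q)
    (hbal : Fintype.card B + S.card = Fintype.card P + Fintype.card A + T.card)
    (hall : ∀ K : Finset (P ⊕ (A ⊕ Q)), (∀ u ∈ K, Alw S T u) →
      K.card ≤ (Finset.univ.filter (fun b => ∃ u ∈ K, X u b)).card) :
    ∃ h, IsPM X S T h := by
  classical
  let ι := {v : P ⊕ (A ⊕ Q) // Alw S T v}
  let t : ι → Finset B := fun u => Finset.univ.filter (fun b => X u.1 b)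
  have h1 : ∀ s : Finset ι, s.card ≤ (s.biUnion t).card := by
    intro s
    have := hall (s.map ⟨Subtype.val, Subtype.val_injective⟩) (by
      intro u hu
      simp only [Finset.mem_map, Embedding.coeFn_mk] at hu
      obtain ⟨a, -, rfl⟩ := hu
      exact a.2)
    rw [Finset.card_map] at this
    refine this.trans (le_of_eq ?_)
    congr 1
    ext b
    simp only [Finset.mem_filter, Finset.mem_univ, true_and, Finset.mem_map, Embedding.coeFn_mk,
      Finset.mem_biUnion, t]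
    constructor
    · rintro ⟨u, ⟨a, ha, rfl⟩, hu⟩
      exact ⟨a, ha, hu⟩
    · rintro ⟨a, ha, hu⟩
      exact ⟨a.1, ⟨a, ha, rfl⟩, hu⟩
  obtain ⟨f, hf, hft⟩ := (Finset.all_card_le_biUnion_card_iff_exists_injective t).1 h1
  have hcard : Fintype.card ι = Fintype.card B := by
    have := card_alw (A := A) S T
    rw [Nat.card_eq_fintype_card] at this
    have h2 : Fintype.card ι = Fintype.card {v : P ⊕ (A ⊕ Q) // Alw S T v} := rfl
    omega
  have hbij : Bijective f := (Fintype.bijective_iff_injective_and_card f).2 ⟨hf, hcard⟩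
  let g := (Equiv.ofBijective f hbij).symm
  refine ⟨fun b => (g b).1, isPM_of_alw ?_ ?_ ?_⟩
  · intro b b' e
    exact g.injective (Subtype.ext e)
  · intro b
    have := hft (g b)
    simp only [Finset.mem_filter, Finset.mem_univ, true_and, t] at this
    rwa [show f (g b) = b from (Equiv.ofBijective f hbij).apply_symm_apply b] at this
  · intro v
    constructor
    · rintro ⟨b, rfl⟩
      exact (g b).2
    · intro hv
      refine ⟨f ⟨v, hv⟩, ?_⟩
      have : g (f ⟨v, hv⟩) = ⟨v, hv⟩ := (Equiv.ofBijective f hbij).symm_apply_apply ⟨v, hv⟩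
      simp only [this]

/-- If a matching with state `(S, S)` cannot be changed to a state `(S - v, S - w)`, then there is
no alternating path from the left port `v` to the right port `w`. -/
theorem no_LR [Fintype P] [Fintype A] [Fintype B] [DecidableEq P]
    (X : P ⊕ (A ⊕ P) → B → Prop) (S : Finset P)
    (h : B → P ⊕ (A ⊕ P)) (H : IsPM X S S h)
    (hmin : ∀ v ∈ S, ∀ w ∈ S, ¬ ∃ h', IsPM X (S.erase v) (S.erase w) h')
    {v : P} (hv : v ∈ S) {b0 b : B} (hb0 : X (Sum.inl v) b0)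
    (hb : Relation.ReflTransGen (fun b b' => X (h b) b') b0 b) (w : P) :
    h b ≠ Sum.inr (Sum.inr w) := by
  classical
  intro hw
  have hwS : w ∈ S := (H.right w).1 ⟨b, hw⟩
  have hno := hmin v hv w hwS
  have hbal := H.balance
  by_contra hcon
  apply hno
  apply hall_PM
  · have h1 := Finset.card_erase_of_mem hv
    have h2 := Finset.card_erase_of_mem hwS
    have h3 : 0 < S.card := Finset.card_pos.2 ⟨v, hv⟩
    omega
  intro K hK
  by_contra hlt
  push Not at hlt
  set N := Finset.univ.filter (fun b => ∃ u ∈ K, X u b) with hN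
  set K' := K.erase (Sum.inl v) with hK'
  set M := Finset.univ.filter (fun b => h b ∈ K') with hM
  have hrange : ∀ u ∈ K', ∃ b, h b = u := by
    intro u hu
    rw [hK', Finset.mem_erase] at hu
    rw [H.alw_iff]
    have := hK u hu.2
    rcases u with (p | a | q)
    · simp only [Alw, Finset.mem_erase, not_and] at this ⊢
      intro hp
      exact this (fun e => hu.1 (by rw [e])) hp
    · trivial
    · simp only [Alw, Finset.mem_erase] at this ⊢
      exact this.2
  have hMK : M.card = K'.card := by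
    rw [← Finset.card_image_of_injective M H.inj]
    congr 1
    ext u
    simp only [hM, Finset.mem_image, Finset.mem_filter, Finset.mem_univ, true_and]
    constructor
    · rintro ⟨b, hb, rfl⟩; exact hb
    · intro hu
      obtain ⟨b, rfl⟩ := hrange u hu
      exact ⟨b, hu, rfl⟩
  have hMN : M ⊆ N := by
    intro b hb
    simp only [hM, Finset.mem_filter, Finset.mem_univ, true_and] at hb
    simp only [hN, Finset.mem_filter, Finset.mem_univ, true_and]
    exact ⟨h b, Finset.mem_of_mem_erase hb, H.adj b⟩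
  have hle : M.card ≤ N.card := Finset.card_le_card hMN
  have hvK : Sum.inl v ∈ K := by
    by_contra hvK
    have : K' = K := Finset.erase_eq_of_notMem hvK
    rw [this] at hMK
    omega
  have hK'card : K'.card + 1 = K.card := Finset.card_erase_add_one hvK
  have hMeq : M = N := Finset.eq_of_subset_of_card_le hMN (by omega)
  have hcl : b ∈ M := by
    have h0 : b0 ∈ M := by
      rw [hMeq, hN]
      simp only [Finset.mem_filter, Finset.mem_univ, true_and]
      exact ⟨_, hvK, hb0⟩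
    clear hw hcon
    induction hb with
    | refl => exact h0
    | tail _ hstep ih =>
      rw [hMeq, hN]
      simp only [Finset.mem_filter, Finset.mem_univ, true_and]
      simp only [hM, Finset.mem_filter, Finset.mem_univ, true_and] at ih
      exact ⟨_, Finset.mem_of_mem_erase ih, hstep⟩
  simp only [hM, Finset.mem_filter, Finset.mem_univ, true_and] at hcl
  have := hK _ (Finset.mem_of_mem_erase hcl)
  rw [hw] at this
  simp [Alw] at this

end H54.UPM
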