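import Pool.Agent.H54.UPM.ZP
import Pool.Agent.H54.UPM.Gadget

/-!
# Matchings of a gadget and determinants with generic entries
-/

namespace H54.UPM

open Function

section

variable {A B : Type} [Fintype A] [Fintype B] [DecidableEq A] [DecidableEq B] {p k : ℕ}
  (Y : A ⊕ Fin p → B → Prop) (e0 : A ⊕ Fin k ≃ B)

/-- The columns of a square submatrix. -/
def col {A : Type} {p k : ℕ} (emb : Fin k → Fin p) : A ⊕ Fin k → A ⊕ Fin p := Sum.map id emb

theorem col_inj {A : Type} {p k : ℕ} {emb : Fin k → Fin p} (h : Injective emb) :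
    Injective (col (A := A) emb) := Sum.map_injective.2 ⟨injective_id, h⟩

open Classical in
/-- The matrix with generic entries. -/
noncomputable def Wm {R : Type} [CommRing R] (x : B → A ⊕ Fin p → R) :
    Matrix (A ⊕ Fin k) (A ⊕ Fin p) R :=
  Matrix.of fun i u => if Y u (e0 i) then x (e0 i) u else 0

/-- The determinant of the columns `A` and `emb`. -/
noncomputable def fdet {R : Type} [CommRing R] (emb : Fin k → Fin p)
    (x : B → A ⊕ Fin p → R) : R :=
  ((Wm Y e0 x).submatrix id (col emb)).det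

/-- Permutations corresponding to matchings. -/
def PP (emb : Fin k → Fin p) (π : Equiv.Perm (A ⊕ Fin k)) : Prop :=
  ∀ i, Y (col emb i) (e0 (π i))

open Classical in
theorem fdet_eq {R : Type} [CommRing R] (emb : Fin k → Fin p) (x : B → A ⊕ Fin p → R) :
    fdet Y e0 emb x = ∑ π ∈ Finset.univ.filter (fun π => PP Y e0 emb π),
      ((Equiv.Perm.sign π : ℤ) : R) * ∏ i, x (e0 (π i)) (col emb i) := by
  rw [fdet, Matrix.det_apply', Finset.sum_filter]
  apply Finset.sum_congr rfl
  intro π _
  by_cases h : PP Y e0 emb π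
  · rw [if_pos h]
    congr 1
    apply Finset.prod_congr rfl
    intro i _
    simp only [Matrix.submatrix_apply, id, Wm, Matrix.of_apply]
    rw [if_pos (h i)]
  · rw [if_neg h]
    unfold PP at h
    push Not at h
    obtain ⟨i, hi⟩ := h
    have : ∏ i, ((Wm Y e0 x).submatrix id (col emb)) (π i) i = 0 := by
      apply Finset.prod_eq_zero (Finset.mem_univ i)
      simp only [Matrix.submatrix_apply, id, Wm, Matrix.of_apply]
      rw [if_neg hi]
    rw [this, mul_zero]

theorem map_fdet {R S : Type} [CommRing R] [CommRing S] (φ : R →+* S) (emb : Fin k → Fin p)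
    (x : B → A ⊕ Fin p → R) :
    φ (fdet Y e0 emb x) = fdet Y e0 emb (fun b u => φ (x b u)) := by
  classical
  rw [fdet_eq, fdet_eq, map_sum]
  apply Finset.sum_congr rfl
  intro π _
  rw [map_mul, map_prod, map_intCast]

open Classical in
/-- The indicator of the edges of a matching. -/
noncomputable def ind {R : Type} [CommRing R] (emb : Fin k → Fin p)
    (π : Equiv.Perm (A ⊕ Fin k)) : B → A ⊕ Fin p → R :=
  fun b u => if u = col emb (π.symm (e0.symm b)) then 1 else 0

theorem ind_val {R : Type} [CommRing R] {emb : Fin k → Fin p} (hemb : Injective emb)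
    (π0 π : Equiv.Perm (A ⊕ Fin k)) (i : A ⊕ Fin k) :
    ind (R := R) e0 emb π0 (e0 (π i)) (col emb i) = if π i = π0 i then 1 else 0 := by
  classical
  rw [ind, Equiv.symm_apply_apply]
  by_cases h : π i = π0 i
  · rw [if_pos h, h, Equiv.symm_apply_apply, if_pos rfl]
  · rw [if_neg h, if_neg]
    intro h1
    apply h
    have := col_inj hemb h1
    rw [Equiv.eq_symm_apply] at this
    exact this.symm

theorem prod_ind3 {R : Type} [CommRing R] {emb : Fin k → Fin p} (hemb : Injective emb)
    (π1 π2 π3 π : Equiv.Perm (A ⊕ Fin k)) :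
    ∏ i, (ind (R := R) e0 emb π1 (e0 (π i)) (col emb i) * ind e0 emb π2 (e0 (π i)) (col emb i) *
      ind e0 emb π3 (e0 (π i)) (col emb i)) =
      if π = π1 ∧ π = π2 ∧ π = π3 then 1 else 0 := by
  classical
  by_cases h : π = π1 ∧ π = π2 ∧ π = π3
  · rw [if_pos h]
    apply Finset.prod_eq_one
    intro i _
    rw [ind_val e0 hemb, ind_val e0 hemb, ind_val e0 hemb, ← h.1, ← h.2.1, ← h.2.2]
    simp
  · rw [if_neg h]
    obtain ⟨i, hi⟩ : ∃ i, ¬ (π i = π1 i ∧ π i = π2 i ∧ π i = π3 i) := by
      by_contra hcon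
      push Not at hcon
      exact h ⟨Equiv.ext fun i => (hcon i).1, Equiv.ext fun i => (hcon i).2.1,
        Equiv.ext fun i => (hcon i).2.2⟩
    apply Finset.prod_eq_zero (Finset.mem_univ i)
    rw [ind_val e0 hemb, ind_val e0 hemb, ind_val e0 hemb]
    by_cases h1 : π i = π1 i
    · by_cases h2 : π i = π2 i
      · have h3 : ¬ π i = π3 i := fun h3 => hi ⟨h1, h2, h3⟩
        rw [if_neg h3, mul_zero]
      · rw [if_neg h2, mul_zero, zero_mul]
    · rw [if_neg h1, zero_mul, zero_mul]

theorem prod_ind1 {R : Type} [CommRing R] {emb : Fin k → Fin p} (hemb : Injective emb)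
    (π1 π : Equiv.Perm (A ⊕ Fin k)) :
    ∏ i, (ind (R := R) e0 emb π1 (e0 (π i)) (col emb i)) = if π = π1 then 1 else 0 := by
  classical
  have h := prod_ind3 (R := R) e0 hemb π1 π1 π1 π
  have h1 : ∀ i, (ind (R := R) e0 emb π1 (e0 (π i)) (col emb i) *
      ind e0 emb π1 (e0 (π i)) (col emb i) * ind e0 emb π1 (e0 (π i)) (col emb i)) =
      ind (R := R) e0 emb π1 (e0 (π i)) (col emb i) := by
    intro i
    rw [ind_val e0 hemb]
    by_cases h1 : π i = π1 i <;> simp [h1]
  simp_rw [h1] at h
  rw [h]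
  simp

theorem fdet_ind {R : Type} [CommRing R] {emb : Fin k → Fin p} (hemb : Injective emb)
    {π0 : Equiv.Perm (A ⊕ Fin k)} (h0 : PP Y e0 emb π0) :
    fdet (R := R) Y e0 emb (ind e0 emb π0) = ((Equiv.Perm.sign π0 : ℤ) : R) := by
  classical
  rw [fdet_eq, Finset.sum_eq_single π0]
  · rw [prod_ind1 e0 hemb, if_pos rfl, mul_one]
  · intro π _ hne
    rw [prod_ind1 e0 hemb, if_neg hne, mul_zero]
  · intro h
    exact absurd (by simpa using h0) h

theorem fdet_ind3 {R : Type} [CommRing R] {emb : Fin k → Fin p} (hemb : Injective emb)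
    {π0 : Equiv.Perm (A ⊕ Fin k)} (h0 : PP Y e0 emb π0) :
    fdet (R := R) Y e0 emb (fun b u => ind e0 emb π0 b u * ind e0 emb π0 b u *
      ind e0 emb π0 b u) = ((Equiv.Perm.sign π0 : ℤ) : R) := by
  classical
  rw [fdet_eq, Finset.sum_eq_single π0]
  · rw [prod_ind3 e0 hemb, if_pos ⟨rfl, rfl, rfl⟩, mul_one]
  · intro π _ hne
    rw [prod_ind3 e0 hemb, if_neg (fun h => hne h.1), mul_zero]
  · intro h
    exact absurd (by simpa using h0) h

theorem fdet_ind_ne {R : Type} [CommRing R] {emb : Fin k → Fin p} (hemb : Injective emb)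
    {π1 π2 : Equiv.Perm (A ⊕ Fin k)} (hne : π1 ≠ π2) :
    fdet (R := R) Y e0 emb (fun b u => ind e0 emb π1 b u * ind e0 emb π2 b u *
      ind e0 emb π1 b u) = 0 := by
  classical
  rw [fdet_eq]
  apply Finset.sum_eq_zero
  intro π _
  rw [prod_ind3 e0 hemb, if_neg, mul_zero]
  rintro ⟨h1, h2, -⟩
  exact hne (h1.symm.trans h2)

theorem fdet_none {R : Type} [CommRing R] {emb : Fin k → Fin p}
    (h : ∀ π, ¬ PP Y e0 emb π) (x : B → A ⊕ Fin p → R) : fdet Y e0 emb x = 0 := by
  classical
  rw [fdet_eq]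
  apply Finset.sum_eq_zero
  intro π hπ
  exact absurd (by simpa using hπ) (h π)

theorem fdet_one {R : Type} [CommRing R] {emb : Fin k → Fin p}
    {π0 : Equiv.Perm (A ⊕ Fin k)} (h0 : PP Y e0 emb π0) (h : ∀ π, PP Y e0 emb π → π = π0)
    (x : B → A ⊕ Fin p → R) :
    fdet Y e0 emb x = ((Equiv.Perm.sign π0 : ℤ) : R) * ∏ i, x (e0 (π0 i)) (col emb i) := by
  classical
  rw [fdet_eq, Finset.sum_eq_single π0]
  · intro π hπ hne
    exact absurd (h π (by simpa using hπ)) hne
  · intro h
    exact absurd (by simpa using h0) h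

theorem fdet_one_mul {R : Type} [CommRing R] {emb : Fin k → Fin p}
    {π0 : Equiv.Perm (A ⊕ Fin k)} (h0 : PP Y e0 emb π0) (h : ∀ π, PP Y e0 emb π → π = π0)
    (x y z : B → A ⊕ Fin p → R) :
    fdet Y e0 emb x * fdet Y e0 emb y * fdet Y e0 emb z =
      fdet Y e0 emb (fun b u => x b u * y b u * z b u) := by
  rw [fdet_one Y e0 h0 h, fdet_one Y e0 h0 h, fdet_one Y e0 h0 h, fdet_one Y e0 h0 h,
    Finset.prod_mul_distrib, Finset.prod_mul_distrib]
  have h1 : ((Equiv.Perm.sign π0 : ℤ) : R) * ((Equiv.Perm.sign π0 : ℤ) : R) = 1 := by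
    rw [← Int.cast_mul]
    rcases Int.units_eq_one_or (Equiv.Perm.sign π0) with h | h <;> rw [h] <;> simp
  linear_combination (((Equiv.Perm.sign π0 : ℤ) : R) * (∏ i, x (e0 (π0 i)) (col emb i)) *
    (∏ i, y (e0 (π0 i)) (col emb i)) * (∏ i, z (e0 (π0 i)) (col emb i))) * h1

end

section

variable {A B P : Type} [Fintype A] [Fintype B] [DecidableEq A] [DecidableEq B] [Fintype P]
  {p k : ℕ}

/-- Matchings and permutations. -/
theorem card_PP (X : P ⊕ (A ⊕ Fin p) → B → Prop) (e0 : A ⊕ Fin k ≃ B) (T : Finset (Fin p))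
    (hT : T.card = k) :
    Nat.card {π : Equiv.Perm (A ⊕ Fin k) // PP (fun u b => X (Sum.inr u) b) e0
      (T.orderEmbOfFin hT) π} = cnt X Finset.univ T := by
  classical
  have hrange : ∀ q, q ∈ T ↔ ∃ j, T.orderEmbOfFin hT j = q := by
    intro q
    have := Finset.range_orderEmbOfFin T hT
    rw [← Finset.mem_coe, ← this, Set.mem_range]
  have hemb : Injective (T.orderEmbOfFin hT) := (T.orderEmbOfFin hT).injective
  have hto : ∀ π : Equiv.Perm (A ⊕ Fin k), PP (fun u b => X (Sum.inr u) b) e0
      (T.orderEmbOfFin hT) π → IsPM X Finset.univ T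
        (fun b => Sum.inr (col (T.orderEmbOfFin hT) (π.symm (e0.symm b)))) := by
    intro π hπ
    refine ⟨?_, ?_, ?_, ?_, ?_⟩
    · intro b b' h
      exact e0.symm.injective (π.symm.injective (col_inj hemb (Sum.inr_injective h)))
    · intro b
      have := hπ (π.symm (e0.symm b))
      rwa [Equiv.apply_symm_apply, Equiv.apply_symm_apply] at this
    · intro q
      constructor
      · rintro ⟨b, hb⟩
        simp at hb
      · intro h
        exact absurd (Finset.mem_univ q) h
    · intro a
      refine ⟨e0 (π (Sum.inl a)), ?_⟩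
      rw [Equiv.symm_apply_apply, Equiv.symm_apply_apply]
      rfl
    · intro q
      rw [hrange]
      constructor
      · rintro ⟨b, hb⟩
        have h1 := Sum.inr_injective hb
        rcases h2 : π.symm (e0.symm b) with a | j
        · rw [h2] at h1
          simp [col] at h1
        · rw [h2] at h1
          exact ⟨j, by simpa [col] using h1⟩
      · rintro ⟨j, rfl⟩
        refine ⟨e0 (π (Sum.inr j)), ?_⟩
        rw [Equiv.symm_apply_apply, Equiv.symm_apply_apply]
        rfl
  have hbij : Bijective (fun π : {π : Equiv.Perm (A ⊕ Fin k) //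
      PP (fun u b => X (Sum.inr u) b) e0 (T.orderEmbOfFin hT) π} =>
      (⟨_, hto π.1 π.2⟩ : {h // IsPM X Finset.univ T h})) := by
    constructor
    · rintro ⟨π, hπ⟩ ⟨π', hπ'⟩ e
      have e := congrArg Subtype.val e
      simp only at e
      apply Subtype.ext
      simp only
      have h1 : π.symm = π'.symm := by
        ext1 i
        have := congrFun e (e0 i)
        have := col_inj hemb (Sum.inr_injective this)
        simpa using this
      rw [← Equiv.symm_symm π, h1, Equiv.symm_symm]
    · rintro ⟨h, H⟩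
      have hcol : ∀ b, ∃ i : A ⊕ Fin k, h b = Sum.inr (col (T.orderEmbOfFin hT) i) := by
        intro b
        rcases hb : h b with q | a | q
        · exact absurd (Finset.mem_univ q) ((H.left q).1 ⟨b, hb⟩)
        · exact ⟨Sum.inl a, rfl⟩
        · have h1 := (H.right q).1 ⟨b, hb⟩
          obtain ⟨j, hj⟩ := (hrange q).1 h1
          exact ⟨Sum.inr j, by rw [← hj]; rfl⟩
      choose g hg using hcol
      have hginj : Injective g := by
        intro b b' hbb
        apply H.inj
        rw [hg, hg, hbb]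
      have hgbij : Bijective g := by
        rw [Fintype.bijective_iff_injective_and_card]
        exact ⟨hginj, (Fintype.card_congr e0).symm⟩
      let π : Equiv.Perm (A ⊕ Fin k) := (e0.trans (Equiv.ofBijective g hgbij)).symm
      have hπ : ∀ b, π.symm (e0.symm b) = g b := by
        intro b
        show (e0.trans (Equiv.ofBijective g hgbij)) (e0.symm b) = g b
        simp
      refine ⟨⟨π, ?_⟩, ?_⟩
      · intro i
        have h1 := H.adj (e0 (π i))
        rw [hg] at h1
        have h2 := hπ (e0 (π i))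
        rw [Equiv.symm_apply_apply, Equiv.symm_apply_apply] at h2
        rw [← h2] at h1
        exact h1
      · apply Subtype.ext
        funext b
        show Sum.inr (col (T.orderEmbOfFin hT) (π.symm (e0.symm b))) = h b
        rw [hπ, hg]
  exact Nat.card_congr (Equiv.ofBijective _ hbij)

end

/-- Generic points. -/
theorem exists_generic {σ ι : Type} [Fintype ι] (P : ι → MvPolynomial σ ℚ) :
    ∃ v : σ → ℚ, ∀ i, P i ≠ 0 → MvPolynomial.eval v (P i) ≠ 0 := by
  classical
  have h : ∏ i ∈ Finset.univ.filter (fun i => P i ≠ 0), P i ≠ 0 := by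
    rw [Finset.prod_ne_zero_iff]
    intro i hi
    simpa using hi
  obtain ⟨v, hv⟩ : ∃ v : σ → ℚ, MvPolynomial.eval v
      (∏ i ∈ Finset.univ.filter (fun i => P i ≠ 0), P i) ≠ 0 := by
    by_contra hcon
    push Not at hcon
    apply h
    apply MvPolynomial.funext
    intro v
    rw [hcon v, map_zero]
  refine ⟨v, fun i hi => ?_⟩
  rw [map_prod, Finset.prod_ne_zero_iff] at hv
  exact hv i (by simpa using hi)

end H54.UPM
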