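import Mathlib

/-!
# Ramsey's theorem for pairs of natural numbers
-/

namespace H54.UPM

open Function

theorem ramsey_aux {C : Type} [Finite C] (n : ℕ) : ∃ N : ℕ, ∀ (c : ℕ → ℕ → C) (S : Finset ℕ),
    N ≤ S.card → ∃ l : List (ℕ × C), l.length = n ∧ (∀ a ∈ l, a.1 ∈ S) ∧
      l.Pairwise (fun a b => a.1 < b.1 ∧ c a.1 b.1 = a.2) := by
  classical
  have := Fintype.ofFinite C
  induction n with
  | zero => exact ⟨0, fun c S _ => ⟨[], rfl, by simp, List.Pairwise.nil⟩⟩
  | succ n ih =>
    obtain ⟨N, hN⟩ := ih
    refine ⟨Fintype.card C * N + 1, ?_⟩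
    intro c S hS
    have hne : S.Nonempty := Finset.card_pos.1 (by omega)
    set s := S.min' hne with hs
    have hsS : s ∈ S := S.min'_mem hne
    have hcard : Fintype.card C * N ≤ (S.erase s).card := by
      rw [Finset.card_erase_of_mem hsS]; omega
    by_cases hC : IsEmpty C
    · exact (hC.false (c 0 0)).elim
    rw [not_isEmpty_iff] at hC
    obtain ⟨d, -, hd⟩ := Finset.exists_le_card_fiber_of_mul_le_card_of_maps_to
      (s := S.erase s) (t := (Finset.univ : Finset C)) (f := fun j => c s j) (n := N)
      (fun a _ => Finset.mem_univ _) Finset.univ_nonempty (by rw [Finset.card_univ]; exact hcard)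
    obtain ⟨l, h1, h2, h3⟩ := hN c _ hd
    refine ⟨(s, d) :: l, by simp [h1], ?_, ?_⟩
    · intro a ha
      rcases List.mem_cons.1 ha with rfl | ha
      · exact hsS
      · have := h2 a ha
        exact Finset.mem_of_mem_erase (Finset.mem_filter.1 this).1
    · rw [List.pairwise_cons]
      refine ⟨?_, h3⟩
      intro a ha
      have h4 := h2 a ha
      rw [Finset.mem_filter, Finset.mem_erase] at h4
      exact ⟨lt_of_le_of_ne (S.min'_le _ h4.1.2) (Ne.symm h4.1.1), h4.2⟩

/-- **Ramsey's theorem for pairs.** -/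
theorem ramsey {C : Type} [Finite C] (m : ℕ) : ∃ N : ℕ, ∀ (c : ℕ → ℕ → C) (S : Finset ℕ),
    N ≤ S.card → ∃ (d : C) (l : List ℕ), l.length = m ∧ (∀ a ∈ l, a ∈ S) ∧
      l.Pairwise (fun a b => a < b ∧ c a b = d) := by
  classical
  have := Fintype.ofFinite C
  obtain ⟨N, hN⟩ := ramsey_aux (C := C) (Fintype.card C * m)
  refine ⟨N, ?_⟩
  intro c S hS
  obtain ⟨l, h1, h2, h3⟩ := hN c S hS
  by_cases hC : IsEmpty C
  · exact (hC.false (c 0 0)).elim
  rw [not_isEmpty_iff] at hC
  -- pigeonhole on the colours in the list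
  obtain ⟨d, hd⟩ : ∃ d : C, m ≤ (l.filter (fun a => a.2 = d)).length := by
    by_contra hcon
    push Not at hcon
    have h4 : l.length = ∑ d : C, (l.filter (fun a => a.2 = d)).length := by
      clear h1 h2 h3 hcon
      induction l with
      | nil => simp
      | cons a l ih =>
        have h5 : ∀ d : C, ((a :: l).filter (fun a => a.2 = d)).length =
            (if a.2 = d then 1 else 0) + (l.filter (fun a => a.2 = d)).length := by
          intro d
          rw [List.filter_cons]
          by_cases h : a.2 = d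
          · simp [h, add_comm]
          · simp [h]
        simp_rw [h5]
        rw [Finset.sum_add_distrib, ← ih]
        simp [add_comm]
    have h5 : l.length < Fintype.card C * m := by
      rw [h4]
      calc ∑ d : C, (l.filter (fun a => a.2 = d)).length < ∑ _d : C, m :=
            Finset.sum_lt_sum_of_nonempty Finset.univ_nonempty (fun d _ => hcon d)
        _ = Fintype.card C * m := by simp
    omega
  have h4 := (h3.filter (fun a => a.2 = d)).sublist (List.take_sublist m _)
  refine ⟨d, ((l.filter (fun a => a.2 = d)).take m).map Prod.fst, ?_, ?_, ?_⟩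
  · simp [hd]
  · intro a ha
    obtain ⟨b, hb, rfl⟩ := List.mem_map.1 ha
    exact h2 b (List.mem_of_mem_filter (List.mem_of_mem_take hb))
  · rw [List.pairwise_map]
    refine h4.imp_of_mem ?_
    intro a b ha hb h
    have h5 := (List.mem_filter.1 (List.mem_of_mem_take ha)).2
    simp only [decide_eq_true_eq] at h5
    exact ⟨h.1, h.2.trans h5⟩

end H54.UPM
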