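import Pool.Agent.H54.UPM.Model
import Pool.Agent.H54.UPM.Ramsey

/-!
# Chains of subtrees
-/

namespace H54.UPM

open Function

theorem GTree.chain {Γ : Type} (Q : Set Γ → Prop) (Λ : Finset Γ) :
    ∀ (t : GTree Γ) (n : ℕ), t.All Q → 2 ^ n ≤ (t.gads ∩ (Λ : Set Γ)).ncard →
      ∃ (u : ℕ → Γ) (T : ℕ → Set Γ), (∀ j, j ≤ n → u j ∈ Λ) ∧
        (∀ j, j ≤ n → Q (T j)) ∧ (∀ j k, j ≤ k → k ≤ n → T k ⊆ T j) ∧
        (∀ j k, j ≤ n → k ≤ n → (u k ∈ T j ↔ j ≤ k)) ∧ T 0 ⊆ t.gads := by
  have hfin : ∀ t : GTree Γ, (t.gads ∩ (Λ : Set Γ)).Finite :=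
    fun t => Set.Finite.subset Λ.finite_toSet Set.inter_subset_right
  intro t
  induction t with
  | nil =>
    intro n _ h
    simp only [GTree.gads, Set.empty_inter, Set.ncard_empty] at h
    have : 0 < 2 ^ n := by positivity
    omega
  | node o l r ihl ihr =>
    intro n hQ h
    obtain ⟨hQ0, hQl, hQr⟩ := hQ
    have hsl : l.gads ⊆ GTree.gads (.node o l r) :=
      Set.subset_union_left.trans Set.subset_union_right
    have hsr : r.gads ⊆ GTree.gads (.node o l r) :=
      Set.subset_union_right.trans Set.subset_union_right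
    rcases n with _ | m
    · have hne : (GTree.gads (.node o l r) ∩ (Λ : Set Γ)).Nonempty := by
        rw [← Set.ncard_pos (hfin _)]
        exact lt_of_lt_of_le Nat.one_pos (by simpa using h)
      obtain ⟨i, hi1, hi2⟩ := hne
      refine ⟨fun _ => i, fun _ => GTree.gads (.node o l r), fun _ _ => hi2, fun _ _ => hQ0,
        fun _ _ _ _ => subset_rfl, ?_, subset_rfl⟩
      intro j k hj hk
      exact ⟨fun _ => by omega, fun _ => hi1⟩
    · by_cases hl : 2 ^ (m + 1) ≤ (l.gads ∩ (Λ : Set Γ)).ncard
      · obtain ⟨u, T, h1, h2, h3, h4, h5⟩ := ihl (m + 1) hQl hl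
        exact ⟨u, T, h1, h2, h3, h4, h5.trans hsl⟩
      by_cases hr : 2 ^ (m + 1) ≤ (r.gads ∩ (Λ : Set Γ)).ncard
      · obtain ⟨u, T, h1, h2, h3, h4, h5⟩ := ihr (m + 1) hQr hr
        exact ⟨u, T, h1, h2, h3, h4, h5.trans hsr⟩
      push Not at hl hr
      have hsum : (GTree.gads (.node o l r) ∩ (Λ : Set Γ)).ncard ≤
          1 + ((l.gads ∩ (Λ : Set Γ)).ncard + (r.gads ∩ (Λ : Set Γ)).ncard) := by
        rw [GTree.gads, Set.union_inter_distrib_right, Set.union_inter_distrib_right]
        refine (Set.ncard_union_le _ _).trans (Nat.add_le_add ?_ (Set.ncard_union_le _ _))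
        have hsub : {g | o = some g} ∩ (Λ : Set Γ) ⊆ {g | o = some g} := Set.inter_subset_left
        have h1 : {g | o = some g}.ncard ≤ 1 := by
          rw [Set.ncard_le_one ?_]
          · intro a ha b hb
            exact Option.some_injective _ (ha.symm.trans hb)
          · rcases o with _ | g
            · have : {g : Γ | none = some g} = ∅ := by
                ext g
                exact ⟨fun h => absurd h (by simp), fun h => h.elim⟩
              rw [this]
              exact Set.finite_empty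
            · have : {g' : Γ | some g = some g'} = {g} := by
                ext g'
                exact ⟨fun h => (Option.some_injective _ h).symm, fun h => congrArg some h.symm⟩
              rw [this]
              exact Set.finite_singleton g
        refine (Set.ncard_le_ncard hsub ?_).trans h1
        rcases o with _ | g
        · have : {g : Γ | none = some g} = ∅ := by
            ext g
            exact ⟨fun h => absurd h (by simp), fun h => h.elim⟩
          rw [this]
          exact Set.finite_empty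
        · have : {g' : Γ | some g = some g'} = {g} := by
            ext g'
            exact ⟨fun h => (Option.some_injective _ h).symm, fun h => congrArg some h.symm⟩
          rw [this]
          exact Set.finite_singleton g
      have hpow : 2 ^ (m + 1) = 2 * 2 ^ m := by rw [pow_succ]; ring
      -- a child with many gadgets
      have key : ∀ c : GTree Γ, c.gads ⊆ GTree.gads (.node o l r) →
          (c.gads ∩ (Λ : Set Γ)).ncard < 2 ^ (m + 1) →
          (∃ (u : ℕ → Γ) (T : ℕ → Set Γ), (∀ j, j ≤ m → u j ∈ Λ) ∧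
            (∀ j, j ≤ m → Q (T j)) ∧ (∀ j k, j ≤ k → k ≤ m → T k ⊆ T j) ∧
            (∀ j k, j ≤ m → k ≤ m → (u k ∈ T j ↔ j ≤ k)) ∧ T 0 ⊆ c.gads) →
          ∃ (u : ℕ → Γ) (T : ℕ → Set Γ), (∀ j, j ≤ m + 1 → u j ∈ Λ) ∧
            (∀ j, j ≤ m + 1 → Q (T j)) ∧ (∀ j k, j ≤ k → k ≤ m + 1 → T k ⊆ T j) ∧
            (∀ j k, j ≤ m + 1 → k ≤ m + 1 → (u k ∈ T j ↔ j ≤ k)) ∧
            T 0 ⊆ GTree.gads (.node o l r) := by
        rintro c hc hc2 ⟨u, T, h1, h2, h3, h4, h5⟩
        obtain ⟨u0, hu0, hu0c⟩ : ∃ u0 ∈ GTree.gads (.node o l r) ∩ (Λ : Set Γ),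
            u0 ∉ c.gads ∩ (Λ : Set Γ) := by
          by_contra hcon
          push Not at hcon
          have := Set.ncard_le_ncard (show GTree.gads (.node o l r) ∩ (Λ : Set Γ) ⊆
            c.gads ∩ (Λ : Set Γ) from hcon) (hfin c)
          omega
        have hu0c' : u0 ∉ c.gads := fun h => hu0c ⟨h, hu0.2⟩
        refine ⟨fun k => match k with | 0 => u0 | k + 1 => u k,
          fun k => match k with | 0 => GTree.gads (.node o l r) | k + 1 => T k, ?_, ?_, ?_, ?_, ?_⟩
        · intro j hj
          rcases j with _ | j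
          · exact hu0.2
          · exact h1 j (by omega)
        · intro j hj
          rcases j with _ | j
          · exact hQ0
          · exact h2 j (by omega)
        · intro j k hjk hk
          rcases j with _ | j <;> rcases k with _ | k
          · exact subset_rfl
          · exact (h3 0 k (by omega) (by omega)).trans (h5.trans hc)
          · omega
          · exact h3 j k (by omega) (by omega)
        · intro j k hj hk
          rcases j with _ | j <;> rcases k with _ | k
          · exact ⟨fun _ => le_rfl, fun _ => hu0.1⟩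
          · refine ⟨fun _ => by omega, fun _ => ?_⟩
            exact hc (h5 ((h4 0 k (by omega) (by omega)).2 (by omega)))
          · refine ⟨fun h => ?_, fun h => by omega⟩
            exact absurd (h5 (h3 0 j (by omega) (by omega) h)) hu0c'
          · simp only
            rw [h4 j k (by omega) (by omega)]
            omega
        · exact subset_rfl
      by_cases hl2 : 2 ^ m ≤ (l.gads ∩ (Λ : Set Γ)).ncard
      · exact key l hsl hl (ihl m hQl hl2)
      · have hr2 : 2 ^ m ≤ (r.gads ∩ (Λ : Set Γ)).ncard := by omega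
        exact key r hsr hr (ihr m hQr hr2)

namespace GFamily

variable {α : Type} {L d : ℕ}

theorem mid_compl (F : GFamily α L d) (S : Set F.Γ) : F.mid Sᶜ = F.mid S := by
  ext v
  simp only [mid, Set.mem_compl_iff, not_not]
  constructor
  · rintro ⟨⟨i, h1, h2⟩, ⟨j, h3, h4⟩⟩
    exact ⟨⟨j, h3, h4⟩, ⟨i, h1, h2⟩⟩
  · rintro ⟨⟨i, h1, h2⟩, ⟨j, h3, h4⟩⟩
    exact ⟨⟨j, h3, h4⟩, ⟨i, h1, h2⟩⟩

theorem mid_empty (F : GFamily α L d) : F.mid ∅ = ∅ := by
  ext v
  simp only [Set.mem_empty_iff_false, iff_false]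
  rintro ⟨⟨i, h1, -⟩, -⟩
  exact h1

theorem mid_univ (F : GFamily α L d) : F.mid Set.univ = ∅ := by
  rw [← Set.compl_empty, mid_compl, mid_empty]

theorem not_mid (F : GFamily α L d) {S : Set F.Γ} {v : F.A ⊕ F.B} (h : v ∉ F.mid S) {g g' : F.Γ}
    (hg : F.Touches v g) (hg' : F.Touches v g') : g ∈ S ↔ g' ∈ S := by
  constructor
  · intro h1
    by_contra h2
    exact h ⟨⟨g, h1, hg⟩, ⟨g', h2, hg'⟩⟩
  · intro h1
    by_contra h2
    exact h ⟨⟨g', h1, hg'⟩, ⟨g, h2, hg⟩⟩

/-- The locations `loc` of the positions of `P` are laid out along chains of subtrees, up or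
down. -/
def Chained (F : GFamily α L d) (p : ℕ) (loc : Fin L → Option F.Γ) (P : Finset (Fin L))
    (T : Fin L → Set F.Γ) : Prop :=
  (∀ u, (F.mid (T u)).ncard ≤ p) ∧
    ((∀ u ∈ P, ∀ u' ∈ P, (u ≤ u' → T u' ⊆ T u ∧ ∀ g, loc u' = some g → g ∈ T u) ∧
        (u < u' → ∀ g, loc u = some g → g ∉ T u')) ∨
      (∀ u ∈ P, ∀ u' ∈ P, (u ≤ u' → T u ⊆ T u' ∧ ∀ g, loc u = some g → g ∈ T u') ∧
        (u < u' → ∀ g, loc u' = some g → g ∉ T u)))

theorem Chained.mono {F : GFamily α L d} {p : ℕ} {loc : Fin L → Option F.Γ}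
    {P P' : Finset (Fin L)} {T : Fin L → Set F.Γ} (h : F.Chained p loc P T) (hP : P' ⊆ P) :
    F.Chained p loc P' T := by
  obtain ⟨h1, h2 | h2⟩ := h
  · exact ⟨h1, Or.inl fun u hu u' hu' => h2 u (hP hu) u' (hP hu')⟩
  · exact ⟨h1, Or.inr fun u hu u' hu' => h2 u (hP hu) u' (hP hu')⟩

/-- **Chains for one location of every position.** -/
theorem exists_chained (p d m : ℕ) : ∃ N : ℕ, ∀ (α : Type) (L : ℕ) (F : GFamily α L d),
    F.WidthLE p → ∀ (loc : Fin L → Option F.Γ), (∀ i g, loc i = some g → i ∈ F.reads g) →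
      ∀ P : Finset (Fin L), N ≤ P.card →
        ∃ P' ⊆ P, m ≤ P'.card ∧ ∃ T, F.Chained p loc P' T := by
  classical
  obtain ⟨N0, hN0⟩ := ramsey (C := Bool) m
  refine ⟨m + 2 ^ N0 * d, ?_⟩
  rintro α L F ⟨t, ht, htQ⟩ loc hloc P hP
  have hA := F.finA
  have hB := F.finB
  have hΓ := F.finΓ
  -- positions without location
  by_cases hnone : m ≤ (P.filter (fun i => loc i = none)).card
  · refine ⟨P.filter (fun i => loc i = none), Finset.filter_subset _ _, hnone, fun _ => ∅, ?_,
      Or.inl ?_⟩
    · intro u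
      rw [F.mid_empty]
      simp
    · intro u hu u' hu'
      have h1 := (Finset.mem_filter.1 hu).2
      have h2 := (Finset.mem_filter.1 hu').2
      refine ⟨fun _ => ⟨subset_rfl, fun g hg => ?_⟩, fun _ g hg => ?_⟩
      · rw [h2] at hg
        exact absurd hg (by simp)
      · rw [h1] at hg
        exact absurd hg (by simp)
  set Ps := P \ P.filter (fun i => loc i = none) with hPs
  have hPsm : ∀ i ∈ Ps, i ∈ P ∧ loc i ≠ none := by
    intro i hi
    rw [hPs, Finset.mem_sdiff, Finset.mem_filter] at hi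
    exact ⟨hi.1, fun h => hi.2 ⟨hi.1, h⟩⟩
  have hPsc : Ps.card + (P.filter (fun i => loc i = none)).card = P.card :=
    Finset.card_sdiff_add_card_eq_card (Finset.filter_subset _ _)
  have hsome : 2 ^ N0 * d ≤ Ps.card := by omega
  let Λ : Finset F.Γ := (Set.toFinite {g : F.Γ | ∃ i ∈ Ps, loc i = some g}).toFinset
  have hΛ : ∀ g, g ∈ Λ ↔ ∃ i ∈ Ps, loc i = some g := by
    intro g
    rw [Set.Finite.mem_toFinset]
    rfl
  have hcard : Ps.card ≤ Λ.card * d := by
    have hsub : Ps ⊆ Λ.biUnion (fun g => F.reads g) := by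
      intro i hi
      obtain ⟨g, hg⟩ : ∃ g, loc i = some g := by
        exact Option.ne_none_iff_exists'.1 (hPsm i hi).2
      rw [Finset.mem_biUnion]
      exact ⟨g, (hΛ g).2 ⟨i, hi, hg⟩, hloc i g hg⟩
    exact (Finset.card_le_card hsub).trans
      (Finset.card_biUnion_le_card_mul _ _ d (fun g _ => F.reads_card g))
  by_cases hPs0 : Ps.card = 0
  · -- then `d = 0` or there is nothing to do
    have hm0 : 2 ^ N0 * d = 0 := by omega
    have hm : m = 0 := by omega
    refine ⟨∅, Finset.empty_subset _, by simp [hm], fun _ => ∅, ?_, Or.inl ?_⟩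
    · intro u
      rw [F.mid_empty]
      simp
    · intro u hu
      exact absurd hu (Finset.notMem_empty u)
  have hd : 0 < d := by
    rcases Nat.eq_zero_or_pos d with h | h
    · subst h
      omega
    · exact h
  have h2N : 2 ^ N0 ≤ (t.gads ∩ (Λ : Set F.Γ)).ncard := by
    rw [ht, Set.univ_inter, Set.ncard_coe_finset]
    exact Nat.le_of_mul_le_mul_right (hsome.trans hcard) hd
  obtain ⟨v, T, hv, hTQ, hT, hvT, -⟩ := t.chain (fun S => (F.mid S).ncard ≤ p) Λ N0 htQ h2N
  have hex : ∀ j, ∃ i : Fin L, j ≤ N0 → i ∈ Ps ∧ loc i = some (v j) := by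
    intro j
    by_cases hj : j ≤ N0
    · obtain ⟨i, hi, hi2⟩ := (hΛ _).1 (hv j hj)
      exact ⟨i, fun _ => ⟨hi, hi2⟩⟩
    · obtain ⟨i, hi⟩ : ∃ i, i ∈ Ps := by
        have : Ps.Nonempty := Finset.card_pos.1 (by omega)
        exact this
      exact ⟨i, fun h => absurd h hj⟩
  choose u hu using hex
  obtain ⟨b1, l, hl, hlS, hlP⟩ := hN0 (fun j k => decide (u j < u k))
    (Finset.range N0 ∪ {N0}) (by
      refine le_trans ?_ (Finset.card_le_card Finset.subset_union_left)
      rw [Finset.card_range])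
  have hln : ∀ j ∈ l, j ≤ N0 := by
    intro j hj
    have := hlS j hj
    simp only [Finset.mem_union, Finset.mem_range, Finset.mem_singleton] at this
    omega
  have hlt : l.Pairwise (· < ·) := hlP.imp (fun h => h.1)
  have huinj : ∀ j k, j ≤ N0 → k ≤ N0 → u j = u k → j = k := by
    intro j k hj hk h
    have h0 : v j = v k := by
      have h1 := (hu j hj).2
      rw [h, (hu k hk).2] at h1
      exact (Option.some_injective _ h1).symm
    have h1 := (hvT k k hk hk).2 le_rfl
    rw [← h0, hvT k j hk hj] at h1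
    have h2 := (hvT j j hj hj).2 le_rfl
    rw [h0, hvT j k hj hk] at h2
    omega
  have hpair : ∀ j ∈ l, ∀ k ∈ l, j < k → decide (u j < u k) = b1 := by
    intro j hj k hk hjk
    obtain ⟨ij, hij, rfl⟩ := List.mem_iff_getElem.1 hj
    obtain ⟨ik, hik, rfl⟩ := List.mem_iff_getElem.1 hk
    have hlt2 : ij < ik := by
      by_contra hcon
      push Not at hcon
      rcases Nat.lt_or_eq_of_le hcon with h | h
      · have := List.pairwise_iff_getElem.1 hlt ik ij hik hij h
        omega
      · subst h; omega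
    exact (List.pairwise_iff_getElem.1 hlP ij ik hij hik hlt2).2
  have hnodup : l.Nodup := hlt.imp (fun h => ne_of_lt h)
  -- the sets, indexed by positions
  let TT : Fin L → Set F.Γ := fun i => if h : ∃ j, j ∈ l ∧ u j = i then T h.choose else ∅
  have hTT : ∀ j ∈ l, TT (u j) = T j := by
    intro j hj
    have h : ∃ j', j' ∈ l ∧ u j' = u j := ⟨j, hj, rfl⟩
    simp only [TT]
    rw [dif_pos h]
    have := huinj _ _ (hln _ h.choose_spec.1) (hln j hj) h.choose_spec.2
    rw [this]
  refine ⟨l.toFinset.image u, ?_, ?_, TT, ?_, ?_⟩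
  · intro i hi
    rw [Finset.mem_image] at hi
    obtain ⟨k, hk, rfl⟩ := hi
    rw [List.mem_toFinset] at hk
    exact (hPsm _ (hu k (hln k hk)).1).1
  · rw [Finset.card_image_of_injOn, List.toFinset_card_of_nodup hnodup, hl]
    intro j hj k hk h
    simp only [Finset.mem_coe, List.mem_toFinset] at hj hk
    exact huinj j k (hln j hj) (hln k hk) h
  · intro i
    simp only [TT]
    split_ifs with h
    · exact hTQ _ (hln _ h.choose_spec.1)
    · rw [F.mid_empty]
      simp
  · rcases b1 with _ | _
    · -- decreasing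
      right
      intro i hi i' hi'
      rw [Finset.mem_image] at hi hi'
      obtain ⟨j, hj, rfl⟩ := hi
      obtain ⟨j', hj', rfl⟩ := hi'
      rw [List.mem_toFinset] at hj hj'
      have hord : u j ≤ u j' → j' ≤ j := by
        intro h
        by_contra hcon
        push Not at hcon
        have h1 := hpair j hj j' hj' hcon
        simp only [decide_eq_false_iff_not, not_lt] at h1
        have := huinj j j' (hln j hj) (hln j' hj') (le_antisymm h h1)
        omega
      rw [hTT j hj, hTT j' hj']
      refine ⟨fun h => ⟨hT j' j (hord h) (hln j hj), ?_⟩, ?_⟩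
      · intro g hg
        rw [(hu j (hln j hj)).2] at hg
        rw [← Option.some_injective _ hg]
        exact (hvT j' j (hln j' hj') (hln j hj)).2 (hord h)
      · intro h g hg hgT
        rw [(hu j' (hln j' hj')).2] at hg
        rw [← Option.some_injective _ hg] at hgT
        have h1 := (hvT j j' (hln j hj) (hln j' hj')).1 hgT
        have h2 := hord h.le
        have : j = j' := by omega
        subst this
        exact absurd h (lt_irrefl _)
    · -- increasing
      left
      intro i hi i' hi'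
      rw [Finset.mem_image] at hi hi'
      obtain ⟨j, hj, rfl⟩ := hi
      obtain ⟨j', hj', rfl⟩ := hi'
      rw [List.mem_toFinset] at hj hj'
      have hord : u j ≤ u j' → j ≤ j' := by
        intro h
        by_contra hcon
        push Not at hcon
        have h1 := hpair j' hj' j hj hcon
        simp only [decide_eq_true_eq] at h1
        exact absurd h (not_le.2 h1)
      rw [hTT j hj, hTT j' hj']
      refine ⟨fun h => ⟨hT j j' (hord h) (hln j' hj'), ?_⟩, ?_⟩
      · intro g hg
        rw [(hu j' (hln j' hj')).2] at hg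
        rw [← Option.some_injective _ hg]
        exact (hvT j j' (hln j hj) (hln j' hj')).2 (hord h)
      · intro h g hg hgT
        rw [(hu j (hln j hj)).2] at hg
        rw [← Option.some_injective _ hg] at hgT
        have h1 := (hvT j' j (hln j' hj') (hln j hj)).1 hgT
        have h2 := hord h.le
        have : j = j' := by omega
        subst this
        exact absurd h (lt_irrefl _)

/-- **Chains for several locations of every position.** -/
theorem exists_chained_all (p d m n : ℕ) : ∃ N : ℕ, ∀ (α : Type) (L : ℕ)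
    (F : GFamily α L d), F.WidthLE p → ∀ (loc : Fin n → Fin L → Option F.Γ),
      (∀ c i g, loc c i = some g → i ∈ F.reads g) → ∀ P : Finset (Fin L), N ≤ P.card →
        ∃ P' ⊆ P, m ≤ P'.card ∧ ∃ T : Fin n → Fin L → Set F.Γ,
          ∀ c, F.Chained p (loc c) P' (T c) := by
  induction n with
  | zero =>
    refine ⟨m, ?_⟩
    intro α L F _ loc _ P hP
    exact ⟨P, subset_rfl, hP, fun c => c.elim0, fun c => c.elim0⟩
  | succ n ih =>
    obtain ⟨N1, hN1⟩ := ih
    obtain ⟨N2, hN2⟩ := exists_chained p d N1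
    refine ⟨N2, ?_⟩
    intro α L F hF loc hloc P hP
    obtain ⟨P1, h1, h2, T1, h3⟩ := hN2 α L F hF (loc (Fin.last n)) (hloc _) P hP
    obtain ⟨P2, h4, h5, T2, h6⟩ := hN1 α L F hF (fun c => loc c.castSucc)
      (fun c => hloc _) P1 h2
    refine ⟨P2, h4.trans h1, h5, Fin.snoc (α := fun _ => Fin L → Set F.Γ) T2 T1, ?_⟩
    intro c
    refine Fin.lastCases ?_ (fun c => ?_) c
    · rw [Fin.snoc_last]
      exact h3.mono h4
    · rw [Fin.snoc_castSucc]
      exact h6 c

end GFamily

end H54.UPM
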