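import Pool.Agent.H54.UPM.General

/-!
# Layered reachability
-/

namespace H54.UPM

open Function

theorem walk_succ {w L : ℕ} (R : Fin (L + 1) → Fin w → Fin w → Prop) (s t : Fin w) :
    (∃ q, IsWalk R s t q) ↔ ∃ v, R 0 s v ∧ ∃ q, IsWalk (fun i => R i.succ) v t q := by
  constructor
  · rintro ⟨q, h1, h2, h3⟩
    refine ⟨q 1, ?_, fun i => q i.succ, ?_, ?_, ?_⟩
    · have := h3 0
      rw [Fin.castSucc_zero, h1] at this
      exact this
    · simp
    · show q (Fin.last L).succ = t
      rw [Fin.succ_last]
      exact h2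
    · intro i
      have := h3 i.succ
      rw [← Fin.succ_castSucc] at this
      exact this
  · rintro ⟨v, h0, q, h1, h2, h3⟩
    refine ⟨Fin.cons (α := fun _ => Fin w) s q, by simp, ?_, ?_⟩
    · rw [← Fin.succ_last, Fin.cons_succ, h2]
    · intro i
      refine Fin.cases ?_ (fun i => ?_) i
      · rw [Fin.castSucc_zero, Fin.cons_zero, Fin.cons_succ, h1]
        exact h0
      · rw [← Fin.succ_castSucc, Fin.cons_succ, Fin.cons_succ]
        exact h3 i

theorem walk_perm {w : ℕ} (t : Fin w) : ∀ (L : ℕ) (σ : Fin L → Equiv.Perm (Fin w)) (s : Fin w),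
    (∃ q, IsWalk (fun i => permRel (σ i)) s t q) ↔
      (List.ofFn fun i => (σ i)⁻¹).prod t = s := by
  intro L
  induction L with
  | zero =>
    intro σ s
    simp only [List.ofFn_zero, List.prod_nil, Equiv.Perm.coe_one, id_eq]
    constructor
    · rintro ⟨q, h1, h2, -⟩
      rw [← h1, ← h2]
      rfl
    · rintro rfl
      exact ⟨fun _ => t, rfl, rfl, fun i => i.elim0⟩
  | succ L ih =>
    intro σ s
    rw [walk_succ, List.ofFn_succ, List.prod_cons, Equiv.Perm.mul_apply,
      Equiv.Perm.inv_eq_iff_eq]
    constructor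
    · rintro ⟨v, h1, h2⟩
      rw [ih (fun i => σ i.succ) v] at h2
      rw [h2]
      exact h1
    · intro h
      exact ⟨σ 0 s, rfl, (ih (fun i => σ i.succ) _).2 h⟩

/-- Paths in layered graphs given by permutations are determined by their first vertex. -/
theorem walk_unique {w L : ℕ} {σ : Fin L → Equiv.Perm (Fin w)} {s t : Fin w}
    {q q' : Fin (L + 1) → Fin w} (h : IsWalk (fun i => permRel (σ i)) s t q)
    (h' : IsWalk (fun i => permRel (σ i)) s t q') : q = q' := by
  funext i
  induction i using Fin.induction with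
  | zero => rw [h.1, h'.1]
  | succ i ih =>
    have h1 : q i.succ = σ i (q i.castSucc) := h.2.2 i
    have h2 : q' i.succ = σ i (q' i.castSucc) := h'.2.2 i
    rw [h1, h2, ih]

theorem walk_exists_unique {w L : ℕ} (σ : Fin L → Equiv.Perm (Fin w)) (s t : Fin w) :
    (∃! q, IsWalk (fun i => permRel (σ i)) s t q) ↔
      ∃ q, IsWalk (fun i => permRel (σ i)) s t q := by
  constructor
  · rintro ⟨q, hq, -⟩
    exact ⟨q, hq⟩
  · rintro ⟨q, hq⟩
    exact ⟨q, hq, fun q' hq' => walk_unique hq' hq⟩

/-- **Lower bound for layered reachability.** -/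
theorem general_reach {w : ℕ} (hw : 5 ≤ w) {p : ℕ} (hp : p < w) (r d : ℕ) :
    ∃ L₀, ∀ L, L₀ ≤ L → ∀ F : Fin r → LFamily (Fin w → Fin w → Prop) L d,
      (∀ k, (F k).TreeWidthLE p) → ∀ (B : (Fin r → Prop) → Prop) (s t : Fin w),
      ∃ σ : Fin L → Equiv.Perm (Fin w), (∀ i, σ i ∈ alternatingGroup (Fin w)) ∧
        ¬ (B (fun k => UniquePM ((F k).graph fun i => permRel (σ i))) ↔
          ∃ q, IsWalk (fun i => permRel (σ i)) s t q) := by
  classical
  have key : ∀ s t : Fin w, ∃ L₀, ∀ L, L₀ ≤ L →
      ∀ F : Fin r → LFamily (Fin w → Fin w → Prop) L d,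
      (∀ k, (F k).TreeWidthLE p) → ∀ (B : (Fin r → Prop) → Prop),
      ∃ σ : Fin L → Equiv.Perm (Fin w), (∀ i, σ i ∈ alternatingGroup (Fin w)) ∧
        ¬ (B (fun k => UniquePM ((F k).graph fun i => permRel (σ i))) ↔
          ∃ q, IsWalk (fun i => permRel (σ i)) s t q) := by
    intro s t
    by_contra hcon
    push Not at hcon
    have hsimple : IsSimpleGroup (alternatingGroup (Fin w)) :=
      alternatingGroup.isSimpleGroup (by simpa using hw)
    have hnt : Nontrivial (alternatingGroup (Fin w)) := hsimple.toNontrivial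
    obtain ⟨K, hK, hKf, hKc⟩ := index_of_section (general_group (p := p) (r := r) (d := d)
      (α := alternatingGroup (Fin w)) (G := alternatingGroup (Fin w)) (fun g => g⁻¹) 1 inv_one
      (fun g => ⟨[g⁻¹], by simp⟩)
      (fun g => (g : Equiv.Perm (Fin w)) t = s) (alt_separates (by omega) s t) (by
        intro L₀
        obtain ⟨L, hL, F, hF, B, hx⟩ := hcon L₀
        refine ⟨L, hL, fun k => (F k).comap (fun g => permRel (g : Equiv.Perm (Fin w))), B,
          fun k => LFamily.comap_tree _ (hF k), ?_⟩
        intro x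
        have h1 := hx (fun i => (x i : Equiv.Perm (Fin w))) (fun i => (x i).2)
        rw [walk_perm] at h1
        refine h1.trans ?_
        rw [Subgroup.val_list_prod, List.map_ofFn]
        rfl))
    have := Alt_index hw K hK
    omega
  choose m hm using fun q : Fin w × Fin w => key q.1 q.2
  refine ⟨Finset.univ.sup m, ?_⟩
  intro L hL F hF B s t
  exact hm (s, t) L ((Finset.le_sup (f := m) (Finset.mem_univ (s, t))).trans hL) F hF B

theorem path_walk {w L : ℕ} (hL : 0 < L) (x : Fin L → Fin w → Fin w → Prop) (s t : Fin w)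
    (q : Fin L → Fin w) :
    IsPath (fun c : Fin w → Fin w → Prop => c) s (fun v => v = t) x q ↔
      IsWalk x s t (Fin.cons (α := fun _ => Fin w) s q) := by
  constructor
  · rintro ⟨h1, h2, h3⟩
    refine ⟨by simp, ?_, ?_⟩
    · have h4 : Fin.last L = (⟨L - 1, by omega⟩ : Fin L).succ := Fin.ext (by
        simp only [Fin.val_last, Fin.val_succ]; omega)
      rw [h4, Fin.cons_succ]
      exact h3 _ (by simp only; omega)
    · intro i
      rw [Fin.cons_succ]
      by_cases hi : (i : ℕ) = 0
      · have h4 : i.castSucc = 0 := Fin.ext (by simpa using hi)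
        rw [h4, Fin.cons_zero]
        exact h1 i hi
      · have h4 : i.castSucc = (⟨i - 1, by have := i.2; omega⟩ : Fin L).succ := Fin.ext (by
          simp only [Fin.val_castSucc, Fin.val_succ]; omega)
        rw [h4, Fin.cons_succ]
        exact h2 _ _ (by simp only; omega)
  · rintro ⟨-, h2, h3⟩
    refine ⟨?_, ?_, ?_⟩
    · intro i hi
      have h4 : i.castSucc = 0 := Fin.ext (by simpa using hi)
      have := h3 i
      rw [h4, Fin.cons_zero, Fin.cons_succ] at this
      exact this
    · intro i j hij
      have h4 : j.castSucc = i.succ := Fin.ext (by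
          simp only [Fin.val_castSucc, Fin.val_succ]; omega)
      have := h3 j
      rw [h4, Fin.cons_succ, Fin.cons_succ] at this
      exact this
    · intro i hi
      have h4 : i.succ = Fin.last L := Fin.ext (by
          simp only [Fin.val_last, Fin.val_succ]; omega)
      have h5 : (Fin.cons (α := fun _ => Fin w) s q : Fin (L + 1) → Fin w) i.succ = q i :=
        Fin.cons_succ _ _ _
      rw [h4, h2] at h5
      exact h5.symm

/-- **Upper bound for the unique path problem.** -/
theorem upper_unique_path {w L : ℕ} (hL : 0 < L) (s t : Fin w) :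
    ∃ F : Family (Fin w → Fin w → Prop) L, F.WidthLE w ∧
      ∀ x : Fin L → Fin w → Fin w → Prop, UniquePM (F.graph x) ↔ ∃! q, IsWalk x s t q := by
  classical
  refine ⟨pathFam hL (fun c => c) s (fun v => v = t) False, ?_, ?_⟩
  · have := pathFam_width_false hL (fun c : Fin w → Fin w → Prop => c) s (fun v => v = t)
    rwa [Nat.card_eq_fintype_card, Fintype.card_fin] at this
  · intro x
    rw [unique_iff_path]
    constructor
    · rintro ⟨q, hq, hu⟩
      refine ⟨_, (path_walk hL x s t q).1 hq, ?_⟩
      intro q' hq'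
      have h1 : q' = Fin.cons (α := fun _ => Fin w) s (fun i => q' i.succ) := by
        rw [← hq'.1]
        exact (Fin.cons_self_tail (α := fun _ => Fin w) q').symm
      rw [h1] at hq' ⊢
      rw [hu _ ((path_walk hL x s t _).2 hq')]
    · rintro ⟨q', hq', hu⟩
      have h1 : q' = Fin.cons (α := fun _ => Fin w) s (fun i => q' i.succ) := by
        rw [← hq'.1]
        exact (Fin.cons_self_tail (α := fun _ => Fin w) q').symm
      rw [h1] at hq'
      refine ⟨fun i => q' i.succ, (path_walk hL x s t _).2 hq', ?_⟩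
      intro q hq
      have h2 := hu _ ((path_walk hL x s t q).1 hq)
      funext i
      have h3 := congrFun h2 i.succ
      rw [Fin.cons_succ] at h3
      exact h3

end H54.UPM
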