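import Pool.Agent.H54.UPM.GRestrict
import Pool.Agent.H54.UPM.Reach

/-!
# The bounds for families which read the input several times
-/

namespace H54.UPM

open Function

variable {α β : Type} {L d p : ℕ}

/-- A family whose edges depend on one position, as a family of gadgets which read one letter
each. -/
def Family.toG (F : Family α L) : GFamily α L 1 where
  A := F.A
  B := F.B
  Γ := Fin L
  finA := F.finA
  finB := F.finB
  finΓ := inferInstance
  gad := F.owner
  reads i := {i}
  reads_card _ := by simp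
  edge a b x := F.edge a b (x (F.owner a b))
  edge_congr a b x y h := by rw [h _ (Finset.mem_singleton_self _)]

theorem Family.toG_times (F : Family α L) (i : Fin L) : F.toG.times i = 1 := by
  have : {g : Fin L | i ∈ ({g} : Finset (Fin L))} = {i} := by
    ext g
    simp only [Set.mem_ofPred_eq, Finset.mem_singleton, Set.mem_singleton_iff]
    exact eq_comm
  show Set.ncard {g : Fin L | i ∈ ({g} : Finset (Fin L))} = 1
  rw [this, Set.ncard_singleton]

theorem Family.toG_graph (F : Family α L) (x : Fin L → α) : F.toG.graph x = F.graph x := rfl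

/-- The path shaped tree of the positions. -/
def pathG (L : ℕ) : ℕ → GTree (Fin L)
  | 0 => .nil
  | k + 1 => if h : k < L then .node (some ⟨k, h⟩) (pathG L k) .nil else .nil

theorem pathG_gads : ∀ k, k ≤ L → (pathG L k).gads = {i : Fin L | (i : ℕ) < k}
  | 0, _ => by
    ext i
    exact ⟨fun h => h.elim, fun h => absurd h (Nat.not_lt_zero _)⟩
  | k + 1, h => by
    have h' : k < L := h
    rw [pathG, dif_pos h', GTree.gads, pathG_gads k h'.le]
    ext i
    constructor
    · rintro (h1 | h1 | h1)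
      · have h2 : (⟨k, h'⟩ : Fin L) = i := Option.some_injective _ h1
        show (i : ℕ) < k + 1
        rw [← h2]
        exact Nat.lt_succ_self k
      · exact Nat.lt_succ_of_lt h1
      · exact h1.elim
    · intro h1
      rcases Nat.lt_succ_iff_lt_or_eq.1 h1 with h2 | h2
      · exact Or.inr (Or.inl h2)
      · left
        show some (⟨k, h'⟩ : Fin L) = some i
        rw [show (⟨k, h'⟩ : Fin L) = i from Fin.ext h2.symm]

theorem pathG_all (Q : Set (Fin L) → Prop) (h : ∀ k, Q {i : Fin L | (i : ℕ) < k}) :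
    ∀ k, k ≤ L → (pathG L k).All Q
  | 0, _ => trivial
  | k + 1, hk => by
    have h' : k < L := hk
    have h2 := pathG_gads (k + 1) hk
    have h3 := pathG_all Q h k h'.le
    rw [pathG, dif_pos h'] at h2 ⊢
    refine ⟨?_, h3, trivial⟩
    rw [h2]
    exact h (k + 1)

/-- Linear layouts give trees. -/
theorem Family.toG_width {F : Family α L} (h : F.WidthLE p) : F.toG.WidthLE p := by
  have hA := F.finA
  have hB := F.finB
  have hfin : Finite (F.A ⊕ F.B) := inferInstance
  have ht : ∀ v i, F.toG.Touches v i → F.Touches v i := by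
    rintro v i ⟨a, b, h1, ⟨x, h2⟩, h3⟩
    exact ⟨a, b, x (F.owner a b), h1, h3, h2⟩
  refine ⟨(pathG L L : GTree (Fin L)), ?_,
    pathG_all (fun S => (F.toG.mid S).ncard ≤ p) ?_ L le_rfl⟩
  · have h1 : (pathG L L).gads = Set.univ := by
      rw [pathG_gads L le_rfl]
      ext i
      exact ⟨fun _ => trivial, fun _ => i.2⟩
    exact h1
  · intro k
    refine le_trans (Set.ncard_le_ncard (t := F.interface k) ?_ (Set.toFinite _)) (h k)
    rintro v ⟨⟨i, h1, h2⟩, ⟨j, h3, h4⟩⟩
    exact ⟨⟨i, h1, ht v i h2⟩, ⟨j, not_lt.1 h3, ht v j h4⟩⟩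

theorem GTree.All.imp {Γ : Type} {P Q : Set Γ → Prop} (hPQ : ∀ S, P S → Q S) :
    ∀ {t : GTree Γ}, t.All P → t.All Q
  | .nil, _ => trivial
  | .node _ _ _, h => ⟨hPQ _ h.1, h.2.1.imp hPQ, h.2.2.imp hPQ⟩

theorem GFamily.WidthLE.mono {F : GFamily α L d} {q : ℕ} (h : F.WidthLE p)
    (hpq : p ≤ q) : F.WidthLE q := by
  obtain ⟨t, h1, h2⟩ := h
  exact ⟨t, h1, h2.imp (fun S hS => hS.trans hpq)⟩

/-- Renaming the letters. -/
def GFamily.comap (F : GFamily α L d) (g : β → α) : GFamily β L d where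
  A := F.A
  B := F.B
  Γ := F.Γ
  finA := F.finA
  finB := F.finB
  finΓ := F.finΓ
  gad := F.gad
  reads := F.reads
  reads_card := F.reads_card
  edge a b x := F.edge a b (fun i => g (x i))
  edge_congr a b x y h := F.edge_congr a b _ _ (fun i hi => by rw [h i hi])

theorem GFamily.comap_times (F : GFamily α L d) (g : β → α) (i : Fin L) :
    (F.comap g).times i = F.times i := rfl

theorem GFamily.comap_width {F : GFamily α L d} (g : β → α) (h : F.WidthLE p) :
    (F.comap g).WidthLE p := by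
  have hA := F.finA
  have hB := F.finB
  have hfin : Finite (F.A ⊕ F.B) := inferInstance
  obtain ⟨t, h1, h2⟩ := h
  refine ⟨t, h1, h2.imp (fun S hS => le_trans (Set.ncard_le_ncard (t := F.mid S) ?_
    (Set.toFinite _)) hS)⟩
  have ht : ∀ v i, (F.comap g).Touches v i → F.Touches v i := by
    rintro v i ⟨a, b, h1, ⟨x, h2⟩, h3⟩
    exact ⟨a, b, h1, ⟨_, h2⟩, h3⟩
  rintro v ⟨⟨i, h1, h2⟩, ⟨j, h3, h4⟩⟩
  exact ⟨⟨i, h1, ht v i h2⟩, ⟨j, h3, ht v j h4⟩⟩

/-- **The group theorem for families which read the input several times.** -/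
theorem read_group {α G : Type} [Finite α] [Group G] [Finite G] [Nontrivial G] (f : α → G)
    (c1 : α) (hc1 : f c1 = 1) (hgen : ∀ g, ∃ l : List α, (l.map f).prod = g) (χ : G → Prop)
    (hχ : ∀ g g', (∀ a b, χ (a * g * b) ↔ χ (a * g' * b)) → g = g') {r p d k : ℕ}
    (h : Decided f χ r p d k) : IsSection G r (loss k p) := by
  classical
  have key : ∀ q, 0 < q → loss k p ≤ q →
      ∃ (H : Subgroup (Fin r → Equiv.Perm (Fin q))) (φ : H →* G), Surjective φ := by
    intro q hq hpq
    refine group_bound f c1 hc1 hgen χ hχ hq ?_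
    intro L₀
    obtain ⟨N, hN⟩ := GFamily.reduce p d k (L₀ + 1) r (Nat.succ_pos _)
    obtain ⟨L, F, B, hF, hL, hx⟩ := h N
    obtain ⟨P, hP, F', -, hF', hU⟩ := hN L α c1 F hF hL
    refine ⟨L₀ + 1, Nat.le_succ _, F', B, fun j => (hF' j).mono hpq, ?_⟩
    intro y
    have h1 : (fun j => UniquePM ((F' j).graph y)) =
        fun j => UniquePM ((F j).graph (ext P hP c1 y)) := by
      funext j
      exact propext (hU j y)
    rw [h1, hx, prod_ext P hP c1 f hc1 y]
  rcases Nat.eq_zero_or_pos (loss k p) with h0 | h0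
  · exfalso
    obtain ⟨H, φ, hφ⟩ := key 1 Nat.one_pos (by omega)
    obtain ⟨g, hg⟩ := exists_ne (1 : G)
    obtain ⟨a, rfl⟩ := hφ g
    apply hg
    have : a = 1 := Subtype.ext (Subsingleton.elim _ _)
    rw [this, map_one]
  · exact key _ h0 le_rfl

/-- **Lower bound over the field with two elements.** -/
theorem read_F2_of {w : ℕ} (hw : 2 ≤ w) {k p : ℕ}
    (hidx : ∀ K : Subgroup (Matrix.GeneralLinearGroup (Fin w) (ZMod 2)), K ≠ ⊤ →
      loss k p < Nat.card (Matrix.GeneralLinearGroup (Fin w) (ZMod 2) ⧸ K)) (r d : ℕ) :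
    ∃ N : ℕ, ∀ (L : ℕ) (F : Fin r → GFamily (Matrix (Fin w) (Fin w) (ZMod 2)) L d),
      (∀ j, (F j).WidthLE p) → N ≤ {i : Fin L | ∀ j, (F j).times i ≤ k}.ncard →
      ∀ (B : (Fin r → Prop) → Prop) (s t : Fin w) (c : ZMod 2),
      ∃ x : Fin L → Matrix (Fin w) (Fin w) (ZMod 2), (∀ i, Elem (x i)) ∧
        ¬ (B (fun j => UniquePM ((F j).graph x)) ↔ (List.ofFn x).prod s t = c) := by
  classical
  choose m hm using fun q : Fin w × Fin w × ZMod 2 => lower_F2_of hw hidx r q.1 q.2.1 q.2.2
  set M := Finset.univ.sup m + 1 with hM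
  obtain ⟨N, hN⟩ := GFamily.reduce p d k M r (Nat.succ_pos _)
  refine ⟨N, ?_⟩
  intro L F hF hL B s t c
  obtain ⟨P, hP, F', -, hF', hU⟩ := hN L _ (1 : Matrix (Fin w) (Fin w) (ZMod 2)) F hF hL
  obtain ⟨y, hy, hB⟩ := hm (s, t, c) M
    ((Finset.le_sup (f := m) (Finset.mem_univ (s, t, c))).trans (Nat.le_succ _)) F' hF' B
  refine ⟨ext P hP 1 y, ?_, ?_⟩
  · intro i
    by_cases hi : i ∈ P
    · obtain ⟨j, rfl⟩ := (mem_iff_emb P hP i).1 hi
      rw [ext_emb]
      exact hy j
    · rw [ext_not _ _ _ _ hi]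
      exact Or.inl rfl
  · have h1 : (fun j => UniquePM ((F' j).graph y)) =
        fun j => UniquePM ((F j).graph (ext P hP 1 y)) := by
      funext j
      exact propext (hU j y)
    have h2 : (List.ofFn (ext P hP 1 y)).prod = (List.ofFn y).prod :=
      prod_ext P hP 1 (fun M : Matrix (Fin w) (Fin w) (ZMod 2) => M) rfl y
    rw [h1] at hB
    rw [h2]
    exact hB

/-- **Lower bound for layered reachability.** -/
theorem read_reach {w : ℕ} (hw : 5 ≤ w) {k p : ℕ} (hp : loss k p < w) (r d : ℕ) :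
    ∃ N : ℕ, ∀ (L : ℕ) (F : Fin r → GFamily (Fin w → Fin w → Prop) L d),
      (∀ j, (F j).WidthLE p) → N ≤ {i : Fin L | ∀ j, (F j).times i ≤ k}.ncard →
      ∀ (B : (Fin r → Prop) → Prop) (s t : Fin w),
      ∃ σ : Fin L → Equiv.Perm (Fin w), (∀ i, σ i ∈ alternatingGroup (Fin w)) ∧
        ¬ (B (fun j => UniquePM ((F j).graph fun i => permRel (σ i))) ↔
          ∃ q, IsWalk (fun i => permRel (σ i)) s t q) := by
  classical
  have key : ∀ s t : Fin w, ∃ N : ℕ, ∀ (L : ℕ)
      (F : Fin r → GFamily (Fin w → Fin w → Prop) L d),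
      (∀ j, (F j).WidthLE p) → N ≤ {i : Fin L | ∀ j, (F j).times i ≤ k}.ncard →
      ∀ (B : (Fin r → Prop) → Prop),
      ∃ σ : Fin L → Equiv.Perm (Fin w), (∀ i, σ i ∈ alternatingGroup (Fin w)) ∧
        ¬ (B (fun j => UniquePM ((F j).graph fun i => permRel (σ i))) ↔
          ∃ q, IsWalk (fun i => permRel (σ i)) s t q) := by
    intro s t
    by_contra hcon
    push Not at hcon
    have hsimple : IsSimpleGroup (alternatingGroup (Fin w)) :=
      alternatingGroup.isSimpleGroup (by simpa using hw)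
    have hnt : Nontrivial (alternatingGroup (Fin w)) := hsimple.toNontrivial
    obtain ⟨K, hK, hKf, hKc⟩ := index_of_section (read_group (p := p) (r := r) (d := d) (k := k)
      (α := alternatingGroup (Fin w)) (G := alternatingGroup (Fin w)) (fun g => g⁻¹) 1 inv_one
      (fun g => ⟨[g⁻¹], by simp⟩)
      (fun g => (g : Equiv.Perm (Fin w)) t = s) (alt_separates (by omega) s t) (by
        intro N
        obtain ⟨L, F, hF, hL, B, hx⟩ := hcon N
        refine ⟨L, fun j => (F j).comap (fun g => permRel (g : Equiv.Perm (Fin w))), B,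
          fun j => GFamily.comap_width _ (hF j), hL, ?_⟩
        intro x
        have h1 := hx (fun i => (x i : Equiv.Perm (Fin w))) (fun i => (x i).2)
        rw [walk_perm] at h1
        refine h1.trans ?_
        show _ ↔ (((List.ofFn fun i => (x i)⁻¹).prod : alternatingGroup (Fin w)) :
          Equiv.Perm (Fin w)) t = s
        rw [Subgroup.val_list_prod, List.map_ofFn]
        rfl))
    have := Alt_index hw K hK
    omega
  choose m hm using fun q : Fin w × Fin w => key q.1 q.2
  refine ⟨Finset.univ.sup m, ?_⟩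
  intro L F hF hL B s t
  exact hm (s, t) L F hF ((Finset.le_sup (f := m) (Finset.mem_univ (s, t))).trans hL) B

end H54.UPM
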