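import Pool.Agent.H54.UPM.GChain

/-!
# Linearly laid out positions of families which read the input several times
-/

namespace H54.UPM

open Function

namespace GFamily

variable {α : Type} {L d : ℕ}

/-- The positions of `P` are laid out linearly. -/
def GLin (F : GFamily α L d) (p : ℕ) (P : Finset (Fin L)) : Prop :=
  ∃ R : ℕ → Set F.Γ, Monotone R ∧ (∀ q, (F.mid (R q)).ncard ≤ p) ∧
    ∀ i ∈ P, ∀ g, i ∈ F.reads g → ∀ q : ℕ, ((i : ℕ) < q ↔ g ∈ R q)

theorem GLin.mono {F : GFamily α L d} {p : ℕ} {P P' : Finset (Fin L)} (h : F.GLin p P)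
    (hP : P' ⊆ P) : F.GLin p P' := by
  obtain ⟨R, h1, h2, h3⟩ := h
  exact ⟨R, h1, h2, fun i hi => h3 i (hP hi)⟩

/-- Enumeration of the gadgets which read a position. -/
theorem exists_loc (F : GFamily α L d) (k : ℕ) : ∃ loc : Fin k → Fin L → Option F.Γ,
    (∀ c i g, loc c i = some g → i ∈ F.reads g) ∧
      ∀ i, F.times i ≤ k → ∀ g, i ∈ F.reads g → ∃ c, loc c i = some g := by
  classical
  have hΓ := F.finΓ
  have hloc : ∀ i : Fin L, ∃ f : Fin k → Option F.Γ, (∀ c g, f c = some g → i ∈ F.reads g) ∧
      (F.times i ≤ k → ∀ g, i ∈ F.reads g → ∃ c, f c = some g) := by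
    intro i
    by_cases hi : F.times i ≤ k
    · have : Fintype {g // i ∈ F.reads g} := Fintype.ofFinite _
      have h1 : Fintype.card {g // i ∈ F.reads g} ≤ Fintype.card (Fin k) := by
        rw [Fintype.card_fin, ← Nat.card_eq_fintype_card]
        exact hi
      obtain ⟨e⟩ := Function.Embedding.nonempty_of_card_le h1
      refine ⟨fun c => if h : ∃ g : {g // i ∈ F.reads g}, e g = c then some h.choose.1 else none,
        ?_, ?_⟩
      · intro c g hg
        simp only at hg
        split_ifs at hg with h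
        rw [← Option.some_injective _ hg]
        exact h.choose.2
      · intro _ g hg
        refine ⟨e ⟨g, hg⟩, ?_⟩
        have h : ∃ g' : {g // i ∈ F.reads g}, e g' = e ⟨g, hg⟩ := ⟨_, rfl⟩
        simp only
        rw [dif_pos h, e.injective h.choose_spec]
    · exact ⟨fun _ => none, fun c g hg => absurd hg (by simp), fun h => absurd h hi⟩
  choose f hf1 hf2 using hloc
  exact ⟨fun c i => f i c, fun c i g hg => hf1 i c g hg, fun i hi g hg => hf2 i hi g hg⟩

/-- One location: the chain gives a linear layout. -/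
theorem glin_one {F : GFamily α L d} {p : ℕ} {P : Finset (Fin L)} {loc : Fin L → Option F.Γ}
    {T : Fin L → Set F.Γ} (hloc : ∀ i ∈ P, ∀ g, i ∈ F.reads g → loc i = some g)
    (h : F.Chained p loc P T) : F.GLin p P := by
  classical
  obtain ⟨h1, h2 | h2⟩ := h
  · -- the sets decrease
    let U : ℕ → Finset (Fin L) := fun q => P.filter (fun i : Fin L => q ≤ (i : ℕ))
    have hU : ∀ q i, i ∈ U q ↔ i ∈ P ∧ q ≤ (i : ℕ) := fun q i => Finset.mem_filter
    refine ⟨fun q => if hq : (U q).Nonempty then (T ((U q).min' hq))ᶜ else Set.univ, ?_, ?_, ?_⟩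
    · intro q q' hqq
      by_cases hq' : (U q').Nonempty
      · have hsub : U q' ⊆ U q := by
          intro i hi
          rw [hU] at hi ⊢
          exact ⟨hi.1, hqq.trans hi.2⟩
        have hq : (U q).Nonempty := hq'.mono hsub
        simp only [dif_pos hq, dif_pos hq']
        apply Set.compl_subset_compl.2
        have hm := (hU _ _).1 (Finset.min'_mem _ hq)
        have hm' := (hU _ _).1 (Finset.min'_mem _ hq')
        exact ((h2 _ hm.1 _ hm'.1).1 (Finset.min'_subset hq' hsub)).1
      · simp only [dif_neg hq']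
        exact Set.subset_univ _
    · intro q
      by_cases hq : (U q).Nonempty
      · simp only [dif_pos hq, mid_compl]
        exact h1 _
      · simp only [dif_neg hq, mid_univ]
        simp
    · intro i hi g hg q
      have hl := hloc i hi g hg
      by_cases hq : (U q).Nonempty
      · simp only [dif_pos hq]
        rw [Set.mem_compl_iff]
        have hm := (hU _ _).1 (Finset.min'_mem _ hq)
        constructor
        · intro hiq
          have hlt : i < (U q).min' hq := by
            rw [Fin.lt_def]; omega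
          exact (h2 _ hi _ hm.1).2 hlt g hl
        · intro hg'
          by_contra hcon
          push Not at hcon
          have hle : (U q).min' hq ≤ i := Finset.min'_le _ _ ((hU _ _).2 ⟨hi, hcon⟩)
          exact hg' (((h2 _ hm.1 _ hi).1 hle).2 g hl)
      · simp only [dif_neg hq]
        refine ⟨fun _ => Set.mem_univ _, fun _ => ?_⟩
        by_contra hcon
        push Not at hcon
        exact hq ⟨i, (hU _ _).2 ⟨hi, hcon⟩⟩
  · -- the sets increase
    let U : ℕ → Finset (Fin L) := fun q => P.filter (fun i : Fin L => (i : ℕ) < q)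
    have hU : ∀ q i, i ∈ U q ↔ i ∈ P ∧ (i : ℕ) < q := fun q i => Finset.mem_filter
    refine ⟨fun q => if hq : (U q).Nonempty then T ((U q).max' hq) else ∅, ?_, ?_, ?_⟩
    · intro q q' hqq
      by_cases hq : (U q).Nonempty
      · have hsub : U q ⊆ U q' := by
          intro i hi
          rw [hU] at hi ⊢
          exact ⟨hi.1, lt_of_lt_of_le hi.2 hqq⟩
        have hq' : (U q').Nonempty := hq.mono hsub
        simp only [dif_pos hq, dif_pos hq']
        have hm := (hU _ _).1 (Finset.max'_mem _ hq)
        have hm' := (hU _ _).1 (Finset.max'_mem _ hq')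
        exact ((h2 _ hm.1 _ hm'.1).1 (Finset.max'_subset hq hsub)).1
      · simp only [dif_neg hq]
        exact Set.empty_subset _
    · intro q
      by_cases hq : (U q).Nonempty
      · simp only [dif_pos hq]
        exact h1 _
      · simp only [dif_neg hq, mid_empty]
        simp
    · intro i hi g hg q
      have hl := hloc i hi g hg
      by_cases hq : (U q).Nonempty
      · simp only [dif_pos hq]
        have hm := (hU _ _).1 (Finset.max'_mem _ hq)
        constructor
        · intro hiq
          have hle : i ≤ (U q).max' hq := Finset.le_max' _ _ ((hU _ _).2 ⟨hi, hiq⟩)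
          exact ((h2 _ hi _ hm.1).1 hle).2 g hl
        · intro hg'
          by_contra hcon
          push Not at hcon
          have hlt : (U q).max' hq < i := by
            rw [Fin.lt_def]; omega
          exact (h2 _ hm.1 _ hi).2 hlt g hl hg'
      · simp only [dif_neg hq]
        refine ⟨fun hiq => hq ⟨i, (hU _ _).2 ⟨hi, hiq⟩⟩, fun h => absurd h (Set.notMem_empty _)⟩

/-- **Several locations.** -/
theorem exists_glin_many (p d k m : ℕ) : ∃ N : ℕ, ∀ (α : Type) (L : ℕ)
    (F : GFamily α L d), F.WidthLE p → ∀ P : Finset (Fin L), (∀ i ∈ P, F.times i ≤ k) →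
      N ≤ P.card → ∃ P' ⊆ P, m ≤ P'.card ∧ F.GLin (2 * k * p) P' := by
  classical
  obtain ⟨N1, hN1⟩ := ramsey (C := Fin k → Fin k → Bool) (2 * m + 1)
  obtain ⟨N2, hN2⟩ := exists_chained_all p d N1 k
  refine ⟨N2, ?_⟩
  intro α L F hF P hPk hP
  have hA := F.finA
  have hB := F.finB
  obtain ⟨loc, hloc1, hloc2⟩ := F.exists_loc k
  obtain ⟨P1, hP1, hP1c, T, hT⟩ := hN2 α L F hF loc hloc1 P hP
  let col : ℕ → ℕ → Fin k → Fin k → Bool := fun x y a b =>
    decide (∃ (hx : x < L) (hy : y < L), ∃ g, loc b ⟨y, hy⟩ = some g ∧ g ∈ T a ⟨x, hx⟩)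
  obtain ⟨D, l, hl, hlS, hlP⟩ := hN1 col (P1.image (fun i : Fin L => (i : ℕ))) (by
    rw [Finset.card_image_of_injective _ Fin.val_injective]
    exact hP1c)
  -- the positions of the list
  have hex : ∀ j, ∃ i : Fin L, j < 2 * m + 1 → i ∈ P1 ∧ ∀ h : j < l.length, (i : ℕ) = l[j] := by
    intro j
    by_cases hj : j < 2 * m + 1
    · have hj' : j < l.length := by rw [hl]; exact hj
      obtain ⟨i, hi, hi2⟩ := Finset.mem_image.1 (hlS l[j] (List.getElem_mem hj'))
      exact ⟨i, fun _ => ⟨hi, fun _ => hi2⟩⟩
    · have h0 : (0 : ℕ) < l.length := by rw [hl]; omega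
      obtain ⟨i, hi, hi2⟩ := Finset.mem_image.1 (hlS l[0] (List.getElem_mem h0))
      exact ⟨i, fun h => absurd h hj⟩
  choose z hz using hex
  have hzP : ∀ j, j < 2 * m + 1 → z j ∈ P1 := fun j hj => (hz j hj).1
  have hzv : ∀ j (hj : j < 2 * m + 1), (z j : ℕ) = l[j]'(by rw [hl]; exact hj) :=
    fun j hj => (hz j hj).2 _
  have hzlt : ∀ j j', j < j' → j' < 2 * m + 1 → z j < z j' := by
    intro j j' hjj hj'
    rw [Fin.lt_def, hzv j (by omega), hzv j' hj']
    exact (List.pairwise_iff_getElem.1 hlP j j' _ _ hjj).1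
  have hcol : ∀ j j', j < j' → j' < 2 * m + 1 → ∀ a b g, loc b (z j') = some g →
      (g ∈ T a (z j) ↔ D a b = true) := by
    intro j j' hjj hj' a b g hg
    have h1 := (List.pairwise_iff_getElem.1 hlP j j' (by rw [hl]; omega) (by rw [hl]; omega) hjj).2
    have h2 := congrFun (congrFun h1 a) b
    rw [← h2]
    simp only [col, decide_eq_true_eq]
    have g1 : j < l.length := by rw [hl]; omega
    have g2 : j' < l.length := by rw [hl]; omega
    have e1 : ∀ h : l[j]'g1 < L, (⟨l[j]'g1, h⟩ : Fin L) = z j :=
      fun h => Fin.ext (hzv j (by omega)).symm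
    have e2 : ∀ h : l[j']'g2 < L, (⟨l[j']'g2, h⟩ : Fin L) = z j' :=
      fun h => Fin.ext (hzv j' hj').symm
    constructor
    · intro h3
      have hx : l[j]'g1 < L := by rw [← hzv j (by omega)]; exact (z j).2
      have hy : l[j']'g2 < L := by rw [← hzv j' hj']; exact (z j').2
      refine ⟨hx, hy, g, ?_, ?_⟩
      · rw [e2]; exact hg
      · rw [e1]; exact h3
    · rintro ⟨hx, hy, g', h3, h4⟩
      rw [e2, hg] at h3
      rw [e1, ← Option.some_injective _ h3] at h4
      exact h4
  -- the selected positions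
  have hinj : ∀ j j', j < m → j' < m → z (2 * j + 1) = z (2 * j' + 1) → j = j' := by
    intro j j' hj hj' h
    rcases lt_trichotomy j j' with h1 | h1 | h1
    · have := hzlt (2 * j + 1) (2 * j' + 1) (by omega) (by omega)
      rw [h] at this
      exact absurd this (lt_irrefl _)
    · exact h1
    · have := hzlt (2 * j' + 1) (2 * j + 1) (by omega) (by omega)
      rw [h] at this
      exact absurd this (lt_irrefl _)
  let J : ℕ → ℕ := fun q => ((Finset.range m).filter (fun j => ((z (2 * j + 1) : Fin L) : ℕ) < q)).card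
  have hJle : ∀ q, J q ≤ m := by
    intro q
    have := Finset.card_filter_le (Finset.range m) (fun j => ((z (2 * j + 1) : Fin L) : ℕ) < q)
    rwa [Finset.card_range] at this
  have hJmono : ∀ q q', q ≤ q' → J q ≤ J q' := by
    intro q q' hqq
    apply Finset.card_le_card
    intro j hj
    rw [Finset.mem_filter] at hj ⊢
    exact ⟨hj.1, lt_of_lt_of_le hj.2 hqq⟩
  have hJiff : ∀ q j, j < m → (((z (2 * j + 1) : Fin L) : ℕ) < q ↔ j < J q) := by
    intro q j hj
    constructor
    · intro h
      have hsub : Finset.range (j + 1) ⊆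
          (Finset.range m).filter (fun j => ((z (2 * j + 1) : Fin L) : ℕ) < q) := by
        intro j' hj'
        rw [Finset.mem_range] at hj'
        rw [Finset.mem_filter, Finset.mem_range]
        refine ⟨by omega, ?_⟩
        rcases Nat.lt_or_eq_of_le (Nat.lt_succ_iff.1 hj') with h1 | h1
        · have := hzlt (2 * j' + 1) (2 * j + 1) (by omega) (by omega)
          rw [Fin.lt_def] at this
          omega
        · rw [h1]; exact h
      have := Finset.card_le_card hsub
      rw [Finset.card_range] at this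
      exact this
    · intro h
      by_contra hcon
      have hsub : (Finset.range m).filter (fun j => ((z (2 * j + 1) : Fin L) : ℕ) < q) ⊆
          Finset.range j := by
        intro j' hj'
        rw [Finset.mem_filter, Finset.mem_range] at hj'
        rw [Finset.mem_range]
        by_contra h1
        push Not at h1
        rcases Nat.lt_or_eq_of_le h1 with h2 | h2
        · have := hzlt (2 * j + 1) (2 * j' + 1) (by omega) (by omega)
          rw [Fin.lt_def] at this
          omega
        · rw [← h2] at hj'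
          exact hcon hj'.2
      have := Finset.card_le_card hsub
      rw [Finset.card_range] at this
      have h3 : J q ≤ j := this
      omega
  refine ⟨(Finset.range m).image (fun j => z (2 * j + 1)), ?_, ?_, ?_⟩
  · intro i hi
    obtain ⟨j, hj, rfl⟩ := Finset.mem_image.1 hi
    rw [Finset.mem_range] at hj
    exact hP1 (hzP _ (by omega))
  · rw [Finset.card_image_of_injOn, Finset.card_range]
    intro j hj j' hj' h
    simp only [Finset.coe_range, Set.mem_Iio] at hj hj'
    exact hinj j j' hj hj' h
  · refine ⟨fun q => ⋃ a, symmDiff (T a (z 0)) (T a (z (2 * J q))), ?_, ?_, ?_⟩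
    · -- monotone
      intro q q' hqq g hg
      simp only [Set.mem_iUnion] at hg ⊢
      obtain ⟨a, ha⟩ := hg
      refine ⟨a, ?_⟩
      have hJ := hJmono q q' hqq
      have hJ1 := hJle q
      have hJ2 := hJle q'
      have hle1 : z 0 ≤ z (2 * J q) := by
        rcases Nat.eq_zero_or_pos (J q) with h | h
        · rw [h]
        · exact (hzlt 0 (2 * J q) (by omega) (by omega)).le
      have hle2 : z (2 * J q) ≤ z (2 * J q') := by
        rcases Nat.lt_or_eq_of_le hJ with h | h
        · exact (hzlt (2 * J q) (2 * J q') (by omega) (by omega)).le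
        · rw [h]
      have m0 := hzP 0 (by omega)
      have m1 := hzP (2 * J q) (by omega)
      have m2 := hzP (2 * J q') (by omega)
      obtain ⟨-, h2 | h2⟩ := hT a
      · have s1 := ((h2 _ m0 _ m1).1 hle1).1
        have s2 := ((h2 _ m1 _ m2).1 hle2).1
        rw [Set.mem_symmDiff] at ha ⊢
        rcases ha with ⟨h3, h4⟩ | ⟨h3, h4⟩
        · exact Or.inl ⟨h3, fun h => h4 (s2 h)⟩
        · exact absurd (s1 h3) h4
      · have s1 := ((h2 _ m0 _ m1).1 hle1).1
        have s2 := ((h2 _ m1 _ m2).1 hle2).1
        rw [Set.mem_symmDiff] at ha ⊢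
        rcases ha with ⟨h3, h4⟩ | ⟨h3, h4⟩
        · exact absurd (s1 h3) h4
        · exact Or.inr ⟨s2 h3, h4⟩
    · -- the middle sets
      intro q
      have hfin : Finite (F.A ⊕ F.B) := inferInstance
      have hsub : F.mid (⋃ a, symmDiff (T a (z 0)) (T a (z (2 * J q)))) ⊆
          ⋃ a : Fin k, (F.mid (T a (z 0)) ∪ F.mid (T a (z (2 * J q)))) := by
        intro v hv
        by_contra hcon
        simp only [Set.mem_iUnion, Set.mem_union, not_exists, not_or] at hcon
        obtain ⟨⟨g, hg1, hg2⟩, ⟨g', hg1', hg2'⟩⟩ := hv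
        apply hg1'
        simp only [Set.mem_iUnion] at hg1 ⊢
        obtain ⟨a, ha⟩ := hg1
        refine ⟨a, ?_⟩
        rw [Set.mem_symmDiff, ← F.not_mid (hcon a).1 hg2 hg2', ← F.not_mid (hcon a).2 hg2 hg2',
          ← Set.mem_symmDiff]
        exact ha
      refine (Set.ncard_le_ncard hsub (Set.toFinite _)).trans ?_
      have hun : ∀ (s : Finset (Fin k)) (f : Fin k → Set (F.A ⊕ F.B)),
          (∀ a, (f a).ncard ≤ 2 * p) → (⋃ a ∈ s, f a).ncard ≤ s.card * (2 * p) := by
        intro s f hf
        induction s using Finset.induction_on with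
        | empty => simp
        | insert a s ha ih =>
          rw [Finset.set_biUnion_insert, Finset.card_insert_of_notMem ha]
          refine (Set.ncard_union_le _ _).trans ?_
          have := hf a
          calc (f a).ncard + (⋃ a ∈ s, f a).ncard ≤ 2 * p + s.card * (2 * p) := by omega
            _ = (s.card + 1) * (2 * p) := by ring
      have h3 := hun Finset.univ (fun a => F.mid (T a (z 0)) ∪ F.mid (T a (z (2 * J q)))) (by
        intro a
        refine (Set.ncard_union_le _ _).trans ?_
        have h4 := (hT a).1 (z 0)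
        have h5 := (hT a).1 (z (2 * J q))
        omega)
      simp only [Finset.mem_univ, Set.iUnion_true, Finset.card_univ, Fintype.card_fin] at h3
      refine h3.trans (le_of_eq ?_)
      ring
    · -- the locations
      intro i hi g hg q
      obtain ⟨j, hj, rfl⟩ := Finset.mem_image.1 hi
      rw [Finset.mem_range] at hj
      obtain ⟨b, hb⟩ := hloc2 _ (hPk _ (hP1 (hzP _ (by omega)))) g hg
      simp only [Set.mem_iUnion]
      have hJ1 := hJle q
      rw [hJiff q j hj]
      constructor
      · intro h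
        refine ⟨b, ?_⟩
        have l1 : z 0 < z (2 * j + 1) := hzlt _ _ (by omega) (by omega)
        have l2 : z (2 * j + 1) < z (2 * J q) := hzlt _ _ (by omega) (by omega)
        have m0 := hzP 0 (by omega)
        have m1 := hzP (2 * j + 1) (by omega)
        have m2 := hzP (2 * J q) (by omega)
        obtain ⟨-, h2 | h2⟩ := hT b
        · rw [Set.mem_symmDiff]
          exact Or.inl ⟨((h2 _ m0 _ m1).1 l1.le).2 g hb, (h2 _ m1 _ m2).2 l2 g hb⟩
        · rw [Set.mem_symmDiff]
          exact Or.inr ⟨((h2 _ m1 _ m2).1 l2.le).2 g hb, (h2 _ m0 _ m1).2 l1 g hb⟩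
      · rintro ⟨a, ha⟩
        by_contra hcon
        push Not at hcon
        rw [Set.mem_symmDiff, hcol 0 (2 * j + 1) (by omega) (by omega) a b g hb,
          hcol (2 * J q) (2 * j + 1) (by omega) (by omega) a b g hb] at ha
        rcases ha with ⟨h1, h2⟩ | ⟨h1, h2⟩ <;> exact h2 h1

theorem exists_glin (p d k m : ℕ) : ∃ N : ℕ, ∀ (α : Type) (L : ℕ)
    (F : GFamily α L d), F.WidthLE p → ∀ P : Finset (Fin L), (∀ i ∈ P, F.times i ≤ k) →
      N ≤ P.card → ∃ P' ⊆ P, m ≤ P'.card ∧ F.GLin (loss k p) P' := by
  classical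
  by_cases hk : k ≤ 1
  · obtain ⟨N, hN⟩ := exists_chained p d m
    refine ⟨N, ?_⟩
    intro α L F hF P hPk hP
    obtain ⟨loc, hloc1, hloc2⟩ := F.exists_loc k
    -- the only location
    let loc' : Fin L → Option F.Γ := fun i => if h : 0 < k then loc ⟨0, h⟩ i else none
    have h1 : ∀ i g, loc' i = some g → i ∈ F.reads g := by
      intro i g hg
      by_cases h : 0 < k
      · simp only [loc', dif_pos h] at hg
        exact hloc1 _ i g hg
      · simp only [loc', dif_neg h] at hg
        exact absurd hg (by simp)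
    have h2 : ∀ i ∈ P, ∀ g, i ∈ F.reads g → loc' i = some g := by
      intro i hi g hg
      obtain ⟨c, hc⟩ := hloc2 i (hPk i hi) g hg
      have h : 0 < k := c.pos
      simp only [loc', dif_pos h]
      rw [← hc]
      congr 1
      exact Fin.ext (by have := c.2; simp only; omega)
    obtain ⟨P', hP', hm, T, hT⟩ := hN α L F hF loc' h1 P hP
    refine ⟨P', hP', hm, ?_⟩
    rw [loss, if_pos hk]
    exact glin_one (fun i hi => h2 i (hP' hi)) hT
  · obtain ⟨N, hN⟩ := exists_glin_many p d k m
    refine ⟨N, ?_⟩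
    intro α L F hF P hPk hP
    obtain ⟨P', hP', hm, h⟩ := hN α L F hF P hPk hP
    refine ⟨P', hP', hm, ?_⟩
    rw [loss, if_neg hk]
    exact h

theorem exists_glin_all (p d k m r : ℕ) : ∃ N : ℕ, ∀ (α : Type) (L : ℕ)
    (F : Fin r → GFamily α L d), (∀ j, (F j).WidthLE p) → ∀ P : Finset (Fin L),
      (∀ i ∈ P, ∀ j, (F j).times i ≤ k) → N ≤ P.card →
      ∃ P' ⊆ P, m ≤ P'.card ∧ ∀ j, (F j).GLin (loss k p) P' := by
  induction r with
  | zero =>
    refine ⟨m, ?_⟩
    intro α L F _ P _ hP
    exact ⟨P, subset_rfl, hP, fun k => k.elim0⟩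
  | succ r ih =>
    obtain ⟨N1, hN1⟩ := ih
    obtain ⟨N2, hN2⟩ := exists_glin p d k N1
    refine ⟨N2, ?_⟩
    intro α L F hF P hPk hP
    obtain ⟨P1, h1, h2, h3⟩ := hN2 α L (F (Fin.last r)) (hF _) P (fun i hi => hPk i hi _) hP
    obtain ⟨P2, h4, h5, h6⟩ := hN1 α L (fun k => F k.castSucc) (fun k => hF _) P1
      (fun i hi j => hPk i (h1 hi) _) h2
    refine ⟨P2, h4.trans h1, h5, ?_⟩
    intro k
    refine Fin.lastCases ?_ ?_ k
    · exact h3.mono h4
    · exact h6

end GFamily

end H54.UPM
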