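import Pool.Agent.H54.UPM.GLin
import Pool.Agent.H54.UPM.Restrict

/-!
# Restriction of families which read the input several times
-/

namespace H54.UPM

open Function

namespace GFamily

variable {α : Type} {L d : ℕ}

/-- **Restriction to linearly laid out positions.** -/
theorem GLin.restrict {F : GFamily α L d} {p : ℕ} {P : Finset (Fin L)} (h : F.GLin p P) {m : ℕ}
    (hm0 : 0 < m) (hm : P.card = m) (c1 : α) :
    ∃ F' : Family α m, F'.WidthLE p ∧
      ∀ y : Fin m → α, UniquePM (F'.graph y) ↔ UniquePM (F.graph (ext P hm c1 y)) := by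
  classical
  obtain ⟨S, hS1, hS2, hS3⟩ := h
  have hA := F.finA
  have hB := F.finB
  set e := P.orderEmbOfFin hm with he
  have heP : ∀ j, e j ∈ P := fun j => (mem_iff_emb P hm _).2 ⟨j, rfl⟩
  -- the rank
  let RS : F.Γ → Finset (Fin m) := fun g =>
    Finset.univ.filter (fun k : Fin m => (k : ℕ) ≠ 0 ∧ g ∉ S (e k))
  have hRSlt : ∀ i, (RS i).card < m := by
    intro i
    have hsub : RS i ⊆ Finset.univ.erase (⟨0, hm0⟩ : Fin m) := by
      intro k hk
      simp only [RS, Finset.mem_filter, Finset.mem_univ, true_and] at hk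
      rw [Finset.mem_erase]
      exact ⟨fun h => hk.1 (by rw [h]), Finset.mem_univ _⟩
    have := Finset.card_le_card hsub
    rw [Finset.card_erase_of_mem (Finset.mem_univ _), Finset.card_univ, Fintype.card_fin] at this
    omega
  let rk : F.Γ → Fin m := fun g => ⟨(RS g).card, hRSlt g⟩
  have hmonoS : ∀ (k k' : Fin m) (g : F.Γ), k ≤ k' → g ∈ S (e k) → g ∈ S (e k') := by
    intro k k' g hk hi
    exact hS1 (show ((e k : Fin L) : ℕ) ≤ (e k' : Fin L) from (e.monotone hk)) hi
  have hrk1 : ∀ (g : F.Γ) (k : Fin m), (k : ℕ) ≠ 0 → ((rk g : ℕ) < k ↔ g ∈ S (e k)) := by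
    intro g k hk
    constructor
    · intro h1
      by_contra h2
      have hsub : Finset.univ.filter (fun k' : Fin m => (k' : ℕ) ≠ 0 ∧ k' ≤ k) ⊆ RS g := by
        intro k' hk'
        simp only [Finset.mem_filter, Finset.mem_univ, true_and] at hk'
        simp only [RS, Finset.mem_filter, Finset.mem_univ, true_and]
        exact ⟨hk'.1, fun h3 => h2 (hmonoS k' k g hk'.2 h3)⟩
      have h3 := Finset.card_le_card hsub
      have h4 : (Finset.univ.filter (fun k' : Fin m => (k' : ℕ) ≠ 0 ∧ k' ≤ k)).card = k := by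
        have e1 : Finset.univ.filter (fun k' : Fin m => (k' : ℕ) ≠ 0 ∧ k' ≤ k) =
            (Finset.Iic k).erase ⟨0, hm0⟩ := by
          ext k'
          simp only [Finset.mem_filter, Finset.mem_univ, true_and, Finset.mem_erase,
            Finset.mem_Iic, ne_eq, Fin.ext_iff]
        rw [e1, Finset.card_erase_of_mem (Finset.mem_Iic.2 (Fin.mk_le_of_le_val (Nat.zero_le _))),
          Fin.card_Iic]
        rfl
      rw [h4] at h3
      have : (rk g : ℕ) = (RS g).card := rfl
      omega
    · intro h1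
      have hsub : RS g ⊆ Finset.univ.filter (fun k' : Fin m => (k' : ℕ) ≠ 0 ∧ k' < k) := by
        intro k' hk'
        simp only [RS, Finset.mem_filter, Finset.mem_univ, true_and] at hk'
        simp only [Finset.mem_filter, Finset.mem_univ, true_and]
        refine ⟨hk'.1, ?_⟩
        by_contra h2
        exact hk'.2 (hmonoS k k' g (not_lt.1 h2) h1)
      have h3 := Finset.card_le_card hsub
      have h4 : (Finset.univ.filter (fun k' : Fin m => (k' : ℕ) ≠ 0 ∧ k' < k)).card ≤ k - 1 := by
        have e1 : Finset.univ.filter (fun k' : Fin m => (k' : ℕ) ≠ 0 ∧ k' < k) =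
            (Finset.Iio k).erase ⟨0, hm0⟩ := by
          ext k'
          simp only [Finset.mem_filter, Finset.mem_univ, true_and, Finset.mem_erase,
            Finset.mem_Iio, ne_eq, Fin.ext_iff]
        have e2 : (⟨0, hm0⟩ : Fin m) ∈ Finset.Iio k := by
          rw [Finset.mem_Iio, Fin.lt_def]
          exact Nat.pos_of_ne_zero hk
        rw [e1, Finset.card_erase_of_mem e2, Fin.card_Iio]
      have : (rk g : ℕ) = (RS g).card := rfl
      omega
  have hrk2 : ∀ (j : Fin m) (g : F.Γ), e j ∈ F.reads g → rk g = j := by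
    intro j g hg
    apply Fin.ext
    by_contra hne
    rcases Nat.lt_or_gt_of_ne hne with h1 | h1
    · -- rank too small
      have h2 := (hrk1 g j (by omega)).1 h1
      rw [← hS3 (e j) (heP j) g hg] at h2
      omega
    · -- rank too large
      have hlt : (j : ℕ) + 1 < m := by have := (rk g).2; omega
      have h2 : ¬ (rk g : ℕ) < (⟨j + 1, hlt⟩ : Fin m) := by simp only; omega
      rw [hrk1 g ⟨j + 1, hlt⟩ (by simp)] at h2
      rw [← hS3 (e j) (heP j) g hg] at h2
      apply h2
      have : e j < e ⟨j + 1, hlt⟩ := e.strictMono (by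
        show (j : ℕ) < j + 1
        omega)
      exact this
  let F' : Family α m :=
    { A := F.A
      B := F.B
      finA := hA
      finB := hB
      owner := fun a b => rk (F.gad a b)
      edge := fun a b c => F.edge a b (Function.update (fun _ => c1) (e (rk (F.gad a b))) c) }
  -- the edges
  have hedge : ∀ (y : Fin m → α) a b, F'.edge a b (y (F'.owner a b)) ↔
      F.edge a b (ext P hm c1 y) := by
    intro y a b
    apply F.edge_congr
    intro i hi
    by_cases hiP : i ∈ P
    · obtain ⟨j, rfl⟩ := (mem_iff_emb P hm i).1 hiP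
      have h2 : rk (F.gad a b) = j := hrk2 j _ hi
      rw [ext_emb]
      show Function.update (fun _ => c1) (e (rk (F.gad a b))) (y (rk (F.gad a b))) (e j) = y j
      rw [h2, Function.update_self]
    · rw [ext_not P hm c1 y hiP]
      rw [Function.update_of_ne]
      intro h1
      exact hiP (h1 ▸ heP _)
  refine ⟨F', ?_, ?_⟩
  · intro k
    by_cases hk0 : k = 0
    · have : F'.interface k = ∅ := by
        ext v
        simp only [Set.mem_empty_iff_false, iff_false]
        rintro ⟨⟨i, h1, -⟩, -⟩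
        omega
      rw [this]; simp
    by_cases hkm : m ≤ k
    · have : F'.interface k = ∅ := by
        ext v
        simp only [Set.mem_empty_iff_false, iff_false]
        rintro ⟨-, ⟨i, h1, -⟩⟩
        have := i.2
        omega
      rw [this]; simp
    push Not at hkm
    refine le_trans ?_ (hS2 (e ⟨k, hkm⟩))
    have hfin : Finite (F.A ⊕ F.B) := inferInstance
    refine Set.ncard_le_ncard (t := F.mid (S (e ⟨k, hkm⟩))) ?_ (Set.toFinite _)
    have htouch : ∀ (v : F.A ⊕ F.B) (j : Fin m), F'.Touches v j →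
        ∃ g, rk g = j ∧ F.Touches v g := by
      rintro v j ⟨a, b, c, h1, h2, h3⟩
      exact ⟨F.gad a b, h2, a, b, h1, ⟨_, h3⟩, rfl⟩
    rintro v ⟨⟨j, h1, h2⟩, ⟨j', h3, h4⟩⟩
    obtain ⟨g, hg, hg2⟩ := htouch v j h2
    obtain ⟨g', hg', hg2'⟩ := htouch v j' h4
    refine ⟨⟨g, ?_, hg2⟩, ⟨g', ?_, hg2'⟩⟩
    · rw [← hrk1 g ⟨k, hkm⟩ hk0, hg]
      exact h1
    · rw [← hrk1 g' ⟨k, hkm⟩ hk0, hg']
      simp only
      omega
  · intro y
    have hgr : F'.graph y = F.graph (ext P hm c1 y) := by
      ext u v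
      constructor
      · rintro (⟨a, b, h1, h2, h3⟩ | ⟨a, b, h1, h2, h3⟩)
        · exact Or.inl ⟨a, b, h1, h2, (hedge y a b).1 h3⟩
        · exact Or.inr ⟨a, b, h1, h2, (hedge y a b).1 h3⟩
      · rintro (⟨a, b, h1, h2, h3⟩ | ⟨a, b, h1, h2, h3⟩)
        · exact Or.inl ⟨a, b, h1, h2, (hedge y a b).2 h3⟩
        · exact Or.inr ⟨a, b, h1, h2, (hedge y a b).2 h3⟩
    have : UniquePM (F'.graph y) = UniquePM (F.graph (ext P hm c1 y)) :=
      congrArg (UniquePM (V := F.A ⊕ F.B)) hgr
    rw [this]

/-- **Reduction of the model with several reads to the linear one.** -/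
theorem reduce (p d k m r : ℕ) (hm : 0 < m) : ∃ N : ℕ, ∀ (L : ℕ) (α : Type) (c1 : α)
    (F : Fin r → GFamily α L d), (∀ j, (F j).WidthLE p) →
      N ≤ {i : Fin L | ∀ j, (F j).times i ≤ k}.ncard →
      ∃ (P : Finset (Fin L)) (hP : P.card = m) (F' : Fin r → Family α m),
        (∀ i ∈ P, ∀ j, (F j).times i ≤ k) ∧
        (∀ j, (F' j).WidthLE (loss k p)) ∧ ∀ j (y : Fin m → α),
          UniquePM ((F' j).graph y) ↔ UniquePM ((F j).graph (ext P hP c1 y)) := by
  classical
  obtain ⟨N, hN⟩ := exists_glin_all p d k m r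
  refine ⟨N, ?_⟩
  intro L α c1 F hF hL
  set P0 : Finset (Fin L) := Finset.univ.filter (fun i => ∀ j, (F j).times i ≤ k) with hP0
  have h0 : ∀ i ∈ P0, ∀ j, (F j).times i ≤ k := fun i hi => (Finset.mem_filter.1 hi).2
  have hc : {i : Fin L | ∀ j, (F j).times i ≤ k}.ncard = P0.card := by
    rw [← Set.ncard_coe_finset]
    congr 1
    ext i
    rw [hP0, Finset.coe_filter]
    exact ⟨fun h => ⟨Finset.mem_univ _, h⟩, fun h => h.2⟩
  obtain ⟨P', hP', h1, h2⟩ := hN α L F hF P0 h0 (by rw [← hc]; exact hL)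
  obtain ⟨P, hP1, hP2⟩ := Finset.exists_subset_card_eq h1
  choose F' hF1 hF2 using fun j => ((h2 j).mono hP1).restrict hm hP2 c1
  exact ⟨P, hP2, F', fun i hi => h0 i (hP' (hP1 hi)), hF1, hF2⟩

end GFamily

end H54.UPM
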