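import Pool.Agent.H54.UPM.Homog
import Pool.Agent.H54.UPM.GL

/-!
# The lower bound for products of matrices over the field with two elements
-/

namespace H54.UPM

open Function

/-- Change of the alphabet. -/
def Family.comap {α β : Type} {L : ℕ} (F : Family α L) (g : β → α) : Family β L where
  A := F.A
  B := F.B
  finA := F.finA
  finB := F.finB
  owner := F.owner
  edge a b c := F.edge a b (g c)

theorem Family.comap_graph {α β : Type} {L : ℕ} (F : Family α L) (g : β → α) (x : Fin L → β) :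
    (F.comap g).graph x = F.graph (fun i => g (x i)) := rfl

theorem Family.comap_widthLE {α β : Type} {L : ℕ} (F : Family α L) (g : β → α) {p : ℕ}
    (h : F.WidthLE p) : (F.comap g).WidthLE p := by
  have hA := F.finA
  have hB := F.finB
  have hAB : Finite (F.A ⊕ F.B) := inferInstance
  have ht : ∀ v i, (F.comap g).Touches v i → F.Touches v i := by
    rintro v i ⟨a, b, c, h1, h2, h3⟩
    exact ⟨a, b, g c, h1, h2, h3⟩
  intro k
  refine le_trans (Set.ncard_le_ncard (t := F.interface k) ?_ (Set.toFinite _)) (h k)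
  rintro v ⟨⟨i, h1, h2⟩, ⟨j, h3, h4⟩⟩
  exact ⟨⟨i, h1, ht _ _ h2⟩, ⟨j, h3, ht _ _ h4⟩⟩

theorem Family.WidthLE.mono {α : Type} {L : ℕ} {F : Family α L} {p q : ℕ} (h : F.WidthLE p)
    (hpq : p ≤ q) : F.WidthLE q := fun k => (h k).trans hpq

theorem Elem.det {w : ℕ} {A : Matrix (Fin w) (Fin w) (ZMod 2)} (h : Elem A) : A.det = 1 := by
  rcases h with rfl | ⟨j, k, hjk, rfl⟩
  · simp
  · exact Matrix.det_transvection_of_ne j k hjk 1

theorem Elem.det_ne {w : ℕ} {A : Matrix (Fin w) (Fin w) (ZMod 2)} (h : Elem A) : A.det ≠ 0 := by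
  rw [h.det]; decide

/-- The elementary matrices, as elements of the general linear group. -/
noncomputable def elemGL {w : ℕ} (A : {A : Matrix (Fin w) (Fin w) (ZMod 2) // Elem A}) :
    Matrix.GeneralLinearGroup (Fin w) (ZMod 2) :=
  Matrix.GeneralLinearGroup.mkOfDetNeZero A.1 A.2.det_ne

theorem elemGL_val {w : ℕ} (A : {A : Matrix (Fin w) (Fin w) (ZMod 2) // Elem A}) :
    (elemGL A : Matrix (Fin w) (Fin w) (ZMod 2)) = A.1 := rfl

theorem coe_listProd {w : ℕ} (l : List (Matrix.GeneralLinearGroup (Fin w) (ZMod 2))) :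
    ((l.prod : Matrix.GeneralLinearGroup (Fin w) (ZMod 2)) : Matrix (Fin w) (Fin w) (ZMod 2)) =
      (l.map Units.val).prod := by
  induction l with
  | nil => simp
  | cons g l ih => simp [ih]

theorem elem_generate {w : ℕ} (g : Matrix.GeneralLinearGroup (Fin w) (ZMod 2)) :
    ∃ l : List {A : Matrix (Fin w) (Fin w) (ZMod 2) // Elem A}, (l.map elemGL).prod = g := by
  obtain ⟨L, L', D, h⟩ := Matrix.Pivot.exists_list_transvec_mul_diagonal_mul_list_transvec
    (g : Matrix (Fin w) (Fin w) (ZMod 2))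
  have hdet : (g : Matrix (Fin w) (Fin w) (ZMod 2)).det ≠ 0 := by
    have : IsUnit (g : Matrix (Fin w) (Fin w) (ZMod 2)).det :=
      (Matrix.isUnit_iff_isUnit_det _).1 g.isUnit
    exact this.ne_zero
  have hD : Matrix.diagonal D = 1 := by
    rw [h, Matrix.det_mul, Matrix.det_mul, Matrix.det_diagonal] at hdet
    have h1 : ∏ i, D i ≠ 0 := by
      intro h0
      rw [h0] at hdet
      simp at hdet
    have h2 : ∀ i, D i = 1 := by
      intro i
      have h3 : D i ≠ 0 := fun h3 => h1 (Finset.prod_eq_zero (Finset.mem_univ i) h3)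
      have h4 : ∀ x : ZMod 2, x ≠ 0 → x = 1 := by decide
      exact h4 _ h3
    have h3 : D = 1 := funext h2
    rw [h3, Matrix.diagonal_one']
  have hE : ∀ t : Matrix.TransvectionStruct (Fin w) (ZMod 2), Elem t.toMatrix := by
    rintro ⟨i, j, hij, c⟩
    have h4 : ∀ x : ZMod 2, x = 0 ∨ x = 1 := by decide
    rcases h4 c with rfl | rfl
    · left
      simp [Matrix.TransvectionStruct.toMatrix, Matrix.transvection]
    · right
      exact ⟨i, j, hij, rfl⟩
  refine ⟨(L ++ L').map (fun t => ⟨t.toMatrix, hE t⟩), ?_⟩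
  apply Units.ext
  rw [coe_listProd, h, hD, mul_one, ← List.prod_append, ← List.map_append, List.map_map,
    List.map_map]
  rfl

theorem coe_swap {w : ℕ} (i j : Fin w) :
    ((Matrix.GeneralLinearGroup.swap (ZMod 2) i j : Matrix.GeneralLinearGroup (Fin w) (ZMod 2)) :
      Matrix (Fin w) (Fin w) (ZMod 2)) = Matrix.swap (ZMod 2) i j := rfl

/-- The test of one entry separates the elements of the general linear group. -/
theorem entry_separates {w : ℕ} (s t : Fin w) (c : ZMod 2)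
    (g g' : Matrix.GeneralLinearGroup (Fin w) (ZMod 2))
    (h : ∀ a b : Matrix.GeneralLinearGroup (Fin w) (ZMod 2),
      ((a * g * b : Matrix.GeneralLinearGroup (Fin w) (ZMod 2)) :
          Matrix (Fin w) (Fin w) (ZMod 2)) s t = c ↔
        ((a * g' * b : Matrix.GeneralLinearGroup (Fin w) (ZMod 2)) :
          Matrix (Fin w) (Fin w) (ZMod 2)) s t = c) : g = g' := by
  apply Matrix.GeneralLinearGroup.ext
  intro i j
  have h1 := h (Matrix.GeneralLinearGroup.swap (ZMod 2) s i)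
    (Matrix.GeneralLinearGroup.swap (ZMod 2) t j)
  simp only [Matrix.GeneralLinearGroup.coe_mul, coe_swap,
    Matrix.mul_swap_apply_left, Matrix.swap_mul_apply_left] at h1
  have h2 : ∀ x y c : ZMod 2, (x = c ↔ y = c) → x = y := by decide
  exact h2 _ _ _ h1

theorem lower_F2_of {w : ℕ} (hw : 2 ≤ w) {p : ℕ}
    (hidx : ∀ K : Subgroup (Matrix.GeneralLinearGroup (Fin w) (ZMod 2)), K ≠ ⊤ →
      p < Nat.card (Matrix.GeneralLinearGroup (Fin w) (ZMod 2) ⧸ K)) (r : ℕ) (s t : Fin w)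
    (c : ZMod 2) : ∃ L₀, ∀ L, L₀ ≤ L → ∀ F : Fin r → Family (Matrix (Fin w) (Fin w) (ZMod 2)) L,
      (∀ k, (F k).WidthLE p) → ∀ B : (Fin r → Prop) → Prop,
      ∃ x : Fin L → Matrix (Fin w) (Fin w) (ZMod 2), (∀ i, Elem (x i)) ∧
        ¬ (B (fun k => UniquePM ((F k).graph x)) ↔ (List.ofFn x).prod s t = c) := by
  classical
  by_contra hcon
  push Not at hcon
  obtain ⟨m, rfl⟩ : ∃ m, w = m + 2 := ⟨w - 2, by omega⟩
  -- the trivial case of no ports
  set q := max p 1 with hq
  have hq0 : 0 < q := by omega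
  have hnt : Nontrivial (Matrix.GeneralLinearGroup (Fin (m + 2)) (ZMod 2)) := by
    refine ⟨⟨Matrix.GeneralLinearGroup.swap (ZMod 2) 0 1, 1, ?_⟩⟩
    intro h
    have h2 := congrArg (fun g : Matrix.GeneralLinearGroup (Fin (m + 2)) (ZMod 2) =>
      (g : Matrix (Fin (m + 2)) (Fin (m + 2)) (ZMod 2))) h
    simp only [coe_swap, Matrix.GeneralLinearGroup.coe_one] at h2
    have h3 := congrFun (congrFun h2 0) 0
    have h4 := Matrix.swap_mul_apply_left (R := ZMod 2) (0 : Fin (m + 2)) 1 0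
      (1 : Matrix (Fin (m + 2)) (Fin (m + 2)) (ZMod 2))
    rw [mul_one, h3] at h4
    simp at h4
  obtain ⟨K, hK, hKf, hKc⟩ := index_of_section (group_bound (p := q) (r := r)
    (α := {A : Matrix (Fin (m + 2)) (Fin (m + 2)) (ZMod 2) // Elem A})
    (G := Matrix.GeneralLinearGroup (Fin (m + 2)) (ZMod 2)) elemGL ⟨1, Or.inl rfl⟩
    (Units.ext (by rw [elemGL_val]; rfl)) elem_generate
    (fun g => (g : Matrix (Fin (m + 2)) (Fin (m + 2)) (ZMod 2)) s t = c)
    (entry_separates s t c) hq0 (by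
      intro L₀
      obtain ⟨L, hL, F, hF, B, hx⟩ := hcon L₀
      refine ⟨L, hL, fun k => (F k).comap Subtype.val, B,
        fun k => (F k).comap_widthLE _ ((hF k).mono (le_max_left _ _)), ?_⟩
      intro x
      have h1 := hx (fun i => (x i).1) (fun i => (x i).2)
      rw [coe_listProd, List.map_ofFn]
      exact h1))
  have h5 := GL_index m K hK
  have h6 := hidx K hK
  have h7 : 1 < 2 ^ (m + 1) := Nat.one_lt_pow (by omega) (by norm_num)
  omega

theorem lower_F2 {w : ℕ} (hw : 2 ≤ w) {p : ℕ} (hp : p < 2 ^ (w - 1)) (r : ℕ) (s t : Fin w)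
    (c : ZMod 2) : ∃ L₀, ∀ L, L₀ ≤ L → ∀ F : Fin r → Family (Matrix (Fin w) (Fin w) (ZMod 2)) L,
      (∀ k, (F k).WidthLE p) → ∀ B : (Fin r → Prop) → Prop,
      ∃ x : Fin L → Matrix (Fin w) (Fin w) (ZMod 2), (∀ i, Elem (x i)) ∧
        ¬ (B (fun k => UniquePM ((F k).graph x)) ↔ (List.ofFn x).prod s t = c) := by
  obtain ⟨m, rfl⟩ : ∃ m, w = m + 2 := ⟨w - 2, by omega⟩
  have e1 : m + 2 - 1 = m + 1 := by omega
  rw [e1] at hp
  exact lower_F2_of hw (fun K hK => lt_of_lt_of_le hp (GL_index m K hK)) r s t c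

end H54.UPM
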