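import Pool.Agent.H54.UPM.UpperSpec
import Pool.Agent.H54.UPM.IntPart

/-!
# Disjoint unions of families, and the upper bound for integer products
-/

namespace H54.UPM

open Function

section

variable {α : Type} {L : ℕ} {ι : Type}

open Classical in
/-- The disjoint union of families. -/
noncomputable def Family.sigma [Finite ι] (hL : 0 < L) (F : ι → Family α L) : Family α L where
  A := Σ i, (F i).A
  B := Σ i, (F i).B
  finA := by have := fun i => (F i).finA; infer_instance
  finB := by have := fun i => (F i).finB; infer_instance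
  owner a b := if h : ∃ i a' b', a = ⟨i, a'⟩ ∧ b = ⟨i, b'⟩ then
      (F h.choose).owner h.choose_spec.choose h.choose_spec.choose_spec.choose else ⟨0, hL⟩
  edge a b c := ∃ i a' b', a = ⟨i, a'⟩ ∧ b = ⟨i, b'⟩ ∧ (F i).edge a' b' c

theorem Family.sigma_owner [Finite ι] (hL : 0 < L) (F : ι → Family α L) (i : ι) (a : (F i).A)
    (b : (F i).B) : (Family.sigma hL F).owner ⟨i, a⟩ ⟨i, b⟩ = (F i).owner a b := by
  classical
  have h : ∃ j a' b', (⟨i, a⟩ : Σ i, (F i).A) = ⟨j, a'⟩ ∧ (⟨i, b⟩ : Σ i, (F i).B) = ⟨j, b'⟩ :=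
    ⟨i, a, b, rfl, rfl⟩
  have h1 : (Family.sigma hL F).owner ⟨i, a⟩ ⟨i, b⟩ =
      (F h.choose).owner h.choose_spec.choose h.choose_spec.choose_spec.choose := dif_pos h
  rw [h1]
  have h2 := h.choose_spec.choose_spec.choose_spec
  have h3 : ∀ (j : ι) (a' : (F j).A) (b' : (F j).B),
      (⟨i, a⟩ : Σ i, (F i).A) = ⟨j, a'⟩ → (⟨i, b⟩ : Σ i, (F i).B) = ⟨j, b'⟩ →
      (F j).owner a' b' = (F i).owner a b := by
    intro j a' b' e1 e2
    obtain rfl : i = j := congrArg Sigma.fst e1
    have e1' := eq_of_heq (Sigma.mk.inj e1).2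
    have e2' := eq_of_heq (Sigma.mk.inj e2).2
    rw [e1', e2']
  exact h3 _ _ _ h2.1 h2.2

theorem Family.sigma_edge [Finite ι] (hL : 0 < L) (F : ι → Family α L) (i : ι) (a : (F i).A)
    (b : (F i).B) (c : α) : (Family.sigma hL F).edge ⟨i, a⟩ ⟨i, b⟩ c ↔ (F i).edge a b c := by
  constructor
  · rintro ⟨j, a', b', e1, e2, h⟩
    obtain rfl : i = j := congrArg Sigma.fst e1
    have e1' := eq_of_heq (Sigma.mk.inj e1).2
    have e2' := eq_of_heq (Sigma.mk.inj e2).2
    rwa [← e1', ← e2'] at h
  · intro h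
    exact ⟨i, a, b, rfl, rfl, h⟩

/-- The edge relation of a graph of a family. -/
def Family.act (F : Family α L) (x : Fin L → α) : F.A → F.B → Prop :=
  fun a b => F.edge a b (x (F.owner a b))

theorem Family.sigma_act [Finite ι] (hL : 0 < L) (F : ι → Family α L) (x : Fin L → α) (i : ι)
    (a : (F i).A) (b : (F i).B) :
    (Family.sigma hL F).act x ⟨i, a⟩ ⟨i, b⟩ ↔ (F i).act x a b := by
  rw [Family.act, Family.act, Family.sigma_edge, Family.sigma_owner]

theorem Family.sigma_act_ne [Finite ι] (hL : 0 < L) (F : ι → Family α L) (x : Fin L → α)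
    {i j : ι} {a : (F i).A} {b : (F j).B} (h : (Family.sigma hL F).act x ⟨i, a⟩ ⟨j, b⟩) :
    i = j := by
  obtain ⟨k, a', b', e1, e2, -⟩ := h
  exact (congrArg Sigma.fst e1).trans (congrArg Sigma.fst e2).symm

theorem unique_iff_step (F : Family α L) (x : Fin L → α) : UniquePM (F.graph x) ↔
    ∃! M, IsStep (F.act x) ∅ Set.univ ∅ Set.univ M := by
  have := F.finA
  have := F.finB
  rw [uniquePM_iff, ← stepc_eq_one]
  rfl

theorem Family.sigma_unique [Finite ι] (hL : 0 < L) (F : ι → Family α L) (x : Fin L → α) :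
    UniquePM ((Family.sigma hL F).graph x) ↔ ∀ i, UniquePM ((F i).graph x) := by
  classical
  rw [unique_iff_step]
  simp only [unique_iff_step]
  -- restriction and assembly
  have hres : ∀ M, IsStep ((Family.sigma hL F).act x) ∅ Set.univ ∅ Set.univ M → ∀ i,
      IsStep ((F i).act x) ∅ Set.univ ∅ Set.univ (fun a b => M ⟨i, a⟩ ⟨i, b⟩) := by
    intro M H i
    refine ⟨?_, ?_, ?_, by simp, by simp, ?_, ?_⟩
    · intro a b h
      exact (Family.sigma_act hL F x i a b).1 (H.sub h)
    · intro a b b' h h'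
      exact eq_of_heq (Sigma.mk.inj (H.fa h h')).2
    · intro a a' b h h'
      exact eq_of_heq (Sigma.mk.inj (H.fb h h')).2
    · intro a
      simp only [Set.mem_univ, Set.mem_empty_iff_false, false_or, true_iff]
      obtain ⟨⟨j, b⟩, hb⟩ := ((H.ca ⟨i, a⟩).1 (Set.mem_univ _)).resolve_left (by simp)
      obtain rfl := Family.sigma_act_ne hL F x (H.sub hb)
      exact ⟨b, hb⟩
    · intro b
      simp only [Set.mem_univ, Set.mem_empty_iff_false, false_or, true_iff]
      obtain ⟨⟨j, a⟩, ha⟩ := ((H.cb ⟨i, b⟩).1 (Set.mem_univ _)).resolve_left (by simp)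
      obtain rfl := Family.sigma_act_ne hL F x (H.sub ha)
      exact ⟨a, ha⟩
  let asm : (∀ i, (F i).A → (F i).B → Prop) → (Family.sigma hL F).A → (Family.sigma hL F).B →
      Prop := fun M a b => ∃ i a' b', a = ⟨i, a'⟩ ∧ b = ⟨i, b'⟩ ∧ M i a' b'
  have hasm : ∀ (M : ∀ i, (F i).A → (F i).B → Prop) i a b, asm M ⟨i, a⟩ ⟨i, b⟩ ↔ M i a b := by
    intro M i a b
    constructor
    · rintro ⟨j, a', b', e1, e2, h⟩
      obtain rfl : i = j := congrArg Sigma.fst e1
      have e1' := eq_of_heq (Sigma.mk.inj e1).2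
      have e2' := eq_of_heq (Sigma.mk.inj e2).2
      rwa [← e1', ← e2'] at h
    · intro h
      exact ⟨i, a, b, rfl, rfl, h⟩
  have hasmS : ∀ M : ∀ i, (F i).A → (F i).B → Prop,
      (∀ i, IsStep ((F i).act x) ∅ Set.univ ∅ Set.univ (M i)) →
      IsStep ((Family.sigma hL F).act x) ∅ Set.univ ∅ Set.univ (asm M) := by
    intro M H
    refine ⟨?_, ?_, ?_, by simp, by simp, ?_, ?_⟩
    · rintro _ _ ⟨i, a, b, rfl, rfl, h⟩
      exact (Family.sigma_act hL F x i a b).2 ((H i).sub h)
    · rintro _ _ _ ⟨i, a, b, rfl, rfl, h⟩ ⟨j, a', b', e1, rfl, h'⟩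
      obtain rfl : i = j := congrArg Sigma.fst e1
      have e1' := eq_of_heq (Sigma.mk.inj e1).2
      rw [← e1'] at h'
      rw [(H i).fa h h']
    · rintro _ _ _ ⟨i, a, b, rfl, rfl, h⟩ ⟨j, a', b', rfl, e2, h'⟩
      obtain rfl : i = j := congrArg Sigma.fst e2
      have e2' := eq_of_heq (Sigma.mk.inj e2).2
      rw [← e2'] at h'
      rw [(H i).fb h h']
    · rintro ⟨i, a⟩
      simp only [Set.mem_univ, Set.mem_empty_iff_false, false_or, true_iff]
      obtain ⟨b, hb⟩ := (((H i).ca a).1 (Set.mem_univ _)).resolve_left (by simp)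
      exact ⟨⟨i, b⟩, i, a, b, rfl, rfl, hb⟩
    · rintro ⟨i, b⟩
      simp only [Set.mem_univ, Set.mem_empty_iff_false, false_or, true_iff]
      obtain ⟨a, ha⟩ := (((H i).cb b).1 (Set.mem_univ _)).resolve_left (by simp)
      exact ⟨⟨i, a⟩, i, a, b, rfl, rfl, ha⟩
  constructor
  · rintro ⟨M, hM, hu⟩ i
    refine ⟨_, hres M hM i, ?_⟩
    intro N hN
    let M' : ∀ j, (F j).A → (F j).B → Prop :=
      Function.update (fun j a b => M ⟨j, a⟩ ⟨j, b⟩) i N
    have hM' : ∀ j, IsStep ((F j).act x) ∅ Set.univ ∅ Set.univ (M' j) := by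
      intro j
      by_cases hj : j = i
      · subst hj
        simpa [M'] using hN
      · simp only [M', Function.update_of_ne hj]
        exact hres M hM j
    have h1 := hu _ (hasmS M' hM')
    funext a b
    apply propext
    have h2 : asm M' ⟨i, a⟩ ⟨i, b⟩ ↔ M ⟨i, a⟩ ⟨i, b⟩ := by rw [h1]
    rw [hasm] at h2
    simpa [M'] using h2
  · intro h
    choose M hM hu using h
    refine ⟨asm M, hasmS M hM, ?_⟩
    intro N hN
    have h1 := fun i => hu i _ (hres N hN i)
    funext a b
    apply propext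
    rcases a with ⟨i, a⟩
    rcases b with ⟨j, b⟩
    constructor
    · intro h
      obtain rfl := Family.sigma_act_ne hL F x (hN.sub h)
      rw [hasm, ← h1 i]
      exact h
    · intro h
      have h2 := (hasmS M hM).sub h
      obtain rfl := Family.sigma_act_ne hL F x h2
      rw [hasm, ← h1 i] at h
      exact h

theorem Family.sigma_width [Fintype ι] (hL : 0 < L) (F : ι → Family α L) (p : ι → ℕ)
    (h : ∀ i, (F i).WidthLE (p i)) : (Family.sigma hL F).WidthLE (∑ i, p i) := by
  classical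
  have hA := fun i => (F i).finA
  have hB := fun i => (F i).finB
  intro k
  let inc : ∀ i, (F i).A ⊕ (F i).B → (Family.sigma hL F).A ⊕ (Family.sigma hL F).B :=
    fun i => Sum.map (fun a => (⟨i, a⟩ : Σ i, (F i).A)) (fun b => (⟨i, b⟩ : Σ i, (F i).B))
  have hsub : (Family.sigma hL F).interface k ⊆ ⋃ i ∈ (Finset.univ : Finset ι),
      inc i '' (F i).interface k := by
    have key : ∀ (v : (Family.sigma hL F).A ⊕ (Family.sigma hL F).B) (j : Fin L),
        (Family.sigma hL F).Touches v j → ∃ i v', v = inc i v' ∧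
          (F i).Touches v' j := by
      rintro v j ⟨a, b, c, h1, h2, ⟨i, a', b', rfl, rfl, h3⟩⟩
      rw [Family.sigma_owner] at h2
      rcases h1 with rfl | rfl
      · exact ⟨i, Sum.inl a', rfl, a', b', c, Or.inl rfl, h2, h3⟩
      · exact ⟨i, Sum.inr b', rfl, a', b', c, Or.inr rfl, h2, h3⟩
    rintro v ⟨⟨i1, h1, h2⟩, ⟨i2, h3, h4⟩⟩
    obtain ⟨i, v', rfl, h5⟩ := key v i1 h2
    obtain ⟨j, v'', e, h6⟩ := key _ i2 h4
    have hij : i = j := by
      rcases v' with a | b <;> rcases v'' with a' | b'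
      · exact congrArg Sigma.fst (Sum.inl_injective e)
      · simp [inc] at e
      · simp [inc] at e
      · exact congrArg Sigma.fst (Sum.inr_injective e)
    subst hij
    have hv : v' = v'' := by
      rcases v' with a | b <;> rcases v'' with a' | b'
      · rw [eq_of_heq (Sigma.mk.inj (Sum.inl_injective e)).2]
      · simp [inc] at e
      · simp [inc] at e
      · rw [eq_of_heq (Sigma.mk.inj (Sum.inr_injective e)).2]
    subst hv
    rw [Set.mem_iUnion₂]
    exact ⟨i, Finset.mem_univ _, v', ⟨⟨i1, h1, h5⟩, ⟨i2, h3, h6⟩⟩, rfl⟩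
  have hfin : Finite ((Family.sigma hL F).A ⊕ (Family.sigma hL F).B) := by
    have := (Family.sigma hL F).finA
    have := (Family.sigma hL F).finB
    infer_instance
  refine (Set.ncard_le_ncard hsub (Set.toFinite _)).trans ?_
  have hU : ∀ s : Finset ι, (⋃ i ∈ s, inc i '' (F i).interface k).ncard ≤
      ∑ i ∈ s, p i := by
    intro s
    induction s using Finset.induction_on with
    | empty => simp
    | insert i s hi ih =>
      rw [Finset.set_biUnion_insert, Finset.sum_insert hi]
      refine (Set.ncard_union_le _ _).trans (Nat.add_le_add ?_ ih)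
      have : Finite ((F i).A ⊕ (F i).B) := inferInstance
      exact (Set.ncard_image_le (Set.toFinite _)).trans (h i k)
  exact hU Finset.univ

end

theorem centralBinom_dvd {n : ℕ} (hn : 0 < n) {z : ℤ}
    (h : ∀ m : ℕ, 0 < m → m ≤ 2 * n → (m : ℤ) ∣ z) : (n.centralBinom : ℤ) ∣ z := by
  rw [Int.natCast_dvd, Nat.dvd_iff_prime_pow_dvd_dvd]
  intro p k hp hk
  rw [hp.pow_dvd_iff_le_factorization (Nat.centralBinom_ne_zero n)] at hk
  have h1 : p ^ k ≤ 2 * n :=
    (Nat.pow_le_pow_right hp.pos hk).trans (Nat.pow_factorization_choose_le (by omega))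
  exact Int.natCast_dvd.1 (h (p ^ k) (pow_pos hp.pos k) h1)

theorem two_pow_le_centralBinom : ∀ n : ℕ, 0 < n → 2 ^ n ≤ n.centralBinom := by
  intro n hn
  have h1 := Nat.four_pow_le_two_mul_self_mul_centralBinom n hn
  have h2 : ∀ n : ℕ, 0 < n → 2 * n ≤ 2 ^ n := by
    intro n hn
    induction n with
    | zero => omega
    | succ n ih =>
      by_cases h : n = 0
      · subst h; norm_num
      · have := ih (by omega)
        rw [pow_succ]; omega
  have h3 : 2 ^ n * 2 ^ n ≤ 2 ^ n * n.centralBinom := by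
    calc 2 ^ n * 2 ^ n = 4 ^ n := by rw [← mul_pow]; norm_num
      _ ≤ 2 * n * n.centralBinom := h1
      _ ≤ _ := Nat.mul_le_mul_right _ (h2 n hn)
  exact Nat.le_of_mul_le_mul_left h3 (by positivity)

theorem small_prod {w : ℕ} (l : List (Matrix (Fin w) (Fin w) ℤ)) (h : ∀ A ∈ l, Small A) :
    ∀ s t, |l.prod s t| ≤ (w : ℤ) ^ l.length := by
  induction l with
  | nil =>
    intro s t
    rw [List.prod_nil, List.length_nil, pow_zero]
    by_cases hst : s = t
    · rw [hst, Matrix.one_apply_eq]; simp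
    · rw [Matrix.one_apply_ne hst]; simp
  | cons A l ih =>
    intro s t
    rw [List.prod_cons, Matrix.mul_apply, List.length_cons]
    refine (Finset.abs_sum_le_sum_abs _ _).trans ?_
    have h1 : ∀ j ∈ (Finset.univ : Finset (Fin w)), |A s j * l.prod j t| ≤ (w : ℤ) ^ l.length := by
      intro j _
      rw [abs_mul]
      have h2 : |A s j| ≤ 1 := by
        rcases h A (by simp) s j with h | h | h <;> rw [h] <;> simp
      have h3 := ih (fun B hB => h B (List.mem_cons_of_mem _ hB)) j t
      calc |A s j| * |l.prod j t| ≤ 1 * (w : ℤ) ^ l.length :=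
            mul_le_mul h2 h3 (abs_nonneg _) (by norm_num)
        _ = _ := one_mul _
    refine (Finset.sum_le_sum h1).trans ?_
    rw [Finset.sum_const, Finset.card_univ, Fintype.card_fin, pow_succ]
    simp [mul_comm]

/-- **Upper bound for integer products.** -/
theorem upper_int {w L : ℕ} (hL : 0 < L) (s t : Fin w) :
    ∃ F : Family (Matrix (Fin w) (Fin w) ℤ) L, F.WidthLE ((2 * w * L + 2) ^ (w + 1)) ∧
      ∀ x, (∀ i, Small (x i)) → (UniquePM (F.graph x) ↔ (List.ofFn x).prod s t = 0) := by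
  classical
  set n := w * L + 1 with hn
  choose F hF1 hF2 using fun i : Fin (2 * n) =>
    upper_ring (α := Matrix (Fin w) (Fin w) ℤ) (R := ZMod ((i : ℕ) + 1)) hL s t 0
      (fun A => (Int.castRingHom (ZMod ((i : ℕ) + 1))).mapMatrix A)
  refine ⟨Family.sigma hL F, ?_, ?_⟩
  · have h1 := Family.sigma_width hL F _ hF1
    intro k
    refine (h1 k).trans ?_
    calc ∑ i : Fin (2 * n), Nat.card (ZMod ((i : ℕ) + 1)) ^ w
        ≤ ∑ _i : Fin (2 * n), (2 * n) ^ w := by
          apply Finset.sum_le_sum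
          intro i _
          rw [Nat.card_zmod]
          exact Nat.pow_le_pow_left (by have := i.2; omega) _
      _ = (2 * w * L + 2) ^ (w + 1) := by
          rw [Finset.sum_const, Finset.card_univ, Fintype.card_fin, smul_eq_mul, pow_succ', hn]
          congr 1 <;> ring
  · intro x hx
    rw [Family.sigma_unique]
    have key : ∀ i : Fin (2 * n), UniquePM ((F i).graph x) ↔
        (((i : ℕ) + 1 : ℕ) : ℤ) ∣ (List.ofFn x).prod s t := by
      intro i
      rw [hF2 i x, ← ZMod.intCast_zmod_eq_zero_iff_dvd]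
      have h1 : (List.ofFn fun j => (Int.castRingHom (ZMod ((i : ℕ) + 1))).mapMatrix (x j)).prod =
          (Int.castRingHom (ZMod ((i : ℕ) + 1))).mapMatrix (List.ofFn x).prod := by
        rw [map_list_prod, List.map_ofFn]
        rfl
      rw [h1]
      rfl
    have hb : |(List.ofFn x).prod s t| < (n.centralBinom : ℤ) := by
      have h1 := small_prod (List.ofFn x) (by
        intro A hA
        rw [List.mem_ofFn] at hA
        obtain ⟨i, rfl⟩ := hA
        exact hx i) s t
      rw [List.length_ofFn] at h1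
      refine h1.trans_lt ?_
      have h2 : w ^ L < n.centralBinom := by
        calc w ^ L ≤ (2 ^ w) ^ L := Nat.pow_le_pow_left Nat.lt_two_pow_self.le _
          _ = 2 ^ (w * L) := by rw [pow_mul]
          _ < 2 ^ n := Nat.pow_lt_pow_right (by norm_num) (by omega)
          _ ≤ _ := two_pow_le_centralBinom n (by omega)
      exact_mod_cast h2
    constructor
    · intro h
      apply Int.eq_zero_of_abs_lt_dvd _ hb
      apply centralBinom_dvd (by omega)
      intro m hm1 hm2
      have h1 := (key ⟨m - 1, by omega⟩).1 (h _)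
      have h2 : m - 1 + 1 = m := by omega
      simp only [h2] at h1
      exact h1
    · intro h i
      rw [key, h]
      exact dvd_zero _

end H54.UPM
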