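import Pool.Agent.H54.UPM.IntTree
import Pool.Agent.H54.UPM.LowerF2
import Pool.Agent.H54.UPM.UpperInt
import Pool.Agent.H54.UPM.Alt

/-!
# The bounds for local families
-/

namespace H54.UPM

open Function

variable {α β : Type} {L d p : ℕ}

/-- A family whose edges depend on one position, as a local family. -/
def Family.toL (F : Family α L) : LFamily α L 1 where
  A := F.A
  B := F.B
  finA := F.finA
  finB := F.finB
  own a b := {F.owner a b}
  own_nonempty _ _ := Finset.singleton_nonempty _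
  own_card _ _ := by simp
  edge a b x := F.edge a b (x (F.owner a b))
  edge_congr a b x y h := by rw [h _ (Finset.mem_singleton_self _)]

theorem Family.toL_graph (F : Family α L) (x : Fin L → α) : F.toL.graph x = F.graph x := rfl

theorem Family.toL_width {F : Family α L} (h : F.WidthLE p) : F.toL.LinWidthLE p := by
  intro k
  have hA := F.finA
  have hB := F.finB
  have hfin : Finite (F.A ⊕ F.B) := inferInstance
  refine le_trans (Set.ncard_le_ncard (t := F.interface k) ?_ (Set.toFinite _)) (h k)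
  have ht : ∀ v i, F.toL.Touches v i → F.Touches v i := by
    rintro v i ⟨a, b, h1, ⟨x, h2⟩, h3⟩
    exact ⟨a, b, x (F.owner a b), h1, (Finset.mem_singleton.1 h3).symm, h2⟩
  rintro v ⟨⟨i, h1, h2⟩, ⟨j, h3, h4⟩⟩
  simp only [Finset.mem_filter, Finset.mem_univ, true_and, not_lt] at h1 h3
  exact ⟨⟨i, h1, ht v i h2⟩, ⟨j, h3, ht v j h4⟩⟩

/-- The path shaped layout. -/
def pathTree (L : ℕ) : ℕ → Layout L
  | 0 => .nil
  | k + 1 => if h : k < L then .node (some ⟨k, h⟩) (pathTree L k) .nil else .nil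

theorem pathTree_pos : ∀ k, k ≤ L →
    (pathTree L k).pos = Finset.univ.filter (fun i : Fin L => (i : ℕ) < k)
  | 0, _ => by
    ext i
    simp [pathTree, Layout.pos]
  | k + 1, h => by
    have h' : k < L := h
    rw [pathTree, dif_pos h', Layout.pos, pathTree_pos k h'.le]
    ext i
    simp only [Option.toFinset_some, Layout.pos, Finset.union_empty, Finset.mem_union,
      Finset.mem_singleton, Finset.mem_filter, Finset.mem_univ, true_and, Fin.ext_iff]
    omega

theorem pathTree_all (Q : Finset (Fin L) → Prop)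
    (h : ∀ k, Q (Finset.univ.filter (fun i : Fin L => (i : ℕ) < k))) :
    ∀ k, k ≤ L → (pathTree L k).All Q
  | 0, _ => trivial
  | k + 1, hk => by
    have h' : k < L := hk
    have h1 := pathTree_pos (k + 1) hk
    have h2 := pathTree_all Q h k h'.le
    rw [pathTree, dif_pos h'] at h1 ⊢
    refine ⟨?_, h2, trivial⟩
    rw [h1]
    exact h (k + 1)

/-- Linear layouts are tree layouts. -/
theorem LFamily.LinWidthLE.tree {F : LFamily α L d} (h : F.LinWidthLE p) : F.TreeWidthLE p := by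
  refine ⟨pathTree L L, ?_, pathTree_all (fun S => (F.bd S).ncard ≤ p) h L le_rfl⟩
  rw [pathTree_pos L le_rfl]
  ext i
  simp

theorem Layout.All.imp {P Q : Finset (Fin L) → Prop} (hPQ : ∀ S, P S → Q S) :
    ∀ {t : Layout L}, t.All P → t.All Q
  | .nil, _ => trivial
  | .node _ _ _, h => ⟨hPQ _ h.1, h.2.1.imp hPQ, h.2.2.imp hPQ⟩

theorem LFamily.TreeWidthLE.mono {F : LFamily α L d} {q : ℕ} (h : F.TreeWidthLE p)
    (hpq : p ≤ q) : F.TreeWidthLE q := by
  obtain ⟨t, h1, h2⟩ := h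
  exact ⟨t, h1, h2.imp (fun S hS => hS.trans hpq)⟩

/-- Renaming the letters. -/
def LFamily.comap (F : LFamily α L d) (g : β → α) : LFamily β L d where
  A := F.A
  B := F.B
  finA := F.finA
  finB := F.finB
  own := F.own
  own_nonempty := F.own_nonempty
  own_card := F.own_card
  edge a b x := F.edge a b (fun i => g (x i))
  edge_congr a b x y h := F.edge_congr a b _ _ (fun i hi => by rw [h i hi])

theorem LFamily.comap_tree {F : LFamily α L d} (g : β → α) (h : F.TreeWidthLE p) :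
    (F.comap g).TreeWidthLE p := by
  have hA := F.finA
  have hB := F.finB
  have hfin : Finite (F.A ⊕ F.B) := inferInstance
  obtain ⟨t, h1, h2⟩ := h
  refine ⟨t, h1, h2.imp (fun S hS => le_trans (Set.ncard_le_ncard (t := F.bd S) ?_
    (Set.toFinite _)) hS)⟩
  have ht : ∀ v i, (F.comap g).Touches v i → F.Touches v i := by
    rintro v i ⟨a, b, h1, ⟨x, h2⟩, h3⟩
    exact ⟨a, b, h1, ⟨_, h2⟩, h3⟩
  rintro v ⟨⟨i, h1, h2⟩, ⟨j, h3, h4⟩⟩
  exact ⟨⟨i, h1, ht v i h2⟩, ⟨j, h3, ht v j h4⟩⟩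

/-- **The group theorem for local families.** -/
theorem general_group {α G : Type} [Finite α] [Group G] [Finite G] [Nontrivial G] (f : α → G)
    (c1 : α) (hc1 : f c1 = 1) (hgen : ∀ g, ∃ l : List α, (l.map f).prod = g) (χ : G → Prop)
    (hχ : ∀ g g', (∀ a b, χ (a * g * b) ↔ χ (a * g' * b)) → g = g') {r p d : ℕ}
    (h : ∀ L₀, ∃ L, L₀ ≤ L ∧ ∃ (F : Fin r → LFamily α L d) (B : (Fin r → Prop) → Prop),
      (∀ k, (F k).TreeWidthLE p) ∧ ∀ x : Fin L → α, B (fun k => UniquePM ((F k).graph x)) ↔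
        χ (List.ofFn fun i => f (x i)).prod) :
    ∃ (H : Subgroup (Fin r → Equiv.Perm (Fin p))) (φ : H →* G), Surjective φ := by
  classical
  have key : ∀ q, 0 < q → p ≤ q →
      ∃ (H : Subgroup (Fin r → Equiv.Perm (Fin q))) (φ : H →* G), Surjective φ := by
    intro q hq hpq
    refine group_bound f c1 hc1 hgen χ hχ hq ?_
    intro L₀
    obtain ⟨N, hN⟩ := LFamily.reduce q d (L₀ + 1) r (Nat.succ_pos _)
    obtain ⟨L, hL, F, B, hF, hx⟩ := h N
    obtain ⟨P, hP, F', hF', hU⟩ := hN L hL α c1 F (fun k => (hF k).mono hpq)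
    refine ⟨L₀ + 1, Nat.le_succ _, F', B, hF', ?_⟩
    intro y
    have h1 : (fun k => UniquePM ((F' k).graph y)) =
        fun k => UniquePM ((F k).graph (ext P hP c1 y)) := by
      funext k
      exact propext (hU k y)
    rw [h1, hx, prod_ext P hP c1 f hc1 y]
  rcases Nat.eq_zero_or_pos p with h0 | h0
  · exfalso
    subst h0
    obtain ⟨H, φ, hφ⟩ := key 1 Nat.one_pos (Nat.zero_le _)
    obtain ⟨g, hg⟩ := exists_ne (1 : G)
    obtain ⟨a, rfl⟩ := hφ g
    apply hg
    have : a = 1 := Subtype.ext (Subsingleton.elim _ _)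
    rw [this, map_one]
  · exact key p h0 le_rfl

/-- **Lower bound over the field with two elements.** -/
theorem general_F2 {w : ℕ} (hw : 2 ≤ w) {p : ℕ} (hp : p < 2 ^ (w - 1)) (r d : ℕ) :
    ∃ L₀, ∀ L, L₀ ≤ L → ∀ F : Fin r → LFamily (Matrix (Fin w) (Fin w) (ZMod 2)) L d,
      (∀ k, (F k).TreeWidthLE p) → ∀ (B : (Fin r → Prop) → Prop) (s t : Fin w) (c : ZMod 2),
      ∃ x : Fin L → Matrix (Fin w) (Fin w) (ZMod 2), (∀ i, Elem (x i)) ∧
        ¬ (B (fun k => UniquePM ((F k).graph x)) ↔ (List.ofFn x).prod s t = c) := by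
  classical
  choose m hm using fun q : Fin w × Fin w × ZMod 2 => lower_F2 hw hp r q.1 q.2.1 q.2.2
  set M := Finset.univ.sup m + 1 with hM
  obtain ⟨N, hN⟩ := LFamily.reduce p d M r (Nat.succ_pos _)
  refine ⟨N, ?_⟩
  intro L hL F hF B s t c
  obtain ⟨P, hP, F', hF', hU⟩ := hN L hL _ (1 : Matrix (Fin w) (Fin w) (ZMod 2)) F hF
  obtain ⟨y, hy, hB⟩ := hm (s, t, c) M
    ((Finset.le_sup (f := m) (Finset.mem_univ (s, t, c))).trans (Nat.le_succ _)) F' hF' B
  refine ⟨ext P hP 1 y, ?_, ?_⟩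
  · intro i
    by_cases hi : i ∈ P
    · obtain ⟨j, rfl⟩ := (mem_iff_emb P hP i).1 hi
      rw [ext_emb]
      exact hy j
    · rw [ext_not _ _ _ _ hi]
      exact Or.inl rfl
  · have h1 : (fun k => UniquePM ((F' k).graph y)) =
        fun k => UniquePM ((F k).graph (ext P hP 1 y)) := by
      funext k
      exact propext (hU k y)
    have h2 : (List.ofFn (ext P hP 1 y)).prod = (List.ofFn y).prod :=
      prod_ext P hP 1 (fun M : Matrix (Fin w) (Fin w) (ZMod 2) => M) rfl y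
    rw [h1] at hB
    rw [h2]
    exact hB

/-- **Lower bound over the integers, with individual tree layouts.** -/
theorem general_int {w : ℕ} (hw : 2 ≤ w) (p r d : ℕ) :
    ∃ L₀, ∀ L, L₀ ≤ L → ∀ F : Fin r → LFamily (Matrix (Fin w) (Fin w) ℤ) L d,
      (∀ k, (F k).TreeWidthLE p) → ∀ (B : (Fin r → Prop) → Prop) (s t : Fin w),
      ∃ x : Fin L → Matrix (Fin w) (Fin w) ℤ, (∀ i, Small (x i)) ∧
        ¬ (B (fun k => UniquePM ((F k).graph x)) ↔ (List.ofFn x).prod s t = 0) := by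
  classical
  set q := p + 1 with hq
  set M := 8 * r * (q + 2) ^ 3 + 5 with hM
  obtain ⟨N, hN⟩ := LFamily.reduce q d M r (by omega)
  refine ⟨N, ?_⟩
  intro L hL F hF B s t
  obtain ⟨P, hP, F', hF', hU⟩ := hN L hL _ (1 : Matrix (Fin w) (Fin w) ℤ) F
    (fun k => (hF k).mono (Nat.le_succ _))
  obtain ⟨y, hy, hB⟩ := lower_int hw (p := q) (by omega) r le_rfl s t F' hF' B
  refine ⟨ext P hP 1 y, ?_, ?_⟩
  · intro i
    by_cases hi : i ∈ P
    · obtain ⟨j, rfl⟩ := (mem_iff_emb P hP i).1 hi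
      rw [ext_emb]
      exact hy j
    · rw [ext_not _ _ _ _ hi]
      exact small_one
  · have h1 : (fun k => UniquePM ((F' k).graph y)) =
        fun k => UniquePM ((F k).graph (ext P hP 1 y)) := by
      funext k
      exact propext (hU k y)
    have h2 : (List.ofFn (ext P hP 1 y)).prod = (List.ofFn y).prod :=
      prod_ext P hP 1 (fun M : Matrix (Fin w) (Fin w) ℤ => M) rfl y
    rw [h1] at hB
    rw [h2]
    exact hB

/-- **Lower bound over the integers, with a common tree layout.** -/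
theorem general_int_tree {w : ℕ} (hw : 2 ≤ w) {p r d L : ℕ}
    (hL : 30 * (r * (d + 1) + 1) * (p + 3) ^ 3 ≤ L)
    (F : Fin r → LFamily (Matrix (Fin w) (Fin w) ℤ) L d)
    (hF : ∃ lay : Layout L, lay.pos = Finset.univ ∧
      ∀ j, lay.All (fun S => ((F j).bd S).ncard ≤ p)) (B : (Fin r → Prop) → Prop) (s t : Fin w) :
    ∃ x : Fin L → Matrix (Fin w) (Fin w) ℤ, (∀ i, Small (x i)) ∧
      ¬ (B (fun k => UniquePM ((F k).graph x)) ↔ (List.ofFn x).prod s t = 0) := by
  obtain ⟨lay, h1, h2⟩ := hF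
  refine lower_int_tree hw (p := p + 1) (Nat.succ_pos _) ?_ s t F lay h1
    (fun j => (h2 j).imp (fun S hS => hS.trans (Nat.le_succ _))) B
  refine le_trans ?_ hL
  have e1 : 30 * (r * (d + 1) + 1) * (p + 3) ^ 3 =
      24 * r * (p + 1 + 2) ^ 3 + 6 * r * (p + 3) ^ 3 + 30 * (r * d) * (p + 3) ^ 3 +
        30 * (p + 3) ^ 3 := by ring
  have e2 : 6 * r * ((p + 1) * (p + 1) * d) ≤ 30 * (r * d) * (p + 3) ^ 3 := by
    have h3 : (p + 1) * (p + 1) ≤ (p + 3) ^ 3 := by nlinarith [Nat.zero_le p]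
    calc 6 * r * ((p + 1) * (p + 1) * d) = 6 * (r * d) * ((p + 1) * (p + 1)) := by ring
      _ ≤ 30 * (r * d) * (p + 3) ^ 3 := Nat.mul_le_mul (Nat.mul_le_mul_right _ (by norm_num)) h3
  have e3 : 20 ≤ 30 * (p + 3) ^ 3 := by
    have : 3 ^ 3 ≤ (p + 3) ^ 3 := Nat.pow_le_pow_left (by omega) 3
    omega
  have e4 : 0 ≤ 6 * r * (p + 3) ^ 3 := Nat.zero_le _
  omega

end H54.UPM
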