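import Pool.Agent.H54.UPM.IntRead2

/-!
# Word problems of sections of powers of symmetric groups
-/

namespace H54.UPM

open Function

/-- The value of a product of permutations is tested by a family of width `p`. -/
theorem perm_family {α : Type} {p L : ℕ} (hL : 0 < L) (σ : α → Equiv.Perm (Fin p))
    (a b : Fin p) : ∃ F : GFamily α L 1, (F.WidthLE p ∧ ∀ i, F.times i = 1) ∧
      ∀ x : Fin L → α, UniquePM (F.graph x) ↔ (List.ofFn fun i => σ (x i)).prod a = b := by
  obtain ⟨F, h1, h2⟩ := upper_unique_path hL b a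
  refine ⟨(F.comap (fun c => permRel (σ c)⁻¹)).toG,
    ⟨Family.toG_width (F.comap_widthLE _ h1), fun i => Family.toG_times _ i⟩, ?_⟩
  intro x
  have h3 := h2 (fun i => permRel (σ (x i))⁻¹)
  rw [walk_exists_unique (fun i => (σ (x i))⁻¹), walk_perm] at h3
  simp only [inv_inv] at h3
  exact h3

/-- **Sections of powers of the symmetric group of degree `p`.** -/
theorem section_families {G : Type} [Group G] {p r : ℕ} (h : IsSection G r p) :
    ∃ R : ℕ, Determined G R p := by
  classical
  obtain ⟨H, φ, hφ⟩ := h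
  choose lift hlift using hφ
  let e : Fin (Fintype.card (Fin r × Fin p × Fin p)) ≃ Fin r × Fin p × Fin p :=
    (Fintype.equivFin _).symm
  refine ⟨Fintype.card (Fin r × Fin p × Fin p), ?_⟩
  intro L hL
  choose F hF1 hF2 using fun q : Fin r × Fin p × Fin p =>
    perm_family hL (fun g : G => (lift g : Fin r → Equiv.Perm (Fin p)) q.1) q.2.1 q.2.2
  refine ⟨fun j => F (e j), fun Φ => if hΦ : ∃ P : H, ∀ q : Fin r × Fin p × Fin p,
    (Φ (e.symm q) ↔ (P : Fin r → Equiv.Perm (Fin p)) q.1 q.2.1 = q.2.2) then φ hΦ.choose else 1,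
    fun j => hF1 _, ?_⟩
  intro x
  have hP : ∀ q : Fin r × Fin p × Fin p, (UniquePM ((F (e (e.symm q))).graph x) ↔
      (((List.ofFn fun i => lift (x i)).prod : H) : Fin r → Equiv.Perm (Fin p)) q.1 q.2.1 =
        q.2.2) := by
    intro q
    rw [e.apply_symm_apply, hF2]
    have h1 : (List.ofFn fun i => (lift (x i) : Fin r → Equiv.Perm (Fin p)) q.1).prod =
        (((List.ofFn fun i => lift (x i)).prod : H) : Fin r → Equiv.Perm (Fin p)) q.1 := by
      rw [Subgroup.val_list_prod, List.map_ofFn]
      have h2 := map_list_prod (Pi.evalMonoidHom (fun _ : Fin r => Equiv.Perm (Fin p)) q.1)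
        (List.ofFn (Subtype.val ∘ fun i => lift (x i)))
      rw [List.map_ofFn] at h2
      exact h2.symm
    rw [h1]
  have hex : ∃ P : H, ∀ q : Fin r × Fin p × Fin p,
      (UniquePM ((F (e (e.symm q))).graph x) ↔
        (P : Fin r → Equiv.Perm (Fin p)) q.1 q.2.1 = q.2.2) := ⟨_, hP⟩
  simp only
  rw [dif_pos hex]
  have huniq : hex.choose = (List.ofFn fun i => lift (x i)).prod := by
    apply Subtype.ext
    funext j
    apply Equiv.ext
    intro a
    have h1 := (hex.choose_spec (j, a, (hex.choose : Fin r → Equiv.Perm (Fin p)) j a)).2 rfl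
    exact ((hP _).1 h1).symm
  rw [huniq, map_list_prod, List.map_ofFn]
  congr 2
  funext i
  exact hlift (x i)

end H54.UPM
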