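import Mathlib

/-!
# Sections of permutation groups and subgroups of small index
-/

namespace H54.UPM

open Function

/-- If a nontrivial group `G` is a quotient of a group `H` of permutations of `Ω` with orbits of
size at most `n`, then `G` has a proper subgroup of index at most `n`. -/
theorem exists_proper_subgroup {H G Ω : Type} [Group H] [Group G] [Fintype Ω] [Nontrivial G]
    (ρ : H →* Equiv.Perm Ω) (hρ : Injective ρ) (ψ : H →* G) (hψ : Surjective ψ) (n : ℕ)
    (horb : ∀ x : Ω, ∃ s : Finset Ω, s.card ≤ n ∧ ∀ h, ρ h x ∈ s) :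
    ∃ K : Subgroup G, K ≠ ⊤ ∧ Finite (G ⧸ K) ∧ Nat.card (G ⧸ K) ≤ n := by
  classical
  let stab : Finset Ω → Subgroup H := fun Δ =>
    { carrier := {h | ∀ x ∈ Δ, ρ h x = x}
      mul_mem' := by
        intro a b ha hb x hx
        rw [map_mul, Equiv.Perm.mul_apply, hb x hx, ha x hx]
      one_mem' := by intro x _; simp
      inv_mem' := by
        intro a ha x hx
        rw [map_inv, Equiv.Perm.inv_eq_iff_eq]
        exact (ha x hx).symm }
  have hmem : ∀ Δ h, h ∈ stab Δ ↔ ∀ x ∈ Δ, ρ h x = x := fun _ _ => Iff.rfl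
  obtain ⟨Δ, hΔ, hmax⟩ : ∃ Δ, (stab Δ).map ψ = ⊤ ∧ ∀ Δ', (stab Δ').map ψ = ⊤ → Δ'.card ≤ Δ.card := by
    have h0 : (stab ∅).map ψ = ⊤ := by
      rw [eq_top_iff]
      intro g _
      obtain ⟨h, rfl⟩ := hψ g
      exact ⟨h, by simp [hmem], rfl⟩
    obtain ⟨Δ, h1, h2⟩ := Finset.exists_max_image
      (Finset.univ.filter (fun Δ : Finset Ω => (stab Δ).map ψ = ⊤)) Finset.card
      ⟨∅, by simpa using h0⟩
    exact ⟨Δ, by simpa using h1, fun Δ' h => h2 Δ' (by simpa using h)⟩
  have hne : ∃ x, x ∉ Δ := by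
    by_contra hcon
    push Not at hcon
    obtain ⟨g, hg⟩ := exists_ne (1 : G)
    have : g ∈ (stab Δ).map ψ := by rw [hΔ]; trivial
    obtain ⟨h, hh, rfl⟩ := this
    apply hg
    have : ρ h = 1 := by
      ext x
      exact hh x (hcon x)
    have : h = 1 := hρ (by rw [this, map_one])
    rw [this, map_one]
  obtain ⟨x, hx⟩ := hne
  have hK : (stab (insert x Δ)).map ψ ≠ ⊤ := by
    intro h
    have := hmax _ h
    rw [Finset.card_insert_of_notMem hx] at this
    omega
  have hlift : ∀ g : G, ∃ h ∈ stab Δ, ψ h = g := by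
    intro g
    have : g ∈ (stab Δ).map ψ := by rw [hΔ]; trivial
    exact this
  choose s hs hsψ using hlift
  have hinj : Injective (fun q : G ⧸ (stab (insert x Δ)).map ψ => ρ (s q.out) x) := by
    intro q q' h
    have h : ρ (s q.out) x = ρ (s q'.out) x := h
    rw [← QuotientGroup.out_eq' q, ← QuotientGroup.out_eq' q', QuotientGroup.eq]
    refine ⟨(s q.out)⁻¹ * s q'.out, ?_, ?_⟩
    · intro z hz
      rw [map_mul, map_inv, Equiv.Perm.mul_apply, Equiv.Perm.inv_eq_iff_eq]
      rcases Finset.mem_insert.1 hz with rfl | hz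
      · exact h.symm
      · rw [hs q'.out z hz, hs q.out z hz]
    · rw [map_mul, map_inv, hsψ, hsψ]
  have hfin : Finite (G ⧸ (stab (insert x Δ)).map ψ) := Finite.of_injective _ hinj
  refine ⟨_, hK, hfin, ?_⟩
  obtain ⟨t, ht, hmt⟩ := horb x
  refine le_trans ?_ ht
  rw [← Fintype.card_coe t, ← Nat.card_eq_fintype_card]
  exact Nat.card_le_card_of_injective (fun q => (⟨ρ (s q.out) x, hmt _⟩ : t))
    (fun q q' h => hinj (congrArg Subtype.val h))

/-- Burnside: if all nonidentity elements of a finite subgroup `V` are conjugate in `G`, then `V`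
acts trivially on every `G`-set with fewer than `|V|` points. -/
theorem trivial_of_small {G X : Type} [Group G] [MulAction G X] [Fintype X] (V : Subgroup G)
    [Fintype V] (hV : ∀ a b : G, a ∈ V → b ∈ V → a ≠ 1 → b ≠ 1 → IsConj a b)
    (hcard : Fintype.card X < Fintype.card V) : ∀ v ∈ V, ∀ x : X, v • x = x := by
  classical
  have hfix : ∀ a b : G, IsConj a b →
      Nat.card {x : X // a • x = x} = Nat.card {x : X // b • x = x} := by
    intro a b hab
    obtain ⟨c, hc⟩ := isConj_iff.1 hab
    apply Nat.card_congr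
    refine ⟨fun x => ⟨c • x.1, ?_⟩, fun x => ⟨c⁻¹ • x.1, ?_⟩, ?_, ?_⟩
    · rw [← hc, mul_smul, mul_smul, inv_smul_smul, x.2]
    · have h1 : a = c⁻¹ * b * c := by rw [← hc]; group
      rw [h1, mul_smul, mul_smul, smul_inv_smul, x.2]
    · intro x; simp
    · intro x; simp
  by_contra hcon
  push Not at hcon
  obtain ⟨v, hv, x0, hx0⟩ := hcon
  have hv1 : v ≠ 1 := by rintro rfl; simp at hx0
  have hb := MulAction.sum_card_fixedBy_eq_card_orbits_mul_card_group V X
  -- all the nontrivial terms are equal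
  have hterm : ∀ w : V, w ≠ 1 → Fintype.card (MulAction.fixedBy X w) =
      Nat.card {x : X // v • x = x} := by
    intro w hw
    have h1 : IsConj (w : G) v := hV _ _ w.2 hv (fun h => hw (Subtype.ext h)) hv1
    rw [← hfix _ _ h1, ← Nat.card_eq_fintype_card]
    rfl
  have hone : Fintype.card (MulAction.fixedBy X (1 : V)) = Fintype.card X := by
    rw [Fintype.card_congr (Equiv.subtypeUnivEquiv (fun x => ?_))]
    simp
  rw [← Finset.add_sum_erase _ _ (Finset.mem_univ (1 : V)), hone,
    Finset.sum_congr rfl (fun w hw => hterm w (Finset.ne_of_mem_erase hw)), Finset.sum_const,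
    Finset.card_erase_of_mem (Finset.mem_univ _), Finset.card_univ, smul_eq_mul] at hb
  have hlt : Nat.card {x : X // v • x = x} < Fintype.card X := by
    rw [Nat.card_eq_fintype_card]
    exact Fintype.card_subtype_lt (x := x0) hx0
  set φ := Nat.card {x : X // v • x = x}
  set d := Fintype.card X
  set n := Fintype.card (Quotient (MulAction.orbitRel V X))
  set c := Fintype.card V
  have hc : 0 < c := by omega
  -- d + (c - 1) φ = n c
  have h1 : d - φ + c * φ = n * c := by
    have h2 : (c - 1) * φ + φ = c * φ := by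
      have : c = (c - 1) + 1 := by omega
      conv_rhs => rw [this, add_mul, one_mul]
    omega
  have h3 : c ∣ d - φ := by
    have h4 : c ∣ d - φ + c * φ := by rw [h1]; exact Dvd.intro_left n rfl
    exact (Nat.dvd_add_left (Dvd.intro φ rfl)).1 h4
  have h5 := Nat.le_of_dvd (by omega) h3
  omega

end H54.UPM
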