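import Pool.Agent.H54.UPM.Chain
import Pool.Agent.H54.UPM.Ramsey
import Pool.Agent.H54.UPM.Core

/-!
# From position dependent gadgets to uniform gadgets
-/

namespace H54.UPM

open Function Matrix

section

variable {α N : Type} [Monoid N] (M : ℕ → α → N) (c1 : α)

/-- The value of the segment `i, …, j - 1` on the input `g c1 c1 … c1`. -/
def colr (i j : ℕ) (g : α) : N := M i g * prodM M (fun _ => c1) (i + 1) (j - (i + 1))

/-- The input with the letters `gs` at the positions `ps` and `c1` elsewhere. -/
def inp : List ℕ → List α → ℕ → α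
  | i :: is, g :: gs => Function.update (inp is gs) i g
  | _, _ => fun _ => c1

theorem inp_lt : ∀ (ps : List ℕ) (gs : List α) (k : ℕ), (∀ a ∈ ps, k < a) → inp c1 ps gs k = c1
  | [], _, _, _ => rfl
  | _ :: _, [], _, _ => rfl
  | i :: is, g :: gs, k, h => by
    rw [inp, Function.update_of_ne (by have := h i (by simp); omega)]
    exact inp_lt is gs k (fun a ha => h a (List.mem_cons_of_mem _ ha))

theorem le_getLast {i : ℕ} {rest : List ℕ} (h : (i :: rest).Pairwise (· < ·)) :
    ∀ a ∈ (i :: rest), a ≤ (i :: rest).getLast (by simp) := by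
  induction rest generalizing i with
  | nil => simp
  | cons j rest ih =>
    intro a ha
    rw [List.getLast_cons (by simp)]
    have h1 := List.pairwise_cons.1 h
    rcases List.mem_cons.1 ha with rfl | ha
    · exact (h1.1 j (by simp)).le.trans (ih h1.2 j (by simp))
    · exact ih h1.2 a ha

theorem inp_ge : ∀ (gs : List α) (i : ℕ) (rest : List ℕ) (k : ℕ),
    (i :: rest).Pairwise (· < ·) → gs.length = rest.length →
    (i :: rest).getLast (by simp) ≤ k → inp c1 (i :: rest) gs k = c1 := by
  intro gs
  induction gs with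
  | nil => intro i rest k _ _ _; rfl
  | cons g gs ih =>
    intro i rest k h1 h2 h3
    rcases rest with _ | ⟨j, rest⟩
    · simp at h2
    · rw [List.getLast_cons (by simp)] at h3
      have h4 := List.pairwise_cons.1 h1
      have h5 := le_getLast h4.2 j (by simp)
      have h6 := h4.1 j (by simp)
      rw [inp, Function.update_of_ne (by omega)]
      exact ih j rest k h4.2 (by simpa using h2) h3

variable {M c1}

theorem hom_word (s : α → N) : ∀ (gs : List α) (i : ℕ) (rest : List ℕ),
    (i :: rest).Pairwise (fun a b => a < b ∧ colr M c1 a b = s) → gs.length = rest.length →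
    prodM M (inp c1 (i :: rest) gs) i ((i :: rest).getLast (by simp) - i) = (gs.map s).prod := by
  intro gs
  induction gs with
  | nil =>
    intro i rest h1 h2
    have : rest = [] := List.length_eq_zero_iff.1 (by simpa using h2.symm)
    subst this
    simp [prodM]
  | cons g gs ih =>
    intro i rest h1 h2
    rcases rest with _ | ⟨j, rest⟩
    · simp at h2
    · have h4 := List.pairwise_cons.1 h1
      have hlt : (j :: rest).Pairwise (· < ·) := h4.2.imp (fun h => h.1)
      have h5 := le_getLast hlt j (by simp)
      obtain ⟨h6, h7⟩ := h4.1 j (by simp)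
      have h8 := ih j rest h4.2 (by simpa using h2)
      rw [List.getLast_cons (by simp)]
      set lst := (j :: rest).getLast (by simp) with hlst
      have e1 : lst - i = (1 + (j - (i + 1))) + (lst - j) := by omega
      have e2 : i + (1 + (j - (i + 1))) = j := by omega
      rw [e1, prodM_add, e2, prodM_add]
      have p1 : prodM M (inp c1 (i :: j :: rest) (g :: gs)) i 1 = M i g := by
        rw [prodM, prodM, one_mul, add_zero, inp, Function.update_self]
      have p2 : prodM M (inp c1 (i :: j :: rest) (g :: gs)) (i + 1) (j - (i + 1)) =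
          prodM M (fun _ => c1) (i + 1) (j - (i + 1)) := by
        apply prodM_congr
        intro k hk1 hk2
        rw [inp, Function.update_of_ne (by omega)]
        apply inp_lt
        intro a ha
        rcases List.mem_cons.1 ha with rfl | ha
        · omega
        · have := (List.pairwise_cons.1 hlt).1 a ha
          omega
      have p3 : prodM M (inp c1 (i :: j :: rest) (g :: gs)) j (lst - j) = (gs.map s).prod := by
        rw [← h8]
        apply prodM_congr
        intro k hk1 hk2
        rw [inp, Function.update_of_ne (by omega)]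
      rw [p1, p2, p3, List.map_cons, List.prod_cons, ← h7]
      rfl

theorem hom_full (s : α → N) (gs : List α) (i : ℕ) (rest : List ℕ)
    (h1 : (i :: rest).Pairwise (fun a b => a < b ∧ colr M c1 a b = s))
    (h2 : gs.length = rest.length) {L : ℕ} (hL : (i :: rest).getLast (by simp) < L) :
    prodM M (inp c1 (i :: rest) gs) 0 L =
      prodM M (fun _ => c1) 0 i * (gs.map s).prod *
        prodM M (fun _ => c1) ((i :: rest).getLast (by simp))
          (L - (i :: rest).getLast (by simp)) := by
  have hlt : (i :: rest).Pairwise (· < ·) := h1.imp (fun h => h.1)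
  have h3 := hom_word s gs i rest h1 h2
  have h4 := le_getLast hlt i (by simp)
  set lst := (i :: rest).getLast (by simp) with hlst
  have e1 : L = i + (lst - i) + (L - lst) := by omega
  have e2 : 0 + (i + (lst - i)) = lst := by omega
  conv_lhs => rw [e1, prodM_add, e2, prodM_add, Nat.zero_add, h3]
  congr 1
  · congr 1
    apply prodM_congr
    intro k _ hk
    apply inp_lt
    intro a ha
    rcases List.mem_cons.1 ha with rfl | ha
    · omega
    · have := (List.pairwise_cons.1 hlt).1 a ha
      omega
  · apply prodM_congr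
    intro k hk _
    exact inp_ge c1 gs i rest k hlt h2 hk

/-- Absorption of the letter `c1`. -/
theorem colr_absorb (s : α → N) {i j k : ℕ} {rest : List ℕ}
    (h1 : (i :: j :: k :: rest).Pairwise (fun a b => a < b ∧ colr M c1 a b = s)) (g : α) :
    s g * s c1 = s g := by
  have h2 := List.pairwise_cons.1 h1
  have h3 := List.pairwise_cons.1 h2.2
  obtain ⟨a1, a2⟩ := h2.1 j (by simp)
  obtain ⟨a3, a4⟩ := h2.1 k (by simp)
  obtain ⟨a5, a6⟩ := h3.1 k (by simp)
  have e1 : s g = colr M c1 i k g := by rw [a4]
  have e2 : s g = colr M c1 i j g := by rw [a2]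
  have e3 : s c1 = colr M c1 j k c1 := by rw [a6]
  have e4 : prodM M (fun _ => c1) (i + 1) (k - (i + 1)) =
      prodM M (fun _ => c1) (i + 1) (j - (i + 1)) * (M j c1 *
        prodM M (fun _ => c1) (j + 1) (k - (j + 1))) := by
    have h5 : k - (i + 1) = (j - (i + 1)) + (1 + (k - (j + 1))) := by omega
    have h6 : i + 1 + (j - (i + 1)) = j := by omega
    rw [h5, prodM_add, h6, prodM_add]
    congr 2
    rw [prodM, prodM, one_mul, add_zero]
  calc s g * s c1 = colr M c1 i j g * colr M c1 j k c1 := by rw [← e2, ← e3]
    _ = colr M c1 i k g := by rw [colr, colr, colr, e4, mul_assoc]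
    _ = s g := e1.symm

end

theorem prod_ofFn {α G : Type} [Monoid G] (f : α → G) (x : ℕ → α) (L : ℕ) :
    (List.ofFn (fun i : Fin L => f (x i))).prod = prodM (fun _ c => f c) x 0 L := by
  induction L with
  | zero => simp [prodM]
  | succ L ih =>
    rw [List.ofFn_succ', List.concat_eq_append, List.prod_append, prodM, ← ih]
    simp

theorem prodM_one {α G : Type} [Monoid G] (f : α → G) (c1 : α) (h : f c1 = 1) (i n : ℕ) :
    prodM (fun _ c => f c) (fun _ => c1) i n = 1 := by
  induction n with
  | zero => rfl
  | succ n ih => rw [prodM, ih, h, one_mul]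

theorem isGad_prodM {α : Type} {p : ℕ}
    {M : ℕ → α → Matrix (Finset (Fin p)) (Finset (Fin p)) T3} (h : ∀ k c, IsGad (M k c))
    (x : ℕ → α) (i n : ℕ) : IsGad (prodM M x i n) := by
  induction n with
  | zero => exact IsGad.one
  | succ n ih => exact ih.mul (h _ _)

/-- Data of a uniform test: gadgets, boundary vectors and the Boolean combination. -/
abbrev TData (α : Type) (r p : ℕ) : Type :=
  (Fin r → α → Matrix (Finset (Fin p)) (Finset (Fin p)) T3) ×
    (Fin r → Finset (Fin p) → T3) × (Fin r → Finset (Fin p) → T3) × ((Fin r → Prop) → Prop)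

/-- Words, tested up to length `m`. -/
def Good {α G : Type} [Group G] (f : α → G) (χ : G → Prop) {r p : ℕ} (m : ℕ)
    (d : TData α r p) : Prop :=
  (∀ k c, IsGad (d.1 k c)) ∧ ∀ w : List α, w ≠ [] → w.length ≤ m →
    (d.2.2.2 (fun k => d.2.1 k ⬝ᵥ ((w.map (d.1 k)).prod *ᵥ d.2.2.1 k) = 1) ↔ χ (w.map f).prod)

instance {α : Type} [Finite α] (r p : ℕ) : Finite (TData α r p) := by
  have : Finite (Matrix (Finset (Fin p)) (Finset (Fin p)) T3) := by
    show Finite (Finset (Fin p) → Finset (Fin p) → T3)
    infer_instance
  infer_instance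

theorem exists_good {α G : Type} [Finite α] [Group G] (f : α → G) (c1 : α) (hc1 : f c1 = 1)
    (χ : G → Prop) {r p : ℕ} (hp : 0 < p)
    (h : ∀ L₀, ∃ L, L₀ ≤ L ∧ ∃ (F : Fin r → Family α L) (B : (Fin r → Prop) → Prop),
      (∀ k, (F k).WidthLE p) ∧ ∀ x : Fin L → α, B (fun k => UniquePM ((F k).graph x)) ↔
        χ (List.ofFn fun i => f (x i)).prod) (m : ℕ) :
    ∃ d : TData α r p, Good f χ m d := by
  classical
  have : Finite (Matrix (Finset (Fin p)) (Finset (Fin p)) T3) := by
    show Finite (Finset (Fin p) → Finset (Fin p) → T3)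
    infer_instance
  obtain ⟨N, hN⟩ := ramsey (C := Fin r → α → Matrix (Finset (Fin p)) (Finset (Fin p)) T3) (m + 3)
  obtain ⟨L, hL, F, B, hF, hacc⟩ := h (N + 1)
  choose M hM hU using fun k => (F k).transfer (by omega) hp (hF k)
  obtain ⟨s, l, hl, hlS, hlP0⟩ := hN (fun a b k => colr (M k) c1 a b) (Finset.range L) (by
    rw [Finset.card_range]; omega)
  obtain ⟨i, j, k, rest, rfl⟩ : ∃ i j k rest, l = i :: j :: k :: rest := by
    rcases l with _ | ⟨i, _ | ⟨j, _ | ⟨k, rest⟩⟩⟩
    · simp at hl
    · simp at hl
    · simp at hl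
    · exact ⟨i, j, k, rest, rfl⟩
  have hlP : ∀ t, (i :: j :: k :: rest).Pairwise
      (fun a b => a < b ∧ colr (M t) c1 a b = s t) := by
    intro t
    refine hlP0.imp ?_
    intro a b hab
    exact ⟨hab.1, congrFun hab.2 t⟩
  have hgad : ∀ t c, IsGad (s t c) := by
    intro t c
    obtain ⟨-, h2⟩ := (List.pairwise_cons.1 (hlP t)).1 j (by simp)
    rw [← h2]
    exact (hM t _ _).mul (isGad_prodM (hM t) _ _ _)
  have habs : ∀ t g, s t g * s t c1 = s t g := fun t g => colr_absorb (s t) (hlP t) g
  set lst := (i :: j :: k :: rest).getLast (by simp) with hlst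
  have hlstL : lst < L := by
    have := hlS lst (List.getLast_mem _)
    simpa using this
  refine ⟨(s, fun t T => prodM (M t) (fun _ => c1) 0 i Finset.univ T,
    fun t T => prodM (M t) (fun _ => c1) lst (L - lst) T Finset.univ, B), hgad, ?_⟩
  intro w hw hwm
  simp only
  set gs := w ++ List.replicate (m + 2 - w.length) c1 with hgs
  have hgl : gs.length = (j :: k :: rest).length := by
    rw [hgs, List.length_append, List.length_replicate]
    simp only [List.length_cons] at hl ⊢
    omega
  set x := inp c1 (i :: j :: k :: rest) gs with hx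
  have hrep : ∀ t n, ∀ g, s t g * (List.replicate n (s t c1)).prod = s t g := by
    intro t n g
    induction n with
    | zero => simp
    | succ n ih => rw [List.replicate_succ, List.prod_cons, ← mul_assoc, habs, ih]
  have hws : ∀ t, (gs.map (s t)).prod = (w.map (s t)).prod := by
    intro t
    rw [hgs, List.map_append, List.prod_append, List.map_replicate]
    obtain ⟨w', g, rfl⟩ : ∃ w' g, w = w' ++ [g] :=
      ⟨w.dropLast, w.getLast hw, (List.dropLast_append_getLast hw).symm⟩
    rw [List.map_append, List.prod_append, List.map_singleton, List.prod_singleton, mul_assoc,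
      hrep]
  have hwf : (gs.map f).prod = (w.map f).prod := by
    rw [hgs, List.map_append, List.prod_append, List.map_replicate, hc1]
    simp
  have h1 : ∀ t, UniquePM ((F t).graph fun i => x i) ↔
      (fun T => prodM (M t) (fun _ => c1) 0 i Finset.univ T) ⬝ᵥ ((w.map (s t)).prod *ᵥ
        fun T => prodM (M t) (fun _ => c1) lst (L - lst) T Finset.univ) = 1 := by
    intro t
    rw [hU t x, hom_full (s t) gs i _ (hlP t) hgl hlstL, hws, Matrix.mul_assoc, Matrix.mul_apply]
    rfl
  have h2 := hacc (fun i => x i)
  have hlP' : (i :: j :: k :: rest).Pairwise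
      (fun a b => a < b ∧ colr (fun (_ : ℕ) (c : α) => f c) c1 a b = f) := by
    refine hlP0.imp ?_
    intro a b hab
    refine ⟨hab.1, ?_⟩
    funext g
    rw [colr, prodM_one f c1 hc1, mul_one]
  rw [prod_ofFn f x L, hom_full f gs i _ hlP' hgl hlstL, prodM_one f c1 hc1,
    prodM_one f c1 hc1, one_mul, mul_one, hwf] at h2
  rw [← h2]
  have h3 : (fun t => UniquePM ((F t).graph fun i => x i)) = (fun t =>
      (fun T => prodM (M t) (fun _ => c1) 0 i Finset.univ T) ⬝ᵥ ((w.map (s t)).prod *ᵥ
        fun T => prodM (M t) (fun _ => c1) lst (L - lst) T Finset.univ) = 1) := by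
    funext t
    exact propext (h1 t)
  rw [h3]

/-- **The general bound.** If for arbitrarily large `L` there are `r` families of bipartite graphs of
width at most `p` and a Boolean combination deciding, through the uniqueness of the perfect
matchings, a property of products of `L` elements of the finite nontrivial group `G`, and the
property separates the elements of `G`, then `G` is a quotient of a subgroup of the `r`-th power of
the symmetric group of degree `p`. -/
theorem group_bound {α G : Type} [Finite α] [Group G] [Finite G] [Nontrivial G] (f : α → G)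
    (c1 : α) (hc1 : f c1 = 1) (hgen : ∀ g, ∃ l : List α, (l.map f).prod = g) (χ : G → Prop)
    (hχ : ∀ g g', (∀ a b, χ (a * g * b) ↔ χ (a * g' * b)) → g = g') {r p : ℕ} (hp : 0 < p)
    (h : ∀ L₀, ∃ L, L₀ ≤ L ∧ ∃ (F : Fin r → Family α L) (B : (Fin r → Prop) → Prop),
      (∀ k, (F k).WidthLE p) ∧ ∀ x : Fin L → α, B (fun k => UniquePM ((F k).graph x)) ↔
        χ (List.ofFn fun i => f (x i)).prod) :
    ∃ (H : Subgroup (Fin r → Equiv.Perm (Fin p))) (φ : H →* G), Surjective φ := by
  classical
  have h1 := exists_good f c1 hc1 χ hp h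
  obtain ⟨d, hd⟩ : ∃ d : TData α r p, ∀ m, Good f χ m d := by
    by_contra hcon
    push Not at hcon
    choose md hmd using hcon
    have := Fintype.ofFinite (TData α r p)
    obtain ⟨d, h2, h3⟩ := h1 (Finset.univ.sup md)
    apply hmd d
    exact ⟨h2, fun w hw hwl => h3 w hw (hwl.trans (Finset.le_sup (Finset.mem_univ d)))⟩
  refine core f ?_ d.1 (hd 0).1 d.2.1 d.2.2.1 (fun v => d.2.2.2 (fun k => v k = 1)) χ hχ ?_
  · intro g
    obtain ⟨l, hl⟩ := hgen g
    exact ⟨c1 :: l, by simp, by simp [hc1, hl]⟩
  · intro w hw
    exact (hd w.length).2 w hw le_rfl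

end H54.UPM
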