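import Pool.Agent.H54.UPM.GGeneral

/-!
# Products of integer matrices and families which read the input several times
-/

namespace H54.UPM

open Function

/-- **A lowest subtree with many located positions.** -/
theorem GTree.descend {Γ ι : Type} [DecidableEq ι] (Q : Set Γ → Prop) {d x y : ℕ} (hx : 0 < x)
    (hy : 0 < y) (A B : Finset ι) (la lb : ι → Option Γ)
    (cA : Set Γ → ℕ) (cB : Set Γ → ℕ)
    (hcA : ∀ S, cA S = (Set.ncard {i | i ∈ A ∧ ∃ g ∈ S, la i = some g}))
    (hcB : ∀ S, cB S = (Set.ncard {i | i ∈ B ∧ ∃ g ∈ S, lb i = some g}))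
    (hA : ∀ g, cA {g} ≤ d) (hB : ∀ g, cB {g} ≤ d) :
    ∀ t : GTree Γ, t.All Q → (x ≤ cA t.gads ∨ y ≤ cB t.gads) →
      ∃ S, Q S ∧ ((x ≤ cA S ∧ cB S ≤ 2 * y + d) ∨ (y ≤ cB S ∧ cA S ≤ 2 * x + d)) := by
  have hfin : ∀ (C : Finset ι) (P : ι → Prop), {i | i ∈ C ∧ P i}.Finite := fun C P =>
    C.finite_toSet.subset (fun i hi => hi.1)
  have hunA : ∀ S S', cA (S ∪ S') ≤ cA S + cA S' := by
    intro S S'
    rw [hcA, hcA, hcA]
    refine (Set.ncard_le_ncard ?_ ((hfin _ _).union (hfin _ _))).trans (Set.ncard_union_le _ _)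
    rintro i ⟨h1, g, hg | hg, h2⟩
    · exact Or.inl ⟨h1, g, hg, h2⟩
    · exact Or.inr ⟨h1, g, hg, h2⟩
  have hunB : ∀ S S', cB (S ∪ S') ≤ cB S + cB S' := by
    intro S S'
    rw [hcB, hcB, hcB]
    refine (Set.ncard_le_ncard ?_ ((hfin _ _).union (hfin _ _))).trans (Set.ncard_union_le _ _)
    rintro i ⟨h1, g, hg | hg, h2⟩
    · exact Or.inl ⟨h1, g, hg, h2⟩
    · exact Or.inr ⟨h1, g, hg, h2⟩
  have hA0 : cA ∅ = 0 := by
    rw [hcA, Set.ncard_eq_zero (hfin _ _)]
    ext i
    exact ⟨fun ⟨_, g, hg, _⟩ => hg.elim, fun h => h.elim⟩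
  have hB0 : cB ∅ = 0 := by
    rw [hcB, Set.ncard_eq_zero (hfin _ _)]
    ext i
    exact ⟨fun ⟨_, g, hg, _⟩ => hg.elim, fun h => h.elim⟩
  have hoA : ∀ o : Option Γ, cA {g | o = some g} ≤ d := by
    intro o
    rcases o with _ | g
    · have : {g : Γ | none = some g} = ∅ := by
        ext g
        exact ⟨fun h => absurd h (by simp), fun h => h.elim⟩
      rw [this, hA0]
      exact Nat.zero_le _
    · have : {g' : Γ | some g = some g'} = {g} := by
        ext g'
        exact ⟨fun h => (Option.some_injective _ h).symm, fun h => congrArg some h.symm⟩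
      rw [this]
      exact hA g
  have hoB : ∀ o : Option Γ, cB {g | o = some g} ≤ d := by
    intro o
    rcases o with _ | g
    · have : {g : Γ | none = some g} = ∅ := by
        ext g
        exact ⟨fun h => absurd h (by simp), fun h => h.elim⟩
      rw [this, hB0]
      exact Nat.zero_le _
    · have : {g' : Γ | some g = some g'} = {g} := by
        ext g'
        exact ⟨fun h => (Option.some_injective _ h).symm, fun h => congrArg some h.symm⟩
      rw [this]
      exact hB g
  intro t
  induction t with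
  | nil =>
    rintro - (h | h)
    · rw [GTree.gads, hA0] at h; omega
    · rw [GTree.gads, hB0] at h; omega
  | node o l r ihl ihr =>
    rintro ⟨hQ, hQl, hQr⟩ h
    by_cases h1 : x ≤ cA l.gads ∨ y ≤ cB l.gads
    · exact ihl hQl h1
    by_cases h2 : x ≤ cA r.gads ∨ y ≤ cB r.gads
    · exact ihr hQr h2
    push Not at h1 h2
    have h3 : cA (GTree.gads (.node o l r)) ≤ d + (cA l.gads + cA r.gads) :=
      (hunA _ _).trans (Nat.add_le_add (hoA o) (hunA _ _))
    have h4 : cB (GTree.gads (.node o l r)) ≤ d + (cB l.gads + cB r.gads) :=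
      (hunB _ _).trans (Nat.add_le_add (hoB o) (hunB _ _))
    refine ⟨_, hQ, ?_⟩
    rcases h with h | h
    · exact Or.inl ⟨h, by omega⟩
    · exact Or.inr ⟨h, by omega⟩

/-- The set `T` separates the locations `la` of `A` from the locations `lb` of `B`. -/
def Sep {Γ : Type} {L : ℕ} (la lb : Fin L → Option Γ) (A B : Finset (Fin L)) (T : Set Γ) : Prop :=
  ((∀ i ∈ A, ∀ g, la i = some g → g ∈ T) ∧ (∀ i ∈ B, ∀ g, lb i = some g → g ∉ T)) ∨
    ((∀ i ∈ A, ∀ g, la i = some g → g ∉ T) ∧ (∀ i ∈ B, ∀ g, lb i = some g → g ∈ T))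

theorem Sep.mono {Γ : Type} {L : ℕ} {la lb : Fin L → Option Γ} {A B A' B' : Finset (Fin L)}
    {T : Set Γ} (h : Sep la lb A B T) (hA : A' ⊆ A) (hB : B' ⊆ B) : Sep la lb A' B' T := by
  rcases h with ⟨h1, h2⟩ | ⟨h1, h2⟩
  · exact Or.inl ⟨fun i hi => h1 i (hA hi), fun i hi => h2 i (hB hi)⟩
  · exact Or.inr ⟨fun i hi => h1 i (hA hi), fun i hi => h2 i (hB hi)⟩

namespace GFamily

variable {α : Type} {L d : ℕ}

/-- **One separation step.** -/
theorem sep_step (F : GFamily α L d) {p : ℕ} (hF : F.WidthLE p) (la lb : Fin L → Option F.Γ)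
    (hla : ∀ i g, la i = some g → i ∈ F.reads g) (hlb : ∀ i g, lb i = some g → i ∈ F.reads g)
    (n : ℕ) (A B : Finset (Fin L)) (hA : 6 * (n + d) ≤ A.card) (hB : 6 * (n + d) ≤ B.card) :
    ∃ A' ⊆ A, ∃ B' ⊆ B, n ≤ A'.card ∧ n ≤ B'.card ∧
      ∃ T, (F.mid T).ncard ≤ p ∧ Sep la lb A' B' T := by
  classical
  have hempty : (F.mid (∅ : Set F.Γ)).ncard ≤ p := by rw [F.mid_empty]; simp
  have hAs : (A.filter (fun i => la i = none)).card + (A \ A.filter (fun i => la i = none)).card =
      A.card := by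
    rw [add_comm]
    exact Finset.card_sdiff_add_card_eq_card (Finset.filter_subset _ _)
  have hBs : (B.filter (fun i => lb i = none)).card + (B \ B.filter (fun i => lb i = none)).card =
      B.card := by
    rw [add_comm]
    exact Finset.card_sdiff_add_card_eq_card (Finset.filter_subset _ _)
  by_cases h1 : n ≤ (A.filter (fun i => la i = none)).card
  · refine ⟨_, Finset.filter_subset _ _, B, subset_rfl, h1, by omega, ∅, hempty, Or.inl ?_⟩
    refine ⟨fun i hi g hg => ?_, fun i _ g _ => Set.notMem_empty g⟩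
    rw [(Finset.mem_filter.1 hi).2] at hg
    exact absurd hg (by simp)
  by_cases h2 : n ≤ (B.filter (fun i => lb i = none)).card
  · refine ⟨A, subset_rfl, _, Finset.filter_subset _ _, by omega, h2, ∅, hempty, Or.inr ?_⟩
    refine ⟨fun i _ g _ => Set.notMem_empty g, fun i hi g hg => ?_⟩
    rw [(Finset.mem_filter.1 hi).2] at hg
    exact absurd hg (by simp)
  push Not at h1 h2
  obtain ⟨t, ht, htQ⟩ := hF
  let cA : Set F.Γ → ℕ := fun S => Set.ncard {i | i ∈ A ∧ ∃ g ∈ S, la i = some g}
  let cB : Set F.Γ → ℕ := fun S => Set.ncard {i | i ∈ B ∧ ∃ g ∈ S, lb i = some g}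
  have hfin : ∀ (C : Finset (Fin L)) (P : Fin L → Prop), {i | i ∈ C ∧ P i}.Finite := fun C P =>
    C.finite_toSet.subset (fun i hi => hi.1)
  have hcA : ∀ g, cA {g} ≤ d := by
    intro g
    refine le_trans (Set.ncard_le_ncard (t := (F.reads g : Set (Fin L))) ?_
      (Finset.finite_toSet _)) ?_
    · rintro i ⟨-, g', hg', h⟩
      exact hla i g ((Set.mem_singleton_iff.1 hg') ▸ h)
    · rw [Set.ncard_coe_finset]
      exact F.reads_card g
  have hcB : ∀ g, cB {g} ≤ d := by
    intro g
    refine le_trans (Set.ncard_le_ncard (t := (F.reads g : Set (Fin L))) ?_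
      (Finset.finite_toSet _)) ?_
    · rintro i ⟨-, g', hg', h⟩
      exact hlb i g ((Set.mem_singleton_iff.1 hg') ▸ h)
    · rw [Set.ncard_coe_finset]
      exact F.reads_card g
  have hcnt : ∀ (C : Finset (Fin L)) (P : Fin L → Prop),
      Set.ncard {i | i ∈ C ∧ P i} = (C.filter P).card := by
    intro C P
    have h : {i | i ∈ C ∧ P i} = ((C.filter P : Finset (Fin L)) : Set (Fin L)) := by
      ext i
      rw [Finset.mem_coe, Finset.mem_filter]
      rfl
    rw [h, Set.ncard_coe_finset]
  -- the numbers of positions inside and outside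
  have hsplitA : ∀ S : Set F.Γ, A.card = (A.filter (fun i => la i = none)).card + cA S +
      (A.filter (fun i => ∃ g, la i = some g ∧ g ∉ S)).card := by
    intro S
    have e1 : cA S = (A.filter (fun i => ∃ g ∈ S, la i = some g)).card := hcnt _ _
    rw [e1, ← Finset.card_union_of_disjoint, ← Finset.card_union_of_disjoint]
    · congr 1
      ext i
      simp only [Finset.mem_union, Finset.mem_filter]
      constructor
      · intro hi
        rcases h : la i with _ | g
        · exact Or.inl (Or.inl ⟨hi, rfl⟩)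
        · by_cases hg : g ∈ S
          · exact Or.inl (Or.inr ⟨hi, g, hg, rfl⟩)
          · exact Or.inr ⟨hi, g, rfl, hg⟩
      · rintro ((h | h) | h) <;> exact h.1
    · rw [Finset.disjoint_left]
      intro i hi hi'
      simp only [Finset.mem_union, Finset.mem_filter] at hi hi'
      obtain ⟨-, g, hg, hgS⟩ := hi'
      rcases hi with ⟨-, h⟩ | ⟨-, g', hg', h⟩
      · rw [h] at hg
        exact absurd hg (by simp)
      · rw [h] at hg
        exact hgS (Option.some_injective _ hg ▸ hg')
    · rw [Finset.disjoint_left]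
      intro i hi hi'
      simp only [Finset.mem_filter] at hi hi'
      obtain ⟨-, g, hg, h⟩ := hi'
      rw [hi.2] at h
      exact absurd h (by simp)
  have hsplitB : ∀ S : Set F.Γ, B.card = (B.filter (fun i => lb i = none)).card + cB S +
      (B.filter (fun i => ∃ g, lb i = some g ∧ g ∉ S)).card := by
    intro S
    have e1 : cB S = (B.filter (fun i => ∃ g ∈ S, lb i = some g)).card := hcnt _ _
    rw [e1, ← Finset.card_union_of_disjoint, ← Finset.card_union_of_disjoint]
    · congr 1
      ext i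
      simp only [Finset.mem_union, Finset.mem_filter]
      constructor
      · intro hi
        rcases h : lb i with _ | g
        · exact Or.inl (Or.inl ⟨hi, rfl⟩)
        · by_cases hg : g ∈ S
          · exact Or.inl (Or.inr ⟨hi, g, hg, rfl⟩)
          · exact Or.inr ⟨hi, g, rfl, hg⟩
      · rintro ((h | h) | h) <;> exact h.1
    · rw [Finset.disjoint_left]
      intro i hi hi'
      simp only [Finset.mem_union, Finset.mem_filter] at hi hi'
      obtain ⟨-, g, hg, hgS⟩ := hi'
      rcases hi with ⟨-, h⟩ | ⟨-, g', hg', h⟩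
      · rw [h] at hg
        exact absurd hg (by simp)
      · rw [h] at hg
        exact hgS (Option.some_injective _ hg ▸ hg')
    · rw [Finset.disjoint_left]
      intro i hi hi'
      simp only [Finset.mem_filter] at hi hi'
      obtain ⟨-, g, hg, h⟩ := hi'
      rw [hi.2] at h
      exact absurd h (by simp)
  have hrootA : n + d ≤ cA t.gads := by
    have := hsplitA t.gads
    have h0 : (A.filter (fun i => ∃ g, la i = some g ∧ g ∉ t.gads)).card = 0 := by
      rw [Finset.card_eq_zero, Finset.filter_eq_empty_iff]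
      rintro i - ⟨g, -, hg⟩
      exact hg (by rw [ht]; trivial)
    omega
  obtain ⟨S, hS, hcase⟩ := t.descend (x := n + d) (y := n + d) (d := d)
    (fun S => (F.mid S).ncard ≤ p) (by omega) (by omega) A B la lb cA cB (fun _ => rfl)
    (fun _ => rfl) hcA hcB htQ (Or.inl hrootA)
  have eA := hsplitA S
  have eB := hsplitB S
  have e1 : cA S = (A.filter (fun i => ∃ g ∈ S, la i = some g)).card := hcnt _ _
  have e2 : cB S = (B.filter (fun i => ∃ g ∈ S, lb i = some g)).card := hcnt _ _
  rcases hcase with ⟨h3, h4⟩ | ⟨h3, h4⟩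
  · refine ⟨A.filter (fun i => ∃ g ∈ S, la i = some g), Finset.filter_subset _ _,
      B.filter (fun i => ∃ g, lb i = some g ∧ g ∉ S), Finset.filter_subset _ _, by omega,
      by omega, S, hS, Or.inl ⟨?_, ?_⟩⟩
    · intro i hi g hg
      obtain ⟨-, g', hg', h⟩ := Finset.mem_filter.1 hi
      rw [h] at hg
      exact Option.some_injective _ hg ▸ hg'
    · intro i hi g hg
      obtain ⟨-, g', h, hg'⟩ := Finset.mem_filter.1 hi
      rw [h] at hg
      exact Option.some_injective _ hg ▸ hg'
  · refine ⟨A.filter (fun i => ∃ g, la i = some g ∧ g ∉ S), Finset.filter_subset _ _,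
      B.filter (fun i => ∃ g ∈ S, lb i = some g), Finset.filter_subset _ _, by omega,
      by omega, S, hS, Or.inr ⟨?_, ?_⟩⟩
    · intro i hi g hg
      obtain ⟨-, g', h, hg'⟩ := Finset.mem_filter.1 hi
      rw [h] at hg
      exact Option.some_injective _ hg ▸ hg'
    · intro i hi g hg
      obtain ⟨-, g', hg', h⟩ := Finset.mem_filter.1 hi
      rw [h] at hg
      exact Option.some_injective _ hg ▸ hg'

end GFamily

end H54.UPM
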