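import Pool.Agent.H54.UPM.IntRead

/-!
# Products of integer matrices: the explicit bound
-/

namespace H54.UPM

open Function

/-- The number of positions needed for `K` separation steps. -/
def thr (d : ℕ) : ℕ → ℕ → ℕ
  | 0, n => n
  | K + 1, n => 6 * (thr d K n + d)

theorem thr_le (d K n : ℕ) : thr d K n ≤ 6 ^ K * (n + 2 * d) := by
  have h : thr d K n + 2 * d ≤ 6 ^ K * (n + 2 * d) := by
    induction K with
    | zero => simp [thr]
    | succ K ih =>
      rw [thr, pow_succ]
      nlinarith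
  omega

theorem le_thr (d K n : ℕ) : n ≤ thr d K n := by
  induction K with
  | zero => exact le_rfl
  | succ K ih => rw [thr]; omega

namespace GFamily

variable {α : Type} {L d k r : ℕ}

/-- **All separation steps.** -/
theorem sep_all (F : Fin r → GFamily α L d) {p : ℕ} (hF : ∀ j, (F j).WidthLE p)
    (loc : ∀ j, Fin k → Fin L → Option (F j).Γ)
    (hloc : ∀ j c i g, loc j c i = some g → i ∈ (F j).reads g) (n : ℕ)
    (s : Finset (Fin r × Fin k × Fin k)) :
    ∀ A B : Finset (Fin L), thr d s.card n ≤ A.card → thr d s.card n ≤ B.card →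
      ∃ A' ⊆ A, ∃ B' ⊆ B, n ≤ A'.card ∧ n ≤ B'.card ∧ ∀ q ∈ s,
        ∃ T : Set (F q.1).Γ, ((F q.1).mid T).ncard ≤ p ∧
          Sep (loc q.1 q.2.1) (loc q.1 q.2.2) A' B' T := by
  classical
  induction s using Finset.induction_on with
  | empty =>
    intro A B hA hB
    exact ⟨A, subset_rfl, B, subset_rfl, hA, hB, fun q hq => absurd hq (Finset.notMem_empty q)⟩
  | insert q s hq ih =>
    intro A B hA hB
    rw [Finset.card_insert_of_notMem hq, thr] at hA hB
    obtain ⟨A1, hA1, B1, hB1, h1, h2, T, hT1, hT2⟩ := (F q.1).sep_step (hF q.1)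
      (loc q.1 q.2.1) (loc q.1 q.2.2) (hloc _ _) (hloc _ _) _ A B hA hB
    obtain ⟨A2, hA2, B2, hB2, h3, h4, h5⟩ := ih A1 B1 h1 h2
    refine ⟨A2, hA2.trans hA1, B2, hB2.trans hB1, h3, h4, ?_⟩
    intro q' hq'
    rcases Finset.mem_insert.1 hq' with rfl | hq'
    · exact ⟨T, hT1, hT2.mono hA2 hB2⟩
    · exact h5 q' hq'

/-- **One cut.** -/
theorem two_block (F : GFamily α L d) (S : Set F.Γ) (c1 : α) {p : ℕ} (hp : 0 < p)
    (hS : (F.mid S).ncard ≤ p) :
    ∃ (RS RC : Finset (Fin L))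
      (M0 M1 : (Fin L → α) → Matrix (Finset (Fin p)) (Finset (Fin p)) T3),
      (∀ i ∈ RS, ∃ g ∈ S, i ∈ F.reads g) ∧ (∀ i ∈ RC, ∃ g, g ∉ S ∧ i ∈ F.reads g) ∧
        (∀ x, IsGad (M0 x)) ∧ ∀ x : Fin L → α, (UniquePM (F.graph x) ↔
          (M0 (mask RS c1 x) * M1 (mask RC c1 x)) Finset.univ Finset.univ = 1) := by
  classical
  have hA := F.finA
  have hB := F.finB
  have hfin : Finite (F.A ⊕ F.B) := inferInstance
  -- the family with two positions
  let F' : Family (Fin L → α) 2 :=
    { A := F.A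
      B := F.B
      finA := hA
      finB := hB
      owner := fun a b => if F.gad a b ∈ S then 0 else 1
      edge := fun a b c => F.edge a b c }
  have hown0 : ∀ a b, F'.owner a b = 0 → F.gad a b ∈ S := by
    intro a b h
    by_contra hcon
    have : F'.owner a b = 1 := if_neg hcon
    rw [this] at h
    exact absurd h (by decide)
  have hown1 : ∀ a b, F'.owner a b = 1 → F.gad a b ∉ S := by
    intro a b h hS
    have : F'.owner a b = 0 := if_pos hS
    rw [this] at h
    exact absurd h (by decide)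
  have hW : F'.WidthLE p := by
    intro k
    refine le_trans (Set.ncard_le_ncard (t := F.mid S) ?_ (Set.toFinite _)) hS
    rintro v ⟨⟨i, h1, h2⟩, ⟨j, h3, h4⟩⟩
    have hij : i < j := by
      rw [Fin.lt_def]; omega
    have hi : i = 0 := by
      have := j.2
      apply Fin.ext
      rw [Fin.lt_def] at hij
      simp only [Fin.val_zero]
      omega
    have hj : j = 1 := by
      have := j.2
      apply Fin.ext
      rw [Fin.lt_def] at hij
      simp only [Fin.val_one]
      omega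
    subst hi hj
    obtain ⟨a, b, c, e1, e2, e3⟩ := h2
    obtain ⟨a', b', c', e1', e2', e3'⟩ := h4
    exact ⟨⟨F.gad a b, hown0 a b e2, a, b, e1, ⟨c, e3⟩, rfl⟩,
      ⟨F.gad a' b', hown1 a' b' e2', a', b', e1', ⟨c', e3'⟩, rfl⟩⟩
  obtain ⟨M, hM, hU⟩ := F'.transfer (by norm_num) hp hW
  let RS : Finset (Fin L) := Finset.univ.filter (fun i => ∃ g ∈ S, i ∈ F.reads g)
  let RC : Finset (Fin L) := Finset.univ.filter (fun i => ∃ g, g ∉ S ∧ i ∈ F.reads g)
  refine ⟨RS, RC, M 0, M 1, fun i hi => (Finset.mem_filter.1 hi).2,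
    fun i hi => (Finset.mem_filter.1 hi).2, fun x => hM 0 x, ?_⟩
  intro x
  let y : ℕ → (Fin L → α) := fun n => if n = 0 then mask RS c1 x else mask RC c1 x
  have h1 := hU y
  have hgr : (F'.graph fun i => y i) = F.graph x := by
    have hedge : ∀ a b, F'.edge a b (y (F'.owner a b)) ↔ F.edge a b x := by
      intro a b
      by_cases ho : F.gad a b ∈ S
      · have : F'.owner a b = 0 := if_pos ho
        rw [this]
        show F.edge a b (mask RS c1 x) ↔ F.edge a b x
        apply F.edge_congr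
        intro i hi
        unfold mask
        rw [if_pos (Finset.mem_filter.2 ⟨Finset.mem_univ _, _, ho, hi⟩)]
      · have : F'.owner a b = 1 := if_neg ho
        rw [this]
        show F.edge a b (mask RC c1 x) ↔ F.edge a b x
        apply F.edge_congr
        intro i hi
        unfold mask
        rw [if_pos (Finset.mem_filter.2 ⟨Finset.mem_univ _, _, ho, hi⟩)]
    ext u v
    constructor
    · rintro (⟨a, b, h1, h2, h3⟩ | ⟨a, b, h1, h2, h3⟩)
      · exact Or.inl ⟨a, b, h1, h2, (hedge a b).1 h3⟩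
      · exact Or.inr ⟨a, b, h1, h2, (hedge a b).1 h3⟩
    · rintro (⟨a, b, h1, h2, h3⟩ | ⟨a, b, h1, h2, h3⟩)
      · exact Or.inl ⟨a, b, h1, h2, (hedge a b).2 h3⟩
      · exact Or.inr ⟨a, b, h1, h2, (hedge a b).2 h3⟩
  have h2 : UniquePM (F'.graph fun i => y i) = UniquePM (F.graph x) :=
    congrArg (UniquePM (V := F.A ⊕ F.B)) hgr
  rw [← h2, h1]
  have h3 : prodM M y 0 2 = M 0 (mask RS c1 x) * M 1 (mask RC c1 x) := by
    show (1 * M (0 + 0) (y (0 + 0))) * M (0 + 1) (y (0 + 1)) = _
    rw [one_mul]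
    rfl
  rw [h3]

/-- **One cut with many consecutive positions on both sides.** -/
theorem int_cut {w : ℕ} (hw : 2 ≤ w) {p : ℕ} (hp : 0 < p) {R : ℕ} (s t : Fin w)
    (F : Fin R → GFamily (Matrix (Fin w) (Fin w) ℤ) L d) (Bf : (Fin R → Prop) → Prop)
    (hcon : ∀ x : Fin L → Matrix (Fin w) (Fin w) ℤ, (∀ i, Small (x i)) →
      (Bf (fun j => UniquePM ((F j).graph x)) ↔ (List.ofFn x).prod s t = 0))
    (S : ∀ j, Set (F j).Γ) (hS : ∀ j, ((F j).mid (S j)).ncard ≤ p)
    (A B : Finset (Fin L)) (hAS : ∀ i ∈ A, ∀ j g, i ∈ (F j).reads g → g ∈ S j)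
    (hBS : ∀ i ∈ B, ∀ j g, i ∈ (F j).reads g → g ∉ S j)
    (hAB : ∀ a ∈ A, ∀ b ∈ B, a < b)
    (hAc : 4 * R * (p + 2) ^ 3 + 3 ≤ A.card)
    (hBc : 4 * R * (p + 2) ^ 3 + 3 ≤ B.card) : False := by
  classical
  obtain ⟨r, hsr⟩ : ∃ r : Fin w, s ≠ r := by
    have : Nontrivial (Fin w) := Fin.nontrivial_iff_two_le.2 hw
    obtain ⟨r, hr⟩ := exists_ne s
    exact ⟨r, hr.symm⟩
  choose RS RC M0 M1 hRS hRC hM hU using fun j =>
    (F j).two_block (S j) (1 : Matrix (Fin w) (Fin w) ℤ) hp (hS j)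
  set k0 := 4 * R * (p + 2) ^ 3 + 1 with hk
  obtain ⟨A', hA1, hA2⟩ := Finset.exists_subset_card_eq (show k0 + 1 ≤ A.card by omega)
  obtain ⟨B', hB1, hB2⟩ := Finset.exists_subset_card_eq (show k0 + 2 ≤ B.card by omega)
  have hAB' : ∀ a ∈ A', ∀ b ∈ B', a < b := fun a ha b hb => hAB a (hA1 ha) b (hB1 hb)
  have hdisj : Disjoint A' B' := by
    rw [Finset.disjoint_left]
    intro i h1 h2
    exact absurd (hAB' i h1 i h2) (lt_irrefl _)
  have hP : (A' ∪ B').card = (k0 + 1) + (k0 + 2) := by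
    rw [Finset.card_union_of_disjoint hdisj, hA2, hB2]
  have hemb := emb_union A' B' hA2 hB2 hAB' hP
  let X : List Bool → List Bool → ℕ → Matrix (Fin w) (Fin w) ℤ :=
    fun v v' n => (inpZ s r t v v').getD n 1
  let x : List Bool → List Bool → Fin L → Matrix (Fin w) (Fin w) ℤ :=
    fun v v' => ext (A' ∪ B') hP 1 (fun j => X v v' j)
  let V : Set (Finset (Fin p) → T3) := {v | ∃ x : Matrix (Finset (Fin p)) (Finset (Fin p)) T3,
      IsGad x ∧ v = x Finset.univ}
  have hVfin : V.Finite := Set.toFinite _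
  have hV : Fintype V := hVfin.fintype
  have hVcard : Fintype.card V ≤ 2 ^ (4 * (p + 2) ^ 3) := by
    have := card_boundary p
    rwa [← Nat.card_coe_set_eq, Nat.card_eq_fintype_card] at this
  let Φ : (Fin k0 → Bool) → (Fin R → V) := fun v j =>
    ⟨M0 j (mask (RS j) 1 (x (List.ofFn v) [])) Finset.univ, _, hM j _, rfl⟩
  have hcard : Fintype.card (Fin R → V) < Fintype.card (Fin k0 → Bool) := by
    rw [Fintype.card_fun, Fintype.card_fun, Fintype.card_fin,
      Fintype.card_fin, Fintype.card_bool]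
    calc Fintype.card V ^ R ≤ (2 ^ (4 * (p + 2) ^ 3)) ^ R := Nat.pow_le_pow_left hVcard R
      _ = 2 ^ (4 * (p + 2) ^ 3 * R) := (pow_mul 2 (4 * (p + 2) ^ 3) R).symm
      _ < 2 ^ k0 := by
        apply Nat.pow_lt_pow_right (by norm_num)
        rw [hk]
        have : 4 * (p + 2) ^ 3 * R = 4 * R * (p + 2) ^ 3 := by ring
        omega
  obtain ⟨v1, v2, hne, hΦ⟩ := Fintype.exists_ne_map_eq_of_card_lt Φ hcard
  set l1 := List.ofFn v1 with hl1
  set l2 := List.ofFn v2 with hl2
  have hlen1 : l1.length = k0 := by rw [hl1, List.length_ofFn]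
  have hlen2 : l2.length = k0 := by rw [hl2, List.length_ofFn]
  have hlne : l1 ≠ l2 := fun h => hne (List.ofFn_injective h)
  have hlenP : ∀ l : List Bool, l.length = k0 →
      (Matrix.transvection s r (1 : ℤ) :: (l.reverse.map (let1 s r))).length = k0 + 1 := by
    intro l hl
    rw [List.length_cons, List.length_map, List.length_reverse, hl]
  -- the prefix part does not depend on the suffix
  have hpre : ∀ (l : List Bool), l.length = k0 → ∀ l', ∀ n, n < k0 + 1 →
      X l l' n = X l [] n := by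
    intro l hl l' n hn
    show (inpZ s r t l l').getD n 1 = (inpZ s r t l []).getD n 1
    rw [inpZ, inpZ, List.getD_append _ _ _ _ (by rw [hlenP l hl]; omega),
      List.getD_append _ _ _ _ (by rw [hlenP l hl]; omega)]
  have hsuf : ∀ n, k0 + 1 ≤ n → X l1 l1 n = X l2 l1 n := by
    intro n hn
    show (inpZ s r t l1 l1).getD n 1 = (inpZ s r t l2 l1).getD n 1
    have key : ∀ l, l.length = k0 → (inpZ s r t l l1).getD n 1 =
        ((l1.map (let2 s r)) ++ [Matrix.transvection s r (-1), Matrix.single r t 1]).getD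
          (n - (k0 + 1)) 1 := by
      intro l hl
      rw [inpZ, List.getD_append_right _ _ _ _ (by rw [hlenP l hl]; omega), hlenP l hl]
    rw [key l1 hlen1, key l2 hlen2]
  -- masks
  have hmaskS : ∀ (j : Fin R) (l : List Bool), l.length = k0 → ∀ l',
      mask (RS j) 1 (x l l') = mask (RS j) 1 (x l []) := by
    intro j0 l hl l'
    apply mask_congr
    intro i hi
    by_cases hiP : i ∈ A' ∪ B'
    · obtain ⟨j, rfl⟩ := (mem_iff_emb (A' ∪ B') hP i).1 hiP
      show ext (A' ∪ B') hP 1 _ _ = ext (A' ∪ B') hP 1 _ _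
      rw [ext_emb, ext_emb]
      by_cases hj : (j : ℕ) < k0 + 1
      · exact hpre l hl l' j hj
      · exfalso
        have h1 := (hemb j).2 (by omega)
        obtain ⟨g, hg1, hg2⟩ := hRS j0 _ hi
        exact hBS _ (hB1 h1) j0 g hg2 hg1
    · show ext (A' ∪ B') hP 1 _ _ = ext (A' ∪ B') hP 1 _ _
      rw [ext_not _ _ _ _ hiP, ext_not _ _ _ _ hiP]
  have hmaskC : ∀ j, mask (RC j) 1 (x l1 l1) = mask (RC j) 1 (x l2 l1) := by
    intro j0
    apply mask_congr
    intro i hi
    by_cases hiP : i ∈ A' ∪ B'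
    · obtain ⟨j, rfl⟩ := (mem_iff_emb (A' ∪ B') hP i).1 hiP
      show ext (A' ∪ B') hP 1 _ _ = ext (A' ∪ B') hP 1 _ _
      rw [ext_emb, ext_emb]
      by_cases hj : (j : ℕ) < k0 + 1
      · exfalso
        have h1 := (hemb j).1 hj
        obtain ⟨g, hg1, hg2⟩ := hRC j0 _ hi
        exact hg1 (hAS _ (hA1 h1) j0 g hg2)
      · exact hsuf j (by omega)
    · show ext (A' ∪ B') hP 1 _ _ = ext (A' ∪ B') hP 1 _ _
      rw [ext_not _ _ _ _ hiP, ext_not _ _ _ _ hiP]
  have hval : ∀ j, (M0 j (mask (RS j) 1 (x l1 l1)) * M1 j (mask (RC j) 1 (x l1 l1)))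
      Finset.univ Finset.univ = (M0 j (mask (RS j) 1 (x l2 l1)) *
        M1 j (mask (RC j) 1 (x l2 l1))) Finset.univ Finset.univ := by
    intro j
    rw [Matrix.mul_apply, Matrix.mul_apply, hmaskS j l1 hlen1 l1, hmaskS j l2 hlen2 l1, hmaskC j]
    apply Finset.sum_congr rfl
    intro T _
    congr 1
    exact congrFun (congrArg Subtype.val (congrFun hΦ j)) T
  have hsm : ∀ l l' (n : ℕ), Small (X l l' n) := by
    intro l l' n
    show Small ((inpZ s r t l l').getD n 1)
    by_cases h : n < (inpZ s r t l l').length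
    · rw [List.getD_eq_getElem _ _ h]
      exact small_inpZ hsr l l' _ (List.getElem_mem h)
    · rw [List.getD_eq_default _ _ (by omega)]
      exact small_one
  have hsmx : ∀ l l' i, Small (x l l' i) := by
    intro l l' i
    by_cases hiP : i ∈ A' ∪ B'
    · obtain ⟨j, rfl⟩ := (mem_iff_emb (A' ∪ B') hP i).1 hiP
      show Small (ext (A' ∪ B') hP 1 _ _)
      rw [ext_emb]
      exact hsm l l' j
    · show Small (ext (A' ∪ B') hP 1 _ _)
      rw [ext_not _ _ _ _ hiP]
      exact small_one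
  have hlenI : ∀ l l' : List Bool, l.length = k0 → l'.length = k0 →
      (inpZ s r t l l').length ≤ (k0 + 1) + (k0 + 2) := by
    intro l l' h1 h2
    simp only [inpZ, List.length_append, List.length_cons, List.length_map,
      List.length_reverse, List.length_nil, h1, h2]
    omega
  have hent : ∀ l l' : List Bool, l.length = k0 → l'.length = k0 →
      (Bf (fun j => UniquePM ((F j).graph (x l l'))) ↔
        (rab l').1 * (rab l).2 - (rab l).1 * (rab l').2 = 0) := by
    intro l l' h1 h2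
    rw [hcon (x l l') (hsmx l l')]
    have h4 := prod_getD (inpZ s r t l l') _ (hlenI l l' h1 h2)
    have h5 : (List.ofFn (x l l')).prod =
        (List.ofFn fun j : Fin ((k0 + 1) + (k0 + 2)) => X l l' j).prod :=
      prod_ext (A' ∪ B') hP 1 (fun M : Matrix (Fin w) (Fin w) ℤ => M) rfl (fun j => X l l' j)
    have h6 : (List.ofFn fun j : Fin ((k0 + 1) + (k0 + 2)) => X l l' j).prod =
        (inpZ s r t l l').prod := h4
    rw [h5, h6, inpZ_prod, PQ_val t hsr]
  have ha := hent l1 l1 hlen1 hlen1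
  have hb := hent l2 l1 hlen2 hlen1
  have hc := rab_cross l1 l2 (by rw [hlen1, hlen2]) hlne
  have hsame : (fun j => UniquePM ((F j).graph (x l1 l1))) =
      (fun j => UniquePM ((F j).graph (x l2 l1))) := by
    funext j
    apply propext
    rw [hU j, hU j, hval]
  rw [hsame, hb] at ha
  exact hc (ha.2 (by ring))

end GFamily

/-- Two consecutive halves of a set of positions. -/
theorem halves {L n : ℕ} (P : Finset (Fin L)) (h : 2 * n ≤ P.card) :
    ∃ A ⊆ P, ∃ B ⊆ P, n ≤ A.card ∧ n ≤ B.card ∧ ∀ a ∈ A, ∀ b ∈ B, a < b := by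
  classical
  have hex : ∃ q : ℕ, n ≤ (P.filter (fun i : Fin L => (i : ℕ) < q)).card := by
    refine ⟨L, ?_⟩
    rw [Finset.filter_true_of_mem (fun i _ => i.2)]
    omega
  obtain ⟨q, hq, hmin⟩ : ∃ q : ℕ, n ≤ (P.filter (fun i : Fin L => (i : ℕ) < q)).card ∧
      ∀ q' < q, ¬ n ≤ (P.filter (fun i : Fin L => (i : ℕ) < q')).card :=
    ⟨Nat.find hex, Nat.find_spec hex, fun q' hq' => Nat.find_min hex hq'⟩
  have hsplit : (P.filter (fun i : Fin L => (i : ℕ) < q)).card +
      (P.filter (fun i : Fin L => q ≤ (i : ℕ))).card = P.card := by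
    have := Finset.card_filter_add_card_filter_not (s := P) (fun i : Fin L => (i : ℕ) < q)
    simpa only [not_lt] using this
  have hup : (P.filter (fun i : Fin L => (i : ℕ) < q)).card ≤ n := by
    rcases Nat.eq_zero_or_pos q with h0 | h0
    · subst h0
      simp
    · have h1 := hmin (q - 1) (by omega)
      push Not at h1
      have h2 : (P.filter (fun i : Fin L => (i : ℕ) < q)).card ≤
          (P.filter (fun i : Fin L => (i : ℕ) < q - 1)).card + 1 := by
        have hsub : P.filter (fun i : Fin L => (i : ℕ) < q) ⊆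
            P.filter (fun i : Fin L => (i : ℕ) < q - 1) ∪
              (Finset.univ : Finset (Fin L)).filter (fun i : Fin L => (i : ℕ) = q - 1) := by
          intro i hi
          simp only [Finset.mem_filter, Finset.mem_union, Finset.mem_univ, true_and] at hi ⊢
          by_cases h : (i : ℕ) < q - 1
          · exact Or.inl ⟨hi.1, h⟩
          · right; omega
        refine (Finset.card_le_card hsub).trans ((Finset.card_union_le _ _).trans ?_)
        apply Nat.add_le_add_left
        apply Finset.card_le_one.2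
        intro a ha b hb
        simp only [Finset.mem_filter, Finset.mem_univ, true_and] at ha hb
        exact Fin.ext (by omega)
      omega
  refine ⟨P.filter (fun i : Fin L => (i : ℕ) < q), Finset.filter_subset _ _,
    P.filter (fun i : Fin L => q ≤ (i : ℕ)), Finset.filter_subset _ _, hq, by omega, ?_⟩
  intro a ha b hb
  have h1 := (Finset.mem_filter.1 ha).2
  have h2 := (Finset.mem_filter.1 hb).2
  rw [Fin.lt_def]
  omega

/-- **Explicit lower bound for integer products.** -/
theorem int_read {w : ℕ} (hw : 2 ≤ w) {p r d k L : ℕ}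
    (F : Fin r → GFamily (Matrix (Fin w) (Fin w) ℤ) L d) (hF : ∀ j, (F j).WidthLE p)
    (hL : 2 * 6 ^ (r * k ^ 2) * (4 * r * (k ^ 2 * p + 3) ^ 3 + 2 * d + 3) ≤
      {i : Fin L | ∀ j, (F j).times i ≤ k}.ncard)
    (Bf : (Fin r → Prop) → Prop) (s t : Fin w) :
    ∃ x : Fin L → Matrix (Fin w) (Fin w) ℤ, (∀ i, Small (x i)) ∧
      ¬ (Bf (fun j => UniquePM ((F j).graph x)) ↔ (List.ofFn x).prod s t = 0) := by
  classical
  by_contra hcon
  push Not at hcon
  choose loc hloc1 hloc2 using fun j => (F j).exists_loc k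
  set q := k ^ 2 * p + 1 with hq
  set n := 4 * r * (q + 2) ^ 3 + 3 with hn
  set P0 : Finset (Fin L) := Finset.univ.filter (fun i => ∀ j, (F j).times i ≤ k) with hP0
  have h0 : ∀ i ∈ P0, ∀ j, (F j).times i ≤ k := fun i hi => (Finset.mem_filter.1 hi).2
  have hc : {i : Fin L | ∀ j, (F j).times i ≤ k}.ncard = P0.card := by
    rw [← Set.ncard_coe_finset]
    congr 1
    ext i
    rw [hP0, Finset.coe_filter]
    exact ⟨fun h => ⟨Finset.mem_univ _, h⟩, fun h => h.2⟩
  rw [hc] at hL
  have hK : (Finset.univ : Finset (Fin r × Fin k × Fin k)).card = r * k ^ 2 := by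
    rw [Finset.card_univ, Fintype.card_prod, Fintype.card_prod, Fintype.card_fin,
      Fintype.card_fin]
    ring
  have hthr : 2 * thr d (r * k ^ 2) n ≤ P0.card := by
    have h1 := thr_le d (r * k ^ 2) n
    have h2 : 2 * (6 ^ (r * k ^ 2) * (n + 2 * d)) ≤ P0.card := by
      refine le_trans (le_of_eq ?_) hL
      rw [hn, hq]
      ring
    omega
  obtain ⟨A, hA, B, hB, hAc, hBc, hAB⟩ := halves P0 hthr
  obtain ⟨A', hA', B', hB', hnA, hnB, hsep⟩ := GFamily.sep_all F hF loc hloc1 n Finset.univ A B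
    (by rw [hK]; exact hAc) (by rw [hK]; exact hBc)
  choose T hT1 hT2 using fun j (c c' : Fin k) => hsep (j, c, c') (Finset.mem_univ _)
  refine GFamily.int_cut hw (p := q) (by omega) s t F Bf hcon
    (fun j => {g | ∃ i ∈ A', ∃ c g0, loc j c i = some g0 ∧
      ∀ c1 c2, (g ∈ T j c1 c2 ↔ g0 ∈ T j c1 c2)}) ?_ A' B' ?_ ?_ ?_ hnA hnB
  · -- the middle sets
    intro j
    have hAf := (F j).finA
    have hBf := (F j).finB
    have hfin : Finite ((F j).A ⊕ (F j).B) := inferInstance
    have hsub : (F j).mid {g | ∃ i ∈ A', ∃ c g0, loc j c i = some g0 ∧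
        ∀ c1 c2, (g ∈ T j c1 c2 ↔ g0 ∈ T j c1 c2)} ⊆
        ⋃ c ∈ (Finset.univ : Finset (Fin k × Fin k)), (F j).mid (T j c.1 c.2) := by
      intro v hv
      by_contra hcon2
      simp only [Finset.mem_univ, Set.iUnion_true, Set.mem_iUnion, not_exists] at hcon2
      obtain ⟨⟨g, hg1, hg2⟩, ⟨g', hg1', hg2'⟩⟩ := hv
      apply hg1'
      obtain ⟨i, hi, c, g0, h1, h2⟩ := hg1
      refine ⟨i, hi, c, g0, h1, ?_⟩
      intro c1 c2
      rw [← h2 c1 c2]
      exact (F j).not_mid (hcon2 (c1, c2)) hg2' hg2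
    have hun : ∀ (s : Finset (Fin k × Fin k)), (⋃ c ∈ s, (F j).mid (T j c.1 c.2)).ncard ≤
        s.card * p := by
      intro s
      induction s using Finset.induction_on with
      | empty => simp
      | insert a s ha ih =>
        rw [Finset.set_biUnion_insert, Finset.card_insert_of_notMem ha]
        refine (Set.ncard_union_le _ _).trans ?_
        have : ((F j).mid (T j a.1 a.2)).ncard ≤ p := hT1 j a.1 a.2
        calc ((F j).mid (T j a.1 a.2)).ncard + (⋃ c ∈ s, (F j).mid (T j c.1 c.2)).ncard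
            ≤ p + s.card * p := by omega
          _ = (s.card + 1) * p := by ring
    refine (Set.ncard_le_ncard hsub (Set.toFinite _)).trans ((hun _).trans ?_)
    rw [Finset.card_univ, Fintype.card_prod, Fintype.card_fin, hq]
    have : k * k * p = k ^ 2 * p := by ring
    omega
  · intro i hi j g hg
    obtain ⟨c, hc⟩ := hloc2 j i (h0 i (hA (hA' hi)) j) g hg
    exact ⟨i, hi, c, g, hc, fun _ _ => Iff.rfl⟩
  · intro i hi j g hg
    rintro ⟨i', hi', c', g0, h1, h2⟩
    obtain ⟨c, hc⟩ := hloc2 j i (h0 i (hB (hB' hi)) j) g hg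
    rcases hT2 j c' c with ⟨h3, h4⟩ | ⟨h3, h4⟩
    · exact h4 i hi g hc ((h2 c' c).2 (h3 i' hi' g0 h1))
    · exact h3 i' hi' g0 h1 ((h2 c' c).1 (h4 i hi g hc))
  · intro a ha b hb
    exact hAB a (hA' ha) b (hB' hb)

end H54.UPM
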