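import Pool.Agent.H54.UPM.Block

/-!
# Products of integer matrices and tree layouts
-/

namespace H54.UPM

open Function

/-- The order embedding of the union of two consecutive sets. -/
theorem emb_union {L n1 n2 : ℕ} (A B : Finset (Fin L)) (hA : A.card = n1) (hB : B.card = n2)
    (hAB : ∀ a ∈ A, ∀ b ∈ B, a < b) (hP : (A ∪ B).card = n1 + n2) (j : Fin (n1 + n2)) :
    ((j : ℕ) < n1 → (A ∪ B).orderEmbOfFin hP j ∈ A) ∧
      (n1 ≤ (j : ℕ) → (A ∪ B).orderEmbOfFin hP j ∈ B) := by
  let f : Fin (n1 + n2) → Fin L := Fin.append (A.orderEmbOfFin hA) (B.orderEmbOfFin hB)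
  have hf1 : ∀ i : Fin n1, f (Fin.castAdd n2 i) = A.orderEmbOfFin hA i := fun i => by simp [f]
  have hf2 : ∀ i : Fin n2, f (Fin.natAdd n1 i) = B.orderEmbOfFin hB i := fun i => by simp [f]
  have hmem : ∀ i, f i ∈ A ∪ B := by
    intro i
    refine Fin.addCases (fun i => ?_) (fun i => ?_) i
    · rw [hf1, Finset.mem_union]
      exact Or.inl (Finset.orderEmbOfFin_mem A hA i)
    · rw [hf2, Finset.mem_union]
      exact Or.inr (Finset.orderEmbOfFin_mem B hB i)
  have hmono : StrictMono f := by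
    intro i i'
    refine Fin.addCases (fun i => ?_) (fun i => ?_) i <;>
      refine Fin.addCases (fun i' => ?_) (fun i' => ?_) i'
    · intro h
      rw [hf1, hf1]
      apply (A.orderEmbOfFin hA).strictMono
      rw [Fin.lt_def] at h ⊢
      simpa using h
    · intro _
      rw [hf1, hf2]
      exact hAB _ (Finset.orderEmbOfFin_mem A hA i) _ (Finset.orderEmbOfFin_mem B hB i')
    · intro h
      exfalso
      rw [Fin.lt_def, Fin.val_natAdd, Fin.val_castAdd] at h
      have := i'.2
      omega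
    · intro h
      rw [hf2, hf2]
      apply (B.orderEmbOfFin hB).strictMono
      rw [Fin.lt_def] at h ⊢
      simpa using h
  have heq : f = (A ∪ B).orderEmbOfFin hP := Finset.orderEmbOfFin_unique hP hmem hmono
  rw [← heq]
  constructor
  · intro hj
    have : j = Fin.castAdd n2 ⟨j, hj⟩ := Fin.ext rfl
    rw [this, hf1]
    exact Finset.orderEmbOfFin_mem A hA _
  · intro hj
    have : j = Fin.natAdd n1 ⟨j - n1, by have := j.2; omega⟩ := Fin.ext (by
      rw [Fin.val_natAdd]; simp only; omega)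
    rw [this, hf2]
    exact Finset.orderEmbOfFin_mem B hB _

/-- **One cut with many consecutive positions on both sides.** -/
theorem int_cut {w : ℕ} (hw : 2 ≤ w) {p : ℕ} (hp : 0 < p) {R d L : ℕ} (s t : Fin w)
    (F : Fin R → LFamily (Matrix (Fin w) (Fin w) ℤ) L d) (Bf : (Fin R → Prop) → Prop)
    (hcon : ∀ x : Fin L → Matrix (Fin w) (Fin w) ℤ, (∀ i, Small (x i)) →
      (Bf (fun j => UniquePM ((F j).graph x)) ↔ (List.ofFn x).prod s t = 0))
    (S : Finset (Fin L)) (hS : ∀ j, ((F j).bd S).ncard ≤ p)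
    (A B : Finset (Fin L)) (hAS : ∀ i ∈ A, i ∈ S) (hBS : ∀ i ∈ B, i ∉ S)
    (hAB : ∀ a ∈ A, ∀ b ∈ B, a < b)
    (hAc : 4 * R * (p + 2) ^ 3 + 3 + R * (p * p * d) ≤ A.card)
    (hBc : 4 * R * (p + 2) ^ 3 + 3 + R * (p * p * d) ≤ B.card) : False := by
  classical
  obtain ⟨r, hsr⟩ : ∃ r : Fin w, s ≠ r := by
    have : Nontrivial (Fin w) := Fin.nontrivial_iff_two_le.2 hw
    obtain ⟨r, hr⟩ := exists_ne s
    exact ⟨r, hr.symm⟩
  choose Z M0 M1 hZ hM hU using fun j =>
    (F j).two_block S (1 : Matrix (Fin w) (Fin w) ℤ) hp (hS j)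
  set k := 4 * R * (p + 2) ^ 3 + 1 with hk
  set ZZ : Finset (Fin L) := Finset.univ.biUnion Z with hZZ
  have hZZc : ZZ.card ≤ R * (p * p * d) := by
    refine (Finset.card_biUnion_le_card_mul _ _ (p * p * d) (fun j _ => hZ j)).trans ?_
    rw [Finset.card_univ, Fintype.card_fin]
  have hpick : ∀ (C : Finset (Fin L)) (n : ℕ), n ≤ k + 2 → k + 2 + R * (p * p * d) ≤ C.card →
      ∃ C' ⊆ C \ ZZ, C'.card = n := by
    intro C n hn hC
    apply Finset.exists_subset_card_eq
    have := Finset.le_card_sdiff ZZ C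
    omega
  obtain ⟨A', hA1, hA2⟩ := hpick A (k + 1) (by omega) (by omega)
  obtain ⟨B', hB1, hB2⟩ := hpick B (k + 2) (by omega) (by omega)
  have hA3 : ∀ i ∈ A', i ∈ A ∧ i ∉ ZZ := fun i hi => by
    have := hA1 hi
    rwa [Finset.mem_sdiff] at this
  have hB3 : ∀ i ∈ B', i ∈ B ∧ i ∉ ZZ := fun i hi => by
    have := hB1 hi
    rwa [Finset.mem_sdiff] at this
  have hAB' : ∀ a ∈ A', ∀ b ∈ B', a < b := fun a ha b hb => hAB a (hA3 a ha).1 b (hB3 b hb).1
  have hdisj : Disjoint A' B' := by
    rw [Finset.disjoint_left]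
    intro i h1 h2
    exact absurd (hAB' i h1 i h2) (lt_irrefl _)
  have hP : (A' ∪ B').card = (k + 1) + (k + 2) := by
    rw [Finset.card_union_of_disjoint hdisj, hA2, hB2]
  have hemb := emb_union A' B' hA2 hB2 hAB' hP
  let X : List Bool → List Bool → ℕ → Matrix (Fin w) (Fin w) ℤ :=
    fun v v' n => (inpZ s r t v v').getD n 1
  let x : List Bool → List Bool → Fin L → Matrix (Fin w) (Fin w) ℤ :=
    fun v v' => ext (A' ∪ B') hP 1 (fun j => X v v' j)
  let V : Set (Finset (Fin p) → T3) := {v | ∃ x : Matrix (Finset (Fin p)) (Finset (Fin p)) T3,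
      IsGad x ∧ v = x Finset.univ}
  have hVfin : V.Finite := Set.toFinite _
  have hV : Fintype V := hVfin.fintype
  have hVcard : Fintype.card V ≤ 2 ^ (4 * (p + 2) ^ 3) := by
    have := card_boundary p
    rwa [← Nat.card_coe_set_eq, Nat.card_eq_fintype_card] at this
  let Φ : (Fin k → Bool) → (Fin R → V) := fun v j =>
    ⟨M0 j (mask S 1 (x (List.ofFn v) [])) Finset.univ, _, hM j _, rfl⟩
  have hcard : Fintype.card (Fin R → V) < Fintype.card (Fin k → Bool) := by
    rw [Fintype.card_fun, Fintype.card_fun, Fintype.card_fin,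
      Fintype.card_fin, Fintype.card_bool]
    calc Fintype.card V ^ R ≤ (2 ^ (4 * (p + 2) ^ 3)) ^ R := Nat.pow_le_pow_left hVcard R
      _ = 2 ^ (4 * (p + 2) ^ 3 * R) := (pow_mul 2 (4 * (p + 2) ^ 3) R).symm
      _ < 2 ^ k := by
        apply Nat.pow_lt_pow_right (by norm_num)
        rw [hk]
        have : 4 * (p + 2) ^ 3 * R = 4 * R * (p + 2) ^ 3 := by ring
        omega
  obtain ⟨v1, v2, hne, hΦ⟩ := Fintype.exists_ne_map_eq_of_card_lt Φ hcard
  set l1 := List.ofFn v1 with hl1
  set l2 := List.ofFn v2 with hl2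
  have hlen1 : l1.length = k := by rw [hl1, List.length_ofFn]
  have hlen2 : l2.length = k := by rw [hl2, List.length_ofFn]
  have hlne : l1 ≠ l2 := fun h => hne (List.ofFn_injective h)
  have hlenP : ∀ l : List Bool, l.length = k →
      (Matrix.transvection s r (1 : ℤ) :: (l.reverse.map (let1 s r))).length = k + 1 := by
    intro l hl
    rw [List.length_cons, List.length_map, List.length_reverse, hl]
  -- the prefix part does not depend on the suffix
  have hpre : ∀ (l : List Bool), l.length = k → ∀ l', ∀ n, n < k + 1 →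
      X l l' n = X l [] n := by
    intro l hl l' n hn
    show (inpZ s r t l l').getD n 1 = (inpZ s r t l []).getD n 1
    rw [inpZ, inpZ, List.getD_append _ _ _ _ (by rw [hlenP l hl]; omega),
      List.getD_append _ _ _ _ (by rw [hlenP l hl]; omega)]
  have hsuf : ∀ n, k + 1 ≤ n → X l1 l1 n = X l2 l1 n := by
    intro n hn
    show (inpZ s r t l1 l1).getD n 1 = (inpZ s r t l2 l1).getD n 1
    have key : ∀ l, l.length = k → (inpZ s r t l l1).getD n 1 =
        ((l1.map (let2 s r)) ++ [Matrix.transvection s r (-1), Matrix.single r t 1]).getD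
          (n - (k + 1)) 1 := by
      intro l hl
      rw [inpZ, List.getD_append_right _ _ _ _ (by rw [hlenP l hl]; omega), hlenP l hl]
    rw [key l1 hlen1, key l2 hlen2]
  -- masks
  have hmaskS : ∀ (l : List Bool), l.length = k → ∀ l',
      mask S 1 (x l l') = mask S 1 (x l []) := by
    intro l hl l'
    apply mask_congr
    intro i hi
    by_cases hiP : i ∈ A' ∪ B'
    · obtain ⟨j, rfl⟩ := (mem_iff_emb (A' ∪ B') hP i).1 hiP
      show ext (A' ∪ B') hP 1 _ _ = ext (A' ∪ B') hP 1 _ _
      rw [ext_emb, ext_emb]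
      by_cases hj : (j : ℕ) < k + 1
      · exact hpre l hl l' j hj
      · exfalso
        have h1 := (hemb j).2 (by omega)
        exact hBS _ (hB3 _ h1).1 hi
    · show ext (A' ∪ B') hP 1 _ _ = ext (A' ∪ B') hP 1 _ _
      rw [ext_not _ _ _ _ hiP, ext_not _ _ _ _ hiP]
  have hmaskC : mask Sᶜ 1 (x l1 l1) = mask Sᶜ 1 (x l2 l1) := by
    apply mask_congr
    intro i hi
    rw [Finset.mem_compl] at hi
    by_cases hiP : i ∈ A' ∪ B'
    · obtain ⟨j, rfl⟩ := (mem_iff_emb (A' ∪ B') hP i).1 hiP
      show ext (A' ∪ B') hP 1 _ _ = ext (A' ∪ B') hP 1 _ _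
      rw [ext_emb, ext_emb]
      by_cases hj : (j : ℕ) < k + 1
      · exfalso
        have h1 := (hemb j).1 hj
        exact hi (hAS _ (hA3 _ h1).1)
      · exact hsuf j (by omega)
    · show ext (A' ∪ B') hP 1 _ _ = ext (A' ∪ B') hP 1 _ _
      rw [ext_not _ _ _ _ hiP, ext_not _ _ _ _ hiP]
  have hone : ∀ l l' j, ∀ i ∈ Z j, x l l' i = 1 := by
    intro l l' j i hi
    have hiZ : i ∈ ZZ := by
      rw [hZZ, Finset.mem_biUnion]
      exact ⟨j, Finset.mem_univ _, hi⟩
    have hiP : i ∉ A' ∪ B' := by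
      rw [Finset.mem_union]
      rintro (h | h)
      · exact (hA3 i h).2 hiZ
      · exact (hB3 i h).2 hiZ
    exact ext_not _ _ _ _ hiP
  have hval : ∀ j, (M0 j (mask S 1 (x l1 l1)) * M1 j (mask Sᶜ 1 (x l1 l1))) Finset.univ
      Finset.univ = (M0 j (mask S 1 (x l2 l1)) * M1 j (mask Sᶜ 1 (x l2 l1))) Finset.univ
      Finset.univ := by
    intro j
    rw [Matrix.mul_apply, Matrix.mul_apply, hmaskS l1 hlen1 l1, hmaskS l2 hlen2 l1, hmaskC]
    apply Finset.sum_congr rfl
    intro T _
    congr 1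
    exact congrFun (congrArg Subtype.val (congrFun hΦ j)) T
  have hsm : ∀ l l' (n : ℕ), Small (X l l' n) := by
    intro l l' n
    show Small ((inpZ s r t l l').getD n 1)
    by_cases h : n < (inpZ s r t l l').length
    · rw [List.getD_eq_getElem _ _ h]
      exact small_inpZ hsr l l' _ (List.getElem_mem h)
    · rw [List.getD_eq_default _ _ (by omega)]
      exact small_one
  have hsmx : ∀ l l' i, Small (x l l' i) := by
    intro l l' i
    by_cases hiP : i ∈ A' ∪ B'
    · obtain ⟨j, rfl⟩ := (mem_iff_emb (A' ∪ B') hP i).1 hiP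
      show Small (ext (A' ∪ B') hP 1 _ _)
      rw [ext_emb]
      exact hsm l l' j
    · show Small (ext (A' ∪ B') hP 1 _ _)
      rw [ext_not _ _ _ _ hiP]
      exact small_one
  have hlenI : ∀ l l' : List Bool, l.length = k → l'.length = k →
      (inpZ s r t l l').length ≤ (k + 1) + (k + 2) := by
    intro l l' h1 h2
    simp only [inpZ, List.length_append, List.length_cons, List.length_map,
      List.length_reverse, List.length_nil, h1, h2]
    omega
  have hent : ∀ l l' : List Bool, l.length = k → l'.length = k →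
      (Bf (fun j => UniquePM ((F j).graph (x l l'))) ↔
        (rab l').1 * (rab l).2 - (rab l).1 * (rab l').2 = 0) := by
    intro l l' h1 h2
    rw [hcon (x l l') (hsmx l l')]
    have h4 := prod_getD (inpZ s r t l l') _ (hlenI l l' h1 h2)
    have h5 : (List.ofFn (x l l')).prod =
        (List.ofFn fun j : Fin ((k + 1) + (k + 2)) => X l l' j).prod :=
      prod_ext (A' ∪ B') hP 1 (fun M : Matrix (Fin w) (Fin w) ℤ => M) rfl (fun j => X l l' j)
    have h6 : (List.ofFn fun j : Fin ((k + 1) + (k + 2)) => X l l' j).prod =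
        (inpZ s r t l l').prod := h4
    rw [h5, h6, inpZ_prod, PQ_val t hsr]
  have ha := hent l1 l1 hlen1 hlen1
  have hb := hent l2 l1 hlen2 hlen1
  have hc := rab_cross l1 l2 (by rw [hlen1, hlen2]) hlne
  have hsame : (fun j => UniquePM ((F j).graph (x l1 l1))) =
      (fun j => UniquePM ((F j).graph (x l2 l1))) := by
    funext j
    apply propext
    rw [hU j _ (hone l1 l1 j), hU j _ (hone l2 l1 j), hval]
  rw [hsame, hb] at ha
  exact hc (ha.2 (by ring))

/-- **A balanced subtree.** -/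
theorem Layout.balanced {L : ℕ} (hL : 2 ≤ L) (Q : Finset (Fin L) → Prop) :
    ∀ t : Layout L, t.All Q → 2 * L < 3 * t.pos.card →
      ∃ S, Q S ∧ 3 * S.card ≤ 2 * L ∧ 2 * L < 6 * S.card + 3 := by
  intro t
  induction t with
  | nil => intro _ h; simp [Layout.pos] at h
  | node o l r ihl ihr =>
    rintro ⟨-, hQl, hQr⟩ h
    by_cases h1 : 2 * L < 3 * l.pos.card
    · exact ihl hQl h1
    by_cases h2 : 2 * L < 3 * r.pos.card
    · exact ihr hQr h2
    have hcard : (Layout.node o l r).pos.card ≤ 1 + (l.pos.card + r.pos.card) := by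
      rw [Layout.pos]
      refine (Finset.card_union_le _ _).trans (Nat.add_le_add ?_ (Finset.card_union_le _ _))
      rcases o with _ | o <;> simp
    have hself : ∀ c : Layout L, c.All Q → 0 < c.pos.card → Q c.pos := by
      intro c hc hpos
      rcases c with _ | ⟨o', l', r'⟩
      · simp [Layout.pos] at hpos
      · exact hc.1
    by_cases h3 : r.pos.card ≤ l.pos.card
    · by_cases h4 : 0 < l.pos.card
      · exact ⟨l.pos, hself l hQl h4, by omega, by omega⟩
      · omega
    · exact ⟨r.pos, hself r hQr (by omega), by omega, by omega⟩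

/-- Two sets with many elements contain separated parts with many elements. -/
theorem separated {L m : ℕ} (S T : Finset (Fin L)) (hS : 2 * m ≤ S.card) (hT : 2 * m ≤ T.card) :
    ∃ k : ℕ, (m ≤ (S.filter (fun i : Fin L => (i : ℕ) < k)).card ∧
        m ≤ (T.filter (fun i : Fin L => k ≤ (i : ℕ))).card) ∨
      (m ≤ (T.filter (fun i : Fin L => (i : ℕ) < k)).card ∧
        m ≤ (S.filter (fun i : Fin L => k ≤ (i : ℕ))).card) := by
  classical
  have hex : ∃ k : ℕ, m ≤ (S.filter (fun i : Fin L => (i : ℕ) < k)).card ∨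
      m ≤ (T.filter (fun i : Fin L => (i : ℕ) < k)).card := by
    refine ⟨L, Or.inl ?_⟩
    rw [Finset.filter_true_of_mem (fun i _ => i.2)]
    omega
  obtain ⟨k, hk, hmin⟩ : ∃ k : ℕ, (m ≤ (S.filter (fun i : Fin L => (i : ℕ) < k)).card ∨
      m ≤ (T.filter (fun i : Fin L => (i : ℕ) < k)).card) ∧ ∀ k' < k,
        ¬ (m ≤ (S.filter (fun i : Fin L => (i : ℕ) < k')).card ∨
          m ≤ (T.filter (fun i : Fin L => (i : ℕ) < k')).card) :=
    ⟨Nat.find hex, Nat.find_spec hex, fun k' hk' => Nat.find_min hex hk'⟩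
  have hsplit : ∀ C : Finset (Fin L), (C.filter (fun i : Fin L => (i : ℕ) < k)).card +
      (C.filter (fun i : Fin L => k ≤ (i : ℕ))).card = C.card := by
    intro C
    have := Finset.card_filter_add_card_filter_not (s := C) (fun i : Fin L => (i : ℕ) < k)
    simpa only [not_lt] using this
  have hupper : ∀ C : Finset (Fin L), (∀ k' < k, ¬ m ≤ (C.filter (fun i : Fin L => (i : ℕ) < k')).card) →
      (C.filter (fun i : Fin L => (i : ℕ) < k)).card ≤ m := by
    intro C hC
    rcases Nat.eq_zero_or_pos k with h0 | h0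
    · subst h0
      simp
    · have h1 := hC (k - 1) (by omega)
      push Not at h1
      have h2 : (C.filter (fun i : Fin L => (i : ℕ) < k)).card ≤
          (C.filter (fun i : Fin L => (i : ℕ) < k - 1)).card + 1 := by
        have hsub : C.filter (fun i : Fin L => (i : ℕ) < k) ⊆
            C.filter (fun i : Fin L => (i : ℕ) < k - 1) ∪
              (Finset.univ : Finset (Fin L)).filter (fun i : Fin L => (i : ℕ) = k - 1) := by
          intro i hi
          simp only [Finset.mem_filter, Finset.mem_union, Finset.mem_univ, true_and] at hi ⊢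
          by_cases h : (i : ℕ) < k - 1
          · exact Or.inl ⟨hi.1, h⟩
          · right; omega
        refine (Finset.card_le_card hsub).trans ((Finset.card_union_le _ _).trans ?_)
        apply Nat.add_le_add_left
        apply Finset.card_le_one.2
        intro a ha b hb
        simp only [Finset.mem_filter, Finset.mem_univ, true_and] at ha hb
        exact Fin.ext (by omega)
      omega
  have hS' := hupper S (fun k' hk' h => hmin k' hk' (Or.inl h))
  have hT' := hupper T (fun k' hk' h => hmin k' hk' (Or.inr h))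
  have h1 := hsplit S
  have h2 := hsplit T
  refine ⟨k, ?_⟩
  rcases hk with hk | hk
  · left
    exact ⟨hk, by omega⟩
  · right
    exact ⟨hk, by omega⟩

/-- **Integer products and tree layouts.** -/
theorem lower_int_tree {w : ℕ} (hw : 2 ≤ w) {p : ℕ} (hp : 0 < p) {R d L : ℕ}
    (hL : 24 * R * (p + 2) ^ 3 + 6 * R * (p * p * d) + 20 ≤ L) (s t : Fin w)
    (F : Fin R → LFamily (Matrix (Fin w) (Fin w) ℤ) L d)
    (lay : Layout L) (hlay : lay.pos = Finset.univ)
    (hF : ∀ j, lay.All (fun S => ((F j).bd S).ncard ≤ p)) (Bf : (Fin R → Prop) → Prop) :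
    ∃ x : Fin L → Matrix (Fin w) (Fin w) ℤ, (∀ i, Small (x i)) ∧
      ¬ (Bf (fun j => UniquePM ((F j).graph x)) ↔ (List.ofFn x).prod s t = 0) := by
  classical
  by_contra hcon
  push Not at hcon
  have hall : ∀ t : Layout L, (∀ j, t.All (fun S => ((F j).bd S).ncard ≤ p)) →
      t.All (fun S => ∀ j, ((F j).bd S).ncard ≤ p) := by
    intro t
    induction t with
    | nil => intro _; trivial
    | node o l r ihl ihr =>
      intro h
      exact ⟨fun j => (h j).1, ihl (fun j => (h j).2.1), ihr (fun j => (h j).2.2)⟩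
  obtain ⟨S, hS1, hS2, hS3⟩ := lay.balanced (by omega) (fun S => ∀ j, ((F j).bd S).ncard ≤ p)
    (hall lay hF) (by
      rw [hlay, Finset.card_univ, Fintype.card_fin]
      omega)
  set m := 4 * R * (p + 2) ^ 3 + 3 + R * (p * p * d) with hm
  have hm6 : 6 * m + 2 ≤ L := by
    have e1 : 6 * m = 24 * R * (p + 2) ^ 3 + 6 * R * (p * p * d) + 18 := by rw [hm]; ring
    omega
  have hSc : Sᶜ.card = L - S.card := by
    rw [Finset.card_compl, Fintype.card_fin]
  obtain ⟨k, hk | hk⟩ := separated (m := m) S Sᶜ (by omega) (by rw [hSc]; omega)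
  · refine int_cut hw hp s t F Bf hcon S hS1 (S.filter (fun i : Fin L => (i : ℕ) < k))
      (Sᶜ.filter (fun i : Fin L => k ≤ (i : ℕ))) ?_ ?_ ?_ hk.1 hk.2
    · intro i hi
      exact (Finset.mem_filter.1 hi).1
    · intro i hi
      exact Finset.mem_compl.1 (Finset.mem_filter.1 hi).1
    · intro a ha b hb
      have h1 := (Finset.mem_filter.1 ha).2
      have h2 := (Finset.mem_filter.1 hb).2
      rw [Fin.lt_def]; omega
  · refine int_cut hw hp s t F Bf hcon Sᶜ (fun j => by rw [LFamily.bd_compl]; exact hS1 j)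
      (Sᶜ.filter (fun i : Fin L => (i : ℕ) < k)) (S.filter (fun i : Fin L => k ≤ (i : ℕ))) ?_ ?_ ?_ hk.1 hk.2
    · intro i hi
      exact (Finset.mem_filter.1 hi).1
    · intro i hi h
      exact Finset.mem_compl.1 h (Finset.mem_filter.1 hi).1
    · intro a ha b hb
      have h1 := (Finset.mem_filter.1 ha).2
      have h2 := (Finset.mem_filter.1 hb).2
      rw [Fin.lt_def]; omega

end H54.UPM
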