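import Pool.Agent.H54.UPM.Model

/-!
# Local families of bipartite graphs and their widths

Inputs are words `x : Fin L → α`.  An `LFamily α L d` consists of two finite sets of vertices `A`,
`B` (the colour classes); for every pair `(a, b)` there is a nonempty set `own a b` of at most `d`
input positions, and the presence of the edge `a b` in the graph built from `x` depends only on the
letters of `x` at the positions in `own a b`.
-/

namespace H54.UPM

/-- A family of bipartite graphs, one for every word `x : Fin L → α`; every edge depends on at most
`d` letters. -/
structure LFamily (α : Type) (L d : ℕ) where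
  /-- The first colour class. -/
  A : Type
  /-- The second colour class. -/
  B : Type
  finA : Finite A
  finB : Finite B
  /-- The input positions on which the edge between `a` and `b` may depend. -/
  own : A → B → Finset (Fin L)
  own_nonempty : ∀ a b, (own a b).Nonempty
  own_card : ∀ a b, (own a b).card ≤ d
  /-- The edge `a b` is present in the graph built from `x`. -/
  edge : A → B → (Fin L → α) → Prop
  edge_congr : ∀ a b x y, (∀ i ∈ own a b, x i = y i) → (edge a b x ↔ edge a b y)

namespace LFamily

variable {α : Type} {L d : ℕ}

/-- The bipartite graph built from the input `x`. -/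
def graph (F : LFamily α L d) (x : Fin L → α) : SimpleGraph (F.A ⊕ F.B) where
  Adj u v := (∃ a b, u = Sum.inl a ∧ v = Sum.inr b ∧ F.edge a b x) ∨
    (∃ a b, u = Sum.inr b ∧ v = Sum.inl a ∧ F.edge a b x)
  symm := ⟨by
    rintro u v (⟨a, b, rfl, rfl, h⟩ | ⟨a, b, rfl, rfl, h⟩)
    · exact Or.inr ⟨a, b, rfl, rfl, h⟩
    · exact Or.inl ⟨a, b, rfl, rfl, h⟩⟩
  loopless := ⟨by
    rintro u (⟨a, b, rfl, h, -⟩ | ⟨a, b, rfl, h, -⟩) <;> simp at h⟩

/-- The pair `(a, b)` is a potential edge: it is present for some input. -/
def Pot (F : LFamily α L d) (a : F.A) (b : F.B) : Prop := ∃ x, F.edge a b x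

/-- The vertex `v` has a potential edge that may depend on the position `i`. -/
def Touches (F : LFamily α L d) (v : F.A ⊕ F.B) (i : Fin L) : Prop :=
  ∃ a b, (v = Sum.inl a ∨ v = Sum.inr b) ∧ F.Pot a b ∧ i ∈ F.own a b

/-- The interface of a set `S` of positions: the vertices that have potential edges owned by
positions in `S` and potential edges owned by positions outside `S`. -/
def bd (F : LFamily α L d) (S : Finset (Fin L)) : Set (F.A ⊕ F.B) :=
  {v | (∃ i ∈ S, F.Touches v i) ∧ ∃ i, i ∉ S ∧ F.Touches v i}

/-- The interfaces between the positions `< k` and the positions `≥ k` have at most `p`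
vertices. -/
def LinWidthLE (F : LFamily α L d) (p : ℕ) : Prop :=
  ∀ k : ℕ, (F.bd (Finset.univ.filter (fun i => (i : ℕ) < k))).ncard ≤ p

end LFamily

/-- Tree layouts of the input positions: rooted binary trees, every node carries at most one input
position. -/
inductive Layout (L : ℕ) : Type
  | nil : Layout L
  | node (o : Option (Fin L)) (l r : Layout L) : Layout L

namespace Layout

variable {L : ℕ}

/-- The set of positions occurring in a tree. -/
def pos : Layout L → Finset (Fin L)
  | nil => ∅
  | node o l r => o.toFinset ∪ (l.pos ∪ r.pos)

/-- All subtrees have position sets satisfying `P`. -/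
def All (P : Finset (Fin L) → Prop) : Layout L → Prop
  | nil => True
  | node o l r => P (node o l r).pos ∧ l.All P ∧ r.All P

end Layout

/-- The family has width at most `p` with respect to some tree layout of the positions: for every
subtree the interface of the set of positions in this subtree has at most `p` vertices. -/
def LFamily.TreeWidthLE {α : Type} {L d : ℕ} (F : LFamily α L d) (p : ℕ) : Prop :=
  ∃ t : Layout L, t.pos = Finset.univ ∧ t.All (fun S => (F.bd S).ncard ≤ p)

end H54.UPM
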