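import Pool.Agent.H54.UPM.LModel
import Pool.Agent.H54.UPM.Ramsey

/-!
# From tree layouts to linear layouts of a subset of the positions
-/

namespace H54.UPM

open Function

theorem Layout.chain {L : ℕ} (Q : Finset (Fin L) → Prop) (P : Finset (Fin L)) :
    ∀ (t : Layout L) (n : ℕ), t.All Q → 2 ^ n ≤ (t.pos ∩ P).card →
      ∃ (u : ℕ → Fin L) (T : ℕ → Finset (Fin L)), (∀ j, j ≤ n → u j ∈ P) ∧
        (∀ j, j ≤ n → Q (T j)) ∧ (∀ j k, j ≤ k → k ≤ n → T k ⊆ T j) ∧
        (∀ j k, j ≤ n → k ≤ n → (u k ∈ T j ↔ j ≤ k)) ∧ T 0 ⊆ t.pos := by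
  intro t
  induction t with
  | nil =>
    intro n _ h
    simp only [Layout.pos, Finset.empty_inter, Finset.card_empty] at h
    have : 0 < 2 ^ n := by positivity
    omega
  | node o l r ihl ihr =>
    intro n hQ h
    obtain ⟨hQ0, hQl, hQr⟩ := hQ
    rcases n with _ | m
    · have hne : ((Layout.node o l r).pos ∩ P).Nonempty := Finset.card_pos.1 (by simpa using h)
      obtain ⟨i, hi⟩ := hne
      rw [Finset.mem_inter] at hi
      refine ⟨fun _ => i, fun _ => (Layout.node o l r).pos, fun _ _ => hi.2, fun _ _ => hQ0,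
        fun _ _ _ _ => subset_rfl, ?_, subset_rfl⟩
      intro j k hj hk
      exact ⟨fun _ => by omega, fun _ => hi.1⟩
    · by_cases hl : 2 ^ (m + 1) ≤ (l.pos ∩ P).card
      · obtain ⟨u, T, h1, h2, h3, h4, h5⟩ := ihl (m + 1) hQl hl
        exact ⟨u, T, h1, h2, h3, h4, h5.trans (by
          intro i hi; simp [Layout.pos, hi])⟩
      by_cases hr : 2 ^ (m + 1) ≤ (r.pos ∩ P).card
      · obtain ⟨u, T, h1, h2, h3, h4, h5⟩ := ihr (m + 1) hQr hr
        exact ⟨u, T, h1, h2, h3, h4, h5.trans (by
          intro i hi; simp [Layout.pos, hi])⟩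
      push Not at hl hr
      have hsum : ((Layout.node o l r).pos ∩ P).card ≤
          1 + ((l.pos ∩ P).card + (r.pos ∩ P).card) := by
        have e : (Layout.node o l r).pos ∩ P =
            (o.toFinset ∩ P) ∪ ((l.pos ∩ P) ∪ (r.pos ∩ P)) := by
          rw [Layout.pos, Finset.union_inter_distrib_right, Finset.union_inter_distrib_right]
        rw [e]
        refine (Finset.card_union_le _ _).trans (Nat.add_le_add ?_ (Finset.card_union_le _ _))
        refine (Finset.card_le_card Finset.inter_subset_left).trans ?_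
        rcases o with _ | o <;> simp
      have hpow : 2 ^ (m + 1) = 2 * 2 ^ m := by rw [pow_succ]; ring
      -- a child with many positions
      have key : ∀ c : Layout L, c.All Q → c.pos ⊆ (Layout.node o l r).pos →
          2 ^ m ≤ (c.pos ∩ P).card → (c.pos ∩ P).card < 2 ^ (m + 1) →
          (∃ (u : ℕ → Fin L) (T : ℕ → Finset (Fin L)), (∀ j, j ≤ m → u j ∈ P) ∧
            (∀ j, j ≤ m → Q (T j)) ∧ (∀ j k, j ≤ k → k ≤ m → T k ⊆ T j) ∧
            (∀ j k, j ≤ m → k ≤ m → (u k ∈ T j ↔ j ≤ k)) ∧ T 0 ⊆ c.pos) →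
          ∃ (u : ℕ → Fin L) (T : ℕ → Finset (Fin L)), (∀ j, j ≤ m + 1 → u j ∈ P) ∧
            (∀ j, j ≤ m + 1 → Q (T j)) ∧ (∀ j k, j ≤ k → k ≤ m + 1 → T k ⊆ T j) ∧
            (∀ j k, j ≤ m + 1 → k ≤ m + 1 → (u k ∈ T j ↔ j ≤ k)) ∧
            T 0 ⊆ (Layout.node o l r).pos := by
        rintro c - hc hc1 hc2 ⟨u, T, h1, h2, h3, h4, h5⟩
        obtain ⟨u0, hu0, hu0c⟩ : ∃ u0 ∈ (Layout.node o l r).pos ∩ P, u0 ∉ c.pos ∩ P := by
          by_contra hcon
          push Not at hcon
          have := Finset.card_le_card (show (Layout.node o l r).pos ∩ P ⊆ c.pos ∩ P from hcon)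
          omega
        rw [Finset.mem_inter] at hu0
        have hu0c' : u0 ∉ c.pos := fun h => hu0c (Finset.mem_inter.2 ⟨h, hu0.2⟩)
        refine ⟨fun k => match k with | 0 => u0 | k + 1 => u k,
          fun k => match k with | 0 => (Layout.node o l r).pos | k + 1 => T k, ?_, ?_, ?_, ?_, ?_⟩
        · intro j hj
          rcases j with _ | j
          · exact hu0.2
          · exact h1 j (by omega)
        · intro j hj
          rcases j with _ | j
          · exact hQ0
          · exact h2 j (by omega)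
        · intro j k hjk hk
          rcases j with _ | j <;> rcases k with _ | k
          · exact subset_rfl
          · exact (h3 0 k (by omega) (by omega)).trans (h5.trans hc)
          · omega
          · exact h3 j k (by omega) (by omega)
        · intro j k hj hk
          rcases j with _ | j <;> rcases k with _ | k
          · exact ⟨fun _ => le_rfl, fun _ => hu0.1⟩
          · refine ⟨fun _ => by omega, fun _ => ?_⟩
            exact hc (h5 ((h4 0 k (by omega) (by omega)).2 (by omega)))
          · refine ⟨fun h => ?_, fun h => by omega⟩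
            exact absurd (h5 (h3 0 j (by omega) (by omega) h)) hu0c'
          · simp only
            rw [h4 j k (by omega) (by omega)]
            omega
        · exact subset_rfl
      by_cases hl2 : 2 ^ m ≤ (l.pos ∩ P).card
      · exact key l hQl (by intro i hi; simp [Layout.pos, hi]) hl2 hl (ihl m hQl hl2)
      · have hr2 : 2 ^ m ≤ (r.pos ∩ P).card := by omega
        exact key r hQr (by intro i hi; simp [Layout.pos, hi]) hr2 hr (ihr m hQr hr2)

namespace LFamily

variable {α : Type} {L d : ℕ}

theorem bd_compl (F : LFamily α L d) (S : Finset (Fin L)) : F.bd Sᶜ = F.bd S := by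
  ext v
  simp only [bd, Finset.mem_compl, not_not]
  constructor
  · rintro ⟨⟨i, h1, h2⟩, ⟨j, h3, h4⟩⟩
    exact ⟨⟨j, h3, h4⟩, ⟨i, h1, h2⟩⟩
  · rintro ⟨⟨i, h1, h2⟩, ⟨j, h3, h4⟩⟩
    exact ⟨⟨j, h3, h4⟩, ⟨i, h1, h2⟩⟩

theorem bd_empty (F : LFamily α L d) : F.bd ∅ = ∅ := by
  ext v
  simp only [Set.mem_empty_iff_false, iff_false]
  rintro ⟨⟨i, h1, -⟩, -⟩
  simp at h1

/-- The set `P` of positions is laid out linearly. -/
structure Lin (F : LFamily α L d) (p : ℕ) (P : Finset (Fin L)) : Prop where
  cuts : ∃ S : ℕ → Finset (Fin L), Monotone S ∧ (∀ q, (F.bd (S q)).ncard ≤ p) ∧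
    ∀ i ∈ P, ∀ q, ((i : ℕ) < q ↔ i ∈ S q)
  indep : ∀ a b, F.Pot a b → ∀ i ∈ P, ∀ j ∈ P, i ∈ F.own a b → j ∈ F.own a b → i = j

theorem Lin.mono {F : LFamily α L d} {p : ℕ} {P P' : Finset (Fin L)} (h : F.Lin p P)
    (hP : P' ⊆ P) : F.Lin p P' where
  cuts := by
    obtain ⟨S, h1, h2, h3⟩ := h.cuts
    exact ⟨S, h1, h2, fun i hi => h3 i (hP hi)⟩
  indep a b hab i hi j hj := h.indep a b hab i (hP hi) j (hP hj)

/-- The union of an initial part of a chain. -/
theorem biUnion_chain {L n : ℕ} {T : ℕ → Finset (Fin L)}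
    (hT : ∀ j k, j ≤ k → k ≤ n → T k ⊆ T j) (J : Finset ℕ) (hJ : ∀ j ∈ J, j ≤ n) :
    J.biUnion T = ∅ ∨ ∃ j ∈ J, J.biUnion T = T j := by
  by_cases h : J.Nonempty
  · right
    refine ⟨J.min' h, J.min'_mem h, ?_⟩
    apply Finset.Subset.antisymm
    · intro i hi
      rw [Finset.mem_biUnion] at hi
      obtain ⟨j, hj, hij⟩ := hi
      exact hT _ _ (J.min'_le j hj) (hJ j hj) hij
    · intro i hi
      rw [Finset.mem_biUnion]
      exact ⟨_, J.min'_mem h, hi⟩
  · left
    rw [Finset.not_nonempty_iff_eq_empty] at h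
    rw [h, Finset.biUnion_empty]

/-- **Selection of linearly laid out positions.** -/
theorem exists_lin (p d m : ℕ) : ∃ N : ℕ, ∀ (α : Type) (L : ℕ) (F : LFamily α L d),
    F.TreeWidthLE p → ∀ P : Finset (Fin L), N ≤ P.card → ∃ P' ⊆ P, m ≤ P'.card ∧ F.Lin p P' := by
  classical
  set M := max m (p * p * d + 2) with hM
  obtain ⟨N0, hN0⟩ := ramsey (C := Bool × Bool) M
  refine ⟨2 ^ N0, ?_⟩
  rintro α L F ⟨t, ht, htQ⟩ P hP
  have hA := F.finA
  have hB := F.finB
  obtain ⟨u, T, hu, hTQ, hT, huT, -⟩ := t.chain (fun S => (F.bd S).ncard ≤ p) P N0 htQ (by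
    rw [ht, Finset.univ_inter]; exact hP)
  let conf : ℕ → ℕ → Prop := fun j k => ∃ a b, F.Pot a b ∧ u j ∈ F.own a b ∧ u k ∈ F.own a b
  obtain ⟨⟨b1, b2⟩, l, hl, hlS, hlP⟩ := hN0 (fun j k => (decide (u j < u k), decide (conf j k)))
    (Finset.range N0 ∪ {N0}) (by
      refine le_trans ?_ (Finset.card_le_card Finset.subset_union_left)
      rw [Finset.card_range])
  have hln : ∀ j ∈ l, j ≤ N0 := by
    intro j hj
    have := hlS j hj
    simp only [Finset.mem_union, Finset.mem_range, Finset.mem_singleton] at this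
    omega
  have hlt : l.Pairwise (· < ·) := hlP.imp (fun h => h.1)
  have huinj : ∀ j k, j ≤ N0 → k ≤ N0 → u j = u k → j = k := by
    intro j k hj hk h
    have h1 := (huT k k hk hk).2 le_rfl
    rw [← h, huT k j hk hj] at h1
    have h2 := (huT j j hj hj).2 le_rfl
    rw [h, huT j k hj hk] at h2
    omega
  have hpair : ∀ j ∈ l, ∀ k ∈ l, j < k → decide (u j < u k) = b1 ∧ decide (conf j k) = b2 := by
    intro j hj k hk hjk
    obtain ⟨ij, hij, rfl⟩ := List.mem_iff_getElem.1 hj
    obtain ⟨ik, hik, rfl⟩ := List.mem_iff_getElem.1 hk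
    have hlt2 : ij < ik := by
      by_contra hcon
      push Not at hcon
      rcases Nat.lt_or_eq_of_le hcon with h | h
      · have := List.pairwise_iff_getElem.1 hlt ik ij hik hij h
        omega
      · subst h; omega
    have := (List.pairwise_iff_getElem.1 hlP ij ik hij hik hlt2).2
    exact ⟨congrArg Prod.fst this, congrArg Prod.snd this⟩
  have hnodup : l.Nodup := hlt.imp (fun h => ne_of_lt h)
  -- no conflicts
  have hb2 : b2 = false := by
    by_contra hcon
    have hb2 : b2 = true := by simpa using hcon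
    obtain ⟨j0, rest, rfl⟩ : ∃ j0 rest, l = j0 :: rest := by
      rcases l with _ | ⟨j0, rest⟩
      · simp at hl; omega
      · exact ⟨j0, rest, rfl⟩
    have hrest : ∀ k ∈ rest, j0 < k := (List.pairwise_cons.1 hlt).1
    have hconf : ∀ k ∈ rest, conf j0 k := by
      intro k hk
      have := (hpair j0 (by simp) k (List.mem_cons_of_mem _ hk) (hrest k hk)).2
      rw [hb2] at this
      simpa using this
    let D := F.bd (T (j0 + 1))
    have hDfin : D.Finite := Set.toFinite _
    have hD : D.ncard ≤ p := by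
      apply hTQ
      obtain ⟨k, hk⟩ : ∃ k, k ∈ rest := by
        rcases rest with _ | ⟨k, rest⟩
        · simp at hl; omega
        · exact ⟨k, by simp⟩
      have := hrest k hk
      have := hln k (List.mem_cons_of_mem _ hk)
      omega
    let EA : Finset F.A := (Set.toFinite {a : F.A | (Sum.inl a : F.A ⊕ F.B) ∈ D}).toFinset
    let EB : Finset F.B := (Set.toFinite {b : F.B | (Sum.inr b : F.A ⊕ F.B) ∈ D}).toFinset
    have hEA : EA.card ≤ p := by
      refine le_trans ?_ hD
      have : EA.card = {a : F.A | (Sum.inl a : F.A ⊕ F.B) ∈ D}.ncard :=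
        (Set.ncard_eq_toFinset_card _).symm
      rw [this, ← Set.ncard_image_of_injective _ (Sum.inl_injective : Injective
        (Sum.inl : F.A → F.A ⊕ F.B))]
      apply Set.ncard_le_ncard _ hDfin
      rintro _ ⟨a, ha, rfl⟩
      exact ha
    have hEB : EB.card ≤ p := by
      refine le_trans ?_ hD
      have : EB.card = {b : F.B | (Sum.inr b : F.A ⊕ F.B) ∈ D}.ncard :=
        (Set.ncard_eq_toFinset_card _).symm
      rw [this, ← Set.ncard_image_of_injective _ (Sum.inr_injective : Injective
        (Sum.inr : F.B → F.A ⊕ F.B))]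
      apply Set.ncard_le_ncard _ hDfin
      rintro _ ⟨a, ha, rfl⟩
      exact ha
    have hsub : rest.toFinset.image u ⊆ (EA ×ˢ EB).biUnion (fun ab => F.own ab.1 ab.2) := by
      intro i hi
      rw [Finset.mem_image] at hi
      obtain ⟨k, hk, rfl⟩ := hi
      rw [List.mem_toFinset] at hk
      obtain ⟨a, b, h1, h2, h3⟩ := hconf k hk
      have hk1 := hrest k hk
      have hk2 := hln k (List.mem_cons_of_mem _ hk)
      have hj2 := hln j0 (by simp)
      have hin : u k ∈ T (j0 + 1) := (huT (j0 + 1) k (by omega) hk2).2 (by omega)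
      have hout : u j0 ∉ T (j0 + 1) := fun h => by
        have := (huT (j0 + 1) j0 (by omega) hj2).1 h
        omega
      have hDa : (Sum.inl a : F.A ⊕ F.B) ∈ D :=
        ⟨⟨u k, hin, a, b, Or.inl rfl, h1, h3⟩, ⟨u j0, hout, a, b, Or.inl rfl, h1, h2⟩⟩
      have hDb : (Sum.inr b : F.A ⊕ F.B) ∈ D :=
        ⟨⟨u k, hin, a, b, Or.inr rfl, h1, h3⟩, ⟨u j0, hout, a, b, Or.inr rfl, h1, h2⟩⟩
      rw [Finset.mem_biUnion]
      refine ⟨(a, b), ?_, h3⟩
      rw [Finset.mem_product]
      exact ⟨(Set.Finite.mem_toFinset _).2 hDa, (Set.Finite.mem_toFinset _).2 hDb⟩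
    have hcard1 := Finset.card_le_card hsub
    have hcard2 : ((EA ×ˢ EB).biUnion (fun ab => F.own ab.1 ab.2)).card ≤ (p * p) * d := by
      refine (Finset.card_biUnion_le_card_mul _ _ d (fun ab _ => F.own_card _ _)).trans ?_
      rw [Finset.card_product]
      exact Nat.mul_le_mul_right _ (Nat.mul_le_mul hEA hEB)
    have hcard3 : (rest.toFinset.image u).card = rest.length := by
      rw [Finset.card_image_of_injOn, List.toFinset_card_of_nodup (List.nodup_cons.1 hnodup).2]
      intro j hj k hk h
      simp only [Finset.mem_coe, List.mem_toFinset] at hj hk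
      exact huinj j k (hln j (List.mem_cons_of_mem _ hj)) (hln k (List.mem_cons_of_mem _ hk)) h
    rw [List.length_cons] at hl
    omega
  have hnoconf : ∀ j ∈ l, ∀ k ∈ l, j < k → ¬ conf j k := by
    intro j hj k hk hjk hc
    have := (hpair j hj k hk hjk).2
    rw [hb2] at this
    simp [hc] at this
  refine ⟨l.toFinset.image u, ?_, ?_, ?_, ?_⟩
  · intro i hi
    rw [Finset.mem_image] at hi
    obtain ⟨k, hk, rfl⟩ := hi
    rw [List.mem_toFinset] at hk
    exact hu k (hln k hk)
  · rw [Finset.card_image_of_injOn, List.toFinset_card_of_nodup hnodup, hl]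
    · exact le_max_left _ _
    · intro j hj k hk h
      simp only [Finset.mem_coe, List.mem_toFinset] at hj hk
      exact huinj j k (hln j hj) (hln k hk) h
  · -- the cuts
    rcases hb1 : b1 with _ | _
    · -- decreasing
      have hdec : ∀ j ∈ l, ∀ k ∈ l, j < k → u k < u j := by
        intro j hj k hk hjk
        have h1 := (hpair j hj k hk hjk).1
        rw [hb1] at h1
        have h2 : ¬ u j < u k := by simpa using h1
        have h3 : u j ≠ u k := fun h => by
          have := huinj j k (hln j hj) (hln k hk) h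
          omega
        exact lt_of_le_of_ne (not_lt.1 h2) (Ne.symm h3)
      let J : ℕ → Finset ℕ := fun q => l.toFinset.filter (fun j => ((u j : Fin L) : ℕ) < q)
      refine ⟨fun q => (J q).biUnion T, ?_, ?_, ?_⟩
      · intro q q' hqq
        apply Finset.biUnion_subset_biUnion_of_subset_left
        intro j hj
        simp only [J, Finset.mem_filter] at hj ⊢
        exact ⟨hj.1, by omega⟩
      · intro q
        have hJ : ∀ j ∈ J q, j ≤ N0 := by
          intro j hj
          simp only [J, Finset.mem_filter, List.mem_toFinset] at hj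
          exact hln j hj.1
        rcases biUnion_chain hT (J q) hJ with h | ⟨j, hj, h⟩
        · simp only [h]
          rw [F.bd_empty]; simp
        · simp only [h]
          exact hTQ j (hJ j hj)
      · intro i hi q
        rw [Finset.mem_image] at hi
        obtain ⟨k, hk, rfl⟩ := hi
        rw [List.mem_toFinset] at hk
        simp only [Finset.mem_biUnion, J, Finset.mem_filter, List.mem_toFinset]
        constructor
        · intro h
          exact ⟨k, ⟨hk, h⟩, (huT k k (hln k hk) (hln k hk)).2 le_rfl⟩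
        · rintro ⟨j, ⟨hj, hjq⟩, hjk⟩
          rw [huT j k (hln j hj) (hln k hk)] at hjk
          rcases Nat.lt_or_eq_of_le hjk with h | h
          · have := hdec j hj k hk h
            have : ((u k : Fin L) : ℕ) < u j := this
            omega
          · subst h; exact hjq
    · -- increasing
      have hinc : ∀ j ∈ l, ∀ k ∈ l, j < k → u j < u k := by
        intro j hj k hk hjk
        have h1 := (hpair j hj k hk hjk).1
        rw [hb1] at h1
        simpa using h1
      let J : ℕ → Finset ℕ := fun q => l.toFinset.filter (fun j => q ≤ ((u j : Fin L) : ℕ))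
      refine ⟨fun q => ((J q).biUnion T)ᶜ, ?_, ?_, ?_⟩
      · intro q q' hqq
        apply Finset.compl_subset_compl.2
        apply Finset.biUnion_subset_biUnion_of_subset_left
        intro j hj
        simp only [J, Finset.mem_filter] at hj ⊢
        exact ⟨hj.1, by omega⟩
      · intro q
        have hJ : ∀ j ∈ J q, j ≤ N0 := by
          intro j hj
          simp only [J, Finset.mem_filter, List.mem_toFinset] at hj
          exact hln j hj.1
        simp only [F.bd_compl]
        rcases biUnion_chain hT (J q) hJ with h | ⟨j, hj, h⟩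
        · rw [h, F.bd_empty]; simp
        · rw [h]
          exact hTQ j (hJ j hj)
      · intro i hi q
        rw [Finset.mem_image] at hi
        obtain ⟨k, hk, rfl⟩ := hi
        rw [List.mem_toFinset] at hk
        simp only [Finset.mem_compl, Finset.mem_biUnion, J, Finset.mem_filter, List.mem_toFinset]
        constructor
        · rintro h ⟨j, ⟨hj, hjq⟩, hjk⟩
          rw [huT j k (hln j hj) (hln k hk)] at hjk
          rcases Nat.lt_or_eq_of_le hjk with h' | h'
          · have := hinc j hj k hk h'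
            have : ((u j : Fin L) : ℕ) < u k := this
            omega
          · subst h'; omega
        · intro h
          by_contra hcon
          push Not at hcon
          exact h ⟨k, ⟨hk, hcon⟩, (huT k k (hln k hk) (hln k hk)).2 le_rfl⟩
  · -- independence
    intro a b hab i hi j hj h1 h2
    rw [Finset.mem_image] at hi hj
    obtain ⟨k, hk, rfl⟩ := hi
    obtain ⟨k', hk', rfl⟩ := hj
    rw [List.mem_toFinset] at hk hk'
    rcases lt_trichotomy k k' with h | h | h
    · exact absurd ⟨a, b, hab, h1, h2⟩ (hnoconf k hk k' hk' h)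
    · rw [h]
    · exact absurd ⟨a, b, hab, h2, h1⟩ (hnoconf k' hk' k hk h)

end LFamily

end H54.UPM
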