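import Pool.Agent.H54.UPM.Cut

/-!
# Gadgets with an empty state: linkings, cuts and Menger's theorem
-/

namespace H54.UPM

open Function Relation

variable {Q A B : Type}

/-- `b` can be reached from the right port `j` avoiding `Z`. -/
def RA (X : Q ⊕ (A ⊕ Q) → B → Prop) (f : B → Q ⊕ (A ⊕ Q)) (Z : Finset B) (j : Q) (b : B) : Prop :=
  ∃ b0, b0 ∉ Z ∧ X (Sum.inr (Sum.inr j)) b0 ∧
    ReflTransGen (fun b b' => X (f b) b' ∧ b' ∉ Z) b0 b

theorem RA.not_mem {X : Q ⊕ (A ⊕ Q) → B → Prop} {f : B → Q ⊕ (A ⊕ Q)} {Z : Finset B} {j : Q}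
    {b : B} (h : RA X f Z j b) : b ∉ Z := by
  obtain ⟨b0, h0, -, h⟩ := h
  induction h with
  | refl => exact h0
  | tail _ h _ => exact h.2

theorem RA.step {X : Q ⊕ (A ⊕ Q) → B → Prop} {f : B → Q ⊕ (A ⊕ Q)} {Z : Finset B} {j : Q}
    {b b' : B} (h : RA X f Z j b) (h' : X (f b) b') (hb' : b' ∉ Z) : RA X f Z j b' := by
  obtain ⟨b0, h0, h1, h⟩ := h
  exact ⟨b0, h0, h1, h.tail ⟨h', hb'⟩⟩

/-- Induction principle for reachability. -/
theorem RA.rec_on {X : Q ⊕ (A ⊕ Q) → B → Prop} {f : B → Q ⊕ (A ⊕ Q)} {Z : Finset B} {j : Q}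
    {C : B → Prop} (hbase : ∀ b, b ∉ Z → X (Sum.inr (Sum.inr j)) b → C b)
    (hstep : ∀ b b', C b → b ∉ Z → X (f b) b' → b' ∉ Z → C b') {b : B} (h : RA X f Z j b) :
    C b := by
  obtain ⟨b0, h0, h1, h⟩ := h
  have : C b ∧ b ∉ Z := by
    induction h with
    | refl => exact ⟨hbase _ h0 h1, h0⟩
    | tail _ h ih => exact ⟨hstep _ _ ih.1 ih.2 h.1 h.2, h.2⟩
  exact this.1

/-- `(Z, W)` is a cut between the right ports in `B'` and the left ports in `A'`. -/
def IsCut (X : Q ⊕ (A ⊕ Q) → B → Prop) (f : B → Q ⊕ (A ⊕ Q)) (A' B' : Finset Q) (Z : Finset B)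
    (W : Finset Q) : Prop :=
  ∀ j ∈ B', j ∉ W → ∀ b, RA X f Z j b → ∀ i ∈ A', f b ≠ Sum.inl i

/-- `(A', B')` contains a linked pair of sets of size `k`. -/
def Lk (x : Matrix (Finset Q) (Finset Q) T3) (A' B' : Finset Q) (k : ℕ) : Prop :=
  ∃ S ⊆ A', ∃ T ⊆ B', S.card = k ∧ T.card = k ∧ x S T ≠ 0

variable [Fintype Q] [Fintype A] [Fintype B]

theorem menger_easy {X : Q ⊕ (A ⊕ Q) → B → Prop} {f : B → Q ⊕ (A ⊕ Q)} (hf : IsPM X ∅ ∅ f)
    {S T A' B' : Finset Q} {g : B → Q ⊕ (A ⊕ Q)} (hg : IsPM X S T g) (hS : S ⊆ A') (hT : T ⊆ B')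
    {Z : Finset B} {W : Finset Q} (hc : IsCut X f A' B' Z W) : T.card ≤ Z.card + W.card := by
  classical
  set U : Finset B := Finset.univ.filter (fun b => ∃ j ∈ T \ W, RA X f Z j b) with hU
  -- the vertices `f u`, `u ∈ U`, and the right ports in `T \ W` are all matched by `g`
  have key : ∀ v : Q ⊕ (A ⊕ Q), ((∃ b ∈ U, f b = v) ∨ ∃ j ∈ T \ W, v = Sum.inr (Sum.inr j)) →
      ∃ b ∈ U ∪ Z, g b = v := by
    rintro v (⟨b, hb, rfl⟩ | ⟨j, hj, rfl⟩)
    · simp only [hU, Finset.mem_filter, Finset.mem_univ, true_and] at hb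
      obtain ⟨j, hj, hb⟩ := hb
      have hal : Alw S T (f b) := by
        have h1 := (hf.alw_iff (f b)).1 ⟨b, rfl⟩
        rcases hx : f b with (i | a | q)
        · simp only [Alw]
          intro hi
          rw [Finset.mem_sdiff] at hj
          exact hc j (hT hj.1) hj.2 b hb i (hS hi) hx
        · trivial
        · rw [hx] at h1; simp [Alw] at h1
      obtain ⟨b', hb'⟩ := (hg.alw_iff _).2 hal
      refine ⟨b', ?_, hb'⟩
      by_cases hz : b' ∈ Z
      · exact Finset.mem_union_right _ hz
      · apply Finset.mem_union_left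
        simp only [hU, Finset.mem_filter, Finset.mem_univ, true_and]
        refine ⟨j, hj, hb.step ?_ hz⟩
        rw [← hb']; exact hg.adj b'
    · have hj' := (Finset.mem_sdiff.1 hj).1
      obtain ⟨b', hb'⟩ := (hg.right j).2 hj'
      refine ⟨b', ?_, hb'⟩
      by_cases hz : b' ∈ Z
      · exact Finset.mem_union_right _ hz
      · apply Finset.mem_union_left
        simp only [hU, Finset.mem_filter, Finset.mem_univ, true_and]
        refine ⟨j, hj, b', hz, ?_, ReflTransGen.refl⟩
        rw [← hb']; exact hg.adj b'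
  set D : Finset (Q ⊕ (A ⊕ Q)) :=
    (U.image f) ∪ ((T \ W).image (fun j => Sum.inr (Sum.inr j))) with hD
  have h1 : D ⊆ (U ∪ Z).image g := by
    intro v hv
    rw [hD, Finset.mem_union, Finset.mem_image, Finset.mem_image] at hv
    rw [Finset.mem_image]
    apply key
    rcases hv with ⟨b, hb, rfl⟩ | ⟨j, hj, rfl⟩
    · left; exact ⟨b, hb, rfl⟩
    · right; exact ⟨j, hj, rfl⟩
  have h2 : D.card = U.card + (T \ W).card := by
    rw [hD, Finset.card_union_of_disjoint, Finset.card_image_of_injective _ hf.inj,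
      Finset.card_image_of_injective]
    · intro a b e
      simpa using e
    · rw [Finset.disjoint_left]
      intro v hv hv'
      rw [Finset.mem_image] at hv hv'
      obtain ⟨b, -, rfl⟩ := hv
      obtain ⟨j, -, hj⟩ := hv'
      have := (hf.right j).1 ⟨b, hj.symm⟩
      simp at this
  have h3 : D.card ≤ (U ∪ Z).card := (Finset.card_le_card h1).trans Finset.card_image_le
  have h4 : (U ∪ Z).card ≤ U.card + Z.card := Finset.card_union_le _ _
  have h5 : T.card ≤ (T \ W).card + W.card := by
    have := Finset.card_le_card (show T ⊆ (T \ W) ∪ W by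
      intro x hx; by_cases h : x ∈ W <;> simp [h, hx])
    exact this.trans (Finset.card_union_le _ _)
  omega

theorem menger_hard {X : Q ⊕ (A ⊕ Q) → B → Prop} {f : B → Q ⊕ (A ⊕ Q)} (hf : IsPM X ∅ ∅ f)
    {A' B' : Finset Q} {k : ℕ} (hk : ∀ Z W, IsCut X f A' B' Z W → k ≤ Z.card + W.card) :
    ∃ S ⊆ A', ∃ T ⊆ B', S.card = k ∧ T.card = k ∧ ∃ g, IsPM X S T g := by
  classical
  have hkb : k ≤ B'.card := by
    have := hk ∅ B' (fun j hj hj' => absurd hj hj')
    simpa using this
  let ι := {v : Q ⊕ (A ⊕ Q) // Alw ∅ B' v}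
  let α := B ⊕ (Fin k ⊕ Fin (B'.card - k))
  let rel : Q ⊕ (A ⊕ Q) → α → Prop := fun v a => match a with
    | Sum.inl b => X v b
    | Sum.inr (Sum.inl _) => ∃ i ∈ A', v = Sum.inl i
    | Sum.inr (Sum.inr _) => ∃ j, v = Sum.inr (Sum.inr j)
  let t : ι → Finset α := fun u => Finset.univ.filter (fun a => rel u.1 a)
  have hbal := hf.balance
  simp only [Finset.card_empty, add_zero] at hbal
  have hall : ∀ s : Finset ι, s.card ≤ (s.biUnion t).card := by
    intro s
    set K : Finset (Q ⊕ (A ⊕ Q)) := s.map ⟨Subtype.val, Subtype.val_injective⟩ with hK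
    have hKc : s.card = K.card := by rw [hK, Finset.card_map]
    have hKm : ∀ v, v ∈ K ↔ ∃ h : Alw ∅ B' v, (⟨v, h⟩ : ι) ∈ s := by
      intro v
      simp only [hK, Finset.mem_map, Embedding.coeFn_mk]
      constructor
      · rintro ⟨a, ha, rfl⟩; exact ⟨a.2, ha⟩
      · rintro ⟨h, ha⟩; exact ⟨_, ha, rfl⟩
    set N : Finset B := Finset.univ.filter (fun b => ∃ u ∈ K, X u b) with hN
    set M : Finset B := Finset.univ.filter (fun b => f b ∈ K) with hM
    set KR : Finset Q := Finset.univ.filter (fun j => (Sum.inr (Sum.inr j) : Q ⊕ (A ⊕ Q)) ∈ K) with hKR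
    have hMN : M ⊆ N := by
      intro b hb
      simp only [hM, Finset.mem_filter, Finset.mem_univ, true_and] at hb
      simp only [hN, Finset.mem_filter, Finset.mem_univ, true_and]
      exact ⟨f b, hb, hf.adj b⟩
    have hKRB : KR ⊆ B' := by
      intro j hj
      simp only [hKR, Finset.mem_filter, Finset.mem_univ, true_and] at hj
      obtain ⟨h, -⟩ := (hKm _).1 hj
      exact h
    have hKcard : K.card = M.card + KR.card := by
      have : K = (M.image f) ∪ (KR.image (fun j => Sum.inr (Sum.inr j))) := by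
        ext v
        simp only [hM, hKR, Finset.mem_union, Finset.mem_image, Finset.mem_filter,
          Finset.mem_univ, true_and]
        constructor
        · intro hv
          rcases v with (i | a | q)
          · left
            obtain ⟨b, hb⟩ := (hf.left i).2 (by simp)
            exact ⟨b, by rw [hb]; exact hv, hb⟩
          · left
            obtain ⟨b, hb⟩ := hf.mid a
            exact ⟨b, by rw [hb]; exact hv, hb⟩
          · right
            exact ⟨q, hv, rfl⟩
        · rintro (⟨b, hb, rfl⟩ | ⟨j, hj, rfl⟩)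
          · exact hb
          · exact hj
      rw [this, Finset.card_union_of_disjoint, Finset.card_image_of_injective _ hf.inj,
        Finset.card_image_of_injective]
      · intro a b e
        simpa using e
      · rw [Finset.disjoint_left]
        intro v hv hv'
        rw [Finset.mem_image] at hv hv'
        obtain ⟨b, -, rfl⟩ := hv
        obtain ⟨j, -, hj⟩ := hv'
        have := (hf.right j).1 ⟨b, hj.symm⟩
        simp at this
    -- the neighbourhood
    set C1 : Finset (Fin k) := if ∃ i ∈ A', (Sum.inl i : Q ⊕ (A ⊕ Q)) ∈ K then Finset.univ else ∅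
      with hC1
    set C2 : Finset (Fin (B'.card - k)) := if KR.Nonempty then Finset.univ else ∅ with hC2
    have hsub : (N.disjSum (C1.disjSum C2)) ⊆ s.biUnion t := by
      rintro (b | c | c) hc
      · rw [Finset.inl_mem_disjSum] at hc
        simp only [hN, Finset.mem_filter, Finset.mem_univ, true_and] at hc
        obtain ⟨u, hu, hub⟩ := hc
        obtain ⟨hu1, hu2⟩ := (hKm u).1 hu
        rw [Finset.mem_biUnion]
        exact ⟨⟨u, hu1⟩, hu2, by simp only [t, Finset.mem_filter, Finset.mem_univ, true_and]; exact hub⟩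
      · rw [Finset.inr_mem_disjSum, Finset.inl_mem_disjSum] at hc
        by_cases hex : ∃ i ∈ A', (Sum.inl i : Q ⊕ (A ⊕ Q)) ∈ K
        · obtain ⟨i, hi, hiK⟩ := hex
          obtain ⟨hu1, hu2⟩ := (hKm _).1 hiK
          rw [Finset.mem_biUnion]
          exact ⟨⟨_, hu1⟩, hu2, by
            simp only [t, Finset.mem_filter, Finset.mem_univ, true_and]; exact ⟨i, hi, rfl⟩⟩
        · rw [hC1, if_neg hex] at hc; simp at hc
      · rw [Finset.inr_mem_disjSum, Finset.inr_mem_disjSum] at hc
        by_cases hex : KR.Nonempty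
        · obtain ⟨j, hj⟩ := hex
          simp only [hKR, Finset.mem_filter, Finset.mem_univ, true_and] at hj
          obtain ⟨hu1, hu2⟩ := (hKm _).1 hj
          rw [Finset.mem_biUnion]
          exact ⟨⟨_, hu1⟩, hu2, by
            simp only [t, Finset.mem_filter, Finset.mem_univ, true_and]; exact ⟨j, rfl⟩⟩
        · rw [hC2, if_neg hex] at hc; simp at hc
    have hcardle : N.card + (C1.card + C2.card) ≤ (s.biUnion t).card := by
      rw [← Finset.card_disjSum, ← Finset.card_disjSum]
      exact Finset.card_le_card hsub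
    have hMNc : M.card ≤ N.card := Finset.card_le_card hMN
    have hKRc : KR.card ≤ B'.card := Finset.card_le_card hKRB
    rw [hKc, hKcard]
    by_cases hR : KR.Nonempty
    · have hC2c : C2.card = B'.card - k := by rw [hC2, if_pos hR]; simp
      by_cases hex : ∃ i ∈ A', (Sum.inl i : Q ⊕ (A ⊕ Q)) ∈ K
      · have hC1c : C1.card = k := by rw [hC1, if_pos hex]; simp
        omega
      · -- here the cut appears
        have hcut : IsCut X f A' B' (N \ M) (B' \ KR) := by
          intro j hj hjW b hb i hi hbi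
          have hjK : (Sum.inr (Sum.inr j) : Q ⊕ (A ⊕ Q)) ∈ K := by
            rw [Finset.mem_sdiff, not_and, not_not] at hjW
            have := hjW hj
            simpa only [hKR, Finset.mem_filter, Finset.mem_univ, true_and] using this
          have hbM : b ∈ M := by
            refine RA.rec_on (C := fun b => b ∈ M) ?_ ?_ hb
            · intro b hbZ hjb
              rw [Finset.mem_sdiff, not_and, not_not] at hbZ
              apply hbZ
              simp only [hN, Finset.mem_filter, Finset.mem_univ, true_and]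
              exact ⟨_, hjK, hjb⟩
            · intro b b' hbM _ hbb' hb'Z
              rw [Finset.mem_sdiff, not_and, not_not] at hb'Z
              apply hb'Z
              simp only [hM, Finset.mem_filter, Finset.mem_univ, true_and] at hbM
              simp only [hN, Finset.mem_filter, Finset.mem_univ, true_and]
              exact ⟨_, hbM, hbb'⟩
          simp only [hM, Finset.mem_filter, Finset.mem_univ, true_and] at hbM
          rw [hbi] at hbM
          exact hex ⟨i, hi, hbM⟩
        have h1 := hk _ _ hcut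
        have h2 : (N \ M).card = N.card - M.card := Finset.card_sdiff_of_subset hMN
        have h3 : (B' \ KR).card = B'.card - KR.card := Finset.card_sdiff_of_subset hKRB
        omega
    · have : KR.card = 0 := by
        rw [Finset.card_eq_zero]; exact Finset.not_nonempty_iff_eq_empty.1 hR
      omega
  obtain ⟨F, hF, hFt⟩ := (Finset.all_card_le_biUnion_card_iff_exists_injective t).1 hall
  have hcard : Fintype.card ι = Fintype.card α := by
    have h1 := card_alw (A := A) (∅ : Finset Q) B'
    rw [Nat.card_eq_fintype_card] at h1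
    have h2 : Fintype.card ι = Fintype.card {v : Q ⊕ (A ⊕ Q) // Alw ∅ B' v} := rfl
    have h3 : Fintype.card α = Fintype.card B + (k + (B'.card - k)) := by
      simp [α]
    simp at h1
    omega
  have hbij : Bijective F := (Fintype.bijective_iff_injective_and_card F).2 ⟨hF, hcard⟩
  let G := (Equiv.ofBijective F hbij).symm
  have hFG : ∀ a, F (G a) = a := fun a => (Equiv.ofBijective F hbij).apply_symm_apply a
  have hGF : ∀ u, G (F u) = u := fun u => (Equiv.ofBijective F hbij).symm_apply_apply u
  have hrel : ∀ a, rel (G a).1 a := by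
    intro a
    have := hFt (G a)
    simp only [t, Finset.mem_filter, Finset.mem_univ, true_and] at this
    rwa [hFG] at this
  have hl : ∀ i : Q, Alw (A := A) ∅ B' (Sum.inl i) := by intro i; simp [Alw]
  let S : Finset Q := Finset.univ.filter (fun i => ∃ c, F ⟨Sum.inl i, hl i⟩ = Sum.inr (Sum.inl c))
  let T : Finset Q := Finset.univ.filter
    (fun j => ∃ h : Alw (A := A) ∅ B' (Sum.inr (Sum.inr j)), ∃ b, F ⟨Sum.inr (Sum.inr j), h⟩ = Sum.inl b)
  have hSm : ∀ i, i ∈ S ↔ ∃ c, F ⟨Sum.inl i, hl i⟩ = Sum.inr (Sum.inl c) := by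
    intro i
    simp only [S, Finset.mem_filter, Finset.mem_univ, true_and]
  have hTm : ∀ j, j ∈ T ↔ ∃ h : Alw (A := A) ∅ B' (Sum.inr (Sum.inr j)), ∃ b,
      F ⟨Sum.inr (Sum.inr j), h⟩ = Sum.inl b := by
    intro j
    simp only [T, Finset.mem_filter, Finset.mem_univ, true_and]
  have hPM : IsPM X S T (fun b => (G (Sum.inl b)).1) := by
    apply isPM_of_alw
    · intro b b' e
      have := G.injective (Subtype.ext e)
      exact Sum.inl_injective this
    · intro b
      exact hrel (Sum.inl b)
    · rintro (i | a | j)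
      · rw [show Alw S T (Sum.inl i : Q ⊕ (A ⊕ Q)) = (i ∉ S) from rfl, hSm]
        constructor
        · rintro ⟨b, hb⟩ ⟨c, hc⟩
          have h1 : G (Sum.inl b) = ⟨Sum.inl i, hl i⟩ := Subtype.ext hb
          rw [← h1, hFG] at hc
          simp at hc
        · intro h
          rcases hx : F ⟨Sum.inl i, hl i⟩ with (b | c | c)
          · exact ⟨b, by rw [← hx, hGF]⟩
          · exact absurd ⟨c, hx⟩ h
          · exfalso
            have := hrel (Sum.inr (Sum.inr c))
            rw [← hx, hGF] at this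
            rw [hx] at this
            obtain ⟨j, hj⟩ := this
            simp at hj
      · simp only [Alw, iff_true]
        rcases hx : F ⟨Sum.inr (Sum.inl a), trivial⟩ with (b | c | c)
        · exact ⟨b, by rw [← hx, hGF]⟩
        · exfalso
          have := hrel (Sum.inr (Sum.inl c))
          rw [← hx, hGF] at this
          rw [hx] at this
          obtain ⟨j, -, hj⟩ := this
          simp at hj
        · exfalso
          have := hrel (Sum.inr (Sum.inr c))
          rw [← hx, hGF] at this
          rw [hx] at this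
          obtain ⟨j, hj⟩ := this
          simp at hj
      · rw [show Alw S T (Sum.inr (Sum.inr j) : Q ⊕ (A ⊕ Q)) = (j ∈ T) from rfl, hTm]
        constructor
        · rintro ⟨b, hb⟩
          have h1 := (G (Sum.inl b)).2
          rw [hb] at h1
          refine ⟨h1, b, ?_⟩
          have h2 : G (Sum.inl b) = ⟨Sum.inr (Sum.inr j), h1⟩ := Subtype.ext hb
          rw [← h2, hFG]
        · rintro ⟨h, b, hb⟩
          exact ⟨b, by rw [← hb, hGF]⟩
  have hSA : S ⊆ A' := by
    intro i hi
    simp only [S, Finset.mem_filter, Finset.mem_univ, true_and] at hi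
    obtain ⟨c, hc⟩ := hi
    have := hrel (Sum.inr (Sum.inl c))
    rw [← hc, hGF] at this
    rw [hc] at this
    obtain ⟨i', hi', e⟩ := this
    simp at e
    rw [e]; exact hi'
  have hTB : T ⊆ B' := by
    intro j hj
    simp only [T, Finset.mem_filter, Finset.mem_univ, true_and] at hj
    obtain ⟨h, -⟩ := hj
    exact h
  have hScard : S.card = k := by
    have : (S.image (Sum.inl : Q → Q ⊕ (A ⊕ Q))) =
        (Finset.univ : Finset (Fin k)).image (fun c => (G (Sum.inr (Sum.inl c))).1) := by
      ext v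
      simp only [Finset.mem_image, Finset.mem_univ, true_and, S, Finset.mem_filter]
      constructor
      · rintro ⟨i, ⟨c, hc⟩, rfl⟩
        exact ⟨c, by rw [← hc, hGF]⟩
      · rintro ⟨c, rfl⟩
        obtain ⟨i, -, hi⟩ := hrel (Sum.inr (Sum.inl c))
        refine ⟨i, ⟨c, ?_⟩, hi.symm⟩
        have h2 : G (Sum.inr (Sum.inl c)) = ⟨Sum.inl i, hl i⟩ := Subtype.ext hi
        rw [← h2, hFG]
    have h2 := congrArg Finset.card this
    rw [Finset.card_image_of_injective _ Sum.inl_injective, Finset.card_image_of_injective] at h2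
    · simpa using h2
    · intro c c' e
      have := G.injective (Subtype.ext e)
      exact Sum.inl_injective (Sum.inr_injective this)
  have hb2 := hPM.balance
  refine ⟨S, hSA, T, hTB, hScard, by omega, _, hPM⟩

/-- Menger's theorem for gadgets with an empty state. -/
theorem lk_iff {X : Q ⊕ (A ⊕ Q) → B → Prop} {f : B → Q ⊕ (A ⊕ Q)} (hf : IsPM X ∅ ∅ f)
    {A' B' : Finset Q} {k : ℕ} :
    Lk (sig X) A' B' k ↔ ∀ Z W, IsCut X f A' B' Z W → k ≤ Z.card + W.card := by
  constructor
  · rintro ⟨S, hS, T, hT, -, hTc, h⟩ Z W hc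
    obtain ⟨g, hg⟩ := (sig_ne_zero X S T).1 h
    rw [← hTc]
    exact menger_easy hf hg hS hT hc
  · intro h
    obtain ⟨S, hS, T, hT, h1, h2, g, hg⟩ := menger_hard hf h
    exact ⟨S, hS, T, hT, h1, h2, (sig_ne_zero X S T).2 ⟨g, hg⟩⟩

end H54.UPM
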