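import Pool.Agent.H54.UPM.Defs

/-!
# Input-dependent bipartite graphs whose edges are owned by input positions

Inputs are words `x : Fin L → α`.  A `Family α L` consists of two finite sets of vertices `A`, `B`
(the colour classes); every pair `(a, b)` is owned by one input position, and the presence of the
edge `a b` in the graph built from `x` depends only on the letter of `x` at that position.

For a cut `k` of the positions, the interface at `k` consists of the vertices that have potential
edges owned by positions `< k` and potential edges owned by positions `≥ k`.
-/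

namespace H54.UPM

/-- A family of bipartite graphs, one for every word `x : Fin L → α`. -/
structure Family (α : Type) (L : ℕ) where
  /-- The first colour class. -/
  A : Type
  /-- The second colour class. -/
  B : Type
  finA : Finite A
  finB : Finite B
  /-- The input position on which the edge between `a` and `b` depends. -/
  owner : A → B → Fin L
  /-- The edge `a b` is present if the letter at the position `owner a b` is `c`. -/
  edge : A → B → α → Prop

namespace Family

variable {α : Type} {L : ℕ}

/-- The bipartite graph built from the input `x`. -/
def graph (F : Family α L) (x : Fin L → α) : SimpleGraph (F.A ⊕ F.B) where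
  Adj u v := (∃ a b, u = Sum.inl a ∧ v = Sum.inr b ∧ F.edge a b (x (F.owner a b))) ∨
    (∃ a b, u = Sum.inr b ∧ v = Sum.inl a ∧ F.edge a b (x (F.owner a b)))
  symm := ⟨by
    rintro u v (⟨a, b, rfl, rfl, h⟩ | ⟨a, b, rfl, rfl, h⟩)
    · exact Or.inr ⟨a, b, rfl, rfl, h⟩
    · exact Or.inl ⟨a, b, rfl, rfl, h⟩⟩
  loopless := ⟨by
    rintro u (⟨a, b, rfl, h, -⟩ | ⟨a, b, rfl, h, -⟩) <;> simp at h⟩

/-- The vertex `v` has a potential edge (an edge present for some input) owned by position `i`. -/
def Touches (F : Family α L) (v : F.A ⊕ F.B) (i : Fin L) : Prop :=
  ∃ a b c, (v = Sum.inl a ∨ v = Sum.inr b) ∧ F.owner a b = i ∧ F.edge a b c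

/-- The interface at the cut `k` (between the positions `< k` and the positions `≥ k`): the vertices
with potential edges on both sides. -/
def interface (F : Family α L) (k : ℕ) : Set (F.A ⊕ F.B) :=
  {v | (∃ i : Fin L, (i : ℕ) < k ∧ F.Touches v i) ∧ ∃ i : Fin L, k ≤ (i : ℕ) ∧ F.Touches v i}

/-- All interfaces have at most `p` vertices. -/
def WidthLE (F : Family α L) (p : ℕ) : Prop := ∀ k, (F.interface k).ncard ≤ p

end Family

end H54.UPM
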