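import Pool.Agent.H54.UPM.Step

/-!
# The gadget of one input position

`f v` and `l v` are the first and the last position touching the vertex `v`.  At the boundary `i`
(between the positions `< i` and the positions `≥ i`) the vertices `v` with `f v < i ≤ l v` are
attached to ports `lab v`.
-/

namespace H54.UPM

open Function

variable {A B : Type} {p : ℕ}

/-- `v` belongs to the interface at the boundary `i`. -/
def InC (f l : A ⊕ B → ℕ) (i : ℕ) (v : A ⊕ B) : Prop := f v < i ∧ i ≤ l v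

/-- The covered vertices of the first colour in the state `T` of the boundary `i`. -/
def Us (f l : A ⊕ B → ℕ) (lab : A ⊕ B → Fin p) (i : ℕ) (T : Finset (Fin p)) : Set A :=
  {a | l (Sum.inl a) < i ∨ (InC f l i (Sum.inl a) ∧ lab (Sum.inl a) ∈ T)}

/-- The covered vertices of the second colour in the state `T` of the boundary `i`. -/
def Ws (f l : A ⊕ B → ℕ) (lab : A ⊕ B → Fin p) (i : ℕ) (T : Finset (Fin p)) : Set B :=
  {b | l (Sum.inr b) < i ∨ (InC f l i (Sum.inr b) ∧ lab (Sum.inr b) ∉ T)}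

/-- `q` is not used at the boundary `i`. -/
def Unused (f l : A ⊕ B → ℕ) (lab : A ⊕ B → Fin p) (i : ℕ) (q : Fin p) : Prop :=
  ∀ v, InC f l i v → lab v ≠ q

/-- The state contains all unused ports. -/
def Proper (f l : A ⊕ B → ℕ) (lab : A ⊕ B → Fin p) (i : ℕ) (T : Finset (Fin p)) : Prop :=
  ∀ q, Unused f l lab i q → q ∈ T

/-- Internal vertices of the gadget. -/
abbrev IAt (f l : A ⊕ B → ℕ) (i : ℕ) : Type :=
  {a : A // f (Sum.inl a) = i ∧ l (Sum.inl a) = i}

/-- Vertices of the second colour of the gadget. -/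
abbrev IBt (f l : A ⊕ B → ℕ) (lab' : A ⊕ B → Fin p) (i : ℕ) : Type :=
  {b : B // f (Sum.inr b) ≤ i ∧ i ≤ l (Sum.inr b)} ⊕
    ({a : A // f (Sum.inl a) < i ∧ i < l (Sum.inl a)} ⊕
      {q : Fin p // Unused f l lab' (i + 1) q})

/-- The gadget of the position `i` with edges `E`. -/
def posG (f l : A ⊕ B → ℕ) (lab lab' : A ⊕ B → Fin p) (i : ℕ) (E : A → B → Prop) :
    Fin p ⊕ (IAt f l i ⊕ Fin p) → IBt f l lab' i → Prop
  | Sum.inl q, Sum.inl b => (InC f l i (Sum.inr b.1) ∧ lab (Sum.inr b.1) = q) ∨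
      ∃ a, InC f l i (Sum.inl a) ∧ lab (Sum.inl a) = q ∧ E a b.1
  | Sum.inr (Sum.inl a), Sum.inl b => E a.1 b.1
  | Sum.inr (Sum.inr q), Sum.inl b => (InC f l (i + 1) (Sum.inr b.1) ∧ lab' (Sum.inr b.1) = q) ∨
      ∃ a, InC f l (i + 1) (Sum.inl a) ∧ f (Sum.inl a) = i ∧ lab' (Sum.inl a) = q ∧ E a b.1
  | Sum.inl q, Sum.inr (Sum.inl a) => lab (Sum.inl a.1) = q
  | Sum.inr (Sum.inl _), Sum.inr (Sum.inl _) => False
  | Sum.inr (Sum.inr q), Sum.inr (Sum.inl a) => lab' (Sum.inl a.1) = q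
  | Sum.inl _, Sum.inr (Sum.inr _) => False
  | Sum.inr (Sum.inl _), Sum.inr (Sum.inr _) => False
  | Sum.inr (Sum.inr q), Sum.inr (Sum.inr q') => q'.1 = q

open Classical in
/-- The vertex of the gadget to which the edges at `a` are attached. -/
noncomputable def att (f l : A ⊕ B → ℕ) (lab lab' : A ⊕ B → Fin p) (i : ℕ) (a : A) :
    Fin p ⊕ (IAt f l i ⊕ Fin p) :=
  if InC f l i (Sum.inl a) then Sum.inl (lab (Sum.inl a))
  else if h : f (Sum.inl a) = i ∧ l (Sum.inl a) = i then Sum.inr (Sum.inl ⟨a, h⟩)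
  else Sum.inr (Sum.inr (lab' (Sum.inl a)))

section

variable {f l : A ⊕ B → ℕ} {lab lab' : A ⊕ B → Fin p} {i : ℕ} {E : A → B → Prop}

theorem att_left {a : A} (h : InC f l i (Sum.inl a)) :
    att f l lab lab' i a = Sum.inl (lab (Sum.inl a)) := by
  rw [att, if_pos h]

theorem att_mid {a : A} (h : f (Sum.inl a) = i ∧ l (Sum.inl a) = i) :
    att f l lab lab' i a = Sum.inr (Sum.inl ⟨a, h⟩) := by
  rw [att, if_neg (by rintro ⟨h1, -⟩; omega), dif_pos h]

theorem att_right {a : A} (h1 : f (Sum.inl a) = i) (h2 : i < l (Sum.inl a)) :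
    att f l lab lab' i a = Sum.inr (Sum.inr (lab' (Sum.inl a))) := by
  rw [att, if_neg (by rintro ⟨h1, -⟩; omega), dif_neg (by rintro ⟨-, h⟩; omega)]

/-- Trichotomy for involved vertices. -/
theorem att_cases {a : A} (h1 : f (Sum.inl a) ≤ i) (h2 : i ≤ l (Sum.inl a)) :
    (InC f l i (Sum.inl a) ∧ att f l lab lab' i a = Sum.inl (lab (Sum.inl a))) ∨
    (∃ h : f (Sum.inl a) = i ∧ l (Sum.inl a) = i,
      att f l lab lab' i a = Sum.inr (Sum.inl ⟨a, h⟩)) ∨
    (f (Sum.inl a) = i ∧ InC f l (i + 1) (Sum.inl a) ∧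
      att f l lab lab' i a = Sum.inr (Sum.inr (lab' (Sum.inl a)))) := by
  by_cases h3 : f (Sum.inl a) < i
  · left
    exact ⟨⟨h3, h2⟩, att_left ⟨h3, h2⟩⟩
  · have h4 : f (Sum.inl a) = i := by omega
    by_cases h5 : l (Sum.inl a) = i
    · right; left
      exact ⟨⟨h4, h5⟩, att_mid ⟨h4, h5⟩⟩
    · right; right
      exact ⟨h4, ⟨by omega, by omega⟩, att_right h4 (by omega)⟩

end

/-- Hypotheses on the data. -/
structure PosData (f l : A ⊕ B → ℕ) (lab lab' : A ⊕ B → Fin p) (i : ℕ) (E : A → B → Prop) :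
    Prop where
  fl : ∀ v, f v ≤ l v
  inj : ∀ v w, InC f l i v → InC f l i w → lab v = lab w → v = w
  inj' : ∀ v w, InC f l (i + 1) v → InC f l (i + 1) w → lab' v = lab' w → v = w
  ea : ∀ {a b}, E a b → f (Sum.inl a) ≤ i ∧ i ≤ l (Sum.inl a)
  eb : ∀ {a b}, E a b → f (Sum.inr b) ≤ i ∧ i ≤ l (Sum.inr b)

section

variable {f l : A ⊕ B → ℕ} {lab lab' : A ⊕ B → Fin p} {i : ℕ} {E : A → B → Prop}

theorem PosData.att_inj (D : PosData f l lab lab' i E) {a a' : A}
    (h : f (Sum.inl a) ≤ i ∧ i ≤ l (Sum.inl a)) (h' : f (Sum.inl a') ≤ i ∧ i ≤ l (Sum.inl a'))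
    (e : att f l lab lab' i a = att f l lab lab' i a') : a = a' := by
  rcases att_cases (lab := lab) (lab' := lab') h.1 h.2 with ⟨h1, h2⟩ | ⟨h1, h2⟩ | ⟨h1, h2, h3⟩ <;>
  rcases att_cases (lab := lab) (lab' := lab') h'.1 h'.2 with ⟨h1', h2'⟩ | ⟨h1', h2'⟩ | ⟨h1', h2', h3'⟩
  · rw [h2, h2'] at e
    exact Sum.inl_injective (D.inj _ _ h1 h1' (Sum.inl_injective e))
  · rw [h2, h2'] at e; simp at e
  · rw [h2, h3'] at e; simp at e
  · rw [h2, h2'] at e; simp at e
  · rw [h2, h2'] at e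
    simpa using e
  · rw [h2, h3'] at e; simp at e
  · rw [h3, h2'] at e; simp at e
  · rw [h3, h2'] at e; simp at e
  · rw [h3, h3'] at e
    exact Sum.inl_injective (D.inj' _ _ h2 h2' (Sum.inr_injective (Sum.inr_injective e)))

/-- The edges of the gadget at a vertex `b`. -/
theorem PosData.adj_vtx (D : PosData f l lab lab' i E)
    (b : {b : B // f (Sum.inr b) ≤ i ∧ i ≤ l (Sum.inr b)}) (v) :
    posG f l lab lab' i E v (Sum.inl b) ↔
      (InC f l i (Sum.inr b.1) ∧ v = Sum.inl (lab (Sum.inr b.1))) ∨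
      (InC f l (i + 1) (Sum.inr b.1) ∧ v = Sum.inr (Sum.inr (lab' (Sum.inr b.1)))) ∨
      ∃ a, E a b.1 ∧ v = att f l lab lab' i a := by
  rcases v with q | a | q
  · constructor
    · rintro (⟨h1, h2⟩ | ⟨a, h1, h2, h3⟩)
      · left; exact ⟨h1, by rw [h2]⟩
      · right; right; exact ⟨a, h3, by rw [att_left h1, h2]⟩
    · rintro (⟨h1, h2⟩ | ⟨h1, h2⟩ | ⟨a, h1, h2⟩)
      · left; exact ⟨h1, (Sum.inl_injective h2).symm⟩
      · simp at h2
      · right
        have h := D.ea h1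
        rcases att_cases (lab := lab) (lab' := lab') h.1 h.2 with ⟨h3, h4⟩ | ⟨h3, h4⟩ | ⟨h3, h4, h5⟩
        · rw [h4] at h2
          exact ⟨a, h3, (Sum.inl_injective h2).symm, h1⟩
        · rw [h4] at h2; simp at h2
        · rw [h5] at h2; simp at h2
  · constructor
    · intro h
      right; right
      exact ⟨a.1, h, by rw [att_mid a.2]⟩
    · rintro (⟨h1, h2⟩ | ⟨h1, h2⟩ | ⟨a', h1, h2⟩)
      · simp at h2
      · simp at h2
      · have h := D.ea h1
        rcases att_cases (lab := lab) (lab' := lab') h.1 h.2 with ⟨h3, h4⟩ | ⟨h3, h4⟩ | ⟨h3, h4, h5⟩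
        · rw [h4] at h2; simp at h2
        · rw [h4] at h2
          have : a = ⟨a', h3⟩ := Sum.inl_injective (Sum.inr_injective h2)
          rw [this]
          exact h1
        · rw [h5] at h2; simp at h2
  · constructor
    · rintro (⟨h1, h2⟩ | ⟨a, h1, h2, h3, h4⟩)
      · right; left; exact ⟨h1, by rw [h2]⟩
      · right; right; exact ⟨a, h4, by rw [att_right h2 (by have := h1.2; omega), h3]⟩
    · rintro (⟨h1, h2⟩ | ⟨h1, h2⟩ | ⟨a, h1, h2⟩)
      · simp at h2
      · left; exact ⟨h1, (Sum.inr_injective (Sum.inr_injective h2)).symm⟩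
      · right
        have h := D.ea h1
        rcases att_cases (lab := lab) (lab' := lab') h.1 h.2 with ⟨h3, h4⟩ | ⟨h3, h4⟩ | ⟨h3, h4, h5⟩
        · rw [h4] at h2; simp at h2
        · rw [h4] at h2; simp at h2
        · rw [h5] at h2
          exact ⟨a, h4, h3, (Sum.inr_injective (Sum.inr_injective h2)).symm, h1⟩

theorem adj_con (a : {a : A // f (Sum.inl a) < i ∧ i < l (Sum.inl a)}) (v) :
    posG f l lab lab' i E v (Sum.inr (Sum.inl a)) ↔
      v = Sum.inl (lab (Sum.inl a.1)) ∨ v = Sum.inr (Sum.inr (lab' (Sum.inl a.1))) := by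
  rcases v with q | a' | q
  · simp [posG, eq_comm]
  · simp [posG]
  · simp [posG, eq_comm]

theorem adj_pend (q' : {q : Fin p // Unused f l lab' (i + 1) q}) (v) :
    posG f l lab lab' i E v (Sum.inr (Sum.inr q')) ↔ v = Sum.inr (Sum.inr q'.1) := by
  rcases v with q | a' | q
  · simp [posG]
  · simp [posG]
  · simp [posG, eq_comm]

end

end H54.UPM
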