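import Pool.Agent.H54.UPM.Pos

/-!
# The signature of the gadget of one position
-/

namespace H54.UPM

open Function

variable {A B : Type} {p : ℕ}

/-- The real edges used by a matching of the gadget. -/
def relOf (f l : A ⊕ B → ℕ) (lab lab' : A ⊕ B → Fin p) (i : ℕ) (E : A → B → Prop)
    (h : IBt f l lab' i → Fin p ⊕ (IAt f l i ⊕ Fin p)) : A → B → Prop :=
  fun a b => E a b ∧ ∃ hb, h (Sum.inl ⟨b, hb⟩) = att f l lab lab' i a

/-- The matching of the gadget that corresponds to a matching step. -/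
structure Spec (f l : A ⊕ B → ℕ) (lab lab' : A ⊕ B → Fin p) (i : ℕ) (T T' : Finset (Fin p))
    (M : A → B → Prop) (h : IBt f l lab' i → Fin p ⊕ (IAt f l i ⊕ Fin p)) : Prop where
  m : ∀ a b hb, M a b → h (Sum.inl ⟨b, hb⟩) = att f l lab lab' i a
  wl : ∀ b, (¬ ∃ a, M a b.1) → b.1 ∈ Ws f l lab i T → h (Sum.inl b) = Sum.inl (lab (Sum.inr b.1))
  wr : ∀ b, (¬ ∃ a, M a b.1) → b.1 ∉ Ws f l lab i T →
    h (Sum.inl b) = Sum.inr (Sum.inr (lab' (Sum.inr b.1)))
  cr : ∀ a, a.1 ∈ Us f l lab' (i + 1) T' →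
    h (Sum.inr (Sum.inl a)) = Sum.inr (Sum.inr (lab' (Sum.inl a.1)))
  cl : ∀ a, a.1 ∉ Us f l lab' (i + 1) T' → h (Sum.inr (Sum.inl a)) = Sum.inl (lab (Sum.inl a.1))
  pe : ∀ q, h (Sum.inr (Sum.inr q)) = Sum.inr (Sum.inr q.1)

section

variable {f l : A ⊕ B → ℕ} {lab lab' : A ⊕ B → Fin p} {i : ℕ} {E : A → B → Prop}
  {T T' : Finset (Fin p)}

theorem Spec.unique {M : A → B → Prop} {h h' : IBt f l lab' i → Fin p ⊕ (IAt f l i ⊕ Fin p)}
    (H : Spec f l lab lab' i T T' M h) (H' : Spec f l lab lab' i T T' M h') : h = h' := by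
  funext β
  rcases β with b | a | q
  · by_cases h1 : ∃ a, M a b.1
    · obtain ⟨a, ha⟩ := h1
      rw [H.m a b.1 b.2 ha, H'.m a b.1 b.2 ha]
    · by_cases h2 : b.1 ∈ Ws f l lab i T
      · rw [H.wl b h1 h2, H'.wl b h1 h2]
      · rw [H.wr b h1 h2, H'.wr b h1 h2]
  · by_cases h2 : a.1 ∈ Us f l lab' (i + 1) T'
    · rw [H.cr a h2, H'.cr a h2]
    · rw [H.cl a h2, H'.cl a h2]
  · rw [H.pe, H'.pe]

open Classical in
theorem Spec.exists (M : A → B → Prop)
    (hM : ∀ a a' b, M a b → M a' b → a = a') :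
    ∃ h : IBt f l lab' i → Fin p ⊕ (IAt f l i ⊕ Fin p), Spec f l lab lab' i T T' M h := by
  let h : IBt f l lab' i → Fin p ⊕ (IAt f l i ⊕ Fin p) := fun β =>
    match β with
    | Sum.inl b => if h1 : ∃ a, M a b.1 then att f l lab lab' i h1.choose
        else if b.1 ∈ Ws f l lab i T then Sum.inl (lab (Sum.inr b.1))
        else Sum.inr (Sum.inr (lab' (Sum.inr b.1)))
    | Sum.inr (Sum.inl a) => if a.1 ∈ Us f l lab' (i + 1) T' then
        Sum.inr (Sum.inr (lab' (Sum.inl a.1))) else Sum.inl (lab (Sum.inl a.1))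
    | Sum.inr (Sum.inr q) => Sum.inr (Sum.inr q.1)
  refine ⟨h, ?_, ?_, ?_, ?_, ?_, ?_⟩
  · intro a b hb hab
    have h1 : ∃ a, M a b := ⟨a, hab⟩
    show (if h1 : ∃ a, M a b then att f l lab lab' i h1.choose else _) = _
    rw [dif_pos h1, hM _ _ _ h1.choose_spec hab]
  · intro b h1 h2
    show (if h1 : ∃ a, M a b.1 then att f l lab lab' i h1.choose else _) = _
    rw [dif_neg h1, if_pos h2]
  · intro b h1 h2
    show (if h1 : ∃ a, M a b.1 then att f l lab lab' i h1.choose else _) = _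
    rw [dif_neg h1, if_neg h2]
  · intro a h1
    exact if_pos h1
  · intro a h1
    exact if_neg h1
  · intro q
    rfl

/-- Who covers a left port. -/
theorem PosData.cov_left (D : PosData f l lab lab' i E) {q : Fin p} {β : IBt f l lab' i}
    (h : posG f l lab lab' i E (Sum.inl q) β) :
    (∃ b, β = Sum.inl b ∧ InC f l i (Sum.inr b.1) ∧ lab (Sum.inr b.1) = q) ∨
    (∃ a b, β = Sum.inl b ∧ E a b.1 ∧ InC f l i (Sum.inl a) ∧ lab (Sum.inl a) = q) ∨
    (∃ a, β = Sum.inr (Sum.inl a) ∧ lab (Sum.inl a.1) = q) := by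
  rcases β with b | a | q'
  · rw [D.adj_vtx] at h
    rcases h with ⟨h1, h2⟩ | ⟨h1, h2⟩ | ⟨a, h1, h2⟩
    · left; exact ⟨b, rfl, h1, (Sum.inl_injective h2).symm⟩
    · simp at h2
    · right; left
      have h := D.ea h1
      rcases att_cases (lab := lab) (lab' := lab') h.1 h.2 with ⟨h3, h4⟩ | ⟨h3, h4⟩ | ⟨h3, h4, h5⟩
      · rw [h4] at h2
        exact ⟨a, b, rfl, h1, h3, (Sum.inl_injective h2).symm⟩
      · rw [h4] at h2; simp at h2
      · rw [h5] at h2; simp at h2
  · right; right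
    exact ⟨a, rfl, h⟩
  · exact absurd h (by simp [posG])

/-- Who covers a right port. -/
theorem PosData.cov_right (D : PosData f l lab lab' i E) {q : Fin p} {β : IBt f l lab' i}
    (h : posG f l lab lab' i E (Sum.inr (Sum.inr q)) β) :
    (∃ b, β = Sum.inl b ∧ InC f l (i + 1) (Sum.inr b.1) ∧ lab' (Sum.inr b.1) = q) ∨
    (∃ a b, β = Sum.inl b ∧ E a b.1 ∧ InC f l (i + 1) (Sum.inl a) ∧ f (Sum.inl a) = i ∧
      lab' (Sum.inl a) = q) ∨
    (∃ a, β = Sum.inr (Sum.inl a) ∧ lab' (Sum.inl a.1) = q) ∨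
    (∃ q', β = Sum.inr (Sum.inr q') ∧ q'.1 = q) := by
  rcases β with b | a | q'
  · rw [D.adj_vtx] at h
    rcases h with ⟨h1, h2⟩ | ⟨h1, h2⟩ | ⟨a, h1, h2⟩
    · simp at h2
    · left; exact ⟨b, rfl, h1, (Sum.inr_injective (Sum.inr_injective h2)).symm⟩
    · right; left
      have h := D.ea h1
      rcases att_cases (lab := lab) (lab' := lab') h.1 h.2 with ⟨h3, h4⟩ | ⟨h3, h4⟩ | ⟨h3, h4, h5⟩
      · rw [h4] at h2; simp at h2
      · rw [h4] at h2; simp at h2
      · rw [h5] at h2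
        exact ⟨a, b, rfl, h1, h4, h3, (Sum.inr_injective (Sum.inr_injective h2)).symm⟩
  · right; right; left
    exact ⟨a, rfl, h⟩
  · right; right; right
    exact ⟨q', rfl, h⟩

/-- The own left port of a vertex of the second colour. -/
theorem PosData.own_left (D : PosData f l lab lab' i E)
    {h : IBt f l lab' i → Fin p ⊕ (IAt f l i ⊕ Fin p)}
    (H : IsPM (posG f l lab lab' i E) T T' h) {b : B} (hb) (hc : InC f l i (Sum.inr b)) :
    lab (Sum.inr b) ∉ T ↔ h (Sum.inl ⟨b, hb⟩) = Sum.inl (lab (Sum.inr b)) := by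
  rw [← H.left]
  constructor
  · rintro ⟨β, hβ⟩
    have h1 := H.adj β
    rw [hβ] at h1
    rcases D.cov_left h1 with ⟨b', rfl, h2, h3⟩ | ⟨a, b', rfl, h2, h3, h4⟩ | ⟨a, rfl, h2⟩
    · have := Sum.inr_injective (D.inj _ _ h2 hc h3)
      have h5 : b' = ⟨b, hb⟩ := Subtype.ext this
      rw [h5] at hβ
      exact hβ
    · have := D.inj _ _ h3 hc h4
      simp at this
    · have := D.inj _ _ ⟨a.2.1, a.2.2.le⟩ hc h2
      simp at this
  · intro h1
    exact ⟨_, h1⟩

/-- The own right port of a vertex of the second colour. -/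
theorem PosData.own_right (D : PosData f l lab lab' i E)
    {h : IBt f l lab' i → Fin p ⊕ (IAt f l i ⊕ Fin p)}
    (H : IsPM (posG f l lab lab' i E) T T' h) {b : B} (hb) (hc : InC f l (i + 1) (Sum.inr b)) :
    lab' (Sum.inr b) ∈ T' ↔ h (Sum.inl ⟨b, hb⟩) = Sum.inr (Sum.inr (lab' (Sum.inr b))) := by
  rw [← H.right]
  constructor
  · rintro ⟨β, hβ⟩
    have h1 := H.adj β
    rw [hβ] at h1
    rcases D.cov_right h1 with ⟨b', rfl, h2, h3⟩ | ⟨a, b', rfl, h2, h3, h4, h5⟩ | ⟨a, rfl, h2⟩ |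
      ⟨q', rfl, h2⟩
    · have := Sum.inr_injective (D.inj' _ _ h2 hc h3)
      have h5 : b' = ⟨b, hb⟩ := Subtype.ext this
      rw [h5] at hβ
      exact hβ
    · have := D.inj' _ _ h3 hc h5
      simp at this
    · have := D.inj' _ _ ⟨by have := a.2.1; omega, a.2.2⟩ hc h2
      simp at this
    · exact absurd h2.symm (q'.2 _ hc)
  · intro h1
    exact ⟨_, h1⟩

/-- The three possible partners of a vertex of the second colour. -/
theorem PosData.vtx_cases (D : PosData f l lab lab' i E)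
    {h : IBt f l lab' i → Fin p ⊕ (IAt f l i ⊕ Fin p)}
    (H : IsPM (posG f l lab lab' i E) T T' h) (b : {b : B // f (Sum.inr b) ≤ i ∧ i ≤ l (Sum.inr b)}) :
    ((InC f l i (Sum.inr b.1) ∧ h (Sum.inl b) = Sum.inl (lab (Sum.inr b.1))) ∨
    (InC f l (i + 1) (Sum.inr b.1) ∧ h (Sum.inl b) = Sum.inr (Sum.inr (lab' (Sum.inr b.1)))) ∨
    ∃ a, relOf f l lab lab' i E h a b.1) := by
  have h1 := H.adj (Sum.inl b)
  rw [D.adj_vtx] at h1
  rcases h1 with h1 | h1 | ⟨a, h1, h2⟩
  · exact Or.inl h1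
  · exact Or.inr (Or.inl h1)
  · exact Or.inr (Or.inr ⟨a, h1, b.2, h2⟩)

/-- A vertex of the second colour matched by a real edge is not matched to its own left port. -/
theorem PosData.not_left (D : PosData f l lab lab' i E)
    {h : IBt f l lab' i → Fin p ⊕ (IAt f l i ⊕ Fin p)} {a : A} {b : B}
    (h1 : relOf f l lab lab' i E h a b) (hb) (hc : InC f l i (Sum.inr b)) :
    h (Sum.inl ⟨b, hb⟩) ≠ Sum.inl (lab (Sum.inr b)) := by
  obtain ⟨h2, hb', h3⟩ := h1
  rw [h3]
  have h := D.ea h2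
  rcases att_cases (lab := lab) (lab' := lab') h.1 h.2 with ⟨h4, h5⟩ | ⟨h4, h5⟩ | ⟨h4, h5, h6⟩
  · rw [h5]
    intro e
    have := D.inj _ _ h4 hc (Sum.inl_injective e)
    simp at this
  · rw [h5]; simp
  · rw [h6]; simp

theorem PosData.not_right (D : PosData f l lab lab' i E)
    {h : IBt f l lab' i → Fin p ⊕ (IAt f l i ⊕ Fin p)} {a : A} {b : B}
    (h1 : relOf f l lab lab' i E h a b) (hb) (hc : InC f l (i + 1) (Sum.inr b)) :
    h (Sum.inl ⟨b, hb⟩) ≠ Sum.inr (Sum.inr (lab' (Sum.inr b))) := by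
  obtain ⟨h2, hb', h3⟩ := h1
  rw [h3]
  have h := D.ea h2
  rcases att_cases (lab := lab) (lab' := lab') h.1 h.2 with ⟨h4, h5⟩ | ⟨h4, h5⟩ | ⟨h4, h5, h6⟩
  · rw [h5]; simp
  · rw [h5]; simp
  · rw [h6]
    intro e
    have := D.inj' _ _ h5 hc (Sum.inr_injective (Sum.inr_injective e))
    simp at this

/-- The covered vertices of the first colour. -/
theorem PosData.ca (D : PosData f l lab lab' i E)
    {h : IBt f l lab' i → Fin p ⊕ (IAt f l i ⊕ Fin p)}
    (H : IsPM (posG f l lab lab' i E) T T' h) (a : A) :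
    a ∈ Us f l lab' (i + 1) T' ↔
      (a ∈ Us f l lab i T ∨ ∃ b, relOf f l lab lab' i E h a b) := by
  rcases lt_or_ge (l (Sum.inl a)) i with c1 | c1
  · exact ⟨fun _ => Or.inl (Or.inl c1), fun _ => Or.inl (by omega)⟩
  rcases lt_or_ge i (f (Sum.inl a)) with c2 | c2
  · have hfl := D.fl (Sum.inl a)
    constructor
    · rintro (h1 | ⟨⟨h1, -⟩, -⟩) <;> omega
    · rintro ((h1 | ⟨⟨h1, -⟩, -⟩) | ⟨b, h1, -⟩)
      · omega
      · omega
      · have := D.ea h1; omega
  -- the vertex is involved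
  by_cases c3 : f (Sum.inl a) = i
  · have hU : a ∉ Us f l lab i T := by
      rintro (h1 | ⟨⟨h1, -⟩, -⟩) <;> omega
    by_cases c4 : l (Sum.inl a) = i
    · -- internal
      refine ⟨fun _ => Or.inr ?_, fun _ => Or.inl (by omega)⟩
      obtain ⟨β, hβ⟩ := H.mid ⟨a, c3, c4⟩
      have h1 := H.adj β
      rw [hβ] at h1
      rcases β with b | a' | q'
      · rw [D.adj_vtx] at h1
        rcases h1 with ⟨h1, h2⟩ | ⟨h1, h2⟩ | ⟨a', h1, h2⟩
        · simp at h2
        · simp at h2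
        · have h3 : a' = a := by
            apply D.att_inj (D.ea h1) ⟨c2, c1⟩
            rw [← h2, att_mid ⟨c3, c4⟩]
          rw [h3] at h1 h2
          exact ⟨b.1, h1, b.2, by rw [hβ, h2]⟩
      · exact absurd h1 (by simp [posG])
      · exact absurd h1 (by simp [posG])
    · have c5 : InC f l (i + 1) (Sum.inl a) := ⟨by omega, by omega⟩
      have h0 : a ∈ Us f l lab' (i + 1) T' ↔ lab' (Sum.inl a) ∈ T' := by
        constructor
        · rintro (h1 | ⟨-, h1⟩)
          · omega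
          · exact h1
        · intro h1; exact Or.inr ⟨c5, h1⟩
      rw [h0, ← H.right]
      constructor
      · rintro ⟨β, hβ⟩
        right
        have h1 := H.adj β
        rw [hβ] at h1
        rcases D.cov_right h1 with ⟨b', rfl, h2, h3⟩ | ⟨a', b', rfl, h2, h3, h4, h5⟩ |
          ⟨a', rfl, h2⟩ | ⟨q', rfl, h2⟩
        · have := D.inj' _ _ h2 c5 h3
          simp at this
        · have h6 := Sum.inl_injective (D.inj' _ _ h3 c5 h5)
          subst h6
          refine ⟨b'.1, h2, b'.2, ?_⟩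
          rw [att_right c3 (by have := c5.2; omega)]
          exact hβ
        · have h6 := Sum.inl_injective (D.inj' _ _ ⟨by have := a'.2.1; omega, a'.2.2⟩ c5 h2)
          have := a'.2.1
          rw [h6] at this
          omega
        · exact absurd h2.symm (q'.2 _ c5)
      · rintro (h1 | ⟨b, h1, h2, h3⟩)
        · exact absurd h1 hU
        · rw [att_right c3 (by have := c5.2; omega)] at h3
          exact ⟨_, h3⟩
  · have c4 : InC f l i (Sum.inl a) := ⟨by omega, c1⟩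
    have h0 : a ∈ Us f l lab i T ↔ lab (Sum.inl a) ∈ T := by
      constructor
      · rintro (h1 | ⟨-, h1⟩)
        · omega
        · exact h1
      · intro h1; exact Or.inr ⟨c4, h1⟩
    -- who covers the left port
    have hleft : ∀ β, h β = Sum.inl (lab (Sum.inl a)) →
        (∃ b, relOf f l lab lab' i E h a b ∧ ∃ hb, β = Sum.inl ⟨b, hb⟩) ∨
          ∃ ha, β = Sum.inr (Sum.inl ⟨a, ha⟩) := by
      intro β hβ
      have h1 := H.adj β
      rw [hβ] at h1
      rcases D.cov_left h1 with ⟨b', rfl, h2, h3⟩ | ⟨a', b', rfl, h2, h3, h4⟩ | ⟨a', rfl, h2⟩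
      · have := D.inj _ _ h2 c4 h3
        simp at this
      · have h6 := Sum.inl_injective (D.inj _ _ h3 c4 h4)
        subst h6
        left
        exact ⟨b'.1, ⟨h2, b'.2, by rw [att_left c4]; exact hβ⟩, b'.2, rfl⟩
      · have h6 := Sum.inl_injective (D.inj _ _ ⟨a'.2.1, a'.2.2.le⟩ c4 h2)
        subst h6
        right
        exact ⟨a'.2, rfl⟩
    by_cases c5 : l (Sum.inl a) = i
    · refine ⟨fun _ => ?_, fun _ => Or.inl (by omega)⟩
      rw [h0]
      by_contra hcon
      push Not at hcon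
      obtain ⟨β, hβ⟩ := (H.left _).2 hcon.1
      rcases hleft β hβ with ⟨b, h1, -⟩ | ⟨ha, -⟩
      · exact hcon.2 b h1
      · omega
    · have c6 : f (Sum.inl a) < i ∧ i < l (Sum.inl a) := ⟨c4.1, by have := c4.2; omega⟩
      have c7 : InC f l (i + 1) (Sum.inl a) := ⟨by omega, by omega⟩
      have h1 : a ∈ Us f l lab' (i + 1) T' ↔ lab' (Sum.inl a) ∈ T' := by
        constructor
        · rintro (h1 | ⟨-, h1⟩)
          · omega
          · exact h1
        · intro h1; exact Or.inr ⟨c7, h1⟩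
      rw [h0, h1, ← H.right]
      constructor
      · rintro ⟨β, hβ⟩
        have h2 := H.adj β
        rw [hβ] at h2
        have h3 : β = Sum.inr (Sum.inl ⟨a, c6⟩) := by
          rcases D.cov_right h2 with ⟨b', rfl, h2, h3⟩ | ⟨a', b', rfl, h2, h3, h4, h5⟩ |
            ⟨a', rfl, h2⟩ | ⟨q', rfl, h2⟩
          · have := D.inj' _ _ h2 c7 h3
            simp at this
          · have h6 := Sum.inl_injective (D.inj' _ _ h3 c7 h5)
            rw [h6] at h4
            exact absurd h4 c3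
          · have h6 := Sum.inl_injective (D.inj' _ _ ⟨by have := a'.2.1; omega, a'.2.2⟩ c7 h2)
            congr 2
            exact Subtype.ext h6
          · exact absurd h2.symm (q'.2 _ c7)
        by_contra hcon
        push Not at hcon
        obtain ⟨β', hβ'⟩ := (H.left _).2 hcon.1
        rcases hleft β' hβ' with ⟨b, h1, -⟩ | ⟨ha, h4⟩
        · exact hcon.2 b h1
        · rw [h3] at hβ
          rw [h4, hβ] at hβ'
          simp at hβ'
      · intro h2
        rcases (adj_con _ _).1 (H.adj (Sum.inr (Sum.inl ⟨a, c6⟩))) with h3 | h3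
        · exfalso
          rcases h2 with h2 | ⟨b, h2, hb, h4⟩
          · exact (H.left _).1 ⟨_, h3⟩ h2
          · rw [att_left c4] at h4
            have := H.inj (h4.trans h3.symm)
            simp at this
        · exact ⟨_, h3⟩

/-- The covered vertices of the second colour. -/
theorem PosData.cb (D : PosData f l lab lab' i E)
    {h : IBt f l lab' i → Fin p ⊕ (IAt f l i ⊕ Fin p)}
    (H : IsPM (posG f l lab lab' i E) T T' h) (b : B) :
    b ∈ Ws f l lab' (i + 1) T' ↔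
      (b ∈ Ws f l lab i T ∨ ∃ a, relOf f l lab lab' i E h a b) := by
  rcases lt_or_ge (l (Sum.inr b)) i with c1 | c1
  · exact ⟨fun _ => Or.inl (Or.inl c1), fun _ => Or.inl (by omega)⟩
  rcases lt_or_ge i (f (Sum.inr b)) with c2 | c2
  · have hfl := D.fl (Sum.inr b)
    constructor
    · rintro (h1 | ⟨⟨h1, -⟩, -⟩) <;> omega
    · rintro ((h1 | ⟨⟨h1, -⟩, -⟩) | ⟨b, h1, -⟩)
      · omega
      · omega
      · have := D.eb h1; omega
  have hW : b ∈ Ws f l lab i T ↔
      InC f l i (Sum.inr b) ∧ h (Sum.inl ⟨b, c2, c1⟩) = Sum.inl (lab (Sum.inr b)) := by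
    constructor
    · rintro (h1 | ⟨h1, h2⟩)
      · omega
      · exact ⟨h1, (D.own_left H _ h1).1 h2⟩
    · rintro ⟨h1, h2⟩
      exact Or.inr ⟨h1, (D.own_left H _ h1).2 h2⟩
  have hW' : b ∉ Ws f l lab' (i + 1) T' ↔ InC f l (i + 1) (Sum.inr b) ∧
      h (Sum.inl ⟨b, c2, c1⟩) = Sum.inr (Sum.inr (lab' (Sum.inr b))) := by
    constructor
    · intro h1
      have h2 : InC f l (i + 1) (Sum.inr b) := by
        refine ⟨by omega, ?_⟩
        by_contra h3
        exact h1 (Or.inl (by omega))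
      refine ⟨h2, (D.own_right H _ h2).1 ?_⟩
      by_contra h3
      exact h1 (Or.inr ⟨h2, h3⟩)
    · rintro ⟨h1, h2⟩ (h3 | ⟨-, h3⟩)
      · have := h1.2; omega
      · exact h3 ((D.own_right H _ h1).2 h2)
  rw [hW]
  rw [← not_iff_not, hW']
  push Not
  rcases D.vtx_cases H ⟨b, c2, c1⟩ with ⟨h1, h2⟩ | ⟨h1, h2⟩ | ⟨a, h1⟩
  · constructor
    · rintro ⟨-, h3⟩
      rw [h2] at h3; simp at h3
    · rintro ⟨h3, -⟩
      exact absurd h2 (h3 h1)
  · constructor
    · rintro -
      refine ⟨fun _ => by rw [h2]; simp, ?_⟩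
      intro a h3
      exact D.not_right h3 _ h1 h2
    · rintro -
      exact ⟨h1, h2⟩
  · constructor
    · rintro ⟨h3, h4⟩
      exact absurd h4 (D.not_right h1 _ h3)
    · rintro ⟨-, h3⟩
      exact absurd h1 (h3 a)

theorem PosData.isStep (D : PosData f l lab lab' i E)
    {h : IBt f l lab' i → Fin p ⊕ (IAt f l i ⊕ Fin p)}
    (H : IsPM (posG f l lab lab' i E) T T' h) :
    IsStep E (Us f l lab i T) (Us f l lab' (i + 1) T') (Ws f l lab i T) (Ws f l lab' (i + 1) T')
      (relOf f l lab lab' i E h) where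
  sub h1 := h1.1
  fa := by
    rintro a b b' ⟨h1, hb, h2⟩ ⟨h1', hb', h2'⟩
    have := H.inj (h2.trans h2'.symm)
    simpa using this
  fb := by
    rintro a a' b ⟨h1, hb, h2⟩ ⟨h1', hb', h2'⟩
    exact D.att_inj (D.ea h1) (D.ea h1') (h2.symm.trans h2')
  na := by
    rintro a b ⟨h1, hb, h2⟩ (h3 | ⟨h3, h4⟩)
    · have := D.ea h1; omega
    · rw [att_left h3] at h2
      exact (H.left _).1 ⟨_, h2⟩ h4
  nb := by
    rintro a b h1 (h3 | ⟨h3, h4⟩)
    · have := D.eb h1.1; omega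
    · exact D.not_left h1 _ h3 ((D.own_left H h1.2.1 h3).1 h4)
  ca := D.ca H
  cb := D.cb H

theorem PosData.spec (D : PosData f l lab lab' i E)
    {h : IBt f l lab' i → Fin p ⊕ (IAt f l i ⊕ Fin p)}
    (H : IsPM (posG f l lab lab' i E) T T' h) :
    Spec f l lab lab' i T T' (relOf f l lab lab' i E h) h where
  m := by
    rintro a b hb ⟨h1, hb', h2⟩
    exact h2
  wl := by
    intro b h1 h2
    rcases D.vtx_cases H b with ⟨h3, h4⟩ | ⟨h3, h4⟩ | h3
    · exact h4
    · rcases h2 with h2 | ⟨h2, h5⟩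
      · have := b.2; omega
      · exact (D.own_left H b.2 h2).1 h5
    · exact absurd h3 h1
  wr := by
    intro b h1 h2
    rcases D.vtx_cases H b with ⟨h3, h4⟩ | ⟨h3, h4⟩ | h3
    · exact absurd (Or.inr ⟨h3, (D.own_left H b.2 h3).2 h4⟩) h2
    · exact h4
    · exact absurd h3 h1
  cr := by
    intro a ha
    have h1 : lab' (Sum.inl a.1) ∈ T' := by
      rcases ha with h1 | ⟨-, h1⟩
      · have := a.2; omega
      · exact h1
    rcases (adj_con _ _).1 (H.adj (Sum.inr (Sum.inl a))) with h3 | h3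
    · exfalso
      obtain ⟨β, hβ⟩ := (H.right _).2 h1
      have h2 := H.adj β
      rw [hβ] at h2
      have c7 : InC f l (i + 1) (Sum.inl a.1) := ⟨by have := a.2; omega, by have := a.2; omega⟩
      rcases D.cov_right h2 with ⟨b', rfl, h2, h3⟩ | ⟨a', b', rfl, h2, h3, h4, h5⟩ |
        ⟨a', rfl, h2⟩ | ⟨q', rfl, h2⟩
      · have := D.inj' _ _ h2 c7 h3
        simp at this
      · have h6 := Sum.inl_injective (D.inj' _ _ h3 c7 h5)
        rw [h6] at h4
        have := a.2; omega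
      · have h6 := Sum.inl_injective (D.inj' _ _ ⟨by have := a'.2.1; omega, a'.2.2⟩ c7 h2)
        have h7 : a' = a := Subtype.ext h6
        rw [h7, h3] at hβ
        simp at hβ
      · exact absurd h2.symm (q'.2 _ c7)
    · exact h3
  cl := by
    intro a ha
    rcases (adj_con _ _).1 (H.adj (Sum.inr (Sum.inl a))) with h3 | h3
    · exact h3
    · exfalso
      apply ha
      right
      exact ⟨⟨by have := a.2; omega, by have := a.2; omega⟩, (H.right _).1 ⟨_, h3⟩⟩
  pe := by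
    intro q
    exact (adj_pend _ _).1 (H.adj (Sum.inr (Sum.inr q)))

end

end H54.UPM
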