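import Pool.Agent.H54.UPM.Pos2

/-!
# The signature of the gadget of one position, conclusion
-/

namespace H54.UPM

open Function

variable {A B : Type} {p : ℕ}

section

variable {f l : A ⊕ B → ℕ} {lab lab' : A ⊕ B → Fin p} {i : ℕ} {E : A → B → Prop}
  {T T' : Finset (Fin p)}

/-- The attachment point is not an own left port. -/
theorem PosData.att_ne_left (D : PosData f l lab lab' i E) {a : A} {b : B}
    (h : f (Sum.inl a) ≤ i ∧ i ≤ l (Sum.inl a)) (hc : InC f l i (Sum.inr b)) :
    att f l lab lab' i a ≠ Sum.inl (lab (Sum.inr b)) := by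
  rcases att_cases (lab := lab) (lab' := lab') h.1 h.2 with ⟨h4, h5⟩ | ⟨h4, h5⟩ | ⟨h4, h5, h6⟩
  · rw [h5]
    intro e
    have := D.inj _ _ h4 hc (Sum.inl_injective e)
    simp at this
  · rw [h5]; simp
  · rw [h6]; simp

theorem PosData.att_ne_right (D : PosData f l lab lab' i E) {a : A} {b : B}
    (h : f (Sum.inl a) ≤ i ∧ i ≤ l (Sum.inl a)) (hc : InC f l (i + 1) (Sum.inr b)) :
    att f l lab lab' i a ≠ Sum.inr (Sum.inr (lab' (Sum.inr b))) := by
  rcases att_cases (lab := lab) (lab' := lab') h.1 h.2 with ⟨h4, h5⟩ | ⟨h4, h5⟩ | ⟨h4, h5, h6⟩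
  · rw [h5]; simp
  · rw [h5]; simp
  · rw [h6]
    intro e
    have := D.inj' _ _ h5 hc (Sum.inr_injective (Sum.inr_injective e))
    simp at this

/-- The value of the matching at a vertex of the second colour. -/
theorem Spec.vtx (_ : PosData f l lab lab' i E)
    {M : A → B → Prop} {h : IBt f l lab' i → Fin p ⊕ (IAt f l i ⊕ Fin p)}
    (S : Spec f l lab lab' i T T' M h)
    (hM : IsStep E (Us f l lab i T) (Us f l lab' (i + 1) T') (Ws f l lab i T)
      (Ws f l lab' (i + 1) T') M)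
    (b : {b : B // f (Sum.inr b) ≤ i ∧ i ≤ l (Sum.inr b)}) :
    (∃ a, M a b.1 ∧ h (Sum.inl b) = att f l lab lab' i a) ∨
    ((¬ ∃ a, M a b.1) ∧ InC f l i (Sum.inr b.1) ∧ lab (Sum.inr b.1) ∉ T ∧
      h (Sum.inl b) = Sum.inl (lab (Sum.inr b.1))) ∨
    ((¬ ∃ a, M a b.1) ∧ InC f l (i + 1) (Sum.inr b.1) ∧ lab' (Sum.inr b.1) ∈ T' ∧
      h (Sum.inl b) = Sum.inr (Sum.inr (lab' (Sum.inr b.1)))) := by
  by_cases h1 : ∃ a, M a b.1
  · obtain ⟨a, ha⟩ := h1
    exact Or.inl ⟨a, ha, S.m a b.1 b.2 ha⟩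
  right
  by_cases h2 : b.1 ∈ Ws f l lab i T
  · left
    have h3 := S.wl b h1 h2
    rcases h2 with h2 | h2
    · have := b.2; omega
    · exact ⟨h1, h2.1, h2.2, h3⟩
  · right
    have h3 := S.wr b h1 h2
    have h4 : b.1 ∉ Ws f l lab' (i + 1) T' := by
      rw [hM.cb]
      rintro (h4 | h4)
      · exact h2 h4
      · exact h1 h4
    have h5 : InC f l (i + 1) (Sum.inr b.1) := by
      refine ⟨by have := b.2; omega, ?_⟩
      by_contra h5
      exact h4 (Or.inl (by omega))
    refine ⟨h1, h5, ?_, h3⟩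
    by_contra h6
    exact h4 (Or.inr ⟨h5, h6⟩)

/-- The value of the matching at a connector. -/
theorem Spec.con
    {M : A → B → Prop} {h : IBt f l lab' i → Fin p ⊕ (IAt f l i ⊕ Fin p)}
    (S : Spec f l lab lab' i T T' M h)
    (hM : IsStep E (Us f l lab i T) (Us f l lab' (i + 1) T') (Ws f l lab i T)
      (Ws f l lab' (i + 1) T') M)
    (a : {a : A // f (Sum.inl a) < i ∧ i < l (Sum.inl a)}) :
    (lab' (Sum.inl a.1) ∈ T' ∧
      h (Sum.inr (Sum.inl a)) = Sum.inr (Sum.inr (lab' (Sum.inl a.1)))) ∨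
    ((¬ ∃ b, M a.1 b) ∧ lab (Sum.inl a.1) ∉ T ∧
      h (Sum.inr (Sum.inl a)) = Sum.inl (lab (Sum.inl a.1))) := by
  by_cases h1 : a.1 ∈ Us f l lab' (i + 1) T'
  · left
    refine ⟨?_, S.cr a h1⟩
    rcases h1 with h1 | h1
    · have := a.2; omega
    · exact h1.2
  · right
    have h2 := S.cl a h1
    rw [hM.ca] at h1
    push Not at h1
    refine ⟨fun ⟨b, hb⟩ => h1.2 b hb, ?_, h2⟩
    intro h3
    exact h1.1 (Or.inr ⟨⟨a.2.1, a.2.2.le⟩, h3⟩)

theorem Spec.inj (D : PosData f l lab lab' i E)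
    {M : A → B → Prop} {h : IBt f l lab' i → Fin p ⊕ (IAt f l i ⊕ Fin p)}
    (S : Spec f l lab lab' i T T' M h)
    (hM : IsStep E (Us f l lab i T) (Us f l lab' (i + 1) T') (Ws f l lab i T)
      (Ws f l lab' (i + 1) T') M) : Injective h := by
  have ccl : ∀ a : {a : A // f (Sum.inl a) < i ∧ i < l (Sum.inl a)}, InC f l i (Sum.inl a.1) :=
    fun a => ⟨a.2.1, a.2.2.le⟩
  have ccr : ∀ a : {a : A // f (Sum.inl a) < i ∧ i < l (Sum.inl a)},
      InC f l (i + 1) (Sum.inl a.1) :=
    fun a => ⟨by have := a.2.1; omega, a.2.2⟩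
  -- vertex against connector
  have hvc : ∀ b a, h (Sum.inl b) ≠ h (Sum.inr (Sum.inl a)) := by
    intro b a e
    rcases S.vtx D hM b with ⟨a', h1, h2⟩ | ⟨h1, h2, h3, h4⟩ | ⟨h1, h2, h3, h4⟩
    · have h := D.ea (hM.sub h1)
      rcases S.con hM a with ⟨h5, h6⟩ | ⟨h5, h6, h7⟩
      · rw [h2, h6] at e
        rcases att_cases (lab := lab) (lab' := lab') h.1 h.2 with ⟨h7, h8⟩ | ⟨h7, h8⟩ | ⟨h7, h8, h9⟩
        · rw [h8] at e; simp at e
        · rw [h8] at e; simp at e
        · rw [h9] at e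
          have h10 := Sum.inl_injective
            (D.inj' _ _ h8 (ccr a) (Sum.inr_injective (Sum.inr_injective e)))
          have := a.2
          rw [h10] at h7
          omega
      · rw [h2, h7] at e
        rcases att_cases (lab := lab) (lab' := lab') h.1 h.2 with ⟨h8, h9⟩ | ⟨h8, h9⟩ | ⟨h8, h9, h10⟩
        · rw [h9] at e
          have h10 := Sum.inl_injective (D.inj _ _ h8 (ccl a) (Sum.inl_injective e))
          rw [h10] at h1
          exact h5 ⟨_, h1⟩
        · rw [h9] at e; simp at e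
        · rw [h10] at e; simp at e
    · rcases S.con hM a with ⟨h5, h6⟩ | ⟨h5, h6, h7⟩
      · rw [h4, h6] at e; simp at e
      · rw [h4, h7] at e
        have := D.inj _ _ h2 (ccl a) (Sum.inl_injective e)
        simp at this
    · rcases S.con hM a with ⟨h5, h6⟩ | ⟨h5, h6, h7⟩
      · rw [h4, h6] at e
        have := D.inj' _ _ h2 (ccr a) (Sum.inr_injective (Sum.inr_injective e))
        simp at this
      · rw [h4, h7] at e; simp at e
  -- vertex against pendant
  have hvp : ∀ b q, h (Sum.inl b) ≠ h (Sum.inr (Sum.inr q)) := by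
    intro b q e
    rw [S.pe] at e
    rcases S.vtx D hM b with ⟨a', h1, h2⟩ | ⟨h1, h2, h3, h4⟩ | ⟨h1, h2, h3, h4⟩
    · have h := D.ea (hM.sub h1)
      rw [h2] at e
      rcases att_cases (lab := lab) (lab' := lab') h.1 h.2 with ⟨h7, h8⟩ | ⟨h7, h8⟩ | ⟨h7, h8, h9⟩
      · rw [h8] at e; simp at e
      · rw [h8] at e; simp at e
      · rw [h9] at e
        exact q.2 _ h8 (Sum.inr_injective (Sum.inr_injective e))
    · rw [h4] at e; simp at e
    · rw [h4] at e
      exact q.2 _ h2 (Sum.inr_injective (Sum.inr_injective e))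
  have hcp : ∀ a q, h (Sum.inr (Sum.inl a)) ≠ h (Sum.inr (Sum.inr q)) := by
    intro a q e
    rw [S.pe] at e
    rcases S.con hM a with ⟨h5, h6⟩ | ⟨h5, h6, h7⟩
    · rw [h6] at e
      exact q.2 _ (ccr a) (Sum.inr_injective (Sum.inr_injective e))
    · rw [h7] at e; simp at e
  rintro (b | a | q) (b' | a' | q') e
  · have : b.1 = b'.1 := by
      rcases S.vtx D hM b with ⟨a, h1, h2⟩ | ⟨h1, h2, h3, h4⟩ | ⟨h1, h2, h3, h4⟩ <;>
      rcases S.vtx D hM b' with ⟨a', h1', h2'⟩ | ⟨h1', h2', h3', h4'⟩ | ⟨h1', h2', h3', h4'⟩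
      · rw [h2, h2'] at e
        have := D.att_inj (D.ea (hM.sub h1)) (D.ea (hM.sub h1')) e
        subst this
        exact hM.fa h1 h1'
      · rw [h2, h4'] at e
        exact absurd e (D.att_ne_left (D.ea (hM.sub h1)) h2')
      · rw [h2, h4'] at e
        exact absurd e (D.att_ne_right (D.ea (hM.sub h1)) h2')
      · rw [h4, h2'] at e
        exact absurd e.symm (D.att_ne_left (D.ea (hM.sub h1')) h2)
      · rw [h4, h4'] at e
        exact Sum.inr_injective (D.inj _ _ h2 h2' (Sum.inl_injective e))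
      · rw [h4, h4'] at e; simp at e
      · rw [h4, h2'] at e
        exact absurd e.symm (D.att_ne_right (D.ea (hM.sub h1')) h2)
      · rw [h4, h4'] at e; simp at e
      · rw [h4, h4'] at e
        exact Sum.inr_injective (D.inj' _ _ h2 h2' (Sum.inr_injective (Sum.inr_injective e)))
    exact congrArg Sum.inl (Subtype.ext this)
  · exact absurd e (hvc _ _)
  · exact absurd e (hvp _ _)
  · exact absurd e.symm (hvc _ _)
  · have : a.1 = a'.1 := by
      rcases S.con hM a with ⟨h5, h6⟩ | ⟨h5, h6, h7⟩ <;>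
      rcases S.con hM a' with ⟨h5', h6'⟩ | ⟨h5', h6', h7'⟩
      · rw [h6, h6'] at e
        exact Sum.inl_injective (D.inj' _ _ (ccr a) (ccr a') (Sum.inr_injective (Sum.inr_injective e)))
      · rw [h6, h7'] at e; simp at e
      · rw [h7, h6'] at e; simp at e
      · rw [h7, h7'] at e
        exact Sum.inl_injective (D.inj _ _ (ccl a) (ccl a') (Sum.inl_injective e))
    exact congrArg (fun x => Sum.inr (Sum.inl x)) (Subtype.ext this)
  · exact absurd e (hcp _ _)
  · exact absurd e.symm (hvp _ _)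
  · exact absurd e.symm (hcp _ _)
  · rw [S.pe, S.pe] at e
    exact congrArg (fun x => Sum.inr (Sum.inr x))
      (Subtype.ext (Sum.inr_injective (Sum.inr_injective e)))

theorem Spec.isPM (D : PosData f l lab lab' i E) (hT : Proper f l lab i T)
    (hT' : Proper f l lab' (i + 1) T')
    {M : A → B → Prop} {h : IBt f l lab' i → Fin p ⊕ (IAt f l i ⊕ Fin p)}
    (S : Spec f l lab lab' i T T' M h)
    (hM : IsStep E (Us f l lab i T) (Us f l lab' (i + 1) T') (Ws f l lab i T)
      (Ws f l lab' (i + 1) T') M) : IsPM (posG f l lab lab' i E) T T' h where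
  inj := S.inj D hM
  adj := by
    rintro (b | a | q)
    · rw [D.adj_vtx]
      rcases S.vtx D hM b with ⟨a', h1, h2⟩ | ⟨h1, h2, h3, h4⟩ | ⟨h1, h2, h3, h4⟩
      · exact Or.inr (Or.inr ⟨a', hM.sub h1, h2⟩)
      · exact Or.inl ⟨h2, h4⟩
      · exact Or.inr (Or.inl ⟨h2, h4⟩)
    · rw [adj_con]
      rcases S.con hM a with ⟨h5, h6⟩ | ⟨h5, h6, h7⟩
      · exact Or.inr h6
      · exact Or.inl h7
    · rw [adj_pend]
      exact S.pe q
  left := by
    intro q
    constructor
    · rintro ⟨b | a | q', e⟩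
      · rcases S.vtx D hM b with ⟨a', h1, h2⟩ | ⟨h1, h2, h3, h4⟩ | ⟨h1, h2, h3, h4⟩
        · have h := D.ea (hM.sub h1)
          rw [h2] at e
          rcases att_cases (lab := lab) (lab' := lab') h.1 h.2 with
            ⟨h8, h9⟩ | ⟨h8, h9⟩ | ⟨h8, h9, h10⟩
          · rw [h9] at e
            rw [← Sum.inl_injective e]
            intro h11
            exact hM.na h1 (Or.inr ⟨h8, h11⟩)
          · rw [h9] at e; simp at e
          · rw [h10] at e; simp at e
        · rw [h4] at e
          rw [← Sum.inl_injective e]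
          exact h3
        · rw [h4] at e; simp at e
      · rcases S.con hM a with ⟨h5, h6⟩ | ⟨h5, h6, h7⟩
        · rw [h6] at e; simp at e
        · rw [h7] at e
          rw [← Sum.inl_injective e]
          exact h6
      · rw [S.pe] at e; simp at e
    · intro hq
      have h1 : ¬ Unused f l lab i q := fun h => hq (hT q h)
      rw [Unused] at h1
      push Not at h1
      obtain ⟨v, hv, rfl⟩ := h1
      rcases v with a | b
      · by_cases h2 : ∃ b, M a b
        · obtain ⟨b, hb⟩ := h2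
          exact ⟨Sum.inl ⟨b, D.eb (hM.sub hb)⟩, by rw [S.m a b _ hb, att_left hv]⟩
        · have h3 : a ∉ Us f l lab' (i + 1) T' := by
            rw [hM.ca]
            rintro ((h3 | h3) | h3)
            · have := hv.2; omega
            · exact hq h3.2
            · exact h2 h3
          have h4 : f (Sum.inl a) < i ∧ i < l (Sum.inl a) := by
            refine ⟨hv.1, ?_⟩
            by_contra h4
            exact h3 (Or.inl (by omega))
          exact ⟨Sum.inr (Sum.inl ⟨a, h4⟩), S.cl ⟨a, h4⟩ h3⟩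
      · have h2 : b ∈ Ws f l lab i T := Or.inr ⟨hv, hq⟩
        exact ⟨Sum.inl ⟨b, hv.1.le, hv.2⟩,
          S.wl ⟨b, hv.1.le, hv.2⟩ (fun ⟨a, ha⟩ => hM.nb ha h2) h2⟩
  mid := by
    intro a
    have h1 : a.1 ∈ Us f l lab' (i + 1) T' := Or.inl (by have := a.2; omega)
    rw [hM.ca] at h1
    rcases h1 with (h1 | h1) | ⟨b, hb⟩
    · have := a.2; omega
    · have := h1.1.1
      have := a.2; omega
    · exact ⟨Sum.inl ⟨b, D.eb (hM.sub hb)⟩, by rw [S.m a.1 b _ hb, att_mid a.2]⟩
  right := by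
    intro q
    constructor
    · rintro ⟨b | a | q', e⟩
      · rcases S.vtx D hM b with ⟨a', h1, h2⟩ | ⟨h1, h2, h3, h4⟩ | ⟨h1, h2, h3, h4⟩
        · have h := D.ea (hM.sub h1)
          rw [h2] at e
          rcases att_cases (lab := lab) (lab' := lab') h.1 h.2 with
            ⟨h8, h9⟩ | ⟨h8, h9⟩ | ⟨h8, h9, h10⟩
          · rw [h9] at e; simp at e
          · rw [h9] at e; simp at e
          · rw [h10] at e
            rw [← Sum.inr_injective (Sum.inr_injective e)]
            have h11 : a' ∈ Us f l lab' (i + 1) T' := (hM.ca _).2 (Or.inr ⟨_, h1⟩)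
            rcases h11 with h11 | h11
            · have := h9.2; omega
            · exact h11.2
        · rw [h4] at e; simp at e
        · rw [h4] at e
          rw [← Sum.inr_injective (Sum.inr_injective e)]
          exact h3
      · rcases S.con hM a with ⟨h5, h6⟩ | ⟨h5, h6, h7⟩
        · rw [h6] at e
          rw [← Sum.inr_injective (Sum.inr_injective e)]
          exact h5
        · rw [h7] at e; simp at e
      · rw [S.pe] at e
        rw [← Sum.inr_injective (Sum.inr_injective e)]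
        exact hT' _ q'.2
    · intro hq
      by_cases h1 : Unused f l lab' (i + 1) q
      · exact ⟨Sum.inr (Sum.inr ⟨q, h1⟩), S.pe _⟩
      rw [Unused] at h1
      push Not at h1
      obtain ⟨v, hv, rfl⟩ := h1
      rcases v with a | b
      · have h1 : a ∈ Us f l lab' (i + 1) T' := Or.inr ⟨hv, hq⟩
        by_cases h2 : f (Sum.inl a) < i
        · exact ⟨Sum.inr (Sum.inl ⟨a, h2, hv.2⟩), S.cr ⟨a, h2, hv.2⟩ h1⟩
        · have h3 : f (Sum.inl a) = i := by have := hv.1; omega
          rw [hM.ca] at h1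
          rcases h1 with (h1 | h1) | ⟨b, hb⟩
          · have := hv.2; omega
          · exact absurd h1.1.1 h2
          · refine ⟨Sum.inl ⟨b, D.eb (hM.sub hb)⟩, ?_⟩
            rw [S.m a b _ hb, att_right h3 (by have := hv.2; omega)]
      · have h1 : b ∉ Ws f l lab' (i + 1) T' := by
          rintro (h1 | h1)
          · have := hv.2; omega
          · exact h1.2 hq
        rw [hM.cb] at h1
        push Not at h1
        have h2 : f (Sum.inr b) ≤ i ∧ i ≤ l (Sum.inr b) :=
          ⟨by have := hv.1; omega, by have := hv.2; omega⟩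
        exact ⟨Sum.inl ⟨b, h2⟩, S.wr ⟨b, h2⟩ (fun ⟨a, ha⟩ => h1.2 a ha) h1.1⟩

theorem Spec.relOf_eq (D : PosData f l lab lab' i E)
    {M : A → B → Prop} {h : IBt f l lab' i → Fin p ⊕ (IAt f l i ⊕ Fin p)}
    (S : Spec f l lab lab' i T T' M h)
    (hM : IsStep E (Us f l lab i T) (Us f l lab' (i + 1) T') (Ws f l lab i T)
      (Ws f l lab' (i + 1) T') M) : relOf f l lab lab' i E h = M := by
  funext a b
  apply propext
  constructor
  · rintro ⟨h1, hb, h2⟩
    rcases S.vtx D hM ⟨b, hb⟩ with ⟨a', h3, h4⟩ | ⟨h3, h4, h5, h6⟩ | ⟨h3, h4, h5, h6⟩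
    · rw [h4] at h2
      have := D.att_inj (D.ea (hM.sub h3)) (D.ea h1) h2
      rwa [this] at h3
    · rw [h6] at h2
      exact absurd h2.symm (D.att_ne_left (D.ea h1) h4)
    · rw [h6] at h2
      exact absurd h2.symm (D.att_ne_right (D.ea h1) h4)
  · intro h1
    exact ⟨hM.sub h1, D.eb (hM.sub h1), S.m _ _ _ h1⟩

/-- **The signature of the gadget of one position.** -/
theorem PosData.cnt_eq (D : PosData f l lab lab' i E) (hT : Proper f l lab i T)
    (hT' : Proper f l lab' (i + 1) T') :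
    cnt (posG f l lab lab' i E) T T' =
      stepc E (Us f l lab i T) (Us f l lab' (i + 1) T') (Ws f l lab i T)
        (Ws f l lab' (i + 1) T') := by
  have hF : Bijective (fun h : {h // IsPM (posG f l lab lab' i E) T T' h} =>
      (⟨relOf f l lab lab' i E h.1, D.isStep h.2⟩ :
        {M // IsStep E (Us f l lab i T) (Us f l lab' (i + 1) T') (Ws f l lab i T)
          (Ws f l lab' (i + 1) T') M})) := by
    constructor
    · rintro ⟨h, H⟩ ⟨h', H'⟩ e
      have e := congrArg Subtype.val e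
      simp only at e
      apply Subtype.ext
      have S := D.spec H
      have S' := D.spec H'
      rw [← e] at S'
      exact S.unique S'
    · rintro ⟨M, hM⟩
      obtain ⟨h, S⟩ := Spec.exists (f := f) (l := l) (lab := lab) (lab' := lab') (i := i)
        (T := T) (T' := T') M (fun a a' b => hM.fb)
      exact ⟨⟨h, S.isPM D hT hT' hM⟩, Subtype.ext (S.relOf_eq D hM)⟩
  exact Nat.card_congr (Equiv.ofBijective _ hF)

theorem PosData.cnt_left (D : PosData f l lab lab' i E) (hT : ¬ Proper f l lab i T) :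
    cnt (posG f l lab lab' i E) T T' = 0 := by
  rw [cnt, Nat.card_eq_zero]
  left
  rw [isEmpty_subtype]
  intro h H
  apply hT
  intro q hq
  by_contra hqT
  obtain ⟨β, hβ⟩ := (H.left q).2 hqT
  have h1 := H.adj β
  rw [hβ] at h1
  rcases D.cov_left h1 with ⟨b', rfl, h2, h3⟩ | ⟨a, b', rfl, h2, h3, h4⟩ | ⟨a, rfl, h2⟩
  · exact hq _ h2 h3
  · exact hq _ h3 h4
  · exact hq _ ⟨a.2.1, a.2.2.le⟩ h2

theorem PosData.cnt_right (hT' : ¬ Proper f l lab' (i + 1) T') :
    cnt (posG f l lab lab' i E) T T' = 0 := by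
  rw [cnt, Nat.card_eq_zero]
  left
  rw [isEmpty_subtype]
  intro h H
  apply hT'
  intro q hq
  exact (H.right q).1 ⟨Sum.inr (Sum.inr ⟨q, hq⟩), (adj_pend _ _).1 (H.adj _)⟩

end

end H54.UPM
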