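import Pool.Agent.H54.UPM.Link

/-!
# Linkings of idempotent gadgets with an empty state
-/

namespace H54.UPM

open Function Relation

variable {Q : Type} [Fintype Q] [DecidableEq Q]

/-- The signature of a gadget with an empty state. -/
def VGad (x : Matrix (Finset Q) (Finset Q) T3) : Prop :=
  ∃ (A B : Type) (_ : Fintype A) (_ : Fintype B) (X : Q ⊕ (A ⊕ Q) → B → Prop)
    (f : B → Q ⊕ (A ⊕ Q)), IsPM X ∅ ∅ f ∧ sig X = x

/-- One-element linkings. -/
def Rel (x : Matrix (Finset Q) (Finset Q) T3) (i j : Q) : Prop := x {i} {j} ≠ 0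

omit [DecidableEq Q] in
theorem VGad.bal {x : Matrix (Finset Q) (Finset Q) T3} (hx : VGad x) {S T : Finset Q}
    (h : x S T ≠ 0) : S.card = T.card := by
  obtain ⟨A, B, _, _, X, f, hf, rfl⟩ := hx
  obtain ⟨g, hg⟩ := (sig_ne_zero X S T).1 h
  have h1 := hf.balance
  have h2 := hg.balance
  simp at h1
  omega

omit [DecidableEq Q] in
theorem VGad.zero {x : Matrix (Finset Q) (Finset Q) T3} (hx : VGad x) : x ∅ ∅ ≠ 0 := by
  obtain ⟨A, B, _, _, X, f, hf, rfl⟩ := hx
  exact (sig_ne_zero X ∅ ∅).2 ⟨f, hf⟩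

omit [Fintype Q] [DecidableEq Q] in
theorem Lk.mono {x : Matrix (Finset Q) (Finset Q) T3} {A' B' A'' B'' : Finset Q} {k : ℕ}
    (h : Lk x A' B' k) (hA : A' ⊆ A'') (hB : B' ⊆ B'') : Lk x A'' B'' k := by
  obtain ⟨S, hS, T, hT, h1, h2, h3⟩ := h
  exact ⟨S, hS.trans hA, T, hT.trans hB, h1, h2, h3⟩

omit [DecidableEq Q] in
theorem VGad.down {x : Matrix (Finset Q) (Finset Q) T3} (hx : VGad x) {A' B' : Finset Q} {k k' : ℕ}
    (h : Lk x A' B' k) (hk : k' ≤ k) : Lk x A' B' k' := by
  obtain ⟨A, B, _, _, X, f, hf, rfl⟩ := hx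
  rw [lk_iff hf] at h ⊢
  exact fun Z W hc => hk.trans (h Z W hc)

theorem VGad.sub_right {x : Matrix (Finset Q) (Finset Q) T3} (hx : VGad x) {S T T1 : Finset Q}
    (h : x S T ≠ 0) (hT : T1 ⊆ T) : Lk x S T1 T1.card := by
  have h0 : Lk x S T T.card := ⟨S, subset_rfl, T, subset_rfl, hx.bal h, rfl, h⟩
  obtain ⟨A, B, _, _, X, f, hf, rfl⟩ := hx
  rw [lk_iff hf] at h0 ⊢
  intro Z W hc
  have h1 := h0 Z (W ∪ (T \ T1)) (by
    intro j hj hjW b hb i hi
    rw [Finset.mem_union, not_or, Finset.mem_sdiff, not_and, not_not] at hjW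
    exact hc j (hjW.2 hj) hjW.1 b hb i hi)
  have h2 := Finset.card_union_le W (T \ T1)
  have h3 := Finset.card_sdiff_of_subset hT
  have h4 := Finset.card_le_card hT
  omega

theorem VGad.sub_left {x : Matrix (Finset Q) (Finset Q) T3} (hx : VGad x) {S T S1 : Finset Q}
    (h : x S T ≠ 0) (hS : S1 ⊆ S) : Lk x S1 T S1.card := by
  classical
  have h0 : Lk x S T S.card := ⟨S, subset_rfl, T, subset_rfl, rfl, (hx.bal h).symm, h⟩
  obtain ⟨A, B, _, _, X, f, hf, rfl⟩ := hx
  rw [lk_iff hf] at h0 ⊢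
  intro Z W hc
  set L : Finset B := Finset.univ.filter (fun b => ∃ i ∈ S \ S1, f b = Sum.inl i) with hL
  have hLc : L.card ≤ (S \ S1).card := by
    have h1 : L.image f ⊆ (S \ S1).image Sum.inl := by
      intro v hv
      rw [Finset.mem_image] at hv
      obtain ⟨b, hb, rfl⟩ := hv
      simp only [hL, Finset.mem_filter, Finset.mem_univ, true_and] at hb
      obtain ⟨i, hi, hb⟩ := hb
      rw [hb]
      exact Finset.mem_image_of_mem _ hi
    calc L.card = (L.image f).card := (Finset.card_image_of_injective _ hf.inj).symm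
      _ ≤ _ := Finset.card_le_card h1
      _ ≤ _ := Finset.card_image_le
  have h1 := h0 (Z ∪ L) W (by
    intro j hj hjW b hb i hi hbi
    have hbZ : RA X f Z j b := by
      refine RA.rec_on (C := fun b => RA X f Z j b) ?_ ?_ hb
      · intro b hbZ hjb
        rw [Finset.mem_union, not_or] at hbZ
        exact ⟨b, hbZ.1, hjb, ReflTransGen.refl⟩
      · intro b b' h1 _ h3 h4
        rw [Finset.mem_union, not_or] at h4
        exact h1.step h3 h4.1
    by_cases hi1 : i ∈ S1
    · exact hc j hj hjW b hbZ i hi1 hbi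
    · have := hb.not_mem
      rw [Finset.mem_union, not_or] at this
      apply this.2
      simp only [hL, Finset.mem_filter, Finset.mem_univ, true_and]
      exact ⟨i, Finset.mem_sdiff.2 ⟨hi, hi1⟩, hbi⟩)
  have h2 := Finset.card_union_le Z L
  have h3 := Finset.card_sdiff_of_subset hS
  have h4 := Finset.card_le_card hS
  omega

omit [Fintype Q] [DecidableEq Q] in
theorem Lk.one {x : Matrix (Finset Q) (Finset Q) T3} {A' B' : Finset Q} :
    Lk x A' B' 1 ↔ ∃ i ∈ A', ∃ j ∈ B', Rel x i j := by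
  constructor
  · rintro ⟨S, hS, T, hT, h1, h2, h3⟩
    obtain ⟨i, rfl⟩ := Finset.card_eq_one.1 h1
    obtain ⟨j, rfl⟩ := Finset.card_eq_one.1 h2
    exact ⟨i, by simpa using hS, j, by simpa using hT, h3⟩
  · rintro ⟨i, hi, j, hj, h⟩
    exact ⟨{i}, by simpa using hi, {j}, by simpa using hj, by simp, by simp, h⟩

/-- Counting: a linking from `S` to `T` maps every subset `A1` of `S` injectively into the set of
its successors in `T`. -/
theorem VGad.count {x : Matrix (Finset Q) (Finset Q) T3} (hx : VGad x) {S T A1 : Finset Q}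
    (h : x S T ≠ 0) (hA : A1 ⊆ S) (p : Q → Prop) [DecidablePred p]
    (hp : ∀ i ∈ A1, ∀ j ∈ T, Rel x i j → p j) :
    A1.card ≤ (T.filter p).card := by
  obtain ⟨S1, hS1, T1, hT1, h1, h2, h3⟩ := hx.sub_left h hA
  have hS1' : S1 = A1 := Finset.eq_of_subset_of_card_le hS1 (by rw [h1])
  subst hS1'
  rw [← h2]
  apply Finset.card_le_card
  intro j hj
  rw [Finset.mem_filter]
  refine ⟨hT1 hj, ?_⟩
  have := hx.sub_right h3 (Finset.singleton_subset_iff.2 hj)
  rw [Finset.card_singleton, Lk.one] at this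
  obtain ⟨i, hi, j', hj', hr⟩ := this
  rw [Finset.mem_singleton] at hj'
  subst hj'
  exact hp i hi j' (hT1 hj) hr

omit [DecidableEq Q] in
theorem Rel.comp {x y z : Matrix (Finset Q) (Finset Q) T3} (hxy : x * y = z) {i j k : Q}
    (h1 : Rel x i j) (h2 : Rel y j k) : Rel z i k := by
  rw [Rel, ← hxy, mul_apply_ne_zero]
  exact ⟨{j}, h1, h2⟩

omit [DecidableEq Q] in
theorem Rel.split {x y z : Matrix (Finset Q) (Finset Q) T3} (hx : VGad x) (hxy : x * y = z)
    {i k : Q} (h : Rel z i k) : ∃ j, Rel x i j ∧ Rel y j k := by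
  rw [Rel, ← hxy, mul_apply_ne_zero] at h
  obtain ⟨U, h1, h2⟩ := h
  have := hx.bal h1
  rw [Finset.card_singleton] at this
  obtain ⟨j, rfl⟩ := Finset.card_eq_one.1 this.symm
  exact ⟨j, h1, h2⟩

open Classical in
/-- The largest size of a linked pair. -/
noncomputable def mu (x : Matrix (Finset Q) (Finset Q) T3) (A' B' : Finset Q) : ℕ :=
  Nat.findGreatest (Lk x A' B') (Fintype.card Q)

omit [DecidableEq Q] in
theorem VGad.lk_iff_le_mu {x : Matrix (Finset Q) (Finset Q) T3} (hx : VGad x) {A' B' : Finset Q}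
    {k : ℕ} : Lk x A' B' k ↔ k ≤ mu x A' B' := by
  classical
  constructor
  · intro h
    apply Nat.le_findGreatest
    · obtain ⟨S, -, -, -, h1, -⟩ := h
      rw [← h1]; exact Finset.card_le_univ S
    · exact h
  · intro h
    have h0 : Lk x A' B' 0 := ⟨∅, by simp, ∅, by simp, by simp, by simp, hx.zero⟩
    have : Lk x A' B' (mu x A' B') := Nat.findGreatest_spec (P := Lk x A' B') (Nat.zero_le _) h0
    exact hx.down this h

/-- Submodularity, easy half. -/
theorem VGad.mu_le {x : Matrix (Finset Q) (Finset Q) T3} (hx : VGad x) (hid : x * x = x)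
    (A' B' Y : Finset Q) : mu x A' B' ≤ mu x A' Y + mu x Yᶜ B' := by
  obtain ⟨S, hS, T, hT, h1, h2, h3⟩ := hx.lk_iff_le_mu.2 (le_refl (mu x A' B'))
  rw [← hid, mul_apply_ne_zero] at h3
  obtain ⟨V, h4, h5⟩ := h3
  have h6 := hx.lk_iff_le_mu.1
    ((hx.sub_right h4 (Finset.inter_subset_left : V ∩ Y ⊆ V)).mono hS Finset.inter_subset_right)
  have hsub : V \ Y ⊆ Yᶜ := by
    intro i hi
    rw [Finset.mem_sdiff] at hi
    rw [Finset.mem_compl]
    exact hi.2
  have h7 := hx.lk_iff_le_mu.1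
    ((hx.sub_left h5 (Finset.sdiff_subset : V \ Y ⊆ V)).mono hsub hT)
  have h8 := hx.bal h4
  have h9 : (V ∩ Y).card + (V \ Y).card = V.card := Finset.card_inter_add_card_sdiff V Y
  omega

/-- Submodularity, hard half (a minimum cut of the doubled gadget). -/
theorem VGad.exists_mu {x : Matrix (Finset Q) (Finset Q) T3} (hx : VGad x) (hid : x * x = x)
    (A' B' : Finset Q) : ∃ Y, mu x A' Y + mu x Yᶜ B' ≤ mu x A' B' := by
  classical
  have hx' := hx
  obtain ⟨A, B, _, _, X, f, hf, rfl⟩ := hx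
  have hff : IsPM (comp X X) ∅ ∅ (glue f f) := comp_isPM X X hf hf
  have hsig : sig (comp X X) = sig X := by rw [sig_comp, hid]
  have hnot : ¬ Lk (sig (comp X X)) A' B' (mu (sig X) A' B' + 1) := by
    rw [hsig, hx'.lk_iff_le_mu]; omega
  rw [lk_iff hff] at hnot
  push Not at hnot
  obtain ⟨Z, W, hc, hlt⟩ := hnot
  set Z1 : Finset B := Finset.univ.filter (fun b => Sum.inl b ∈ Z) with hZ1
  set Z2 : Finset B := Finset.univ.filter (fun b => Sum.inr b ∈ Z) with hZ2
  have hZc : Z1.card + Z2.card = Z.card := by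
    rw [← Finset.card_disjSum]
    congr 1
    ext b
    rcases b with b | b <;> simp [hZ1, hZ2]
  set Y : Finset Q := Finset.univ.filter (fun i => ∃ j ∈ B', j ∉ W ∧ ∃ b,
    RA (comp X X) (glue f f) Z j (Sum.inr b) ∧ f b = Sum.inl i) with hY
  have hc2 : IsCut X f Yᶜ B' Z2 W := by
    intro j hj hjW b hb i hi hbi
    have hlift : RA (comp X X) (glue f f) Z j (Sum.inr b) := by
      refine RA.rec_on (C := fun b => RA (comp X X) (glue f f) Z j (Sum.inr b)) ?_ ?_ hb
      · intro b hbZ hjb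
        refine ⟨Sum.inr b, by simpa [hZ2] using hbZ, ⟨Sum.inr (Sum.inr j), rfl, hjb⟩,
          ReflTransGen.refl⟩
      · intro b b' h1 _ h3 h4
        exact h1.step ⟨f b, rfl, h3⟩ (by simpa [hZ2] using h4)
    rw [Finset.mem_compl] at hi
    apply hi
    simp only [hY, Finset.mem_filter, Finset.mem_univ, true_and]
    exact ⟨j, hj, hjW, b, hlift, hbi⟩
  have hc1 : IsCut X f A' Y Z1 ∅ := by
    intro i hi _ b hb i' hi' hbi'
    simp only [hY, Finset.mem_filter, Finset.mem_univ, true_and] at hi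
    obtain ⟨j, hj, hjW, b2, hb2, hfb2⟩ := hi
    have hlift : RA (comp X X) (glue f f) Z j (Sum.inl b) := by
      refine RA.rec_on (C := fun b => RA (comp X X) (glue f f) Z j (Sum.inl b)) ?_ ?_ hb
      · intro b hbZ hib
        refine hb2.step ⟨Sum.inr (Sum.inr i), ?_, hib⟩ (by simpa [hZ1] using hbZ)
        rw [glue_inr, hfb2]; rfl
      · intro b b' h1 _ h3 h4
        exact h1.step ⟨f b, rfl, h3⟩ (by simpa [hZ1] using h4)
    exact hc j hj hjW (Sum.inl b) hlift i' hi' (by rw [glue_inl, hbi']; rfl)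
  have h1 := (lk_iff hf).1 (hx'.lk_iff_le_mu.2 (le_refl (mu (sig X) A' Y))) Z1 ∅ hc1
  have h2 := (lk_iff hf).1 (hx'.lk_iff_le_mu.2 (le_refl (mu (sig X) Yᶜ B'))) Z2 W hc2
  rw [Finset.card_empty] at h1
  exact ⟨Y, by omega⟩

/-- The zero step. -/
theorem VGad.zero_step {x : Matrix (Finset Q) (Finset Q) T3} (hx : VGad x) (hid : x * x = x)
    (A' B' : Finset Q) : ∃ Y Y', mu x Yᶜ Y' = 0 ∧ mu x A' Y + mu x Y'ᶜ B' ≤ mu x A' B' := by
  classical
  -- choose `Y` with `mu A' Y + mu Yᶜ B' ≤ mu A' B'` and `mu Yᶜ B'` as small as possible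
  obtain ⟨Y, hY, hmin⟩ : ∃ Y, mu x A' Y + mu x Yᶜ B' ≤ mu x A' B' ∧
      ∀ Y2, mu x A' Y2 + mu x Y2ᶜ B' ≤ mu x A' B' → mu x Yᶜ B' ≤ mu x Y2ᶜ B' := by
    obtain ⟨Y, h1, h2⟩ := Finset.exists_min_image
      (Finset.univ.filter (fun Y : Finset Q => mu x A' Y + mu x Yᶜ B' ≤ mu x A' B'))
      (fun Y => mu x Yᶜ B') ⟨(hx.exists_mu hid A' B').choose,
        by simpa using (hx.exists_mu hid A' B').choose_spec⟩
    exact ⟨Y, by simpa using h1, fun Y2 h => h2 Y2 (by simpa using h)⟩
  obtain ⟨Y', hY'⟩ := hx.exists_mu hid Yᶜ B'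
  refine ⟨Y, Y', ?_, by omega⟩
  have h1 := hx.mu_le hid A' Y' Y
  have h2 := hmin Y' (by omega)
  omega

/-- Self-linked sets. -/
theorem VGad.self_left {x : Matrix (Finset Q) (Finset Q) T3} (hx : VGad x) {T : Finset Q}
    (h : x T T ≠ 0) (Y : Finset Q) : (T ∩ Y).card ≤ mu x T Y :=
  hx.lk_iff_le_mu.1 ((hx.sub_right h Finset.inter_subset_left).mono subset_rfl
    Finset.inter_subset_right)

theorem VGad.self_right {x : Matrix (Finset Q) (Finset Q) T3} (hx : VGad x) {T : Finset Q}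
    (h : x T T ≠ 0) (Y : Finset Q) : (T ∩ Y).card ≤ mu x Y T :=
  hx.lk_iff_le_mu.1 ((hx.sub_left h Finset.inter_subset_left).mono Finset.inter_subset_right
    subset_rfl)

/-- Elements of self-linked sets are recurrent. -/
theorem VGad.recurrent {x : Matrix (Finset Q) (Finset Q) T3} (hx : VGad x) (hid : x * x = x)
    {T : Finset Q} (h : x T T ≠ 0) {i : Q} (hi : i ∈ T) : Rel x i i := by
  classical
  by_contra hcon
  obtain ⟨A1, hA1⟩ : ∃ A1, A1 = T.filter (fun j => Rel x i j ∨ j = i) := ⟨_, rfl⟩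
  have hAT : A1 ⊆ T := by rw [hA1]; exact Finset.filter_subset _ _
  have h1 := hx.count h hAT (fun j => Rel x i j) (by
    intro a ha j _ haj
    rw [hA1, Finset.mem_filter] at ha
    rcases ha.2 with h2 | h2
    · exact Rel.comp hid h2 haj
    · rw [h2] at haj; exact haj)
  have h2 : T.filter (fun j => Rel x i j) ⊂ A1 := by
    rw [Finset.ssubset_iff_of_subset]
    · refine ⟨i, ?_, ?_⟩
      · rw [hA1, Finset.mem_filter]; exact ⟨hi, Or.inr rfl⟩
      · rw [Finset.mem_filter]; exact fun h => hcon h.2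
    · intro j hj
      rw [Finset.mem_filter] at hj
      rw [hA1, Finset.mem_filter]
      exact ⟨hj.1, Or.inl hj.2⟩
  have := Finset.card_lt_card h2
  omega

/-- **The main lemma on linkings**: if `T` and `T'` are self-linked for the idempotent `x`, of the
same size, and every `x`-closed set contains at most as many elements of `T` as of `T'`, then `T` is
linked to `T'`. -/
theorem VGad.linked {x : Matrix (Finset Q) (Finset Q) T3} (hx : VGad x) (hid : x * x = x)
    {T T' : Finset Q} (hT : x T T ≠ 0) (hT' : x T' T' ≠ 0) (hc : T.card = T'.card)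
    (hup : ∀ p : Q → Prop, (∀ i j, p i → Rel x i j → p j) →
      ∀ [DecidablePred p], (T.filter p).card ≤ (T'.filter p).card) : x T T' ≠ 0 := by
  classical
  obtain ⟨Y, Y', h0, h1⟩ := hx.zero_step hid T T'
  have h2 := hx.self_left hT Y
  have h3 := hx.self_right hT' Y'ᶜ
  -- the closed set generated by the complement of `Y`
  have h4 : (T.filter (fun j => ∃ i ∈ Yᶜ, Rel x i j)).card ≤
      (T'.filter (fun j => ∃ i ∈ Yᶜ, Rel x i j)).card := by
    apply hup
    rintro j k ⟨i, hi, hij⟩ hjk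
    exact ⟨i, hi, Rel.comp hid hij hjk⟩
  have h5 : (T \ Y).card ≤ (T.filter (fun j => ∃ i ∈ Yᶜ, Rel x i j)).card := by
    apply Finset.card_le_card
    intro j hj
    rw [Finset.mem_sdiff] at hj
    rw [Finset.mem_filter]
    exact ⟨hj.1, j, by simpa using hj.2, hx.recurrent hid hT hj.1⟩
  have h6 : (T'.filter (fun j => ∃ i ∈ Yᶜ, Rel x i j)).card ≤ (T' ∩ Y'ᶜ).card := by
    apply Finset.card_le_card
    intro j hj
    rw [Finset.mem_filter] at hj
    obtain ⟨hj1, i, hi, hij⟩ := hj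
    rw [Finset.mem_inter, Finset.mem_compl]
    refine ⟨hj1, fun hjY => ?_⟩
    have : Lk x Yᶜ Y' 1 := Lk.one.2 ⟨i, hi, j, hjY, hij⟩
    rw [hx.lk_iff_le_mu] at this
    omega
  have h7 : (T ∩ Y).card + (T \ Y).card = T.card := Finset.card_inter_add_card_sdiff T Y
  have h8 : T.card ≤ mu x T T' := by omega
  obtain ⟨S, hS, S', hS', h9, h10, h11⟩ := hx.lk_iff_le_mu.2 h8
  have e1 : S = T := Finset.eq_of_subset_of_card_le hS (by omega)
  have e2 : S' = T' := Finset.eq_of_subset_of_card_le hS' (by omega)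
  rwa [e1, e2] at h11

omit [DecidableEq Q] in
/-- Reachability describes one-element linkings. -/
theorem rel_iff {A B : Type} [Fintype A] [Fintype B] {X : Q ⊕ (A ⊕ Q) → B → Prop}
    {f : B → Q ⊕ (A ⊕ Q)} (hf : IsPM X ∅ ∅ f) {i j : Q} :
    Rel (sig X) i j ↔ ∃ b, RA X f ∅ j b ∧ f b = Sum.inl i := by
  constructor
  · intro h
    by_contra hcon
    push Not at hcon
    have h1 : Lk (sig X) {i} {j} 1 := Lk.one.2 ⟨i, by simp, j, by simp, h⟩
    have := (lk_iff hf).1 h1 ∅ ∅ (by
      intro j' hj' _ b hb i' hi'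
      rw [Finset.mem_singleton] at hj' hi'
      subst hj' hi'
      exact hcon b hb)
    simp at this
  · rintro ⟨b, hb, hbi⟩
    have h1 : Lk (sig X) {i} {j} 1 := by
      rw [lk_iff hf]
      intro Z W hc
      by_contra hlt
      have hZ : Z = ∅ := by rw [← Finset.card_eq_zero]; omega
      have hW : W = ∅ := by rw [← Finset.card_eq_zero]; omega
      subst hZ hW
      exact hc j (by simp) (by simp) b hb i (by simp) hbi
    rw [Lk.one] at h1
    obtain ⟨i', hi', j', hj', h⟩ := h1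
    rw [Finset.mem_singleton] at hi' hj'
    subst hi' hj'
    exact h

/-- A set of pairwise inequivalent recurrent elements is self-linked. -/
theorem VGad.transversal {x : Matrix (Finset Q) (Finset Q) T3} (hx : VGad x)
    {T : Finset Q} (hrec : ∀ i ∈ T, Rel x i i)
    (hne : ∀ i ∈ T, ∀ j ∈ T, Rel x i j → Rel x j i → i = j) : x T T ≠ 0 := by
  classical
  obtain ⟨A, B, _, _, X, f, hf, rfl⟩ := hx
  have key : Lk (sig X) T T T.card := by
    rw [lk_iff hf]
    intro Z W hc
    by_contra hlt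
    push Not at hlt
    -- every `j ∈ T \ W` has a walk to itself which meets `Z`
    have hz : ∀ j ∈ T \ W, ∃ z ∈ Z, RA X f ∅ j z ∧ ∃ b, f b = Sum.inl j ∧
        ReflTransGen (fun b b' => X (f b) b') z b := by
      intro j hj
      rw [Finset.mem_sdiff] at hj
      obtain ⟨b, hb, hbj⟩ := (rel_iff hf).1 (hrec j hj.1)
      have hdich : ∀ b, RA X f ∅ j b → RA X f Z j b ∨ ∃ z ∈ Z, RA X f ∅ j z ∧
          ReflTransGen (fun b b' => X (f b) b') z b := by
        intro b hb
        have : RA X f ∅ j b ∧ (RA X f Z j b ∨ ∃ z ∈ Z, RA X f ∅ j z ∧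
          ReflTransGen (fun b b' => X (f b) b') z b) := by
          refine RA.rec_on (C := fun b => RA X f ∅ j b ∧ (RA X f Z j b ∨ ∃ z ∈ Z, RA X f ∅ j z ∧
            ReflTransGen (fun b b' => X (f b) b') z b)) ?_ ?_ hb
          · intro b hb0 hjb
            have h1 : RA X f ∅ j b := ⟨b, hb0, hjb, ReflTransGen.refl⟩
            refine ⟨h1, ?_⟩
            by_cases hbZ : b ∈ Z
            · exact Or.inr ⟨b, hbZ, h1, ReflTransGen.refl⟩
            · exact Or.inl ⟨b, hbZ, hjb, ReflTransGen.refl⟩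
          · rintro b b' ⟨h1, h2⟩ _ h3 h4
            have h5 : RA X f ∅ j b' := h1.step h3 h4
            refine ⟨h5, ?_⟩
            rcases h2 with h2 | ⟨z, hz, hz1, hz2⟩
            · by_cases hbZ : b' ∈ Z
              · exact Or.inr ⟨b', hbZ, h5, ReflTransGen.refl⟩
              · exact Or.inl (h2.step h3 hbZ)
            · exact Or.inr ⟨z, hz, hz1, hz2.tail h3⟩
        exact this.2
      rcases hdich b hb with h | ⟨z, hz, hz1, hz2⟩
      · exact absurd hbj (hc j hj.1 hj.2 b h j hj.1)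
      · exact ⟨z, hz, hz1, b, hbj, hz2⟩
    have hcard : Z.card < (T \ W).card := by
      have h5 : T.card ≤ (T \ W).card + W.card := by
        have := Finset.card_le_card (show T ⊆ (T \ W) ∪ W by
          intro x hx; by_cases h : x ∈ W <;> simp [h, hx])
        exact this.trans (Finset.card_union_le _ _)
      omega
    have hBne : Nonempty B := by
      have h0 : 0 < (T \ W).card := by omega
      obtain ⟨j0, hj0⟩ := Finset.card_pos.1 h0
      obtain ⟨z, -⟩ := hz j0 hj0
      exact ⟨z⟩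
    choose! φ hφ1 hφ2 hφ3 using hz
    obtain ⟨i, hi, j, hj, hij, he⟩ := Finset.exists_ne_map_eq_of_card_lt_of_maps_to (f := φ) hcard
      (fun j hj => hφ1 j hj)
    -- walks `i → z → j` and `j → z → i`
    have walk : ∀ i ∈ T \ W, ∀ j ∈ T \ W, φ i = φ j → Rel (sig X) j i := by
      intro i hi j hj he
      obtain ⟨b, hb, hb'⟩ := hφ3 j hj
      rw [rel_iff hf]
      refine ⟨b, ?_, hb⟩
      have h1 := hφ2 i hi
      rw [he] at h1
      clear hb
      induction hb' with
      | refl => exact h1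
      | tail _ h ih => exact ih.step h (by simp)
    apply hij
    exact (hne j (Finset.mem_sdiff.1 hj).1 i (Finset.mem_sdiff.1 hi).1 (walk i hi j hj he)
      (walk j hj i hi he.symm)).symm
  obtain ⟨S, hS, S', hS', h9, h10, h11⟩ := key
  have e1 : S = T := Finset.eq_of_subset_of_card_le hS (by omega)
  have e2 : S' = T := Finset.eq_of_subset_of_card_le hS' (by omega)
  rwa [e1, e2] at h11

end H54.UPM
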