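import Pool.Agent.H54.UPM.GGeneral
import Pool.Agent.H54.UPM.Idx.Index

/-!
# The lower bound over the field with two elements
-/

namespace H54.UPM

/-- **Lower bound over the field with two elements.** -/
theorem read_F2 {w : ℕ} {k p : ℕ}
    (hp : (5 ≤ w ∧ loss k p < 2 ^ w - 1) ∨ (2 ≤ w ∧ loss k p < 2 ^ (w - 1))) (r d : ℕ) :
    ∃ N : ℕ, ∀ (L : ℕ) (F : Fin r → GFamily (Matrix (Fin w) (Fin w) (ZMod 2)) L d),
      (∀ j, (F j).WidthLE p) → N ≤ {i : Fin L | ∀ j, (F j).times i ≤ k}.ncard →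
      ∀ (B : (Fin r → Prop) → Prop) (s t : Fin w) (c : ZMod 2),
      ∃ x : Fin L → Matrix (Fin w) (Fin w) (ZMod 2), (∀ i, Elem (x i)) ∧
        ¬ (B (fun j => UniquePM ((F j).graph x)) ↔ (List.ofFn x).prod s t = c) := by
  rcases hp with ⟨hw, hp⟩ | ⟨hw, hp⟩
  · exact read_F2_of (by omega) (fun K hK => lt_of_lt_of_le hp (GL_index_exact hw K hK)) r d
  · obtain ⟨m, rfl⟩ : ∃ m, w = m + 2 := ⟨w - 2, by omega⟩
    have e1 : m + 2 - 1 = m + 1 := by omega
    rw [e1] at hp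
    exact read_F2_of hw (fun K hK => lt_of_lt_of_le hp (GL_index m K hK)) r d

end H54.UPM
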