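import Mathlib

/-!
# The semiring `T3 = {0, 1, many}` of natural numbers cut off at two, and general lemmas about
matrices over it and about idempotent relations.
-/

namespace H54.UPM

/-- Natural numbers up to the congruence identifying all numbers `≥ 2`. -/
inductive T3
  | z | o | m
  deriving DecidableEq

namespace T3

instance : Fintype T3 := ⟨{z, o, m}, by intro x; cases x <;> decide⟩

def add : T3 → T3 → T3
  | z, x => x
  | x, z => x
  | _, _ => m

def mul : T3 → T3 → T3
  | z, _ => z
  | _, z => z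
  | o, x => x
  | x, o => x
  | m, m => m

instance : Zero T3 := ⟨z⟩
instance : One T3 := ⟨o⟩
instance : Add T3 := ⟨add⟩
instance : Mul T3 := ⟨mul⟩

instance : CommSemiring T3 where
  add_assoc := by decide
  zero_add := by decide
  add_zero := by decide
  add_comm := by decide
  left_distrib := by decide
  right_distrib := by decide
  zero_mul := by decide
  mul_zero := by decide
  mul_assoc := by decide
  one_mul := by decide
  mul_one := by decide
  mul_comm := by decide
  nsmul := nsmulRec

theorem zero_def : (0 : T3) = z := rfl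
theorem one_def : (1 : T3) = o := rfl

theorem cast_two (n : ℕ) : ((n + 2 : ℕ) : T3) = m := by
  induction n with
  | zero => rfl
  | succ k ih =>
    have : ((k + 1 + 2 : ℕ) : T3) = ((k + 2 : ℕ) : T3) + 1 := by push_cast; ring
    rw [this, ih]; rfl

theorem cast_eq_zero (n : ℕ) : (n : T3) = 0 ↔ n = 0 := by
  match n with
  | 0 => simp
  | 1 => simp
  | n + 2 => rw [cast_two]; simp

theorem cast_eq_one (n : ℕ) : (n : T3) = 1 ↔ n = 1 := by
  match n with
  | 0 => simp
  | 1 => simp
  | n + 2 => rw [cast_two]; simp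

theorem cast_eq_cast (a b : ℕ) : (a : T3) = (b : T3) ↔ min a 2 = min b 2 := by
  match a, b with
  | 0, 0 => simp
  | 0, 1 => simp
  | 0, n + 2 => rw [cast_two]; simp
  | 1, 0 => simp
  | 1, 1 => simp
  | 1, n + 2 => rw [cast_two]; simp
  | n + 2, 0 => rw [cast_two]; simp
  | n + 2, 1 => rw [cast_two]; simp
  | n + 2, k + 2 => rw [cast_two, cast_two]; simp

theorem add_eq_zero' : ∀ a b : T3, a + b = 0 ↔ a = 0 ∧ b = 0 := by decide
theorem mul_eq_zero' : ∀ a b : T3, a * b = 0 ↔ a = 0 ∨ b = 0 := by decide
theorem mul_eq_one' : ∀ a b : T3, a * b = 1 ↔ a = 1 ∧ b = 1 := by decide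
theorem add_ne_one : ∀ a b : T3, a ≠ 0 → b ≠ 0 → a + b ≠ 1 := by decide
theorem add_eq_one : ∀ a b : T3, a + b = 1 ↔ (a = 1 ∧ b = 0) ∨ (a = 0 ∧ b = 1) := by decide

theorem sum_eq_zero {ι : Type*} (s : Finset ι) (f : ι → T3) :
    ∑ i ∈ s, f i = 0 ↔ ∀ i ∈ s, f i = 0 := by
  classical
  induction s using Finset.induction_on with
  | empty => simp
  | insert a s ha ih => rw [Finset.sum_insert ha, add_eq_zero', ih]; simp

/-- A sum equal to one has exactly one nonzero term, which is one. -/
theorem sum_eq_one {ι : Type*} (s : Finset ι) (f : ι → T3) :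
    ∑ i ∈ s, f i = 1 ↔ ∃ i ∈ s, f i = 1 ∧ ∀ j ∈ s, j ≠ i → f j = 0 := by
  classical
  induction s using Finset.induction_on with
  | empty => simp
  | insert a s ha ih =>
    rw [Finset.sum_insert ha, add_eq_one, ih]
    constructor
    · rintro (⟨h1, h2⟩ | ⟨h1, i, hi, h2, h3⟩)
      · refine ⟨a, by simp, h1, ?_⟩
        rw [sum_eq_zero] at h2
        intro j hj hne
        rcases Finset.mem_insert.1 hj with rfl | hj
        · exact absurd rfl hne
        · exact h2 j hj
      · refine ⟨i, by simp [hi], h2, ?_⟩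
        intro j hj hne
        rcases Finset.mem_insert.1 hj with rfl | hj
        · exact h1
        · exact h3 j hj hne
    · rintro ⟨i, hi, h1, h2⟩
      rcases Finset.mem_insert.1 hi with rfl | hi
      · left
        refine ⟨h1, ?_⟩
        rw [sum_eq_zero]
        intro j hj
        exact h2 j (by simp [hj]) (fun h => ha (h ▸ hj))
      · right
        refine ⟨h2 a (by simp) (fun h => ha (h ▸ hi)), i, hi, h1, fun j hj hne => h2 j (by simp [hj]) hne⟩

end T3

variable {ι : Type*} [Fintype ι]

theorem mul_apply_ne_zero {κ μ : Type*} (x : Matrix κ ι T3) (y : Matrix ι μ T3) (a : κ) (b : μ) :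
    (x * y) a b ≠ 0 ↔ ∃ c, x a c ≠ 0 ∧ y c b ≠ 0 := by
  rw [Matrix.mul_apply, Ne, T3.sum_eq_zero]
  simp only [Finset.mem_univ, true_imp_iff, not_forall, T3.mul_eq_zero', not_or]

/-- In an idempotent relation on a finite type every pair factors through a reflexive point. -/
theorem idem_factor {α : Type*} [Finite α] (r : α → α → Prop)
    (hr : ∀ a b, r a b ↔ ∃ c, r a c ∧ r c b) {a b : α} (h : r a b) :
    ∃ c, r a c ∧ r c c ∧ r c b := by
  classical
  -- the set of successors of `a` that are below `b`
  have htrans : ∀ x y z, r x y → r y z → r x z := fun x y z h1 h2 => (hr x z).2 ⟨y, h1, h2⟩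
  choose! f hf using fun (x : α) (hx : r x b) => (hr x b).1 hx
  -- iterate `f`
  let u : ℕ → α := fun n => f^[n] a
  have hub : ∀ n, r (u n) b := by
    intro n
    induction n with
    | zero => exact h
    | succ k ih =>
      have : u (k + 1) = f (u k) := by simp only [u, Function.iterate_succ_apply']
      rw [this]
      exact (hf _ ih).2
  have hstep : ∀ n, r (u n) (u (n + 1)) := by
    intro n
    have : u (n + 1) = f (u n) := by simp only [u, Function.iterate_succ_apply']
    rw [this]
    exact (hf _ (hub n)).1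
  have hlt : ∀ m n, m < n → r (u m) (u n) := by
    intro m n hmn
    induction n with
    | zero => omega
    | succ k ih =>
      rcases Nat.lt_succ_iff_lt_or_eq.1 hmn with h1 | h1
      · exact htrans _ _ _ (ih h1) (hstep k)
      · subst h1; exact hstep m
  have hninj : ¬ Function.Injective (fun n : ℕ => u (n + 1)) := not_injective_infinite_finite _
  rw [Function.Injective] at hninj
  push Not at hninj
  obtain ⟨m, n, hmn, hne⟩ := hninj
  have key : ∀ m n, m < n → u (m + 1) = u (n + 1) → ∃ c, r a c ∧ r c c ∧ r c b := by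
    intro m n hlt' heq
    refine ⟨u (m + 1), hlt 0 (m + 1) (by omega), ?_, hub _⟩
    have := hlt (m + 1) (n + 1) (by omega)
    rwa [← heq] at this
  rcases Nat.lt_or_gt_of_ne hne with h1 | h1
  · exact key m n h1 hmn
  · exact key n m h1 hmn.symm

/-- **Kernel lemma.** In a group of matrices over `T3` (with identity an idempotent `e`), an element
with the same support as `e` is `e`. -/
theorem kernel_T3 (e n n' : Matrix ι ι T3) (he : e * e = e) (hen : e * n = n) (hne : n * e = n)
    (hnn : n * n' = e)
    (hs : ∀ a b, n a b ≠ 0 ↔ e a b ≠ 0) (hs' : ∀ a b, n' a b ≠ 0 ↔ e a b ≠ 0) : n = e := by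
  have supp_e : ∀ a b, e a b ≠ 0 ↔ ∃ c, e a c ≠ 0 ∧ e c b ≠ 0 := fun a b => by
    rw [← mul_apply_ne_zero, he]
  -- a factorisation lemma: an entry `1` of `x` with `e x = x` factors through a unique `v`
  -- with `e v v = 1`
  have left : ∀ x : Matrix ι ι T3, e * x = x → ∀ a b, x a b = 1 →
      ∃ v, e v v = 1 ∧ e a v = 1 ∧ x v b = 1 ∧ ∀ v', e a v' ≠ 0 → x v' b ≠ 0 → v' = v := by
    intro x hx a b hab
    have h1 : (e * x) a b = 1 := by rw [hx, hab]
    rw [Matrix.mul_apply, T3.sum_eq_one] at h1
    obtain ⟨v, -, hv, huniq⟩ := h1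
    rw [T3.mul_eq_one'] at hv
    have huniq' : ∀ v', e a v' ≠ 0 → x v' b ≠ 0 → v' = v := by
      intro v' h1 h2
      by_contra hne
      have := huniq v' (Finset.mem_univ _) hne
      rw [T3.mul_eq_zero'] at this
      exact this.elim h1 h2
    have hx1 : ∀ a b, x a b ≠ 0 ↔ ∃ c, e a c ≠ 0 ∧ x c b ≠ 0 := fun a b => by
      rw [← mul_apply_ne_zero, hx]
    have hav : e a v ≠ 0 := by rw [hv.1]; decide
    have hvb : x v b ≠ 0 := by rw [hv.2]; decide
    -- e v v ≠ 0
    obtain ⟨c, hac, hcc, hcv⟩ := idem_factor (fun a b => e a b ≠ 0) supp_e hav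
    have hcb : x c b ≠ 0 := (hx1 c b).2 ⟨v, hcv, hvb⟩
    have hcv' : c = v := huniq' c hac hcb
    subst hcv'
    -- e c c = 1 because  x c b = Σ e c v' x v' b ≥ e c c * x c b
    have h2 : (e * x) c b = 1 := by rw [hx, hv.2]
    rw [Matrix.mul_apply, T3.sum_eq_one] at h2
    obtain ⟨w, -, hw, hw'⟩ := h2
    have hwc : c = w := by
      by_contra hne
      have := hw' c (Finset.mem_univ _) hne
      rw [T3.mul_eq_zero'] at this
      exact this.elim hcc hcb
    subst hwc
    rw [T3.mul_eq_one'] at hw
    exact ⟨c, hw.1, hv.1, hv.2, huniq'⟩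
  have right : ∀ x : Matrix ι ι T3, x * e = x → ∀ a b, x a b = 1 →
      ∃ v, e v v = 1 ∧ x a v = 1 ∧ e v b = 1 ∧ ∀ v', x a v' ≠ 0 → e v' b ≠ 0 → v' = v := by
    intro x hx a b hab
    have h1 : (x * e) a b = 1 := by rw [hx, hab]
    rw [Matrix.mul_apply, T3.sum_eq_one] at h1
    obtain ⟨v, -, hv, huniq⟩ := h1
    rw [T3.mul_eq_one'] at hv
    have huniq' : ∀ v', x a v' ≠ 0 → e v' b ≠ 0 → v' = v := by
      intro v' h1 h2
      by_contra hne
      have := huniq v' (Finset.mem_univ _) hne
      rw [T3.mul_eq_zero'] at this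
      exact this.elim h1 h2
    have hx1 : ∀ a b, x a b ≠ 0 ↔ ∃ c, x a c ≠ 0 ∧ e c b ≠ 0 := fun a b => by
      rw [← mul_apply_ne_zero, hx]
    have hav : x a v ≠ 0 := by rw [hv.1]; decide
    have hvb : e v b ≠ 0 := by rw [hv.2]; decide
    obtain ⟨c, hvc, hcc, hcb⟩ := idem_factor (fun a b => e a b ≠ 0) supp_e hvb
    have hac : x a c ≠ 0 := (hx1 a c).2 ⟨v, hav, hvc⟩
    have hcv' : c = v := huniq' c hac hcb
    subst hcv'
    have h2 : (x * e) a c = 1 := by rw [hx, hv.1]
    rw [Matrix.mul_apply, T3.sum_eq_one] at h2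
    obtain ⟨w, -, hw, hw'⟩ := h2
    have hwc : c = w := by
      by_contra hne
      have := hw' c (Finset.mem_univ _) hne
      rw [T3.mul_eq_zero'] at this
      exact this.elim hac hcc
    subst hwc
    rw [T3.mul_eq_one'] at hw
    exact ⟨c, hw.2, hv.1, hv.2, huniq'⟩
  -- the core: for `x, y` both in the group with the same support as `e`
  have one_zero : (1 : T3) ≠ 0 := by decide
  -- diagonal points are fixed
  have diag : ∀ v, e v v = 1 → n v v = 1 := by
    intro v hv
    have h1 : (n * n') v v = 1 := by rw [hnn, hv]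
    rw [Matrix.mul_apply, T3.sum_eq_one] at h1
    obtain ⟨w, -, hw, hw'⟩ := h1
    have hvv : e v v ≠ 0 := by rw [hv]; exact one_zero
    have hwv : v = w := by
      by_contra hne
      have := hw' v (Finset.mem_univ _) hne
      rw [T3.mul_eq_zero'] at this
      exact this.elim ((hs v v).2 hvv) ((hs' v v).2 hvv)
    subst hwv
    rw [T3.mul_eq_one'] at hw
    exact hw.1
  -- `e v w = 1` or `n v w = 1` between diagonal points forces `v = w`
  have diag_e : ∀ v w, e v v = 1 → e w w = 1 → e v w = 1 → v = w := by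
    intro v w hv hw hvw
    have h1 : (e * e) v w = 1 := by rw [he, hvw]
    rw [Matrix.mul_apply, T3.sum_eq_one] at h1
    obtain ⟨u, -, -, hu⟩ := h1
    have h2 : v = u := by
      by_contra hne
      have := hu v (Finset.mem_univ _) hne
      rw [hv, hvw] at this; exact absurd this (by decide)
    have h3 : w = u := by
      by_contra hne
      have := hu w (Finset.mem_univ _) hne
      rw [hw, hvw] at this; exact absurd this (by decide)
    rw [h2, h3]
  have diag_n : ∀ v w, e v v = 1 → e w w = 1 → n v w = 1 → v = w := by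
    intro v w hv hw hvw
    have h1 : (n * e) v w = 1 := by rw [hne, hvw]
    rw [Matrix.mul_apply, T3.sum_eq_one] at h1
    obtain ⟨u, -, -, hu⟩ := h1
    have hnz : e v w ≠ 0 := (hs v w).1 (by rw [hvw]; exact one_zero)
    have h2 : v = u := by
      by_contra hne'
      have := hu v (Finset.mem_univ _) hne'
      rw [diag v hv, one_mul] at this
      exact hnz this
    have h3 : w = u := by
      by_contra hne'
      have := hu w (Finset.mem_univ _) hne'
      rw [hw, hvw] at this; exact absurd this (by decide)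
    rw [h2, h3]
  -- now compare entries
  have n_to_e : ∀ a b, n a b = 1 → e a b = 1 := by
    intro a b hab
    obtain ⟨v, hvv, hav, hvb, hu⟩ := left n hen a b hab
    obtain ⟨w, hww, hvw, hwb, hu'⟩ := right n hne v b hvb
    have hvw' : v = w := diag_n v w hvv hww hvw
    subst hvw'
    -- e a b = Σ e a c * e c b, only c = v contributes
    have : (e * e) a b = 1 := by
      rw [Matrix.mul_apply, T3.sum_eq_one]
      refine ⟨v, Finset.mem_univ _, by rw [hav, hwb]; decide, ?_⟩
      intro c _ hc
      by_contra h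
      rw [T3.mul_eq_zero', not_or] at h
      exact hc (hu c h.1 ((hs c b).2 h.2))
    rwa [he] at this
  have e_to_n : ∀ a b, e a b = 1 → n a b = 1 := by
    intro a b hab
    obtain ⟨v, hvv, hav, hvb, hu⟩ := left e he a b hab
    obtain ⟨w, hww, hvw, hwb, hu'⟩ := right e he v b hvb
    have hvw' : v = w := diag_e v w hvv hww hvw
    subst hvw'
    -- n v b = 1
    have h1 : (n * e) v b = 1 := by
      rw [Matrix.mul_apply, T3.sum_eq_one]
      refine ⟨v, Finset.mem_univ _, by rw [diag v hvv, hwb]; decide, ?_⟩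
      intro c _ hc
      by_contra h
      rw [T3.mul_eq_zero', not_or] at h
      exact hc (hu' c ((hs v c).1 h.1) h.2)
    rw [hne] at h1
    have : (e * n) a b = 1 := by
      rw [Matrix.mul_apply, T3.sum_eq_one]
      refine ⟨v, Finset.mem_univ _, by rw [hav, h1]; decide, ?_⟩
      intro c _ hc
      by_contra h
      rw [T3.mul_eq_zero', not_or] at h
      exact hc (hu c h.1 ((hs c b).1 h.2))
    rwa [hen] at this
  ext a b
  have h0 : n a b = 0 ↔ e a b = 0 := by
    have := hs a b
    constructor
    · intro h; by_contra h'; exact (this.2 h') h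
    · intro h; by_contra h'; exact (this.1 h') h
  have h1 : n a b = 1 ↔ e a b = 1 := ⟨n_to_e a b, e_to_n a b⟩
  generalize n a b = x at *
  generalize e a b = y at *
  revert h0 h1
  revert x y
  decide

end H54.UPM
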