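import Pool.Agent.H54.UPM.Gadget
import Pool.Agent.H54.UPM.Model

/-!
# Matching steps

`IsStep E U U' W W' M`: the relation `M` is a matching with edges in `E` that enlarges the pair of
sets of covered vertices from `(U, W)` to `(U', W')`.
-/

namespace H54.UPM

open Function

variable {A B : Type}

/-- `M` is a matching inside `E` which enlarges the sets of covered vertices from `(U, W)` to
`(U', W')`. -/
structure IsStep (E : A → B → Prop) (U U' : Set A) (W W' : Set B) (M : A → B → Prop) : Prop where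
  sub : ∀ {a b}, M a b → E a b
  fa : ∀ {a b b'}, M a b → M a b' → b = b'
  fb : ∀ {a a' b}, M a b → M a' b → a = a'
  na : ∀ {a b}, M a b → a ∉ U
  nb : ∀ {a b}, M a b → b ∉ W
  ca : ∀ a, a ∈ U' ↔ (a ∈ U ∨ ∃ b, M a b)
  cb : ∀ b, b ∈ W' ↔ (b ∈ W ∨ ∃ a, M a b)

/-- The number of matching steps. -/
noncomputable def stepc (E : A → B → Prop) (U U' : Set A) (W W' : Set B) : ℕ :=
  Nat.card {M : A → B → Prop // IsStep E U U' W W' M}

theorem IsStep.glue {E1 E2 : A → B → Prop} {U U' U'' : Set A} {W W' W'' : Set B}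
    {M1 M2 : A → B → Prop} (h1 : IsStep E1 U U' W W' M1) (h2 : IsStep E2 U' U'' W' W'' M2) :
    IsStep (fun a b => E1 a b ∨ E2 a b) U U'' W W'' (fun a b => M1 a b ∨ M2 a b) where
  sub h := h.imp h1.sub h2.sub
  fa := by
    rintro a b b' (h | h) (h' | h')
    · exact h1.fa h h'
    · exact absurd ((h1.ca a).2 (Or.inr ⟨_, h⟩)) (h2.na h')
    · exact absurd ((h1.ca a).2 (Or.inr ⟨_, h'⟩)) (h2.na h)
    · exact h2.fa h h'
  fb := by
    rintro a a' b (h | h) (h' | h')
    · exact h1.fb h h'
    · exact absurd ((h1.cb b).2 (Or.inr ⟨_, h⟩)) (h2.nb h')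
    · exact absurd ((h1.cb b).2 (Or.inr ⟨_, h'⟩)) (h2.nb h)
    · exact h2.fb h h'
  na := by
    rintro a b (h | h)
    · exact h1.na h
    · exact fun ha => h2.na h ((h1.ca a).2 (Or.inl ha))
  nb := by
    rintro a b (h | h)
    · exact h1.nb h
    · exact fun ha => h2.nb h ((h1.cb b).2 (Or.inl ha))
  ca a := by
    rw [h2.ca, h1.ca, or_assoc]
    simp only [exists_or]
  cb b := by
    rw [h2.cb, h1.cb, or_assoc]
    simp only [exists_or]

theorem IsStep.left {E1 E2 : A → B → Prop} {U U'' : Set A} {W W'' : Set B}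
    {M : A → B → Prop} (h : IsStep (fun a b => E1 a b ∨ E2 a b) U U'' W W'' M) :
    IsStep E1 U (U ∪ {a | ∃ b, M a b ∧ E1 a b}) W (W ∪ {b | ∃ a, M a b ∧ E1 a b})
      (fun a b => M a b ∧ E1 a b) where
  sub h := h.2
  fa h1 h2 := h.fa h1.1 h2.1
  fb h1 h2 := h.fb h1.1 h2.1
  na h1 := h.na h1.1
  nb h1 := h.nb h1.1
  ca _ := Iff.rfl
  cb _ := Iff.rfl

theorem IsStep.right {E1 E2 : A → B → Prop} (hd : ∀ a b, E1 a b → ¬ E2 a b) {U U'' : Set A}
    {W W'' : Set B} {M : A → B → Prop}
    (h : IsStep (fun a b => E1 a b ∨ E2 a b) U U'' W W'' M) :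
    IsStep E2 (U ∪ {a | ∃ b, M a b ∧ E1 a b}) U'' (W ∪ {b | ∃ a, M a b ∧ E1 a b}) W''
      (fun a b => M a b ∧ E2 a b) where
  sub h := h.2
  fa h1 h2 := h.fa h1.1 h2.1
  fb h1 h2 := h.fb h1.1 h2.1
  na := by
    rintro a b h1 (h2 | ⟨b', h2, h3⟩)
    · exact h.na h1.1 h2
    · obtain rfl := h.fa h1.1 h2
      exact hd _ _ h3 h1.2
  nb := by
    rintro a b h1 (h2 | ⟨b', h2, h3⟩)
    · exact h.nb h1.1 h2
    · obtain rfl := h.fb h1.1 h2
      exact hd _ _ h3 h1.2
  ca a := by
    rw [h.ca]
    constructor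
    · rintro (h1 | ⟨b, h1⟩)
      · exact Or.inl (Or.inl h1)
      · rcases h.sub h1 with h2 | h2
        · exact Or.inl (Or.inr ⟨b, h1, h2⟩)
        · exact Or.inr ⟨b, h1, h2⟩
    · rintro ((h1 | ⟨b, h1, -⟩) | ⟨b, h1, -⟩)
      · exact Or.inl h1
      · exact Or.inr ⟨b, h1⟩
      · exact Or.inr ⟨b, h1⟩
  cb b := by
    rw [h.cb]
    constructor
    · rintro (h1 | ⟨a, h1⟩)
      · exact Or.inl (Or.inl h1)
      · rcases h.sub h1 with h2 | h2
        · exact Or.inl (Or.inr ⟨a, h1, h2⟩)
        · exact Or.inr ⟨a, h1, h2⟩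
    · rintro ((h1 | ⟨a, h1, -⟩) | ⟨a, h1, -⟩)
      · exact Or.inl h1
      · exact Or.inr ⟨a, h1⟩
      · exact Or.inr ⟨a, h1⟩

theorem stepc_comp [Finite A] [Finite B] {ι : Type} [Fintype ι] (E1 E2 : A → B → Prop)
    (hd : ∀ a b, E1 a b → ¬ E2 a b) (U U'' : Set A) (W W'' : Set B) (Us : ι → Set A)
    (Ws : ι → Set B) (hinj : ∀ t t', Us t = Us t' → Ws t = Ws t' → t = t')
    (hcov : ∀ M, IsStep (fun a b => E1 a b ∨ E2 a b) U U'' W W'' M →
      ∃ t, Us t = U ∪ {a | ∃ b, M a b ∧ E1 a b} ∧ Ws t = W ∪ {b | ∃ a, M a b ∧ E1 a b}) :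
    stepc (fun a b => E1 a b ∨ E2 a b) U U'' W W'' =
      ∑ t, stepc E1 U (Us t) W (Ws t) * stepc E2 (Us t) U'' (Ws t) W'' := by
  have hF : Bijective (fun t : (Σ t : ι, {M1 // IsStep E1 U (Us t) W (Ws t) M1} ×
      {M2 // IsStep E2 (Us t) U'' (Ws t) W'' M2}) =>
      (⟨fun a b => t.2.1.1 a b ∨ t.2.2.1 a b, t.2.1.2.glue t.2.2.2⟩ :
        {M // IsStep (fun a b => E1 a b ∨ E2 a b) U U'' W W'' M})) := by
    constructor
    · rintro ⟨t, ⟨M1, H1⟩, ⟨M2, H2⟩⟩ ⟨t', ⟨M1', H1'⟩, ⟨M2', H2'⟩⟩ e
      have e := congrArg Subtype.val e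
      simp only at e
      have e1 : M1 = M1' := by
        funext a b
        apply propext
        have := congrFun (congrFun e a) b
        simp only [eq_iff_iff] at this
        constructor
        · intro h
          rcases this.1 (Or.inl h) with h' | h'
          · exact h'
          · exact absurd (H2'.sub h') (hd a b (H1.sub h))
        · intro h
          rcases this.2 (Or.inl h) with h' | h'
          · exact h'
          · exact absurd (H2.sub h') (hd a b (H1'.sub h))
      have e2 : M2 = M2' := by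
        funext a b
        apply propext
        have := congrFun (congrFun e a) b
        simp only [eq_iff_iff] at this
        constructor
        · intro h
          rcases this.1 (Or.inr h) with h' | h'
          · exact absurd (H2.sub h) (hd a b (H1'.sub h'))
          · exact h'
        · intro h
          rcases this.2 (Or.inr h) with h' | h'
          · exact absurd (H2'.sub h) (hd a b (H1.sub h'))
          · exact h'
      subst e1 e2
      have : t = t' := by
        apply hinj
        · ext a; rw [H1.ca, H1'.ca]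
        · ext b; rw [H1.cb, H1'.cb]
      subst this
      rfl
    · rintro ⟨M, H⟩
      obtain ⟨t, h1, h2⟩ := hcov M H
      have H1 := H.left
      have H2 := H.right hd
      rw [← h1, ← h2] at H1 H2
      refine ⟨⟨t, ⟨_, H1⟩, ⟨_, H2⟩⟩, ?_⟩
      apply Subtype.ext
      funext a b
      apply propext
      constructor
      · rintro (h | h)
        · exact h.1
        · exact h.1
      · intro h
        rcases H.sub h with h' | h'
        · exact Or.inl ⟨h, h'⟩
        · exact Or.inr ⟨h, h'⟩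
  rw [stepc, ← Nat.card_congr (Equiv.ofBijective _ hF), Nat.card_sigma]
  simp only [Nat.card_prod, stepc]

theorem stepc_congr {E E' : A → B → Prop} (h : ∀ a b, E a b ↔ E' a b) (U U' : Set A)
    (W W' : Set B) : stepc E U U' W W' = stepc E' U U' W W' := by
  have : E = E' := by funext a b; exact propext (h a b)
  rw [this]

theorem stepc_empty (E : A → B → Prop) (hE : ∀ a b, ¬ E a b) (U : Set A) (W : Set B) :
    stepc E U U W W = 1 := by
  rw [stepc, Nat.card_eq_one_iff_unique]
  refine ⟨⟨?_⟩, ⟨⟨fun _ _ => False, ?_⟩⟩⟩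
  · rintro ⟨M, H⟩ ⟨M', H'⟩
    simp only [Subtype.mk.injEq]
    funext a b
    apply propext
    constructor
    · intro h; exact absurd (H.sub h) (hE a b)
    · intro h; exact absurd (H'.sub h) (hE a b)
  · constructor <;> simp

/-- Perfect matchings of the graph of a family, as relations. -/
theorem uniquePM_iff {α : Type} {L : ℕ} (F : Family α L) (x : Fin L → α) :
    UniquePM (F.graph x) ↔
      stepc (fun a b => F.edge a b (x (F.owner a b))) ∅ Set.univ ∅ Set.univ = 1 := by
  have hAdj : ∀ a b, (F.graph x).Adj (Sum.inl a) (Sum.inr b) ↔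
      F.edge a b (x (F.owner a b)) := by
    intro a b
    constructor
    · rintro (⟨a', b', h1, h2, h⟩ | ⟨a', b', h1, h2, h⟩)
      · cases h1; cases h2; exact h
      · cases h1
    · intro h
      exact Or.inl ⟨a, b, rfl, rfl, h⟩
  have hno1 : ∀ a a', ¬ (F.graph x).Adj (Sum.inl a) (Sum.inl a') := by
    rintro a a' (⟨_, _, h1, h2, h⟩ | ⟨_, _, h1, h2, h⟩)
    · cases h2
    · cases h1
  have hno2 : ∀ a a', ¬ (F.graph x).Adj (Sum.inr a) (Sum.inr a') := by
    rintro a a' (⟨_, _, h1, h2, h⟩ | ⟨_, _, h1, h2, h⟩)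
    · cases h1
    · cases h2
  -- from perfect matchings to relations
  have hto : ∀ M : (F.graph x).Subgraph, M.IsPerfectMatching →
      IsStep (fun a b => F.edge a b (x (F.owner a b))) ∅ Set.univ ∅ Set.univ
        (fun a b => M.Adj (Sum.inl a) (Sum.inr b)) := by
    intro M hM
    have hv : ∀ v, v ∈ M.verts := hM.2
    refine ⟨fun h => (hAdj _ _).1 h.adj_sub, ?_, ?_, by simp, by simp, ?_, ?_⟩
    · intro a b b' h h'
      have := hM.1 (hv (Sum.inl a))
      exact Sum.inr_injective (this.unique h h')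
    · intro a a' b h h'
      have := hM.1 (hv (Sum.inr b))
      exact Sum.inl_injective (this.unique h.symm h'.symm)
    · intro a
      simp only [Set.mem_univ, Set.mem_empty_iff_false, false_or, true_iff]
      obtain ⟨w, hw, -⟩ := hM.1 (hv (Sum.inl a))
      rcases w with w | w
      · exact absurd hw.adj_sub (hno1 _ _)
      · exact ⟨w, hw⟩
    · intro b
      simp only [Set.mem_univ, Set.mem_empty_iff_false, false_or, true_iff]
      obtain ⟨w, hw, -⟩ := hM.1 (hv (Sum.inr b))
      rcases w with w | w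
      · exact ⟨w, hw.symm⟩
      · exact absurd hw.adj_sub (hno2 _ _)
  let Φ : {M : (F.graph x).Subgraph // M.IsPerfectMatching} →
      {R : F.A → F.B → Prop // IsStep (fun a b => F.edge a b (x (F.owner a b))) ∅ Set.univ ∅
        Set.univ R} := fun M => ⟨_, hto M.1 M.2⟩
  have hΦ : Bijective Φ := by
    constructor
    · rintro ⟨M, hM⟩ ⟨M', hM'⟩ e
      have e := congrArg Subtype.val e
      simp only [Φ] at e
      have hv : ∀ v, v ∈ M.verts := hM.2
      have hv' : ∀ v, v ∈ M'.verts := hM'.2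
      apply Subtype.ext
      simp only
      apply SimpleGraph.Subgraph.ext
      · ext v
        exact ⟨fun _ => hv' v, fun _ => hv v⟩
      · funext u v
        apply propext
        rcases u with a | b <;> rcases v with a' | b'
        · exact ⟨fun h => absurd h.adj_sub (hno1 _ _), fun h => absurd h.adj_sub (hno1 _ _)⟩
        · exact iff_of_eq (congrFun (congrFun e a) b')
        · rw [M.adj_comm, M'.adj_comm]
          exact iff_of_eq (congrFun (congrFun e a') b)
        · exact ⟨fun h => absurd h.adj_sub (hno2 _ _), fun h => absurd h.adj_sub (hno2 _ _)⟩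
    · rintro ⟨R, hR⟩
      let M : (F.graph x).Subgraph :=
        { verts := Set.univ
          Adj := fun u v => (∃ a b, u = Sum.inl a ∧ v = Sum.inr b ∧ R a b) ∨
            (∃ a b, u = Sum.inr b ∧ v = Sum.inl a ∧ R a b)
          adj_sub := by
            rintro u v (⟨a, b, rfl, rfl, h⟩ | ⟨a, b, rfl, rfl, h⟩)
            · exact (hAdj _ _).2 (hR.sub h)
            · exact ((hAdj _ _).2 (hR.sub h)).symm
          edge_vert := fun _ => Set.mem_univ _
          symm := ⟨by
            rintro u v (⟨a, b, rfl, rfl, h⟩ | ⟨a, b, rfl, rfl, h⟩)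
            · exact Or.inr ⟨a, b, rfl, rfl, h⟩
            · exact Or.inl ⟨a, b, rfl, rfl, h⟩⟩ }
      have hMadj : ∀ a b, M.Adj (Sum.inl a) (Sum.inr b) ↔ R a b := by
        intro a b
        constructor
        · rintro (⟨a', b', h1, h2, h⟩ | ⟨a', b', h1, h2, h⟩)
          · cases h1; cases h2; exact h
          · cases h1
        · intro h
          exact Or.inl ⟨a, b, rfl, rfl, h⟩
      have hM : M.IsPerfectMatching := by
        refine ⟨?_, fun v => Set.mem_univ v⟩
        intro v _
        rcases v with a | b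
        · obtain ⟨b, hb⟩ := ((hR.ca a).1 (Set.mem_univ a)).resolve_left (by simp)
          refine ⟨Sum.inr b, (hMadj a b).2 hb, ?_⟩
          intro w hw
          rcases w with w | w
          · exact absurd hw.adj_sub (hno1 _ _)
          · rw [hR.fa ((hMadj a w).1 hw) hb]
        · obtain ⟨a, ha⟩ := ((hR.cb b).1 (Set.mem_univ b)).resolve_left (by simp)
          refine ⟨Sum.inl a, ((hMadj a b).2 ha).symm, ?_⟩
          intro w hw
          rcases w with w | w
          · rw [hR.fb ((hMadj w b).1 hw.symm) ha]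
          · exact absurd hw.adj_sub (hno2 _ _)
      refine ⟨⟨M, hM⟩, ?_⟩
      apply Subtype.ext
      funext a b
      exact propext (hMadj a b)
  rw [stepc, ← Nat.card_congr (Equiv.ofBijective Φ hΦ), Nat.card_eq_one_iff_unique]
  constructor
  · rintro ⟨M, hM, hu⟩
    exact ⟨⟨fun a b => Subtype.ext ((hu _ a.2).trans (hu _ b.2).symm)⟩, ⟨⟨M, hM⟩⟩⟩
  · rintro ⟨⟨h1⟩, ⟨⟨M, hM⟩⟩⟩
    exact ⟨M, hM, fun M' hM' => congrArg Subtype.val (h1 ⟨M', hM'⟩ ⟨M, hM⟩)⟩

end H54.UPM
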