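import Pool.Agent.H54.UPM.Rank

/-!
# Groups of gadget signatures with `p` ports embed in the symmetric group on `p` letters
-/

namespace H54.UPM

open Function Relation

theorem IsGad.vgad {Q : Type} [Fintype Q] {x : Matrix (Finset Q) (Finset Q) T3} (hx : IsGad x)
    (h : x ∅ ∅ ≠ 0) : VGad x := by
  obtain ⟨A, B, _, _, X, rfl⟩ := hx
  obtain ⟨f, hf⟩ := (sig_ne_zero X ∅ ∅).1 h
  exact ⟨A, B, inferInstance, inferInstance, X, f, hf, rfl⟩

/-- Balance for signatures. -/
theorem IsGad.balance {P Q : Type} [Fintype P] [Fintype Q]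
    {x : Matrix (Finset P) (Finset Q) T3} (hx : IsGad x) {S S' : Finset P} {T T' : Finset Q}
    (h : x S T ≠ 0) (h' : x S' T' ≠ 0) : S.card + T'.card = S'.card + T.card := by
  obtain ⟨A, B, _, _, X, rfl⟩ := hx
  obtain ⟨g, hg⟩ := (sig_ne_zero X _ _).1 h
  obtain ⟨g', hg'⟩ := (sig_ne_zero X _ _).1 h'
  have h1 := hg.balance
  have h2 := hg'.balance
  omega

/-- **Structure theorem.** A group consisting of signatures of gadgets with `p` left ports and `p`
right ports (the multiplication being composition of gadgets) embeds in the symmetric group of a set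
with at most `p` elements. -/
theorem structure_thm {P : Type} [Fintype P] [DecidableEq P] {H : Type} [Group H]
    (ι : H → Matrix (Finset P) (Finset P) T3) (hmul : ∀ a b, ι (a * b) = ι a * ι b)
    (hinj : Injective ι) (hgad : ∀ a, IsGad (ι a)) (hne : ι 1 ≠ 0) :
    ∃ (Ω : Type) (_ : Fintype Ω) (ρ : H →* Equiv.Perm Ω),
      Fintype.card Ω ≤ Fintype.card P ∧ Injective ρ := by
  classical
  have h11 : ι 1 * ι 1 = ι 1 := by rw [← hmul, mul_one]
  have h1l : ∀ a, ι 1 * ι a = ι a := fun a => by rw [← hmul, one_mul]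
  have h1r : ∀ a, ι a * ι 1 = ι a := fun a => by rw [← hmul, mul_one]
  obtain ⟨Q, _, T0, x1, x2, hg1, hg2, hx12, hv1, hv2, hT0⟩ := recut (ι 1) (hgad 1) h11 hne
  let y : H → Matrix (Finset Q) (Finset Q) T3 := fun h => x2 * ι h * x1
  have hydef : ∀ h, y h = x2 * ι h * x1 := fun _ => rfl
  have hymul : ∀ g h, y (g * h) = y g * y h := by
    intro g h
    rw [hydef, hydef, hydef]
    calc x2 * ι (g * h) * x1 = x2 * (ι g * ι 1 * ι h) * x1 := by rw [h1r, ← hmul]
      _ = x2 * (ι g * (x1 * x2) * ι h) * x1 := by rw [hx12]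
      _ = x2 * ι g * x1 * (x2 * ι h * x1) := by simp only [Matrix.mul_assoc]
  have hygad : ∀ h, IsGad (y h) := fun h => (hg2.mul (hgad h)).mul hg1
  have hy1z : y 1 ∅ ∅ ≠ 0 := by
    rw [hydef, mul_apply_ne_zero]
    exact ⟨T0, by rw [mul_apply_ne_zero]; exact ⟨T0, hv2, hT0⟩, hv1⟩
  have hyz : ∀ h, y h ∅ ∅ ≠ 0 := by
    intro h
    have e1 : y h * y h⁻¹ = y 1 := by rw [← hymul, mul_inv_cancel]
    have e2 : y h⁻¹ * y h = y 1 := by rw [← hymul, inv_mul_cancel]
    have h1 := hy1z
    rw [← e1, mul_apply_ne_zero] at h1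
    obtain ⟨T, hT1, hT2⟩ := h1
    have h2 := hy1z
    rw [← e2, mul_apply_ne_zero] at h2
    obtain ⟨T', hT'1, hT'2⟩ := h2
    have h3 := (hygad h⁻¹).balance hT2 hT'1
    simp only [Finset.card_empty] at h3
    have : T = ∅ := by rw [← Finset.card_eq_zero]; omega
    rw [this] at hT1
    exact hT1
  have hyV : ∀ h, VGad (y h) := fun h => (hygad h).vgad (hyz h)
  have hid : y 1 * y 1 = y 1 := by rw [← hymul, mul_one]
  have hV1 := hyV 1
  -- the action
  let st : H → Q → Q → Prop := fun h i j => Rel (y h) i j ∧ Rel (y h⁻¹) j i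
  have st_comp : ∀ g h i j k, st g i j → st h j k → st (g * h) i k := by
    intro g h i j k h1 h2
    refine ⟨Rel.comp (hymul g h).symm h1.1 h2.1, ?_⟩
    rw [mul_inv_rev]
    exact Rel.comp (hymul _ _).symm h2.2 h1.2
  have st_symm : ∀ h i j, st h i j → st h⁻¹ j i := by
    intro h i j h1
    refine ⟨h1.2, ?_⟩
    rw [inv_inv]
    exact h1.1
  have st_ex : ∀ h i, Rel (y 1) i i → ∃ j, st h i j := by
    intro h i hi
    have e1 : y h * y h⁻¹ = y 1 := by rw [← hymul, mul_inv_cancel]
    obtain ⟨j, h1, h2⟩ := Rel.split (hyV h) e1 hi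
    exact ⟨j, h1, h2⟩
  have st_rec : ∀ h i j, st h i j → Rel (y 1) j j := by
    intro h i j h1
    have e2 : y h⁻¹ * y h = y 1 := by rw [← hymul, inv_mul_cancel]
    exact Rel.comp e2 h1.2 h1.1
  let Rc := {i : Q // Rel (y 1) i i}
  let s : Setoid Rc :=
    { r := fun i j => st 1 i.1 j.1
      iseqv :=
        { refl := fun i => ⟨i.2, by rw [inv_one]; exact i.2⟩
          symm := fun {i j} h => by have := st_symm 1 _ _ h; rwa [inv_one] at this
          trans := fun {i j k} h1 h2 => by have := st_comp 1 1 _ _ _ h1 h2; rwa [mul_one] at this } }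
  have hF : ∀ (h : H) (i : Rc), ∃ j : Rc, st h i.1 j.1 := by
    intro h i
    obtain ⟨j, hj⟩ := st_ex h i.1 i.2
    exact ⟨⟨j, st_rec h _ _ hj⟩, hj⟩
  choose F hF using hF
  have uniq : ∀ h (i i' j j' : Rc), st h i.1 j.1 → st h i'.1 j'.1 → s.r i i' → s.r j j' := by
    intro h i i' j j' h1 h2 h3
    have h4 := st_comp _ _ _ _ _ (st_comp _ _ _ _ _ (st_symm _ _ _ h1) h3) h2
    rw [mul_one, inv_mul_cancel] at h4
    exact h4
  let φ : H → Quotient s → Quotient s := fun h =>
    Quotient.map (F h) (fun i i' hii' => uniq h i i' _ _ (hF h i) (hF h i') hii')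
  have hφ1 : ∀ c, φ 1 c = c := by
    intro c
    induction c using Quotient.inductionOn with
    | h i =>
      show Quotient.mk s (F 1 i) = Quotient.mk s i
      apply Quotient.sound
      exact s.iseqv.symm (hF 1 i)
  have hφm : ∀ g h c, φ (g * h) c = φ h (φ g c) := by
    intro g h c
    induction c using Quotient.inductionOn with
    | h i =>
      show Quotient.mk s (F (g * h) i) = Quotient.mk s (F h (F g i))
      apply Quotient.sound
      exact uniq (g * h) i i _ _ (hF _ i) (st_comp _ _ _ _ _ (hF g i) (hF h (F g i)))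
        (s.iseqv.refl i)
  let ρ : H →* Equiv.Perm (Quotient s) :=
    { toFun := fun h =>
        { toFun := φ h⁻¹
          invFun := φ h
          left_inv := fun c => by rw [← hφm, inv_mul_cancel, hφ1]
          right_inv := fun c => by rw [← hφm, mul_inv_cancel, hφ1] }
      map_one' := by
        ext c
        show φ 1⁻¹ c = c
        rw [inv_one, hφ1]
      map_mul' := by
        intro g h
        ext c
        show φ (g * h)⁻¹ c = φ g⁻¹ (φ h⁻¹ c)
        rw [mul_inv_rev, hφm] }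
  refine ⟨Quotient s, Fintype.ofFinite _, ρ, ?_, ?_⟩
  · -- counting the classes
    let T : Finset Q := (Finset.univ : Finset (Quotient s)).image (fun c => c.out.1)
    have hTm : ∀ i, i ∈ T → ∃ c : Quotient s, c.out.1 = i := by
      intro i hi
      simp only [T, Finset.mem_image, Finset.mem_univ, true_and] at hi
      exact hi
    have hinjout : ∀ c c' : Quotient s, st 1 c.out.1 c'.out.1 → c = c' := by
      intro c c' h
      rw [← c.out_eq, ← c'.out_eq]
      exact Quotient.sound h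
    have hTc : T.card = Fintype.card (Quotient s) := by
      rw [Finset.card_image_of_injective, Finset.card_univ]
      intro c c' h
      apply hinjout
      have h : c.out.1 = c'.out.1 := h
      rw [← h]
      exact ⟨c.out.2, by rw [inv_one]; exact c.out.2⟩
    have hTT : y 1 T T ≠ 0 := by
      apply hV1.transversal
      · intro i hi
        obtain ⟨c, rfl⟩ := hTm i hi
        exact c.out.2
      · intro i hi j hj h1 h2
        obtain ⟨c, rfl⟩ := hTm i hi
        obtain ⟨c', rfl⟩ := hTm j hj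
        rw [hinjout c c' ⟨h1, by rw [inv_one]; exact h2⟩]
    rw [hydef, mul_apply_ne_zero] at hTT
    obtain ⟨U', hU1, -⟩ := hTT
    rw [mul_apply_ne_zero] at hU1
    obtain ⟨U, hU2, -⟩ := hU1
    have := hg2.balance hU2 hv2
    have h3 := Finset.card_le_univ U
    simp only [Finset.card_empty] at this
    have h4 : T.card ≤ Fintype.card P := by omega
    rw [hTc] at h4
    convert h4
  · -- faithfulness
    rw [injective_iff_map_eq_one]
    intro h hh
    -- `h` and `h⁻¹` fix all classes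
    have hfix : ∀ i : Rc, Rel (y h) i.1 i.1 ∧ Rel (y h⁻¹) i.1 i.1 := by
      intro i
      have h1 : ρ h (Quotient.mk s i) = Quotient.mk s i := by rw [hh]; rfl
      have h2 : Quotient.mk s (F h⁻¹ i) = Quotient.mk s i := h1
      have h3 : st 1 (F h⁻¹ i).1 i.1 := Quotient.exact h2
      have h4 := st_comp _ _ _ _ _ (hF h⁻¹ i) h3
      rw [mul_one] at h4
      have h5 : Rel (y h⁻¹⁻¹) i.1 i.1 := h4.2
      rw [inv_inv] at h5
      exact ⟨h5, h4.1⟩
    have hrel : ∀ g, (∀ i : Rc, Rel (y g⁻¹) i.1 i.1) → ∀ i j, Rel (y 1) i i → Rel (y g) i j →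
        Rel (y 1) i j := by
      intro g hg i j hi hij
      have e2 : y g⁻¹ * y g = y 1 := by rw [← hymul, inv_mul_cancel]
      exact Rel.comp e2 (hg ⟨i, hi⟩) hij
    -- the key claim: `y 1 ≤ y g` for `g = h, h⁻¹`
    have hle : ∀ g, (∀ i : Rc, Rel (y g) i.1 i.1 ∧ Rel (y g⁻¹) i.1 i.1) →
        ∀ S T, y 1 S T ≠ 0 → y g S T ≠ 0 := by
      intro g hg
      have hself : ∀ T, y 1 T T ≠ 0 → y g T T ≠ 0 := by
        intro T hT
        have e1 : y g * y g⁻¹ = y 1 := by rw [← hymul, mul_inv_cancel]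
        have e2 : y g⁻¹ * y g = y 1 := by rw [← hymul, inv_mul_cancel]
        have h1 := hT
        rw [← e1, mul_apply_ne_zero] at h1
        obtain ⟨T', hT1, hT2⟩ := h1
        have hT' : y 1 T' T' ≠ 0 := by
          rw [← e2, mul_apply_ne_zero]; exact ⟨T, hT2, hT1⟩
        have hlink : y 1 T' T ≠ 0 := by
          apply hV1.linked hid hT' hT ((hyV g).bal hT1).symm
          intro p hp _
          apply (hyV g⁻¹).count hT2 (Finset.filter_subset _ _)
          intro i hi j hj hij
          rw [Finset.mem_filter] at hi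
          refine hp i j hi.2 ?_
          refine hrel g⁻¹ ?_ i j (hV1.recurrent hid hT' hi.1) hij
          intro i'
          rw [inv_inv]
          exact (hg i').1
        have e3 : y g * y 1 = y g := by rw [← hymul, mul_one]
        rw [← e3, mul_apply_ne_zero]
        exact ⟨T', hT1, hlink⟩
      intro S T hST
      have hrel1 : ∀ S T, y 1 S T ≠ 0 ↔ ∃ U, y 1 S U ≠ 0 ∧ y 1 U T ≠ 0 := fun S T => by
        rw [← mul_apply_ne_zero, hid]
      obtain ⟨U, h1, h2, h3⟩ := idem_factor (fun S T => y 1 S T ≠ 0) hrel1 hST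
      have e3 : y g = y 1 * y g * y 1 := by rw [← hymul, ← hymul, one_mul, mul_one]
      rw [e3, mul_apply_ne_zero]
      exact ⟨U, by rw [mul_apply_ne_zero]; exact ⟨U, h1, hself U h2⟩, h3⟩
    have hle1 := hle h hfix
    have hle2 := hle h⁻¹ (by
      intro i
      rw [inv_inv]
      exact ⟨(hfix i).2, (hfix i).1⟩)
    -- so the supports of `y h` and `y 1` agree
    have hsupp : ∀ g, (∀ S T, y 1 S T ≠ 0 → y g S T ≠ 0) → (∀ S T, y 1 S T ≠ 0 → y g⁻¹ S T ≠ 0) →
        ∀ S T, y g S T ≠ 0 ↔ y 1 S T ≠ 0 := by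
      intro g h1 h2 S T
      refine ⟨fun h => ?_, h1 S T⟩
      have e1 : y g * y g⁻¹ = y 1 := by rw [← hymul, mul_inv_cancel]
      have e3 : y g * y 1 = y g := by rw [← hymul, mul_one]
      rw [← e3, mul_apply_ne_zero] at h
      obtain ⟨U, h3, h4⟩ := h
      rw [← e1, mul_apply_ne_zero]
      exact ⟨U, h3, h2 U T h4⟩
    have hs1 := hsupp h hle1 hle2
    have hs2 := hsupp h⁻¹ hle2 (by rw [inv_inv]; exact hle1)
    -- transfer to `ι`
    have htr : ∀ g, ι g = x1 * y g * x2 := by
      intro g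
      calc ι g = ι 1 * ι g * ι 1 := by rw [h1l, h1r]
        _ = (x1 * x2) * ι g * (x1 * x2) := by rw [hx12]
        _ = x1 * (x2 * ι g * x1) * x2 := by simp only [Matrix.mul_assoc]
    have hιs : ∀ g, (∀ S T, y g S T ≠ 0 ↔ y 1 S T ≠ 0) → ∀ S T, ι g S T ≠ 0 ↔ ι 1 S T ≠ 0 := by
      intro g hg S T
      rw [htr g, htr 1, mul_apply_ne_zero, mul_apply_ne_zero]
      constructor
      · rintro ⟨V, h1, h2⟩
        refine ⟨V, ?_, h2⟩
        rw [mul_apply_ne_zero] at h1 ⊢
        obtain ⟨U, h3, h4⟩ := h1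
        exact ⟨U, h3, (hg _ _).1 h4⟩
      · rintro ⟨V, h1, h2⟩
        refine ⟨V, ?_, h2⟩
        rw [mul_apply_ne_zero] at h1 ⊢
        obtain ⟨U, h3, h4⟩ := h1
        exact ⟨U, h3, (hg _ _).2 h4⟩
    have hfin : ι h = ι 1 :=
      kernel_T3 (ι 1) (ι h) (ι h⁻¹) h11 (h1l h) (h1r h) (by rw [← hmul, mul_inv_cancel])
        (hιs h hs1) (hιs h⁻¹ hs2)
    exact hinj hfin

end H54.UPM
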