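import Pool.Agent.H54.UPM.Step

/-!
# Families of graphs for layered path problems
-/

namespace H54.UPM

open Function

variable {α S : Type} {L : ℕ}

/-- The family of the layered path problem: layers `1, …, L` with vertex set `S`, the edges between
consecutive layers (and from the source `s0` to the first layer) are given by the letters, the
vertices of the last layer satisfying `Acc` are joined to the sink; `cl` tells whether the edge
from the sink back to the source is present. -/
def pathFam (hL : 0 < L) [Finite S] (R : α → S → S → Prop) (s0 : S) (Acc : S → Prop)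
    (cl : Prop) : Family α L where
  A := Option (Fin L × S)
  B := Option (Fin L × S)
  finA := inferInstance
  finB := inferInstance
  owner _ b := match b with
    | some b => b.1
    | none => ⟨L - 1, by omega⟩
  edge a b c := match a, b with
    | none, some b => (b.1 : ℕ) = 0 ∧ R c s0 b.2
    | some a, some b => (a = b) ∨ ((a.1 : ℕ) + 1 = b.1 ∧ R c a.2 b.2)
    | some a, none => (a.1 : ℕ) + 1 = L ∧ Acc a.2
    | none, none => cl

/-- Accepting paths; `q i` is the vertex reached after the letter `i`. -/
def IsPath (R : α → S → S → Prop) (s0 : S) (Acc : S → Prop) (x : Fin L → α) (q : Fin L → S) :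
    Prop :=
  (∀ i : Fin L, (i : ℕ) = 0 → R (x i) s0 (q i)) ∧
  (∀ i j : Fin L, (i : ℕ) + 1 = j → R (x j) (q i) (q j)) ∧
  ∀ i : Fin L, (i : ℕ) + 1 = L → Acc (q i)

/-- The matching of a path. -/
def pathM (q : Fin L → S) : Option (Fin L × S) → Option (Fin L × S) → Prop
  | none, some b => (b.1 : ℕ) = 0 ∧ b.2 = q b.1
  | some a, some b => (a = b ∧ a.2 ≠ q a.1) ∨ ((a.1 : ℕ) + 1 = b.1 ∧ a.2 = q a.1 ∧ b.2 = q b.1)
  | some a, none => (a.1 : ℕ) + 1 = L ∧ a.2 = q a.1
  | none, none => False

theorem stepc_eq_one {A B : Type} [Finite A] [Finite B] (E : A → B → Prop) (U U' : Set A)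
    (W W' : Set B) : stepc E U U' W W' = 1 ↔ ∃! M, IsStep E U U' W W' M := by
  rw [stepc, Nat.card_eq_one_iff_unique]
  constructor
  · rintro ⟨⟨h1⟩, ⟨⟨M, hM⟩⟩⟩
    exact ⟨M, hM, fun M' hM' => congrArg Subtype.val (h1 ⟨M', hM'⟩ ⟨M, hM⟩)⟩
  · rintro ⟨M, hM, hu⟩
    exact ⟨⟨fun a b => Subtype.ext ((hu _ a.2).trans (hu _ b.2).symm)⟩, ⟨⟨M, hM⟩⟩⟩

section

variable (hL : 0 < L) [Finite S] (R : α → S → S → Prop) (s0 : S) (Acc : S → Prop) (cl : Prop)

/-- The edges of the graph of the path family. -/
def pathE (x : Fin L → α) : Option (Fin L × S) → Option (Fin L × S) → Prop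
  | none, some b => (b.1 : ℕ) = 0 ∧ R (x b.1) s0 b.2
  | some a, some b => (a = b) ∨ ((a.1 : ℕ) + 1 = b.1 ∧ R (x b.1) a.2 b.2)
  | some a, none => (a.1 : ℕ) + 1 = L ∧ Acc a.2
  | none, none => cl

theorem path_unique_iff (x : Fin L → α) : UniquePM ((pathFam hL R s0 Acc cl).graph x) ↔
    ∃! M, IsStep (pathE R s0 Acc cl x) ∅ Set.univ ∅ Set.univ M := by
  rw [uniquePM_iff, ← stepc_eq_one]
  have : (fun a b => (pathFam hL R s0 Acc cl).edge a b (x ((pathFam hL R s0 Acc cl).owner a b))) =
      pathE R s0 Acc cl x := by
    funext a b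
    rcases a with _ | a <;> rcases b with _ | b <;> rfl
  constructor
  · intro h
    rw [← this]
    exact h
  · intro h
    rw [← this] at h
    exact h

variable {R s0 Acc cl}

theorem pathM_isStep {x : Fin L → α} {q : Fin L → S} (hL : 0 < L) (hq : IsPath R s0 Acc x q) :
    IsStep (pathE R s0 Acc cl x) ∅ Set.univ ∅ Set.univ (pathM q) where
  sub := by
    intro a b h
    rcases a with _ | a <;> rcases b with _ | b
    · exact h.elim
    · obtain ⟨h1, h2⟩ := h
      exact ⟨h1, by rw [h2]; exact hq.1 _ h1⟩
    · obtain ⟨h1, h2⟩ := h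
      exact ⟨h1, by rw [h2]; exact hq.2.2 _ h1⟩
    · rcases h with ⟨h1, h2⟩ | ⟨h1, h2, h3⟩
      · exact Or.inl h1
      · exact Or.inr ⟨h1, by rw [h2, h3]; exact hq.2.1 _ _ h1⟩
  fa := by
    intro a b b' h h'
    rcases a with _ | ⟨i, v⟩ <;> rcases b with _ | ⟨j, u⟩ <;> rcases b' with _ | ⟨j', u'⟩ <;>
      simp only [pathM, Prod.mk.injEq] at h h' <;> first | rfl | exact h.elim | exact h'.elim | skip
    · have : j = j' := Fin.ext (by omega)
      subst this
      rw [h.2, h'.2]
    · rcases h' with h' | h'
      · exact absurd h.2 h'.2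
      · have := j'.2; omega
    · rcases h with h | h
      · exact absurd h'.2 h.2
      · have := j.2; omega
    · rcases h with h | h <;> rcases h' with h' | h'
      · rw [← h.1.1, ← h.1.2, ← h'.1.1, ← h'.1.2]
      · exact absurd h'.2.1 h.2
      · exact absurd h.2.1 h'.2
      · have : j = j' := Fin.ext (by omega)
        subst this
        rw [h.2.2, h'.2.2]
  fb := by
    intro a a' b h h'
    rcases b with _ | ⟨j, u⟩ <;> rcases a with _ | ⟨i, v⟩ <;> rcases a' with _ | ⟨i', v'⟩ <;>
      simp only [pathM, Prod.mk.injEq] at h h' <;> first | rfl | exact h.elim | exact h'.elim | skip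
    · have : i = i' := Fin.ext (by omega)
      subst this
      rw [h.2, h'.2]
    · rcases h' with h' | h'
      · obtain ⟨⟨rfl, rfl⟩, h3⟩ := h'
        exact absurd h.2 h3
      · omega
    · rcases h with h | h
      · obtain ⟨⟨rfl, rfl⟩, h3⟩ := h
        exact absurd h'.2 h3
      · omega
    · rcases h with h | h <;> rcases h' with h' | h'
      · rw [h.1.1, h.1.2, h'.1.1, h'.1.2]
      · obtain ⟨⟨rfl, rfl⟩, h3⟩ := h
        exact absurd h'.2.2 h3
      · obtain ⟨⟨rfl, rfl⟩, h3⟩ := h'
        exact absurd h.2.2 h3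
      · have : i = i' := Fin.ext (by omega)
        subst this
        rw [h.2.1, h'.2.1]
  na := by simp
  nb := by simp
  ca := by
    intro a
    simp only [Set.mem_univ, Set.mem_empty_iff_false, false_or, true_iff]
    rcases a with _ | ⟨i, v⟩
    · exact ⟨some (⟨0, hL⟩, q ⟨0, hL⟩), rfl, rfl⟩
    · by_cases h : v = q i
      · by_cases h1 : (i : ℕ) + 1 = L
        · exact ⟨none, h1, h⟩
        · have h2 : (i : ℕ) + 1 < L := by have := i.2; omega
          exact ⟨some (⟨i + 1, h2⟩, q ⟨i + 1, h2⟩), Or.inr ⟨rfl, h, rfl⟩⟩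
      · exact ⟨some (i, v), Or.inl ⟨rfl, h⟩⟩
  cb := by
    intro b
    simp only [Set.mem_univ, Set.mem_empty_iff_false, false_or, true_iff]
    rcases b with _ | ⟨j, v⟩
    · exact ⟨some (⟨L - 1, by omega⟩, q ⟨L - 1, by omega⟩), by show L - 1 + 1 = L; omega, rfl⟩
    · by_cases h : v = q j
      · by_cases h1 : (j : ℕ) = 0
        · exact ⟨none, h1, h⟩
        · have h2 : (j : ℕ) - 1 < L := by have := j.2; omega
          exact ⟨some (⟨j - 1, h2⟩, q ⟨j - 1, h2⟩), Or.inr ⟨by show (j : ℕ) - 1 + 1 = j; omega, rfl, h⟩⟩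
      · exact ⟨some (j, v), Or.inl ⟨rfl, h⟩⟩

theorem pathM_inj {q q' : Fin L → S} (h : pathM q = pathM q') : q = q' := by
  funext i
  by_contra hne
  have h1 : ¬ pathM q (some (i, q i)) (some (i, q i)) := by
    rintro (⟨-, h1⟩ | ⟨h1, -⟩)
    · exact h1 rfl
    · simp at h1
  rw [h] at h1
  exact h1 (Or.inl ⟨rfl, hne⟩)

/-- Two matchings, one contained in the other, are equal. -/
theorem IsStep.eq_of_sub {A B : Type} {E : A → B → Prop} {M M' : A → B → Prop}
    (h : IsStep E ∅ Set.univ ∅ Set.univ M) (h' : IsStep E ∅ Set.univ ∅ Set.univ M')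
    (hs : ∀ a b, M' a b → M a b) : M = M' := by
  funext a b
  apply propext
  constructor
  · intro hab
    obtain ⟨b', hb'⟩ := ((h'.ca a).1 (Set.mem_univ a)).resolve_left (by simp)
    rw [h.fa hab (hs _ _ hb')]
    exact hb'
  · exact hs a b

theorem path_of_step {x : Fin L → α} {M : Option (Fin L × S) → Option (Fin L × S) → Prop}
    (hL : 0 < L) (H : IsStep (pathE R s0 Acc cl x) ∅ Set.univ ∅ Set.univ M)
    (h0 : ¬ M none none) : ∃ q, IsPath R s0 Acc x q ∧ M = pathM q := by
  have hφ : ∀ a, ∃ b, M a b := fun a => ((H.ca a).1 (Set.mem_univ a)).resolve_left (by simp)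
  have hP : ∀ n (hn : n < L), ∃ v a, M a (some (⟨n, hn⟩, v)) ∧ a ≠ some (⟨n, hn⟩, v) := by
    intro n
    induction n with
    | zero =>
      intro hn
      obtain ⟨b, hb⟩ := hφ none
      rcases b with _ | ⟨j, v⟩
      · exact absurd hb h0
      · have h1 := (H.sub hb).1
        have h2 : j = ⟨0, hn⟩ := Fin.ext h1
        rw [h2] at hb
        exact ⟨v, none, hb, by simp⟩
    | succ n ih =>
      intro hn
      obtain ⟨v, a, h1, h2⟩ := ih (by omega)
      obtain ⟨b, hb⟩ := hφ (some (⟨n, by omega⟩, v))
      rcases b with _ | ⟨j, u⟩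
      · have h3 := (H.sub hb).1
        simp only at h3
        omega
      · rcases H.sub hb with h3 | ⟨h3, -⟩
        · rw [← h3] at hb
          exact absurd (H.fb h1 hb) h2
        · have h4 : j = ⟨n + 1, hn⟩ := Fin.ext h3.symm
          rw [h4] at hb
          refine ⟨u, _, hb, ?_⟩
          intro h5
          have := congrArg (fun o : Option (Fin L × S) => o.map (fun t => (t.1 : ℕ))) h5
          simp at this
  choose q0 a0 hq1 hq2 using hP
  let q : Fin L → S := fun i => q0 i i.2
  have hns : ∀ i, ¬ M (some (i, q i)) (some (i, q i)) := by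
    intro i h
    exact hq2 i i.2 (H.fb (hq1 i i.2) h)
  have hdown : ∀ d, ∀ i : Fin L, L - 1 - i = d → ∀ v, v ≠ q i →
      M (some (i, v)) (some (i, v)) := by
    intro d
    induction d with
    | zero =>
      intro i hi v hv
      obtain ⟨b, hb⟩ := hφ (some (i, v))
      obtain ⟨b', hb'⟩ := hφ (some (i, q i))
      have hi1 : (i : ℕ) + 1 = L := by have := i.2; omega
      have e1 : b' = none := by
        rcases b' with _ | ⟨j, u⟩
        · rfl
        · rcases H.sub hb' with h3 | ⟨h3, -⟩
          · rw [← h3] at hb'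
            exact absurd hb' (hns i)
          · simp only at h3; have := j.2; omega
      rcases b with _ | ⟨j, u⟩
      · rw [e1] at hb'
        have := H.fb hb hb'
        simp at this
        exact absurd this hv
      · rcases H.sub hb with h3 | ⟨h3, -⟩
        · rw [← h3] at hb
          exact hb
        · simp only at h3; have := j.2; omega
    | succ d ih =>
      intro i hi v hv
      have key : ∀ v, ¬ M (some (i, v)) (some (i, v)) → ∀ (hj : (i : ℕ) + 1 < L),
          M (some (i, v)) (some (⟨i + 1, hj⟩, q ⟨i + 1, hj⟩)) := by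
        intro v hv hj
        obtain ⟨b, hb⟩ := hφ (some (i, v))
        rcases b with _ | ⟨j, u⟩
        · have h3 := (H.sub hb).1
          simp only at h3
          omega
        · rcases H.sub hb with h3 | ⟨h3, -⟩
          · rw [← h3] at hb
            exact absurd hb hv
          · have h4 : j = ⟨i + 1, hj⟩ := Fin.ext h3.symm
            rw [h4] at hb
            by_cases hu : u = q ⟨i + 1, hj⟩
            · rw [hu] at hb
              exact hb
            · have h5 := ih ⟨i + 1, hj⟩ (by simp only; omega) u hu
              have h6 := congrArg (fun o : Option (Fin L × S) => o.map (fun t => (t.1 : ℕ)))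
                (H.fb hb h5)
              simp at h6
      have hj : (i : ℕ) + 1 < L := by omega
      by_contra hcon
      have h1 := key v hcon hj
      have h2 := key (q i) (hns i) hj
      have := H.fb h1 h2
      simp at this
      exact hv this
  have hself : ∀ (i : Fin L) v, v ≠ q i → M (some (i, v)) (some (i, v)) :=
    fun i v hv => hdown _ i rfl v hv
  have hstep : ∀ i j : Fin L, (i : ℕ) + 1 = j → M (some (i, q i)) (some (j, q j)) := by
    intro i j hij
    obtain ⟨b, hb⟩ := hφ (some (i, q i))
    rcases b with _ | ⟨j', u⟩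
    · have h3 := (H.sub hb).1
      simp only at h3
      have := j.2; omega
    · rcases H.sub hb with h3 | ⟨h3, -⟩
      · rw [← h3] at hb
        exact absurd hb (hns i)
      · have h4 : j' = j := Fin.ext (by simp only at h3; omega)
        rw [h4] at hb
        by_cases hu : u = q j
        · rw [hu] at hb
          exact hb
        · have h6 := congrArg (fun o : Option (Fin L × S) => o.map (fun t => (t.1 : ℕ)))
            (H.fb hb (hself j u hu))
          simp at h6
          omega
  have hlast : ∀ i : Fin L, (i : ℕ) + 1 = L → M (some (i, q i)) none := by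
    intro i hi
    obtain ⟨b, hb⟩ := hφ (some (i, q i))
    rcases b with _ | ⟨j', u⟩
    · exact hb
    · rcases H.sub hb with h3 | ⟨h3, -⟩
      · rw [← h3] at hb
        exact absurd hb (hns i)
      · simp only at h3; have := j'.2; omega
  have hfirst : ∀ i : Fin L, (i : ℕ) = 0 → M none (some (i, q i)) := by
    intro i hi
    obtain ⟨b, hb⟩ := hφ none
    rcases b with _ | ⟨j, v⟩
    · exact absurd hb h0
    · have h1 := (H.sub hb).1
      have h2 : j = i := Fin.ext (by simp only at h1; omega)
      rw [h2] at hb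
      by_cases hu : v = q i
      · rw [hu] at hb
        exact hb
      · have := H.fb hb (hself i v hu)
        simp at this
  have hpath : IsPath R s0 Acc x q := by
    refine ⟨?_, ?_, ?_⟩
    · intro i hi
      exact (H.sub (hfirst i hi)).2
    · intro i j hij
      rcases H.sub (hstep i j hij) with h3 | ⟨h3, h4⟩
      · have h6 := congrArg (fun o : Fin L × S => (o.1 : ℕ)) h3
        simp at h6
        omega
      · exact h4
    · intro i hi
      exact (H.sub (hlast i hi)).2
  refine ⟨q, hpath, H.eq_of_sub (pathM_isStep hL hpath) ?_⟩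
  intro a b h
  rcases a with _ | ⟨i, v⟩ <;> rcases b with _ | ⟨j, u⟩
  · exact h.elim
  · obtain ⟨h1, h2⟩ := h
    simp only at h1 h2
    rw [h2]
    exact hfirst j h1
  · obtain ⟨h1, h2⟩ := h
    simp only at h1 h2
    rw [h2]
    exact hlast i h1
  · rcases h with ⟨h1, h2⟩ | ⟨h1, h2, h3⟩
    · rw [← h1]
      exact hself i v h2
    · simp only at h1 h2 h3
      rw [h2, h3]
      exact hstep i j h1

/-- The diagonal matching. -/
theorem diag_isStep (x : Fin L → α) (hcl : cl) :
    IsStep (pathE R s0 Acc cl x) ∅ Set.univ ∅ Set.univ (fun a b => a = b) where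
  sub := by
    rintro a b rfl
    rcases a with _ | a
    · exact hcl
    · exact Or.inl rfl
  fa := by
    rintro a b b' rfl rfl
    rfl
  fb := by
    rintro a a' b rfl rfl
    rfl
  na := by simp
  nb := by simp
  ca := by simp
  cb := by simp

theorem diag_of_step {x : Fin L → α} {M : Option (Fin L × S) → Option (Fin L × S) → Prop}
    (hcl : cl) (H : IsStep (pathE R s0 Acc cl x) ∅ Set.univ ∅ Set.univ M) (h0 : M none none) :
    M = fun a b => a = b := by
  have hφ : ∀ a, ∃ b, M a b := fun a => ((H.ca a).1 (Set.mem_univ a)).resolve_left (by simp)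
  have hdown : ∀ d, ∀ i : Fin L, L - 1 - i = d → ∀ v, M (some (i, v)) (some (i, v)) := by
    intro d
    induction d with
    | zero =>
      intro i hi v
      obtain ⟨b, hb⟩ := hφ (some (i, v))
      rcases b with _ | ⟨j, u⟩
      · have := H.fb hb h0
        simp at this
      · rcases H.sub hb with h3 | ⟨h3, -⟩
        · rw [← h3] at hb
          exact hb
        · simp only at h3; have := j.2; omega
    | succ d ih =>
      intro i hi v
      obtain ⟨b, hb⟩ := hφ (some (i, v))
      rcases b with _ | ⟨j, u⟩
      · have := H.fb hb h0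
        simp at this
      · rcases H.sub hb with h3 | ⟨h3, -⟩
        · rw [← h3] at hb
          exact hb
        · simp only at h3
          have h6 := congrArg (fun o : Option (Fin L × S) => o.map (fun t => (t.1 : ℕ)))
            (H.fb hb (ih j (by omega) u))
          simp at h6
          omega
  refine H.eq_of_sub (diag_isStep x hcl) ?_
  rintro a b rfl
  rcases a with _ | ⟨i, v⟩
  · exact h0
  · exact hdown _ i rfl v

/-- Without the closing edge: the perfect matching is unique if and only if there is exactly one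
accepting path. -/
theorem unique_iff_path (hL : 0 < L) (x : Fin L → α) :
    UniquePM ((pathFam hL R s0 Acc False).graph x) ↔ ∃! q, IsPath R s0 Acc x q := by
  rw [path_unique_iff]
  constructor
  · rintro ⟨M, hM, hu⟩
    obtain ⟨q, hq, rfl⟩ := path_of_step hL hM (fun h => hM.sub h)
    refine ⟨q, hq, ?_⟩
    intro q' hq'
    exact pathM_inj (hu _ (pathM_isStep hL hq'))
  · rintro ⟨q, hq, hu⟩
    refine ⟨pathM q, pathM_isStep hL hq, ?_⟩
    intro M hM
    obtain ⟨q', hq', rfl⟩ := path_of_step hL hM (fun h => hM.sub h)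
    rw [hu q' hq']

/-- With the closing edge: the perfect matching is unique if and only if there is no accepting
path. -/
theorem unique_iff_no_path (hL : 0 < L) (x : Fin L → α) :
    UniquePM ((pathFam hL R s0 Acc True).graph x) ↔ ¬ ∃ q, IsPath R s0 Acc x q := by
  rw [path_unique_iff]
  constructor
  · rintro ⟨M, hM, hu⟩ ⟨q, hq⟩
    have h1 := hu _ (pathM_isStep hL hq)
    have h2 := hu _ (diag_isStep x trivial)
    rw [← h1] at h2
    have h3 := congrFun (congrFun h2 none) none
    simp [pathM] at h3
  · intro h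
    refine ⟨_, diag_isStep x trivial, ?_⟩
    intro M hM
    apply diag_of_step trivial hM
    by_contra h0
    obtain ⟨q, hq, -⟩ := path_of_step hL hM h0
    exact h ⟨q, hq⟩

end

section

variable (hL : 0 < L) [Finite S] (R : α → S → S → Prop) (s0 : S) (Acc : S → Prop) (cl : Prop)

theorem touches_left {a : Fin L × S} {i : Fin L}
    (h : (pathFam hL R s0 Acc cl).Touches (Sum.inl (some a)) i) :
    (i : ℕ) = a.1 ∨ (i : ℕ) = a.1 + 1 := by
  obtain ⟨a', b, c, h1, h2, h3⟩ := h
  rcases h1 with h1 | h1
  · have h4 : a' = some a := (Sum.inl_injective h1).symm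
    subst h4
    rcases b with _ | b
    · have h5 : (a.1 : ℕ) + 1 = L := h3.1
      have h6 : L - 1 = (i : ℕ) := congrArg Fin.val h2
      omega
    · have h6 : (b.1 : ℕ) = (i : ℕ) := congrArg Fin.val h2
      rcases h3 with h3 | ⟨h3, -⟩
      · rw [h3]; omega
      · omega
  · simp at h1

theorem touches_right {b : Option (Fin L × S)} {i j : Fin L}
    (h : (pathFam hL R s0 Acc cl).Touches (Sum.inr b) i)
    (h' : (pathFam hL R s0 Acc cl).Touches (Sum.inr b) j) : i = j := by
  obtain ⟨a1, b1, c1, h1, h2, -⟩ := h
  obtain ⟨a2, b2, c2, h3, h4, -⟩ := h'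
  rcases h1 with h1 | h1
  · simp at h1
  rcases h3 with h3 | h3
  · simp at h3
  rw [← Sum.inr_injective h1] at h2
  rw [← Sum.inr_injective h3] at h4
  rw [← h2, ← h4]
  rfl

theorem interface_sub (k : ℕ) (hk : 0 < k) : (pathFam hL R s0 Acc cl).interface k ⊆
    (fun v : S => (Sum.inl (some (⟨min (k - 1) (L - 1), by omega⟩, v)) :
      Option (Fin L × S) ⊕ Option (Fin L × S))) '' Set.univ ∪ {Sum.inl none} := by
  rintro (a | b) ⟨⟨i, h1, h2⟩, ⟨j, h3, h4⟩⟩
  · rcases a with _ | a
    · right; rfl
    · left
      have h5 := touches_left hL R s0 Acc cl h2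
      have h6 := touches_left hL R s0 Acc cl h4
      refine ⟨a.2, Set.mem_univ _, ?_⟩
      have h7 : (⟨min (k - 1) (L - 1), by omega⟩ : Fin L) = a.1 := Fin.ext (by
        simp only
        have := a.1.2
        omega)
      simp only [h7]
      rfl
  · have := touches_right hL R s0 Acc cl h2 h4
    omega

theorem pathFam_width_true : (pathFam hL R s0 Acc cl).WidthLE (Nat.card S + 1) := by
  intro k
  by_cases hk : 0 < k
  · have key : ∀ I : Set (Option (Fin L × S) ⊕ Option (Fin L × S)), I ⊆
        (fun v : S => (Sum.inl (some (⟨min (k - 1) (L - 1), by omega⟩, v)) :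
          Option (Fin L × S) ⊕ Option (Fin L × S))) '' Set.univ ∪ {Sum.inl none} →
        I.ncard ≤ Nat.card S + 1 := by
      intro I hI
      refine (Set.ncard_le_ncard hI (Set.toFinite _)).trans ?_
      refine (Set.ncard_union_le _ _).trans ?_
      rw [Set.ncard_singleton]
      have := Set.ncard_image_le (f := fun v : S =>
        (Sum.inl (some (⟨min (k - 1) (L - 1), by omega⟩, v)) :
        Option (Fin L × S) ⊕ Option (Fin L × S))) (Set.toFinite (Set.univ : Set S))
      rw [Set.ncard_univ] at this
      omega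
    exact key _ (interface_sub hL R s0 Acc cl k hk)
  · have : (pathFam hL R s0 Acc cl).interface k = ∅ := by
      ext v
      simp only [Set.mem_empty_iff_false, iff_false]
      rintro ⟨⟨i, h1, -⟩, -⟩
      omega
    rw [this]
    simp

theorem pathFam_width_false : (pathFam hL R s0 Acc False).WidthLE (Nat.card S) := by
  intro k
  by_cases hk : 0 < k
  · have hsub : (pathFam hL R s0 Acc False).interface k ⊆
      (fun v : S => (Sum.inl (some (⟨min (k - 1) (L - 1), by omega⟩, v)) :
        Option (Fin L × S) ⊕ Option (Fin L × S))) '' Set.univ := by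
      intro v hv
      rcases interface_sub hL R s0 Acc False k hk hv with h | h
      · exact h
      · exfalso
        rw [h] at hv
        have key : ∀ i : Fin L, (pathFam hL R s0 Acc False).Touches (Sum.inl none) i →
            (i : ℕ) = 0 := by
          rintro i ⟨a, b, c, h1, h2, h3⟩
          rcases h1 with h1 | h1
          · have h4 : a = none := (Sum.inl_injective h1).symm
            subst h4
            rcases b with _ | b
            · exact h3.elim
            · have h6 : (b.1 : ℕ) = (i : ℕ) := congrArg Fin.val h2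
              rw [← h6]
              exact h3.1
          · simp at h1
        obtain ⟨⟨i, h1, h2⟩, ⟨j, h3, h4⟩⟩ := hv
        have := key j h4
        omega
    have key : ∀ I : Set (Option (Fin L × S) ⊕ Option (Fin L × S)), I ⊆
        (fun v : S => (Sum.inl (some (⟨min (k - 1) (L - 1), by omega⟩, v)) :
          Option (Fin L × S) ⊕ Option (Fin L × S))) '' Set.univ → I.ncard ≤ Nat.card S := by
      intro I hI
      refine (Set.ncard_le_ncard hI (Set.toFinite _)).trans ?_
      have := Set.ncard_image_le (f := fun v : S =>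
        (Sum.inl (some (⟨min (k - 1) (L - 1), by omega⟩, v)) :
        Option (Fin L × S) ⊕ Option (Fin L × S))) (Set.toFinite (Set.univ : Set S))
      rw [Set.ncard_univ] at this
      exact this
    exact key _ hsub
  · have : (pathFam hL R s0 Acc False).interface k = ∅ := by
      ext v
      simp only [Set.mem_empty_iff_false, iff_false]
      rintro ⟨⟨i, h1, -⟩, -⟩
      omega
    rw [this]
    simp

end

end H54.UPM
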