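import Pool.Agent.H54.UPM.UpperSpec

/-!
# Upper bound for the test of a nonzero value: the zero vector is not needed
-/

namespace H54.UPM

open Function

/-- **Upper bound for products over a finite commutative ring, nonzero value.** -/
theorem upper_ring_nz {α R : Type} [CommRing R] [Nontrivial R] [Finite R] {w L : ℕ} (hL : 0 < L)
    (s t : Fin w) {c : R} (hc : c ≠ 0) (φ : α → Matrix (Fin w) (Fin w) R) :
    ∃ F : Family α L, F.WidthLE (Nat.card R ^ w - 1) ∧
      ∀ x, UniquePM (F.graph x) ↔ (List.ofFn fun i => φ (x i)).prod s t = c := by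
  classical
  let S := {v : Fin w → R // v ≠ 0}
  let Q : α → S → S → Prop := fun a v v' => v'.1 = Matrix.vecMul v.1 (φ a)
  have hs : (Pi.single s 1 : Fin w → R) ≠ 0 := by
    intro h
    have := congrFun h s
    simp at this
  refine ⟨pathFam hL Q ⟨Pi.single s 1, hs⟩ (fun v => v.1 t = c) False, ?_, ?_⟩
  · have := pathFam_width_false hL Q (⟨Pi.single s 1, hs⟩ : S) (fun v => v.1 t = c)
    have h2 : Nat.card S = Nat.card R ^ w - 1 := by
      have : Fintype R := Fintype.ofFinite _
      rw [Nat.card_eq_fintype_card, Fintype.card_subtype_compl, Fintype.card_subtype_eq,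
        Fintype.card_fun, Fintype.card_fin, Nat.card_eq_fintype_card]
    rwa [h2] at this
  · intro x
    rw [unique_iff_path]
    let y : Fin L → Matrix (Fin w) (Fin w) R := fun i => φ (x i)
    let q0 : Fin L → Fin w → R := fun i => Matrix.vecMul (Pi.single s 1) (pre y (i + 1))
    have hdet : ∀ q, IsPath Q (⟨Pi.single s 1, hs⟩ : S) (fun v => v.1 t = c) x q →
        ∀ i, (q i).1 = q0 i := by
      intro q hq
      have : ∀ n (hn : n < L), (q ⟨n, hn⟩).1 = q0 ⟨n, hn⟩ := by
        intro n
        induction n with
        | zero =>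
          intro hn
          have h1 := hq.1 ⟨0, hn⟩ rfl
          have h2 := pre_succ y ⟨0, hn⟩
          simp only at h2
          rw [pre_zero, one_mul] at h2
          show (q ⟨0, hn⟩).1 = Matrix.vecMul (Pi.single s 1) (pre y (0 + 1))
          rw [h2]
          exact h1
        | succ n ih =>
          intro hn
          have h1 := hq.2.1 ⟨n, by omega⟩ ⟨n + 1, hn⟩ rfl
          have h2 := pre_succ y ⟨n + 1, hn⟩
          simp only at h2
          show (q ⟨n + 1, hn⟩).1 = Matrix.vecMul (Pi.single s 1) (pre y (n + 1 + 1))
          rw [h2, ← Matrix.vecMul_vecMul]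
          have h3 := ih (by omega)
          have h4 : (q ⟨n + 1, hn⟩).1 = Matrix.vecMul (q ⟨n, by omega⟩).1 (y ⟨n + 1, hn⟩) := h1
          rw [h4, h3]
      intro i
      exact this i i.2
    have hlast : ∀ i : Fin L, (i : ℕ) + 1 = L → q0 i t = (List.ofFn y).prod s t := by
      intro i hi
      show Matrix.vecMul (Pi.single s 1) (pre y (i + 1)) t = _
      rw [hi, pre_full]
      simp
    constructor
    · rintro ⟨q, hq, -⟩
      have h1 := hdet q hq
      have h2 := hq.2.2 ⟨L - 1, by omega⟩ (by simp only; omega)
      simp only [h1] at h2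
      show (List.ofFn y).prod s t = c
      rw [← hlast ⟨L - 1, by omega⟩ (by simp only; omega)]
      exact h2
    · intro h
      -- all prefix vectors are nonzero
      have hnz : ∀ i, q0 i ≠ 0 := by
        intro i hi
        apply hc
        rw [← h]
        show (List.ofFn y).prod s t = 0
        have h1 : (List.ofFn y).prod = pre y (i + 1) * ((List.ofFn y).drop (i + 1)).prod := by
          rw [pre, List.prod_take_mul_prod_drop]
        have h2 : Matrix.vecMul (Pi.single s 1) (List.ofFn y).prod = 0 := by
          rw [h1, ← Matrix.vecMul_vecMul]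
          show Matrix.vecMul (q0 i) _ = 0
          rw [hi, Matrix.zero_vecMul]
        have h3 := congrFun h2 t
        simp only [Pi.zero_apply] at h3
        rw [← h3]
        simp
      refine ⟨fun i => ⟨q0 i, hnz i⟩, ⟨?_, ?_, ?_⟩, ?_⟩
      · intro i hi
        have h2 := pre_succ y i
        rw [hi, pre_zero, one_mul] at h2
        show Matrix.vecMul (Pi.single s 1) (pre y (i + 1)) = Matrix.vecMul (Pi.single s 1) (y i)
        rw [hi, h2]
      · intro i j hij
        have h2 := pre_succ y j
        show Matrix.vecMul (Pi.single s 1) (pre y (j + 1)) =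
          Matrix.vecMul (Matrix.vecMul (Pi.single s 1) (pre y (i + 1))) (y j)
        rw [h2, Matrix.vecMul_vecMul, hij]
      · intro i hi
        show q0 i t = c
        rw [hlast i hi]
        exact h
      · intro q hq
        funext i
        exact Subtype.ext (hdet q hq i)

/-- **Upper bound for products over the field with two elements, test for the value `1`.** -/
theorem upper_F2_one {w L : ℕ} (hL : 0 < L) (s t : Fin w) :
    ∃ F : Family (Matrix (Fin w) (Fin w) (ZMod 2)) L, F.WidthLE (2 ^ w - 1) ∧
      ∀ x, UniquePM (F.graph x) ↔ (List.ofFn x).prod s t = 1 := by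
  obtain ⟨F, h1, h2⟩ := upper_ring_nz hL s t (one_ne_zero (α := ZMod 2))
    (fun A : Matrix (Fin w) (Fin w) (ZMod 2) => A)
  rw [Nat.card_zmod] at h1
  exact ⟨F, h1, h2⟩

end H54.UPM
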