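import Pool.Agent.H54.UPM.Upper

/-!
# Upper bounds: products over the field with two elements, and Boolean products
-/

namespace H54.UPM

open Function

/-- Prefix products. -/
def pre {N : Type} [Monoid N] {L : ℕ} (x : Fin L → N) (n : ℕ) : N := ((List.ofFn x).take n).prod

theorem pre_zero {N : Type} [Monoid N] {L : ℕ} (x : Fin L → N) : pre x 0 = 1 := by simp [pre]

theorem pre_succ {N : Type} [Monoid N] {L : ℕ} (x : Fin L → N) (i : Fin L) :
    pre x (i + 1) = pre x i * x i := by
  have h : (i : ℕ) < (List.ofFn x).length := by simp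
  rw [pre, pre, List.prod_take_succ _ _ h, List.getElem_ofFn]

theorem pre_full {N : Type} [Monoid N] {L : ℕ} (x : Fin L → N) :
    pre x L = (List.ofFn x).prod := by
  rw [pre, List.take_of_length_le (by simp)]

/-- **Upper bound for products over a finite commutative ring.** -/
theorem upper_ring {α R : Type} [CommRing R] [Finite R] {w L : ℕ} (hL : 0 < L) (s t : Fin w)
    (c : R) (φ : α → Matrix (Fin w) (Fin w) R) :
    ∃ F : Family α L, F.WidthLE (Nat.card R ^ w) ∧
      ∀ x, UniquePM (F.graph x) ↔ (List.ofFn fun i => φ (x i)).prod s t = c := by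
  classical
  let S := Fin w → R
  let Q : α → S → S → Prop := fun a v v' => v' = Matrix.vecMul v (φ a)
  refine ⟨pathFam hL Q (Pi.single s 1) (fun v => v t = c) False, ?_, ?_⟩
  · have := pathFam_width_false hL Q (Pi.single s 1 : S) (fun v => v t = c)
    have h2 : Nat.card S = Nat.card R ^ w := by
      rw [Nat.card_fun, Nat.card_eq_fintype_card (α := Fin w), Fintype.card_fin]
    rwa [h2] at this
  · intro x
    rw [unique_iff_path]
    let y : Fin L → Matrix (Fin w) (Fin w) R := fun i => φ (x i)
    let q0 : Fin L → S := fun i => Matrix.vecMul (Pi.single s 1) (pre y (i + 1))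
    have hdet : ∀ q, IsPath Q (Pi.single s 1 : S) (fun v => v t = c) x q → q = q0 := by
      intro q hq
      have : ∀ n (hn : n < L), q ⟨n, hn⟩ = q0 ⟨n, hn⟩ := by
        intro n
        induction n with
        | zero =>
          intro hn
          have h1 := hq.1 ⟨0, hn⟩ rfl
          have h2 := pre_succ y ⟨0, hn⟩
          simp only at h2
          rw [pre_zero, one_mul] at h2
          show q ⟨0, hn⟩ = Matrix.vecMul (Pi.single s 1) (pre y (0 + 1))
          rw [h2]
          exact h1
        | succ n ih =>
          intro hn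
          have h1 := hq.2.1 ⟨n, by omega⟩ ⟨n + 1, hn⟩ rfl
          have h2 := pre_succ y ⟨n + 1, hn⟩
          simp only at h2
          show q ⟨n + 1, hn⟩ = Matrix.vecMul (Pi.single s 1) (pre y (n + 1 + 1))
          rw [h2, ← Matrix.vecMul_vecMul]
          have h3 := ih (by omega)
          have h4 : q ⟨n + 1, hn⟩ = Matrix.vecMul (q ⟨n, by omega⟩) (y ⟨n + 1, hn⟩) := h1
          rw [h4, h3]
      funext i
      exact this i i.2
    have hlast : ∀ i : Fin L, (i : ℕ) + 1 = L → q0 i t = (List.ofFn y).prod s t := by
      intro i hi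
      show Matrix.vecMul (Pi.single s 1) (pre y (i + 1)) t = _
      rw [hi, pre_full]
      simp
    constructor
    · rintro ⟨q, hq, -⟩
      have h1 := hdet q hq
      have h2 := hq.2.2 ⟨L - 1, by omega⟩ (by simp only; omega)
      rw [h1] at h2
      show (List.ofFn y).prod s t = c
      rw [← hlast ⟨L - 1, by omega⟩ (by simp only; omega)]
      exact h2
    · intro h
      refine ⟨q0, ⟨?_, ?_, ?_⟩, hdet⟩
      · intro i hi
        have h2 := pre_succ y i
        rw [hi, pre_zero, one_mul] at h2
        show Matrix.vecMul (Pi.single s 1) (pre y (i + 1)) = Matrix.vecMul (Pi.single s 1) (y i)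
        rw [hi, h2]
      · intro i j hij
        have h2 := pre_succ y j
        show Matrix.vecMul (Pi.single s 1) (pre y (j + 1)) =
          Matrix.vecMul (Matrix.vecMul (Pi.single s 1) (pre y (i + 1))) (y j)
        rw [h2, Matrix.vecMul_vecMul, hij]
      · intro i hi
        show q0 i t = c
        rw [hlast i hi]
        exact h

/-- **Upper bound for products over the field with two elements.** -/
theorem upper_F2 {w L : ℕ} (hL : 0 < L) (s t : Fin w) (c : ZMod 2) :
    ∃ F : Family (Matrix (Fin w) (Fin w) (ZMod 2)) L, F.WidthLE (2 ^ w) ∧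
      ∀ x, UniquePM (F.graph x) ↔ (List.ofFn x).prod s t = c := by
  obtain ⟨F, h1, h2⟩ := upper_ring hL s t c (fun A : Matrix (Fin w) (Fin w) (ZMod 2) => A)
  rw [Nat.card_zmod] at h1
  exact ⟨F, h1, h2⟩

/-- **Upper bound for layered reachability.** -/
theorem upper_NL {w L : ℕ} (hL : 0 < L) (s t : Fin w) :
    ∃ F : Family (Fin w → Fin w → Prop) L, F.WidthLE (w + 1) ∧
      ∀ x : Fin L → Fin w → Fin w → Prop, UniquePM (F.graph x) ↔
        ¬ ∃ q : Fin (L + 1) → Fin w, q 0 = s ∧ q (Fin.last L) = t ∧
          ∀ i : Fin L, x i (q i.castSucc) (q i.succ) := by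
  classical
  refine ⟨pathFam hL (fun c => c) s (fun v => v = t) True, ?_, ?_⟩
  · have := pathFam_width_true hL (fun c : Fin w → Fin w → Prop => c) s (fun v => v = t) True
    rwa [Nat.card_eq_fintype_card, Fintype.card_fin] at this
  · intro x
    rw [unique_iff_no_path, not_iff_not]
    constructor
    · rintro ⟨q, h1, h2, h3⟩
      refine ⟨Fin.cons (α := fun _ => Fin w) s q, by simp, ?_, ?_⟩
      · have h4 : Fin.last L = (⟨L - 1, by omega⟩ : Fin L).succ := Fin.ext (by
          simp only [Fin.val_last, Fin.val_succ]; omega)
        rw [h4, Fin.cons_succ]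
        exact h3 _ (by simp only; omega)
      · intro i
        rw [Fin.cons_succ]
        by_cases hi : (i : ℕ) = 0
        · have h4 : i.castSucc = 0 := Fin.ext (by simpa using hi)
          rw [h4, Fin.cons_zero]
          exact h1 i hi
        · have h4 : i.castSucc = (⟨i - 1, by have := i.2; omega⟩ : Fin L).succ := Fin.ext (by
            simp only [Fin.val_castSucc, Fin.val_succ]; omega)
          rw [h4, Fin.cons_succ]
          exact h2 _ _ (by simp only; omega)
    · rintro ⟨q, h1, h2, h3⟩
      refine ⟨fun i => q i.succ, ?_, ?_, ?_⟩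
      · intro i hi
        have h4 : i.castSucc = 0 := Fin.ext (by simpa using hi)
        have := h3 i
        rw [h4, h1] at this
        exact this
      · intro i j hij
        have h4 : j.castSucc = i.succ := Fin.ext (by
            simp only [Fin.val_castSucc, Fin.val_succ]; omega)
        have := h3 j
        rw [h4] at this
        exact this
      · intro i hi
        have h4 : i.succ = Fin.last L := Fin.ext (by
            simp only [Fin.val_last, Fin.val_succ]; omega)
        show q i.succ = t
        rw [h4, h2]

end H54.UPM
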