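import Mathlib

/-!
# The number of zero patterns of a family of polynomials (Rónyai, Babai, Ganapathy)
-/

namespace H54.UPM

open MvPolynomial Function

/-- The set of the polynomials that do not vanish at `v`. -/
def pat {σ ι K : Type} [Field K] (P : ι → MvPolynomial σ K) (v : σ → K) : Set ι :=
  {i | eval v (P i) ≠ 0}

theorem card_bounded {σ : Type} [Fintype σ] (D : ℕ) :
    Nat.card {n : σ →₀ ℕ | ∀ i, n i ≤ D} ≤ (D + 1) ^ Fintype.card σ := by
  classical
  have h : Injective (fun (n : {n : σ →₀ ℕ | ∀ i, n i ≤ D}) (i : σ) =>
      (⟨n.1 i, Nat.lt_succ_of_le (n.2 i)⟩ : Fin (D + 1))) := by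
    intro n n' h
    apply Subtype.ext
    ext i
    have := congrFun h i
    simpa using this
  have h1 := Nat.card_le_card_of_injective _ h
  rw [Nat.card_eq_fintype_card (α := σ → Fin (D + 1))] at h1
  simpa using h1

/-- **The number of zero patterns.** -/
theorem zero_patterns {σ ι K : Type} [Field K] [Fintype σ] [Fintype ι]
    (P : ι → MvPolynomial σ K) (D : ℕ) (hD : ∀ s, ∑ i, (P i).degreeOf s ≤ D) :
    (Set.range (pat P)).ncard ≤ (D + 1) ^ Fintype.card σ := by
  classical
  have hfin : (Set.range (pat P)).Finite := Set.toFinite _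
  let I := Set.range (pat P)
  have hI : Fintype I := hfin.fintype
  choose v hv using fun S : I => S.2
  let g : I → MvPolynomial σ K := fun S => ∏ i ∈ Finset.univ.filter (fun i => i ∈ S.1), P i
  have hg : ∀ S S' : I, eval (v S') (g S) ≠ 0 ↔ S.1 ⊆ S'.1 := by
    intro S S'
    rw [map_prod, Finset.prod_ne_zero_iff]
    constructor
    · intro h i hi
      have := h i (by simpa using hi)
      have h2 : i ∈ pat P (v S') := this
      rwa [hv S'] at h2
    · intro h i hi
      have h1 : i ∈ S.1 := by simpa using hi
      have h2 := h h1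
      rw [← hv S'] at h2
      exact h2
  have hmem : ∀ S, g S ∈ restrictDegree σ K D := by
    intro S
    rw [mem_restrictDegree]
    intro s hs i
    have h1 : degreeOf i (g S) ≤ D := by
      refine (degreeOf_prod_le i _ _).trans ?_
      exact (Finset.sum_le_sum_of_subset (Finset.filter_subset _ _)).trans (hD i)
    exact (degreeOf_le_iff.1 h1) s hs
  let g' : I → restrictDegree σ K D := fun S => ⟨g S, hmem S⟩
  have hli : LinearIndependent K g' := by
    rw [Fintype.linearIndependent_iff]
    intro c hc
    by_contra hcon
    push Not at hcon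
    obtain ⟨S1, hS1⟩ := hcon
    obtain ⟨S, hS, hmin⟩ := Finset.exists_min_image (Finset.univ.filter (fun S : I => c S ≠ 0))
      (fun S => S.1.ncard) ⟨S1, by simpa using hS1⟩
    have hcS : c S ≠ 0 := by simpa using hS
    have h1 : ∑ S', c S' • g S' = 0 := by
      have := congrArg Subtype.val hc
      simpa [g'] using this
    have h2 := congrArg (MvPolynomial.eval (v S)) h1
    rw [map_sum, map_zero, Finset.sum_eq_single S] at h2
    · rw [smul_eval] at h2
      rcases mul_eq_zero.1 h2 with h3 | h3
      · exact hcS h3
      · exact (hg S S).2 subset_rfl h3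
    · intro S' _ hne
      rw [smul_eval]
      by_cases h3 : c S' = 0
      · rw [h3, zero_mul]
      · have h4 := hmin S' (by simpa using h3)
        have h5 : ¬ S'.1 ⊆ S.1 := by
          intro h5
          exact hne (Subtype.ext (Set.eq_of_subset_of_ncard_le h5 h4 (Set.toFinite _)))
        have h6 : eval (v S) (g S') = 0 := by
          by_contra h6
          exact h5 ((hg S' S).1 h6)
        rw [h6, mul_zero]
    · intro h; exact absurd (Finset.mem_univ S) h
  have h1 : Fintype.card I ≤ Module.finrank K (restrictDegree σ K D) :=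
    hli.fintype_card_le_finrank
  have h2 : Module.finrank K (restrictDegree σ K D) =
      Nat.card {n : σ →₀ ℕ | ∀ i, n i ≤ D} :=
    Module.finrank_eq_nat_card_basis (basisRestrictSupport K _)
  rw [← Nat.card_coe_set_eq, Nat.card_eq_fintype_card]
  exact h1.trans (h2.le.trans (card_bounded D))

end H54.UPM
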